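import Pool.Agent.Lib.MP_a6ff19_al.Mautner

set_option autoImplicit false
set_option linter.unusedSectionVars false

/-!
Bounded subsets of a group acting on a connected locally finite structure.
-/

namespace Pool.Agent.Lib.MP_a6ff19_al

open scoped Pointwise

variable {E X : Type*} [Group E] [MulAction E X]

/-- A set of group elements is bounded if it moves the base point to finitely many places. -/
def Bdd (x₀ : X) (B : Set E) : Prop := ((fun g : E => g • x₀) '' B).Finite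

namespace Bdd

variable {x₀ : X} {B B' : Set E}

lemma mono (h : Bdd x₀ B) (h' : B' ⊆ B) : Bdd x₀ B' := h.subset (Set.image_mono h')

lemma union (h : Bdd x₀ B) (h' : Bdd x₀ B') : Bdd x₀ (B ∪ B') := by
  rw [Bdd, Set.image_union]; exact Set.Finite.union h h'

lemma of_finite (x₀ : X) (h : B.Finite) : Bdd x₀ B := h.image _

lemma biUnion {ι : Type*} {I : Set ι} (hI : I.Finite) {C : ι → Set E} (h : ∀ i ∈ I, Bdd x₀ (C i)) :
    Bdd x₀ (⋃ i ∈ I, C i) := by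
  rw [Bdd, Set.image_iUnion₂]; exact hI.biUnion h

lemma stab (x₀ : X) : Bdd x₀ {u : E | u • x₀ = x₀} :=
  (Set.finite_singleton x₀).subset (by rintro _ ⟨u, hu, rfl⟩; exact hu)

lemma preimage {T : Set X} (hT : T.Finite) : Bdd x₀ {g : E | g • x₀ ∈ T} :=
  hT.subset (by rintro _ ⟨u, hu, rfl⟩; exact hu)

lemma orbit (n : Net E X) (h : Bdd x₀ B) (x : X) : Bdd x B := by
  have h1 : ∀ t ∈ (fun g : E => g • x₀) '' B, {z | ∃ g : E, g • x₀ = t ∧ g • x = z}.Finite := by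
    rintro _ ⟨k, _, rfl⟩
    refine ((n.finite_stab_orbit x₀ x).image fun z => k • z).subset ?_
    rintro _ ⟨g, hg, rfl⟩
    exact ⟨(k⁻¹ * g) • x, ⟨k⁻¹ * g, by rw [mul_smul, hg, inv_smul_smul], rfl⟩, by
      simp [mul_smul]⟩
  refine (Set.Finite.biUnion h h1).subset ?_
  rintro _ ⟨g, hg, rfl⟩
  simp only [Set.mem_iUnion]
  exact ⟨g • x₀, ⟨g, hg, rfl⟩, g, rfl, rfl⟩

lemma mul (n : Net E X) (h : Bdd x₀ B) (h' : Bdd x₀ B') : Bdd x₀ (B * B') := by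
  refine (Set.Finite.biUnion h' fun t _ => h.orbit n t).subset ?_
  rintro _ ⟨_, ⟨a, ha, b, hb, rfl⟩, rfl⟩
  simp only [Set.mem_iUnion]
  exact ⟨b • x₀, ⟨b, hb, rfl⟩, a, ha, (mul_smul _ _ _).symm⟩

lemma inv (n : Net E X) (h : Bdd x₀ B) : Bdd x₀ B⁻¹ := by
  have h1 : ∀ t ∈ (fun g : E => g • x₀) '' B, {z | ∃ g : E, g • x₀ = t ∧ g⁻¹ • x₀ = z}.Finite := by
    rintro _ ⟨k, _, rfl⟩
    refine (n.finite_stab_orbit x₀ (k⁻¹ • x₀)).subset ?_
    rintro _ ⟨g, hg, rfl⟩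
    exact ⟨g⁻¹ * k, by rw [mul_smul, inv_smul_eq_iff]; exact hg.symm, by simp [mul_smul]⟩
  refine (Set.Finite.biUnion h h1).subset ?_
  rintro _ ⟨g, hg, rfl⟩
  simp only [Set.mem_iUnion]
  exact ⟨g⁻¹ • x₀, ⟨g⁻¹, hg, rfl⟩, g⁻¹, rfl, by simp⟩

lemma cover_left (n : Net E X) (h : Bdd x₀ B) {V : Subgroup E} (hV : Opn X V) :
    ((fun g : E => (g : E ⧸ V)) '' B).Finite := by
  obtain ⟨F, hF⟩ := hV
  refine finite_image_of_factor (fun g (x : F) => g • (x : X)) _ ?_ ?_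
  · refine (Set.Finite.pi' fun x : F => h.orbit n x).subset ?_
    rintro _ ⟨g, hg, rfl⟩ x
    exact ⟨g, hg, rfl⟩
  · intro g _ g' _ hgg
    refine QuotientGroup.eq.2 (hF _ fun x hx => ?_)
    have := congrFun hgg ⟨x, hx⟩
    simp only at this
    rw [mul_smul, ← this, inv_smul_smul]

lemma cover (n : Net E X) (h : Bdd x₀ B) {V : Subgroup E} (hV : Opn X V) :
    ∃ T : Set E, T.Finite ∧ T ⊆ B ∧ ∀ g ∈ B, ∃ t ∈ T, t⁻¹ * g ∈ V := by
  obtain ⟨T, hT, hfin, h1⟩ := Set.Finite.exists_subset_finite_image_eq (h.cover_left n hV)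
    (subset_refl _)
  refine ⟨T, hfin, hT, fun g hg => ?_⟩
  have : (g : E ⧸ V) ∈ (fun g : E => (g : E ⧸ V)) '' T := h1 ▸ ⟨g, hg, rfl⟩
  obtain ⟨t, ht, h2⟩ := this
  exact ⟨t, ht, QuotientGroup.eq.1 h2⟩

lemma proper {Λ : Type*} [Group Λ] {ρ : Λ →* E} (hp : ∀ x y : X, {l | ρ l • x = y}.Finite)
    (h : Bdd x₀ B) : {l | ρ l ∈ B}.Finite := by
  refine (Set.Finite.biUnion h fun t _ => hp x₀ t).subset fun l hl => ?_
  simp only [Set.mem_iUnion]
  exact ⟨ρ l • x₀, ⟨ρ l, hl, rfl⟩, rfl⟩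

end Bdd

namespace Opn

variable {O O' : Subgroup E}

lemma mono (h : Opn X O) (h' : O ≤ O') : Opn X O' :=
  let ⟨F, hF⟩ := h; ⟨F, fun g hg => h' (hF g hg)⟩

lemma inf (h : Opn X O) (h' : Opn X O') : Opn X (O ⊓ O') := by
  classical
  obtain ⟨F, hF⟩ := h
  obtain ⟨F', hF'⟩ := h'
  exact ⟨F ∪ F', fun g hg => ⟨hF g fun x hx => hg x (by simp [hx]),
    hF' g fun x hx => hg x (by simp [hx])⟩⟩

lemma top : Opn X (⊤ : Subgroup E) := ⟨∅, fun _ _ => Subgroup.mem_top _⟩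

lemma stab (x : X) : Opn X (MulAction.stabilizer E x) :=
  ⟨{x}, fun _ hg => hg x (Finset.mem_singleton_self x)⟩

lemma fixing (F : Finset X) : Opn X (fixingSubgroup E (F : Set X)) :=
  ⟨F, fun _ hg => (mem_fixingSubgroup_iff E).2 hg⟩

lemma conj (h : Opn X O) (k : E) : Opn X (O.comap (MulAut.conj k).toMonoidHom) := by
  classical
  obtain ⟨F, hF⟩ := h
  refine ⟨F.image fun x => k⁻¹ • x, fun g hg => hF _ fun x hx => ?_⟩
  simp [mul_smul, hg _ (Finset.mem_image_of_mem _ hx)]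

lemma iInf {ι : Type*} {I : Set ι} (hI : I.Finite) {C : ι → Subgroup E}
    (h : ∀ i ∈ I, Opn X (C i)) : Opn X (⨅ i ∈ I, C i) := by
  induction I, hI using Set.Finite.induction_on with
  | empty => simpa using top
  | insert _ _ ih =>
    rw [iInf_insert]
    exact (h _ (Set.mem_insert _ _)).inf (ih fun i hi => h i (Set.mem_insert_of_mem _ hi))

end Opn

/-- Cocompactness in terms of bounded sets. -/
lemma exists_bdd_of_cocompact {Λ : Type*} [Group Λ] {ρ : Λ →* E} (x₀ : X)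
    (hc : ∃ T : Finset X, ∀ x : X, ∃ l, ρ l • x ∈ T) :
    ∃ B : Set E, Bdd x₀ B ∧ ∀ g : E, ∃ l, ρ l * g ∈ B := by
  obtain ⟨T, hT⟩ := hc
  refine ⟨_, Bdd.preimage T.finite_toSet, fun g => ?_⟩
  obtain ⟨l, hl⟩ := hT (g • x₀)
  exact ⟨l, by simpa [mul_smul] using hl⟩

end Pool.Agent.Lib.MP_a6ff19_al
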