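import Pool.Agent.Lib.MP_a6ff19_al.Fin

set_option autoImplicit false
set_option linter.unusedSectionVars false

/-!
The algebraic form of the product theorem.
-/

namespace Pool.Agent.Lib.MP_a6ff19_al

open scoped Pointwise
open MulAction Subgroup.Commensurable

universe v

theorem main_alg {P Q : Type*} [Group P] [Group Q] (hP : Group.FG P) (hQ : Group.FG Q)
    (gP : GDalg P) (gQ : GDalg Q)
    (hH : ∀ B : Subgroup Q, Group.FG B → commensurator B = ⊤ → Infinite B →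
      ∃ (K : Type v) (_ : NormedAddCommGroup K) (_ : InnerProductSpace ℝ K) (_ : CompleteSpace K)
        (α : AffAct B K), NF α) : GDalg (P × Q) := by
  intro G X _ _ n x₀ ρ hp hc₀
  have hc : Coc x₀ ρ ⊤ := by
    obtain ⟨C, hC, h⟩ := exists_bdd_of_cocompact x₀ hc₀
    exact ⟨C, hC, fun g _ => h g⟩
  let e : Q × P →* P × Q := (MulEquiv.prodComm : Q × P ≃* P × Q).toMonoidHom
  let ρ' : Q × P →* G := ρ.comp e
  have hp' := proper_comp hp e (MulEquiv.prodComm : Q × P ≃* P × Q).injective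
  have hc' : Coc x₀ ρ' ⊤ := by
    obtain ⟨C, hC, h⟩ := hc
    exact ⟨C, hC, fun g hg => let ⟨l, hl⟩ := h g hg; ⟨l.swap, hl⟩⟩
  have hcom : ∀ p q, ρ (p, 1) * ρ (1, q) = ρ (1, q) * ρ (p, 1) := fun p q => by
    rw [← map_mul, ← map_mul]; simp
  obtain ⟨S₁, E₁, -, h₁⟩ := exists_env n x₀ (ρ.comp (MonoidHom.inr P Q)) hQ Opn.top
    fun _ => Subgroup.mem_top _
  obtain ⟨S, E, -, h⟩ := exists_env n x₀ (ρ.comp (MonoidHom.inl P Q)) hP Opn.top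
    fun _ => Subgroup.mem_top _
  let A := E₁.comap (ρ.comp (MonoidHom.inl P Q))
  let A' := E.comap (ρ'.comp (MonoidHom.inl Q P))
  let ρ₁ : Q × A →* G := ρ.comp (swapSub A)
  let ρ₂ : P × A' →* G := ρ'.comp (swapSub A')
  have hp₁ := proper_comp hp _ (swapSub_injective (Q := Q) A)
  have hp₂ := proper_comp hp' _ (swapSub_injective (Q := P) A')
  have hc₁ : Coc x₀ ρ₁ E₁ := (hc.mono le_top).swapSub n h₁.opn h₁.mem
  have hc₂ : Coc x₀ ρ₂ E := (hc'.mono le_top).swapSub n h.opn h.mem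
  have hρ₁ : ∀ l, ρ₁ l ∈ E₁ := swapSub_mem h₁.mem
  have hρ₂ : ∀ l, ρ₂ l ∈ E := swapSub_mem (ρ := ρ') h.mem
  have hA : Finite A := by
    obtain ⟨hfg, -⟩ := good_G.{0, 0} (ρ := ρ₁) n x₀ hp₁ h₁ hρ₁ hc₁
    obtain ⟨S₂, E₂, hle, h₂⟩ := exists_env n x₀ (ρ₁.comp (MonoidHom.inr Q A)) hfg h₁.opn
      fun _ => hρ₁ _
    have hcm : ∀ q, ρ₁ (q, 1) ∈ commensurator E₂ := fun q =>
      h₂.comm n fun a => (hcom a q).symm
    refine fin_of_GD (ρ := ρ₁) n x₀ hp₁ h₁ hρ₁ hc₁ hle h₂.mem h₂.opn ?_ hcm gQ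
    by_contra hinf
    obtain ⟨hfg₂, -⟩ := good_G.{0, 0} (ρ := ρ₁.comp (swapSub _)) n x₀
      (proper_comp hp₁ _ (swapSub_injective _)) h₂ (swapSub_mem h₂.mem)
      ((hc₁.mono hle).swapSub n h₂.opn h₂.mem)
    obtain ⟨K, _, _, _, α, hα⟩ := hH _ hfg₂
      (eq_top_iff.2 fun q _ => mem_commensurator_comap _ (hcm q)) (Set.Infinite.to_subtype hinf)
    exact no_NF (ρ := ρ₁) n x₀ hp₁ h₁ hρ₁ hc₁ h₂ hle α hα
  have hcm₁ : ∀ p, ρ (p, 1) ∈ commensurator E₁ := fun p => h₁.comm n fun q => hcom p q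
  have hcm : ∀ q, ρ' (q, 1) ∈ commensurator E := fun q => h.comm n fun p => (hcom p q).symm
  have hA' : Finite A' := fin_of_GD (ρ := ρ₂) (J := E₁ ⊓ E) n x₀ hp₂ h hρ₂ hc₂ inf_le_right
    (fun a => ⟨h₁.mem _, a.2⟩) (h₁.opn.inf h.opn)
    ((Set.toFinite (A : Set P)).subset fun p hp => hp.1)
    (fun p => mem_commensurator_inf (hcm₁ p) (mem_commensurator_of_mem (h.mem p))) gP
  obtain ⟨L, -, hL1, hL2, hL3, hL4⟩ := gd_use (ρ := ρ') n x₀ hc' le_top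
    (fun _ => Subgroup.mem_top _) h.mem h.opn (Set.toFinite (A' : Set Q)) hcm hQ gQ
  obtain ⟨L₁, -, hK1, hK2, hK3, hK4⟩ := gd_use (ρ := ρ) n x₀ hc le_top
    (fun _ => Subgroup.mem_top _) h₁.mem h₁.opn (Set.toFinite (A : Set P)) hcm₁ hP gP
  have hEb : Bdd x₀ ((E ⊓ E₁ : Subgroup G) : Set G) := by
    obtain ⟨C, hC, h1⟩ := (hc.mono (le_top : E ⊓ E₁ ≤ ⊤)).sub n (h.opn.inf h₁.opn)
    refine ((Bdd.of_finite x₀ (((Set.toFinite (A : Set P)).prod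
      (Set.toFinite (A' : Set Q))).image ρ).inv).mul n hC).mono fun g hg => ?_
    obtain ⟨l, hl, h2⟩ := h1 g hg
    have h3 : ρ l = ρ (l.1, 1) * ρ (1, l.2) := by rw [← map_mul]; simp
    refine ⟨(ρ l)⁻¹, Set.inv_mem_inv.2 ⟨l, ⟨?_, ?_⟩, rfl⟩, _, h2, by simp⟩
    · have h4 := hl.2
      rw [h3] at h4
      exact (E₁.mul_mem_cancel_right (h₁.mem l.2)).1 h4
    · have h4 := hl.1
      rw [h3] at h4
      exact (E.mul_mem_cancel_left (h.mem l.1)).1 h4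
  have hMb : Bdd x₀ ((L ⊓ L₁ : Subgroup G) : Set G) :=
    Bdd.of_relIndex n (commensurable_inf hL2 hK2).2 hEb
  have hMn : ∀ l, ∀ g ∈ L ⊓ L₁, ρ l * g * (ρ l)⁻¹ ∈ L ⊓ L₁ := fun l g hg => by
    have h3 : ρ l * g * (ρ l)⁻¹ = ρ (l.1, 1) * (ρ (1, l.2) * g * (ρ (1, l.2))⁻¹) * (ρ (l.1, 1))⁻¹ := by
      have : ρ l = ρ (l.1, 1) * ρ (1, l.2) := by rw [← map_mul]; simp
      rw [this]
      group
    rw [h3]
    exact ⟨hL4 _ (h.mem _) _ (hL3 _ _ hg.1), hK3 _ _ (hK4 _ (h₁.mem _) _ hg.2)⟩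
  refine ⟨(L ⊓ L₁).normalCore, inferInstance, ?_, hMb.mono (L ⊓ L₁).normalCore_le⟩
  obtain ⟨C, hC, h1⟩ := hc
  obtain ⟨T, hT, -, h2⟩ := (hC.inv n).cover n (hL1.inf hK1)
  refine (Opn.iInf hT fun t _ => (hL1.inf hK1).conjAct t).mono fun g hg k => ?_
  obtain ⟨l, hl⟩ := h1 k (Subgroup.mem_top k)
  obtain ⟨t, ht, h3⟩ := h2 _ (Set.inv_mem_inv.2 hl)
  have h4 := (mem_conj_iff _ _ _).1 (Subgroup.mem_iInf.1 (Subgroup.mem_iInf.1 hg t) ht)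
  have h5 := hMn l⁻¹ _ (Subgroup.mul_mem _ (Subgroup.mul_mem _ (Subgroup.inv_mem _ h3) h4) h3)
  simpa [mul_assoc] using h5

end Pool.Agent.Lib.MP_a6ff19_al
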