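import Pool.Agent.Lib.MP_a6ff19_al.Defs
import Pool.Agent.Lib.MP_a6ff19_al.Main

set_option autoImplicit false
set_option linter.unusedSectionVars false

/-!
Equivalence of the topological and the algebraic form of graphical discreteness.
-/

namespace Pool.Agent.Lib.MP_a6ff19_al

open Filter Topology

variable {V : Type} (X : SimpleGraph V)

lemma finite_ball (hc : X.Connected) (hl : ∀ v, (X.neighborSet v).Finite) (v : V) (r : ℕ) :
    {w | X.dist w v ≤ r}.Finite := by
  induction r with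
  | zero => exact (Set.finite_singleton v).subset fun w hw =>
      hc.dist_eq_zero_iff.1 (Nat.le_zero.1 hw)
  | succ r ih =>
    refine (ih.union (ih.biUnion fun w _ => hl w)).subset fun w hw => ?_
    obtain ⟨p, hp⟩ := hc.exists_walk_length_eq_dist w v
    cases p with
    | nil => exact Or.inl (by simp)
    | cons h q =>
      refine Or.inr (Set.mem_biUnion (?_ : _ ∈ {w | X.dist w v ≤ r}) h.symm)
      have h1 := SimpleGraph.dist_le q
      simp only [SimpleGraph.Walk.length_cons, Set.mem_ofPred_eq] at hp hw ⊢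
      omega

lemma dist_aut (hc : X.Connected) (g : X ≃g X) (v w : V) : X.dist (g v) (g w) ≤ X.dist v w := by
  obtain ⟨p, hp⟩ := hc.exists_walk_length_eq_dist v w
  simpa [hp] using SimpleGraph.dist_le (p.map g.toHom)

/-- The neighbour structure of a connected locally finite graph. -/
noncomputable def graphNet (hc : X.Connected) (hl : ∀ v, (X.neighborSet v).Finite) :
    Net (X ≃g X) V where
  N v := (hl v).toFinset
  symm x y := by simpa using fun h => h.symm
  smul_mem g x y := by simpa using fun h => g.map_adj_iff.2 h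
  conn x y := by simpa using (SimpleGraph.reachable_iff_reflTransGen x y).1 (hc x y)

lemma geometric_iff (hc : X.Connected) (hl : ∀ v, (X.neighborSet v).Finite) {Γ : Type} [Group Γ]
    (φ : Γ →* (X ≃g X)) : IsGeometric X φ ↔ (∀ x y : V, {l | φ l • x = y}.Finite) ∧
      ∃ T : Finset V, ∀ x : V, ∃ l, φ l • x ∈ T := by
  constructor
  · rintro ⟨h1, v, r, h2⟩
    refine ⟨fun x y => (h1 x (X.dist y x)).subset fun l hl => ?_,
      (finite_ball X hc hl v r).toFinset, fun x => ?_⟩
    · exact le_of_eq (congrArg (fun z => X.dist z x) hl)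
    · obtain ⟨l, h3⟩ := h2 x
      refine ⟨l⁻¹, (Set.Finite.mem_toFinset _).2 (le_trans ?_ h3)⟩
      have h4 := dist_aut X hc (φ l⁻¹) x (φ l v)
      have h5 : φ l⁻¹ (φ l v) = v := by
        change φ l⁻¹ • φ l • v = v
        simp
      rw [h5, SimpleGraph.dist_comm (u := x)] at h4
      exact h4
  · rintro ⟨h1, T, h2⟩
    obtain ⟨v⟩ := hc.nonempty
    refine ⟨fun x r => ((finite_ball X hc hl x r).biUnion fun y _ => h1 x y).subset fun l hl =>
      Set.mem_biUnion hl rfl, v, T.sup fun t => X.dist v t, fun w => ?_⟩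
    obtain ⟨l, h3⟩ := h2 w
    refine ⟨l⁻¹, le_trans ?_ (Finset.le_sup (f := fun t => X.dist v t) h3)⟩
    have h4 := dist_aut X hc (φ l⁻¹) v (φ l • w)
    have h5 : φ l⁻¹ (φ l • w) = w := by
      change φ l⁻¹ • φ l • w = w
      simp
    rwa [h5] at h4

lemma mem_nhds_autTop (g : X ≃g X) (s : Set (X ≃g X)) :
    s ∈ @nhds _ (autTop X) g ↔ ∃ F : Finset V, ∀ k : X ≃g X, (∀ x ∈ F, k x = g x) → k ∈ s := by
  let _ : TopologicalSpace V := ⊥
  have : DiscreteTopology V := ⟨rfl⟩
  rw [nhds_induced, nhds_pi, mem_comap]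
  simp only [nhds_discrete, mem_pi']
  constructor
  · rintro ⟨t, ⟨F, u, h1, h2⟩, h3⟩
    exact ⟨F, fun k hk => h3 (h2 fun x hx => by
      change k x ∈ u x
      rw [hk x hx]; exact h1 x)⟩
  · rintro ⟨F, hF⟩
    exact ⟨_, ⟨F, fun x => {g x}, fun x => rfl, subset_rfl⟩, fun k hk => hF k hk⟩

lemma isOpen_iff_opn (K : Subgroup (X ≃g X)) :
    IsOpen[autTop X] (K : Set (X ≃g X)) ↔ Opn V K := by
  let _ := autTop X
  rw [isOpen_iff_mem_nhds]
  constructor
  · intro h
    exact (mem_nhds_autTop X 1 _).1 (h 1 K.one_mem)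
  · rintro ⟨F, hF⟩ g hg
    refine (mem_nhds_autTop X g _).2 ⟨F, fun k hk => ?_⟩
    have := hF (g⁻¹ * k) fun x hx => by
      rw [mul_smul, inv_smul_eq_iff]
      exact hk x hx
    simpa using K.mul_mem hg this

lemma discrete_iff_opn (K : Subgroup (X ≃g X)) :
    @DiscreteTopology _ (@QuotientGroup.instTopologicalSpace _ (autTop X) _ K) ↔ Opn V K := by
  classical
  let _ := autTop X
  have : SeparatelyContinuousMul (X ≃g X) :=
    { continuous_const_mul := fun {g} => continuous_iff_continuousAt.2 fun k s hs => by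
        obtain ⟨F, hF⟩ := (mem_nhds_autTop X _ _).1 hs
        exact (mem_nhds_autTop X _ _).2 ⟨F, fun k' hk' => hF _ fun x hx => congrArg g (hk' x hx)⟩
      continuous_mul_const := fun {g} => continuous_iff_continuousAt.2 fun k s hs => by
        obtain ⟨F, hF⟩ := (mem_nhds_autTop X _ _).1 hs
        exact (mem_nhds_autTop X _ _).2 ⟨F.image g, fun k' hk' => hF _ fun x hx =>
          hk' _ (Finset.mem_image_of_mem _ hx)⟩ }
  rw [QuotientGroup.discreteTopology_iff, isOpen_iff_opn]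

lemma bdd_of_isCompact {K : Set (X ≃g X)} (h : @IsCompact _ (autTop X) K) (v : V) : Bdd v K := by
  let _ := autTop X
  let _ : TopologicalSpace V := ⊥
  have : DiscreteTopology V := ⟨rfl⟩
  exact (h.image ((continuous_apply v).comp continuous_induced_dom)).finite_of_discrete

lemma isCompact_of_bdd (n : Net (X ≃g X) V) (v : V) {K : Subgroup (X ≃g X)} (h : Opn V K)
    (hb : Bdd v (K : Set (X ≃g X))) : @IsCompact _ (autTop X) K := by
  classical
  let _ := autTop X
  refine isCompact_iff_ultrafilter_le_nhds.2 fun 𝒰 h𝒰 => ?_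
  rw [le_principal_iff] at h𝒰
  have h1 : ∀ x, ∃ y, {k : X ≃g X | k • x = y} ∈ 𝒰 := fun x => by
    obtain ⟨y, -, hy⟩ := (Ultrafilter.finite_biUnion_mem_iff (f := 𝒰)
      (s := fun y => {k : X ≃g X | k • x = y}) (hb.orbit n x)).1
      (mem_of_superset h𝒰 fun k hk => Set.mem_biUnion ⟨k, hk, rfl⟩ rfl)
    exact ⟨y, hy⟩
  have h2 : ∀ x, ∃ y, {k : X ≃g X | k⁻¹ • x = y} ∈ 𝒰 := fun x => by
    obtain ⟨y, -, hy⟩ := (Ultrafilter.finite_biUnion_mem_iff (f := 𝒰)
      (s := fun y => {k : X ≃g X | k⁻¹ • x = y}) (hb.orbit n x)).1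
      (mem_of_superset h𝒰 fun k hk => Set.mem_biUnion ⟨k⁻¹, K.inv_mem hk, rfl⟩ rfl)
    exact ⟨y, hy⟩
  choose f hf using h1
  choose f' hf' using h2
  let g : X ≃g X :=
    { toFun := f
      invFun := f'
      left_inv := fun x => by
        obtain ⟨k, h3, h4⟩ := Ultrafilter.nonempty_of_mem (inter_mem (hf x) (hf' (f x)))
        rw [← h4, ← h3, inv_smul_smul]
      right_inv := fun x => by
        obtain ⟨k, h3, h4⟩ := Ultrafilter.nonempty_of_mem (inter_mem (hf' x) (hf (f' x)))
        rw [← h4, ← h3, smul_inv_smul]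
      map_rel_iff' := fun {x y} => by
        obtain ⟨k, h3, h4⟩ := Ultrafilter.nonempty_of_mem (inter_mem (hf x) (hf y))
        change X.Adj (f x) (f y) ↔ X.Adj x y
        rw [← h3, ← h4]
        exact k.map_adj_iff }
  have h3 : (𝒰 : Filter (X ≃g X)) ≤ 𝓝 g := fun s hs => by
    obtain ⟨F, hF⟩ := (mem_nhds_autTop X _ _).1 hs
    exact mem_of_superset ((biInter_finset_mem F).2 fun x _ => hf x) fun k hk =>
      hF k fun x hx => Set.mem_iInter₂.1 hk x hx
  refine ⟨g, ?_, h3⟩
  obtain ⟨F, hF⟩ := h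
  obtain ⟨k, h4, h5⟩ := Ultrafilter.nonempty_of_mem
    (inter_mem h𝒰 ((biInter_finset_mem F).2 fun x _ => hf x))
  have h6 := hF (k⁻¹ * g) fun x hx => by
    rw [mul_smul, inv_smul_eq_iff]
    exact (Set.mem_iInter₂.1 h5 x hx).symm
  simpa using K.mul_mem h4 h6

theorem gd_iff (Γ : Type) [Group Γ] : GraphicallyDiscrete Γ ↔ Group.FG Γ ∧ GDalg Γ := by
  refine and_congr_right fun _ => ⟨fun h E Y _ _ n y₀ σ hp hc => ?_, fun h V X hc hl φ hφ => ?_⟩
  · let X : SimpleGraph Y :=
      { Adj := fun x y => x ≠ y ∧ y ∈ n.N x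
        symm := ⟨fun x y h => ⟨h.1.symm, n.symm _ _ h.2⟩⟩
        loopless := ⟨fun x h => h.1 rfl⟩ }
    have hc' : X.Connected := by
      have : Nonempty Y := ⟨y₀⟩
      refine ⟨fun x y => ?_⟩
      induction n.conn x y with
      | refl => rfl
      | @tail b c _ h2 ih =>
        by_cases hbc : b = c
        · exact hbc ▸ ih
        · exact ih.trans (SimpleGraph.Adj.reachable ⟨hbc, h2⟩)
    have hl : ∀ v, (X.neighborSet v).Finite := fun v =>
      (n.N v).finite_toSet.subset fun w hw => hw.2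
    let ι : E →* (X ≃g X) := MonoidHom.mk' (fun g =>
      { toEquiv := MulAction.toPerm g
        map_rel_iff' := fun {x y} => and_congr (MulAction.injective g).ne_iff
          (n.smul_mem_iff g x y) }) fun a b => RelIso.ext fun x => mul_smul a b x
    obtain ⟨K, h1, h2, h3⟩ := h Y X hc' hl (ι.comp σ) ((geometric_iff X hc' hl _).2 ⟨hp, hc⟩)
    obtain ⟨F, hF⟩ := (discrete_iff_opn X K).1 h3
    refine ⟨K.comap ι, inferInstance, ⟨F, fun g hg => hF _ hg⟩,
      (bdd_of_isCompact X h2 y₀).subset ?_⟩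
    rintro _ ⟨g, hg, rfl⟩
    exact ⟨_, hg, rfl⟩
  · obtain ⟨h1, h2⟩ := (geometric_iff X hc hl φ).1 hφ
    obtain ⟨v⟩ := hc.nonempty
    obtain ⟨L, h3, h4, h5⟩ := h _ V (graphNet X hc hl) v φ h1 h2
    exact ⟨L, h3, isCompact_of_bdd X (graphNet X hc hl) v h4 h5, (discrete_iff_opn X L).2 h4⟩

lemma NF_of_not_FH {A : Type} [Group A] (h : ¬PropertyFH A) :
    ∃ (K : Type) (_ : NormedAddCommGroup K) (_ : InnerProductSpace ℝ K) (_ : CompleteSpace K)
      (α : AffAct A K), NF α := by
  unfold PropertyFH at h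
  push Not at h
  obtain ⟨K, _, _, _, α, h⟩ := h
  have h1 : ∀ a v, α a v = (α a).toRealLinearIsometryEquiv v + α a 0 := fun a v => by simp
  refine ⟨K, inferInstance, inferInstance, inferInstance,
    { π := MonoidHom.mk' (fun a => (α a).toRealLinearIsometryEquiv) fun a b => ?_
      c := fun a => α a 0
      c_mul := fun a b => ?_ }, fun S C => ⟨0, fun v hv => ?_⟩⟩
  · ext v
    rw [LinearIsometryEquiv.coe_mul, Function.comp_apply,
      IsometryEquiv.toRealLinearIsometryEquiv_apply (α b), map_sub]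
    simp
  · simp
  · obtain ⟨a, ha⟩ := h v
    exact absurd ((h1 a v).trans (hv a)) ha

theorem product_gd (Γ Γ' : Type) [Group Γ] [Group Γ'] (h : GraphicallyDiscrete Γ)
    (h' : GraphicallyDiscrete Γ')
    (hH : ∀ B : Subgroup Γ', B.FG → Subgroup.Commensurable.commensurator B = ⊤ → PropertyFH B →
      Finite B) : GraphicallyDiscrete (Γ × Γ') := by
  obtain ⟨h1, h2⟩ := (gd_iff Γ).1 h
  obtain ⟨h3, h4⟩ := (gd_iff Γ').1 h'
  refine (gd_iff _).2 ⟨inferInstance, main_alg h1 h3 h2 h4 fun B h5 h6 h7 =>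
    NF_of_not_FH fun h8 => ?_⟩
  exact (hH B ((Group.fg_iff_subgroup_fg B).1 h5) h6 h8).false

end Pool.Agent.Lib.MP_a6ff19_al
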