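import Pool.Agent.Lib.MP_a6ff19_al.Bdd

set_option autoImplicit false
set_option linter.unusedSectionVars false

/-!
The invariant mean on locally constant functions on the quotient by a cocompact lattice.
-/

namespace Pool.Agent.Lib.MP_a6ff19_al

open Finset
open scoped Pointwise

variable {E X : Type*} [Group E] [MulAction E X] {Λ : Type*} [Group Λ] {ρ : Λ →* E}

lemma Weight.fin_trans {Y : Type*} [MulAction E Y] (W : Weight ρ Y) {z : Y} (hz : W.w z ≠ 0)
    (y : Y) : {l | ρ l • z = y}.Finite := by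
  refine ((W.fin y).image fun l => l⁻¹).subset fun l hl => ⟨l⁻¹, ?_, inv_inv l⟩
  have : ρ l⁻¹ • y = z := by rw [map_inv, inv_smul_eq_iff]; exact hl.symm
  simpa [Function.mem_support, ← map_inv, this] using hz

lemma Weight.unfold {Y : Type*} [MulAction E Y] (W : Weight ρ Y) (ψ : Y → ℝ)
    (hψ : (Function.support ψ).Finite) :
    ∑ᶠ y, ψ y = ∑ z ∈ W.S, ∑ᶠ l, W.w z * ψ (ρ l • z) := by
  classical
  have h1 : ∀ y, ψ y = ∑ᶠ l, ∑ z ∈ W.S, if ρ l • z = y then W.w z * ψ y else 0 := fun y => by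
    conv_lhs => rw [← one_mul (ψ y), ← W.sum_one y, finsum_mul' _ _ (W.fin y),
      ← finsum_comp_equiv (Equiv.inv Λ)]
    refine finsum_congr fun l => ?_
    simp only [Equiv.inv_apply, map_inv, ← eq_inv_smul_iff, Finset.sum_ite_eq']
    split_ifs with h
    · rfl
    · have : W.w ((ρ l)⁻¹ • y) = 0 := by_contra fun h2 => h (W.mem _ h2)
      rw [this, zero_mul]
  have h2 : ∀ y, ∀ z ∈ W.S, (Function.support fun l =>
      if ρ l • z = y then W.w z * ψ y else 0).Finite := fun y z _ => by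
    by_cases hz : W.w z = 0
    · simp [hz]
    · refine (W.fin_trans hz y).subset fun l hl => ?_
      by_contra h
      exact hl (if_neg h)
  rw [finsum_eq_sum _ hψ, Finset.sum_congr rfl fun y _ => (h1 y).trans
    (sum_finsum_comm _ _ (h2 y)).symm, Finset.sum_comm]
  refine Finset.sum_congr rfl fun z hz => ?_
  rw [sum_finsum_comm _ _ fun y _ => h2 y z hz]
  refine finsum_congr fun l => ?_
  rw [Finset.sum_ite_eq]
  split_ifs with h
  · rfl
  · have : ψ (ρ l • z) = 0 := by simpa using h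
    rw [this, mul_zero]

lemma Weight.transport₂ {Y Y' : Type*} [MulAction E Y] [MulAction E Y'] (W : Weight ρ Y)
    (W' : Weight ρ Y') (m : Y → Y' → ℝ) (hm : ∀ l y z, m (ρ l • y) (ρ l • z) = m y z)
    (h1 : ∀ y, (Function.support (m y)).Finite)
    (h2 : ∀ z, (Function.support fun y => m y z).Finite) :
    ∑ y ∈ W.S, W.w y * ∑ᶠ z, m y z = ∑ z ∈ W'.S, W'.w z * ∑ᶠ y, m y z := by
  have h3 : ∀ (a : ℝ) (f : Λ → ℝ), a * ∑ᶠ l, f l = ∑ᶠ l, a * f l := fun a f => by
    by_cases ha : a = 0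
    · simp [ha]
    · exact (Units.mk0 a ha).mulLeftLinearEquiv ℝ ℝ |>.toAddEquiv.map_finsum f
  simp only [fun y => W'.unfold (m y) (h1 y), fun z => W.unfold (fun y => m y z) (h2 z),
    Finset.mul_sum, h3]
  rw [Finset.sum_comm]
  refine Finset.sum_congr rfl fun z _ => Finset.sum_congr rfl fun y _ => ?_
  rw [← finsum_comp_equiv (Equiv.inv Λ)]
  refine finsum_congr fun l => ?_
  have := hm l y (ρ l⁻¹ • z)
  simp only [map_inv, smul_inv_smul, Equiv.inv_apply] at this ⊢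
  rw [this]
  ring

/-- The normalised weighted average. -/
noncomputable def Weight.avg {Y : Type*} [MulAction E Y] (W : Weight ρ Y) (ψ : Y → ℝ) : ℝ :=
  (∑ y ∈ W.S, W.w y)⁻¹ * ∑ y ∈ W.S, W.w y * ψ y

lemma Weight.total_pos {Y : Type*} [MulAction E Y] (W : Weight ρ Y) (y : Y) :
    0 < ∑ y ∈ W.S, W.w y := by
  obtain ⟨l, hl⟩ := W.exists_pos y
  exact hl.trans_le (Finset.single_le_sum (fun y _ => W.nonneg y) (W.mem _ hl.ne'))

lemma Weight.avg_comp {Y Y' : Type*} [MulAction E Y] [MulAction E Y'] (W : Weight ρ Y)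
    (W' : Weight ρ Y') (π : Y' → Y) (hπ : ∀ (g : E) z, π (g • z) = g • π z)
    (htr : ∀ y y' : Y, ∃ g : E, g • y = y') (hfin : ∀ y, (π ⁻¹' {y}).Finite) (z₀ : Y')
    (ψ : Y → ℝ) (hψ : ∀ l y, ψ (ρ l • y) = ψ y) : W'.avg (fun z => ψ (π z)) = W.avg ψ := by
  classical
  have hd : ∀ y, (π ⁻¹' {y}).ncard = (π ⁻¹' {π z₀}).ncard := fun y => by
    obtain ⟨g, rfl⟩ := htr (π z₀) y
    symm
    refine Set.ncard_congr (fun z _ => g • z) ?_ ?_ ?_
    · intro z hz
      simp only [Set.mem_preimage, Set.mem_singleton_iff] at hz ⊢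
      rw [hπ, hz]
    · intro a b _ _ h; exact MulAction.injective g h
    · intro z hz
      simp only [Set.mem_preimage, Set.mem_singleton_iff] at hz ⊢
      exact ⟨g⁻¹ • z, by rw [hπ, hz, inv_smul_smul], by simp⟩
  set d : ℝ := ((π ⁻¹' {π z₀}).ncard : ℝ) with hdd
  have hd0 : 0 < d := by
    rw [hdd]
    exact_mod_cast (Set.ncard_pos (hfin _)).2 ⟨z₀, rfl⟩
  have key : ∀ ψ : Y → ℝ, (∀ l y, ψ (ρ l • y) = ψ y) →
      ∑ z ∈ W'.S, W'.w z * ψ (π z) = d * ∑ y ∈ W.S, W.w y * ψ y := fun ψ hψ => by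
    have h1 : ∀ y, (Function.support fun z => if π z = y then ψ y else 0) ⊆ (hfin y).toFinset :=
      fun y z hz => by
      by_contra h
      exact hz (if_neg (by simpa using h))
    have h2 := W.transport₂ W' (fun y z => if π z = y then ψ y else 0)
      (fun l y z => by simp only [hπ, hψ, smul_left_cancel_iff])
      (fun y => (Finset.finite_toSet _).subset (h1 y))
      (fun z => (Set.finite_singleton (π z)).subset fun y hy => by
        by_contra h
        exact hy (if_neg fun h2 => h h2.symm))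
    have h3 : ∀ y, ∑ᶠ z, (if π z = y then ψ y else 0) = d * ψ y := fun y => by
      rw [finsum_eq_sum_of_support_subset _ (h1 y), Finset.sum_congr rfl (g := fun _ => ψ y)
        fun z hz => if_pos (by simpa using hz), Finset.sum_const, nsmul_eq_mul,
        ← Set.ncard_eq_toFinset_card _ (hfin y), hd]
    have h4 : ∀ z, ∑ᶠ y, (if π z = y then ψ y else 0) = ψ (π z) := fun z => by
      rw [finsum_eq_single _ (π z) fun y hy => if_neg (Ne.symm hy), if_pos rfl]
    simp only [h3, h4] at h2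
    rw [← h2, Finset.mul_sum]
    exact Finset.sum_congr rfl fun y _ => by ring
  have h5 := key (fun _ => 1) fun _ _ => rfl
  simp only [mul_one] at h5
  rw [Weight.avg, Weight.avg, key ψ hψ, h5]
  have := W.total_pos (π z₀)
  field_simp

/-- Functions invariant on the left under the lattice and on the right under an open subgroup. -/
def Adm (ρ : Λ →* E) (X : Type*) [MulAction E X] (φ : E → ℝ) : Prop :=
  (∀ l g, φ (ρ l * g) = φ g) ∧ ∃ F : Finset X, ∀ g v : E, (∀ x ∈ F, v • x = x) → φ (g * v) = φ g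

lemma Adm.add {φ ψ : E → ℝ} (h : Adm ρ X φ) (h' : Adm ρ X ψ) : Adm ρ X (φ + ψ) := by
  classical
  obtain ⟨h1, F, hF⟩ := h
  obtain ⟨h2, F', hF'⟩ := h'
  exact ⟨fun l g => by simp [h1, h2], F ∪ F', fun g v hv => by
    simp [hF g v fun x hx => hv x (by simp [hx]), hF' g v fun x hx => hv x (by simp [hx])]⟩

lemma Adm.smul {φ : E → ℝ} (h : Adm ρ X φ) (t : ℝ) : Adm ρ X (t • φ) := by
  obtain ⟨h1, F, hF⟩ := h
  exact ⟨fun l g => by simp [h1], F, fun g v hv => by simp [hF g v hv]⟩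

lemma Adm.const (c : ℝ) : Adm ρ X (fun _ => c) := ⟨fun _ _ => rfl, ∅, fun _ _ _ => rfl⟩

lemma weight_quot (n : Net E X) (x₀ : X) (hp : ∀ x y : X, {l | ρ l • x = y}.Finite)
    (hc : ∃ B : Set E, Bdd x₀ B ∧ ∀ g : E, ∃ l, ρ l * g ∈ B) {V : Subgroup E} (hV : Opn X V)
    (hV' : Bdd x₀ (V : Set E)) : Nonempty (Weight ρ (E ⧸ V)) := by
  refine exists_weight (fun y y' => ?_) ?_
  · obtain ⟨a, rfl⟩ := QuotientGroup.mk_surjective y
    obtain ⟨b, rfl⟩ := QuotientGroup.mk_surjective y'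
    refine (Bdd.proper hp (((Bdd.of_finite x₀ (Set.finite_singleton b)).mul n hV').mul n
      (Bdd.of_finite x₀ (Set.finite_singleton a⁻¹)))).subset fun l hl => ?_
    have h1 : b⁻¹ * (ρ l * a) ∈ V := QuotientGroup.eq.1 (Eq.symm hl)
    exact ⟨_, ⟨b, rfl, _, h1, rfl⟩, a⁻¹, rfl, by simp⟩
  · obtain ⟨B, hB, h⟩ := hc
    refine ⟨(hB.cover_left n hV).toFinset, fun y => ?_⟩
    obtain ⟨a, rfl⟩ := QuotientGroup.mk_surjective y
    obtain ⟨l, hl⟩ := h a
    exact ⟨l, (Set.Finite.mem_toFinset _).2 ⟨_, hl, rfl⟩⟩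

theorem exists_mean (n : Net E X) (x₀ : X) (hp : ∀ x y : X, {l | ρ l • x = y}.Finite)
    (hc : ∃ B : Set E, Bdd x₀ B ∧ ∀ g : E, ∃ l, ρ l * g ∈ B) :
    ∃ I : (E → ℝ) →ₗ[ℝ] ℝ, (∀ c, I (fun _ => c) = c) ∧
      (∀ φ, Adm ρ X φ → (∀ g, 0 ≤ φ g) → 0 ≤ I φ) ∧
      (∀ φ, Adm ρ X φ → (∀ g, 0 ≤ φ g) → I φ = 0 → ∀ g, φ g = 0) ∧
      ∀ φ h, Adm ρ X φ → I (fun g => φ (g * h)) = I φ := by
  classical
  let V : Finset X → Subgroup E := fun F => fixingSubgroup E ((insert x₀ F : Finset X) : Set X)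
  have hV : ∀ F g, g ∈ V F ↔ ∀ x ∈ insert x₀ F, g • x = x := fun F g => mem_fixingSubgroup_iff E
  have hVb : ∀ F, Bdd x₀ (V F : Set E) := fun F =>
    (Bdd.stab x₀).mono fun g hg => (hV F g).1 hg x₀ (Finset.mem_insert_self _ _)
  let W : ∀ F, Weight ρ (E ⧸ V F) := fun F =>
    (weight_quot n x₀ hp hc (Opn.fixing _) (hVb F)).some
  let m : Finset X → (E → ℝ) → ℝ := fun F φ => (W F).avg fun y => φ y.out
  have hout : ∀ F (φ : E → ℝ), (∀ g, ∀ v ∈ V F, φ (g * v) = φ g) → ∀ g : E,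
      φ (g : E ⧸ V F).out = φ g := fun F φ h g => by
    obtain ⟨v, hv⟩ := QuotientGroup.mk_out_eq_mul (V F) g
    rw [hv, h g v v.2]
  have hinv : ∀ F (φ : E → ℝ), (∀ l g, φ (ρ l * g) = φ g) → (∀ g, ∀ v ∈ V F, φ (g * v) = φ g) →
      ∀ l (y : E ⧸ V F), φ (ρ l • y).out = φ y.out := fun F φ h1 h2 l y => by
    obtain ⟨a, rfl⟩ := QuotientGroup.mk_surjective y
    rw [MulAction.Quotient.smul_mk, hout F φ h2, hout F φ h2, smul_eq_mul, h1]
  have hA : ∀ F F' (h : E) (φ : E → ℝ), (∀ l g, φ (ρ l * g) = φ g) →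
      (∀ g, ∀ v ∈ V F, φ (g * v) = φ g) → (∀ v ∈ V F', h⁻¹ * v * h ∈ V F) →
      m F' (fun g => φ (g * h)) = m F φ := by
    intro F F' h φ h1 h2 h3
    let π : E ⧸ V F' → E ⧸ V F := fun y => Quotient.liftOn' y (fun g => ((g * h : E) : E ⧸ V F))
      fun a b hab => QuotientGroup.eq.2 (by
        have := h3 _ (QuotientGroup.leftRel_apply.1 hab)
        simpa [mul_assoc] using this)
    have hπ : ∀ g : E, π (g : E ⧸ V F') = ((g * h : E) : E ⧸ V F) := fun g => rfl
    refine Eq.trans ?_ ((W F).avg_comp (W F') π (fun g z => ?_) (fun y y' => ?_) (fun y => ?_)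
      ((1 : E) : E ⧸ V F') _ (hinv F φ h1 h2))
    · simp only [m]
      congr 1
      funext z
      conv_rhs => rw [← QuotientGroup.out_eq' z, hπ, hout F φ h2]
    · obtain ⟨a, rfl⟩ := QuotientGroup.mk_surjective z
      simp only [MulAction.Quotient.smul_mk, hπ, smul_eq_mul, mul_assoc]
    · exact MulAction.exists_smul_eq E y y'
    · obtain ⟨k, rfl⟩ := QuotientGroup.mk_surjective y
      refine ((((Bdd.of_finite x₀ (Set.finite_singleton k)).mul n (hVb F)).mul n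
        (Bdd.of_finite x₀ (Set.finite_singleton h⁻¹))).cover_left n (Opn.fixing _)).subset ?_
      intro z hz
      obtain ⟨a, rfl⟩ := QuotientGroup.mk_surjective z
      have h4 : k⁻¹ * (a * h) ∈ V F := QuotientGroup.eq.1 (Eq.symm hz)
      exact ⟨a, ⟨_, ⟨k, rfl, _, h4, rfl⟩, h⁻¹, rfl, by simp⟩, rfl⟩
  have hB : ∀ F F' (φ : E → ℝ), (∀ l g, φ (ρ l * g) = φ g) →
      (∀ g, ∀ v ∈ V F, φ (g * v) = φ g) → (∀ g, ∀ v ∈ V F', φ (g * v) = φ g) →
      m F φ = m F' φ := fun F F' φ h1 h2 h3 => by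
    have h4 := hA F (F ∪ F') 1 φ h1 h2 fun v hv => by
      rw [inv_one, one_mul, mul_one, hV]
      exact fun x hx => (hV _ _).1 hv x (by simp only [mem_insert, mem_union] at hx ⊢; tauto)
    have h5 := hA F' (F ∪ F') 1 φ h1 h3 fun v hv => by
      rw [inv_one, one_mul, mul_one, hV]
      exact fun x hx => (hV _ _).1 hv x (by simp only [mem_insert, mem_union] at hx ⊢; tauto)
    rw [← h4, h5]
  have hC : ∀ φ, Adm ρ X φ → ∃ F, ∀ F', F ⊆ F' → ∀ g, ∀ v ∈ V F', φ (g * v) = φ g :=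
    fun φ ⟨_, F, hF⟩ => ⟨F, fun F' h g v hv => hF g v fun x hx =>
      (hV _ _).1 hv x (Finset.mem_insert_of_mem (h hx))⟩
  choose! c hc' using hC
  let A : Submodule ℝ (E → ℝ) :=
    { carrier := {φ | Adm ρ X φ}
      add_mem' := Adm.add
      zero_mem' := Adm.const (ρ := ρ) (X := X) 0
      smul_mem' := fun t _ h => h.smul t }
  let I₀ : A →ₗ[ℝ] ℝ :=
    { toFun := fun φ => m (c φ) φ
      map_add' := fun φ ψ => by
        have h0 : Adm ρ X (φ + ψ : A) := (φ + ψ).2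
        rw [hB (c (φ + ψ : A)) (c φ ∪ c ψ) _ h0.1 (hc' _ h0 _ subset_rfl) (fun g v hv => by
            simp only [Submodule.coe_add, Pi.add_apply]
            rw [hc' _ φ.2 _ Finset.subset_union_left g v hv,
              hc' _ ψ.2 _ Finset.subset_union_right g v hv]),
          hB (c φ) (c φ ∪ c ψ) _ φ.2.1 (hc' _ φ.2 _ subset_rfl)
            (hc' _ φ.2 _ Finset.subset_union_left),
          hB (c ψ) (c φ ∪ c ψ) _ ψ.2.1 (hc' _ ψ.2 _ subset_rfl)
            (hc' _ ψ.2 _ Finset.subset_union_right)]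
        simp only [m, Weight.avg, Submodule.coe_add, Pi.add_apply, mul_add, Finset.sum_add_distrib]
      map_smul' := fun t φ => by
        have h0 : Adm ρ X (t • φ : A) := (t • φ).2
        rw [hB (c (t • φ : A)) (c φ) _ h0.1 (hc' _ h0 _ subset_rfl) (fun g v hv => by
            simp only [Submodule.coe_smul, Pi.smul_apply]
            rw [hc' _ φ.2 _ subset_rfl g v hv])]
        simp only [m, Weight.avg, Submodule.coe_smul, Pi.smul_apply, smul_eq_mul, RingHom.id_apply,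
          Finset.mul_sum]
        exact Finset.sum_congr rfl fun y _ => by ring }
  obtain ⟨I, hI⟩ := LinearMap.exists_extend I₀
  have hI' : ∀ φ, Adm ρ X φ → I φ = m (c φ) φ := fun φ h => LinearMap.congr_fun hI ⟨φ, h⟩
  refine ⟨I, fun t => ?_, fun φ h h0 => ?_, fun φ h h0 h1 g => ?_, fun φ h hφ => ?_⟩
  · rw [hI' _ (Adm.const t)]
    simp only [m, Weight.avg, ← Finset.sum_mul]
    have := (W (c fun _ => t)).total_pos ((1 : E) : E ⧸ V _)
    field_simp
  · rw [hI' _ h]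
    exact mul_nonneg (inv_nonneg.2 ((W _).total_pos ((1 : E) : E ⧸ V _)).le)
      (Finset.sum_nonneg fun y _ => mul_nonneg ((W _).nonneg y) (h0 _))
  · rw [hI' _ h] at h1
    have h2 := (mul_eq_zero.1 h1).resolve_left
      (inv_ne_zero ((W _).total_pos ((1 : E) : E ⧸ V _)).ne')
    obtain ⟨C, -, hC⟩ := (W (c φ)).exists_bound (g : E ⧸ V _)
    have h3 := hC (fun y => φ y.out) (fun _ => h0 _) (hinv _ φ h.1 (hc' _ h _ subset_rfl))
    rw [h2, mul_zero, hout _ φ (hc' _ h _ subset_rfl)] at h3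
    exact le_antisymm h3 (h0 g)
  · have h3 : ∀ v ∈ V ((insert x₀ (c φ)).image fun x => h • x), h⁻¹ * v * h ∈ V (c φ) :=
      fun v hv => (hV _ _).2 fun x hx => by
        rw [mul_smul, mul_smul, (hV _ _).1 hv _
          (Finset.mem_insert_of_mem (Finset.mem_image_of_mem _ hx)), inv_smul_smul]
    have h4 : ∀ g, ∀ v ∈ V ((insert x₀ (c φ)).image fun x => h • x),
        φ (g * v * h) = φ (g * h) := fun g v hv => by
      rw [← hc' _ hφ _ subset_rfl (g * h) _ (h3 v hv)]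
      congr 1
      group
    have h5 : Adm ρ X fun g => φ (g * h) := ⟨fun l g => by simp only [mul_assoc, hφ.1],
      insert x₀ ((insert x₀ (c φ)).image fun x => h • x), fun g v hv => h4 g v ((hV _ _).2 hv)⟩
    rw [hI' _ h5, hI' _ hφ, ← hA (c φ) _ h φ hφ.1 (hc' _ hφ _ subset_rfl) h3]
    exact hB _ _ (fun g => φ (g * h)) h5.1 (hc' _ h5 _ subset_rfl) h4

end Pool.Agent.Lib.MP_a6ff19_al
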