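import Pool.Agent.Lib.MP_a6ff19_al.Rigid
import Pool.Agent.Lib.MP_a6ff19_al.Mean

set_option autoImplicit false
set_option linter.unusedSectionVars false

/-!
Averaging harmonic maps over the envelope; real harmonic functions with prescribed periods.
-/

namespace Pool.Agent.Lib.MP_a6ff19_al

open Finset Filter Topology
open scoped RealInnerProductSpace

universe u

variable {E : Type*} {X : Type u} [Group E] [MulAction E X] {P Q : Type*} [Group P] [Group Q]

lemma Adm.sum {Λ : Type*} [Group Λ] {ρ : Λ →* E} {ι : Type*} (s : Finset ι) {φ : ι → E → ℝ}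
    (h : ∀ i ∈ s, Adm ρ X (φ i)) : Adm ρ X (∑ i ∈ s, φ i) :=
  Finset.sum_induction _ _ (fun _ _ => Adm.add) (Adm.const 0) h

theorem averaged {H : Type*} [NormedAddCommGroup H] [InnerProductSpace ℝ H]
    (hP : Group.FG P) (hQ : Group.FG Q) {ρ : P × Q →* E} (n : Net E X) (x₀ : X)
    (hp : ∀ x y : X, {l | ρ l • x = y}.Finite) (hc : ∃ T : Finset X, ∀ x : X, ∃ l, ρ l • x ∈ T)
    (henv : EnvP n x₀ (ρ.comp (MonoidHom.inl P Q))) {f : X → H} (hh : ∀ x, n.lap f x = 0)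
    (hG : ∀ l x y x' y', ⟪f (ρ l • x) - f (ρ l • y), f (ρ l • x') - f (ρ l • y')⟫ =
      ⟪f x - f y, f x' - f y'⟫)
    {S : Finset Q} (hS : Subgroup.closure (S : Set Q) = ⊤) :
    ∀ h ∈ bigO ρ x₀ S, ∀ q x, f (h • ρ (1, q) • x) - f (h • x) = f (ρ (1, q) • x₀) - f x₀ := by
  classical
  obtain ⟨W⟩ := exists_weight hp hc
  obtain ⟨I, -, hI0, hI1, hI2⟩ := exists_mean n x₀ hp (exists_bdd_of_cocompact x₀ hc)
  let φ : X × X → X × X → E → ℝ := fun z z' g =>
    ⟪f (g • z.1) - f (g • z.2), f (g • z'.1) - f (g • z'.2)⟫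
  have hφ : ∀ z z', Adm ρ X (φ z z') := fun z z' =>
    ⟨fun l g => by simp only [φ, mul_smul, hG], {z.1, z.2, z'.1, z'.2}, fun g v hv => by
      simp only [φ, mul_smul]
      rw [hv z.1 (by simp), hv z.2 (by simp), hv z'.1 (by simp), hv z'.2 (by simp)]⟩
  let k : Ker (X × X) :=
    { κ := fun z z' => I (φ z z')
      symm := fun z z' => by
        congr 1
        funext g
        exact real_inner_comm _ _
      psd := fun s a => by
        have h1 : ∑ z ∈ s, ∑ z' ∈ s, a z * a z' * I (φ z z') =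
            I (∑ z ∈ s, ∑ z' ∈ s, (a z * a z') • φ z z') := by
          simp only [map_sum, map_smul, smul_eq_mul]
        rw [h1]
        refine hI0 _ (Adm.sum _ fun z _ => Adm.sum _ fun z' _ => (hφ z z').smul _) fun g => ?_
        simp only [Finset.sum_apply, Pi.smul_apply, smul_eq_mul]
        exact (gram fun z : X × X => f (g • z.1) - f (g • z.2)).psd s a }
  obtain ⟨H', _, _, _, π, F, h1, h2, h3, h4⟩ := realize (E' := E) n x₀ k
    (fun g z z' => by
      rw [← show I (fun g' => φ z z' (g' * g)) = k.κ z z' from hI2 _ g (hφ z z')]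
      simp only [k, φ, mul_smul]
      rfl)
    (fun x y z q => by
      simp only [k]
      rw [← map_add]
      congr 1
      funext g
      simp only [φ, Pi.add_apply]
      rw [← inner_add_left, sub_add_sub_cancel])
    (fun x q => by
      simp only [k]
      rw [← map_sum, ← I.map_zero]
      congr 1
      funext g
      simp only [φ, Finset.sum_apply, Pi.zero_apply]
      have := hh (g • x)
      rw [Net.lap, n.sum_smul] at this
      rw [← sum_inner, this, inner_zero_left])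
  intro h hh q x
  have h5 := rigid hP hQ n W x₀ henv π h2 h3 h4 hS h hh q x
  set a := h • ρ (1, q) • x
  set b := h • x
  set c := ρ (1, q) • x₀
  have h6 : I (φ (a, b) (a, b) + (-2 : ℝ) • φ (a, b) (c, x₀) + φ (c, x₀) (c, x₀)) = 0 := by
    rw [map_add, map_add, map_smul]
    change k.κ _ _ + (-2 : ℝ) * k.κ _ _ + k.κ _ _ = 0
    rw [← h1, ← h1, ← h1, h5]
    ring
  have h7 : ∀ g, (φ (a, b) (a, b) + (-2 : ℝ) • φ (a, b) (c, x₀) + φ (c, x₀) (c, x₀)) g =
      ‖(f (g • a) - f (g • b)) - (f (g • c) - f (g • x₀))‖ ^ 2 := fun g => by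
    simp only [φ, Pi.add_apply, Pi.smul_apply, smul_eq_mul, real_inner_self_eq_norm_sq]
    rw [norm_sub_sq_real (f (g • a) - f (g • b))]
    ring
  have h8 := hI1 _ (((hφ _ _).add ((hφ _ _).smul _)).add (hφ _ _))
    (fun g => by rw [h7]; positivity) h6 1
  rw [h7] at h8
  simpa [sub_eq_zero] using h8

variable {K : Type*} [NormedAddCommGroup K] [InnerProductSpace ℝ K]

/-- Points of small displacement need not be close to fixed points. -/
def NF {Λ : Type*} [Group Λ] (α : AffAct Λ K) : Prop :=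
  ∀ (S : Finset Λ) (C : ℝ), ∃ v, ∀ v', (∀ l, α.act l v' = v') → C * α.disp S v < ‖v - v'‖

/-- Pull back of an affine action. -/
def AffAct.comp {Λ Λ' : Type*} [Group Λ] [Group Λ'] (α : AffAct Λ K) (σ : Λ' →* Λ) :
    AffAct Λ' K where
  π := α.π.comp σ
  c := fun l => α.c (σ l)
  c_mul := fun l m => by simp [α.c_mul]

lemma NF.comp {Λ Λ' : Type*} [Group Λ] [Group Λ'] {α : AffAct Λ K} (h : NF α) (σ : Λ' →* Λ)
    (hσ : Function.Surjective σ) : NF (α.comp σ) := by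
  classical
  intro S C
  obtain ⟨v, hv⟩ := h (S.image σ) (|C| * S.card)
  refine ⟨v, fun v' hv' => lt_of_le_of_lt ?_ (hv v' fun l => ?_)⟩
  · have h1 : (α.comp σ).disp S v ≤ S.card * α.disp (S.image σ) v := by
      rw [← nsmul_eq_mul]
      refine Finset.sum_le_card_nsmul _ _ _ fun s hs => ?_
      exact Finset.single_le_sum (f := fun s => ‖α.act s v - v‖) (fun _ _ => norm_nonneg _)
        (Finset.mem_image_of_mem σ hs)
    calc _ ≤ |C| * (α.comp σ).disp S v :=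
          mul_le_mul_of_nonneg_right (le_abs_self C) (AffAct.disp_nonneg _ _ _)
      _ ≤ |C| * (S.card * α.disp (S.image σ) v) := by gcongr
      _ = _ := by ring
  · obtain ⟨l', rfl⟩ := hσ l
    exact hv' l'

theorem core [CompleteSpace K] (hP : Group.FG P) (hQ : Group.FG Q) {ρ : P × Q →* E}
    (n : Net E X) (x₀ : X) (hp : ∀ x y : X, {l | ρ l • x = y}.Finite)
    (hc : ∃ T : Finset X, ∀ x : X, ∃ l, ρ l • x ∈ T)
    (henv : EnvP n x₀ (ρ.comp (MonoidHom.inl P Q))) (α : AffAct Q K) (hα : NF α)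
    {S : Finset Q} (hS : Subgroup.closure (S : Set Q) = ⊤) :
    ∃ (H : Type u) (_ : NormedAddCommGroup H) (_ : InnerProductSpace ℝ H) (f : X → H)
      (φ : ℕ → X → K) (t : ℕ → ℝ) (𝒰 : Ultrafilter ℕ),
      (∀ i q x, φ i (ρ (1, q) • x) = α.act q (φ i x)) ∧
      (∀ x y x' y', Tendsto (fun i => t i * ⟪φ i x - φ i y, φ i x' - φ i y'⟫) 𝒰
        (𝓝 ⟪f x - f y, f x' - f y'⟫)) ∧ (∀ p x, f (ρ (p, 1) • x) = f x) ∧
      (∀ h ∈ bigO ρ x₀ S, ∀ q x, f (h • ρ (1, q) • x) - f (h • x) = f (ρ (1, q) • x₀) - f x₀) ∧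
      ∃ q, f (ρ (1, q) • x₀) ≠ f x₀ := by
  obtain ⟨W⟩ := exists_weight hp hc
  obtain ⟨S', hS'⟩ := Group.fg_def.1 (inferInstance : Group.FG (P × Q))
  obtain ⟨H, _, _, f, φ, t, 𝒰, h1, h2, ⟨x₁, y₁, h3⟩, h4⟩ := exists_harmonic n W
    (α.comp (MonoidHom.snd P Q)) x₀ hS' (hα.comp _ Prod.snd_surjective S')
  have h5 : ∀ p x, f (ρ (p, 1) • x) = f x := fun p x => by
    have h6 := h4 (ρ (p, 1) • x) x (ρ (p, 1) • x) x
    have h7 : ∀ i, φ i (ρ (p, 1) • x) = φ i x := fun i => (h1 i _ _).trans (α.act_one _)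
    simp only [h7, sub_self, inner_zero_left, mul_zero] at h6
    exact sub_eq_zero.1 (inner_self_eq_zero.1 (tendsto_nhds_unique h6 tendsto_const_nhds))
  have h8 := averaged hP hQ n x₀ hp hc henv h2 (fun l x y x' y' => by
    refine tendsto_nhds_unique (h4 _ _ _ _) ?_
    simp only [(h1 _).diff l, LinearIsometryEquiv.inner_map_map]
    exact h4 _ _ _ _) hS
  refine ⟨H, inferInstance, inferInstance, f, φ, t, 𝒰, fun i q x => h1 i _ _, h4, h5, h8, ?_⟩
  by_contra hno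
  push Not at hno
  have h9 : ∀ l x, f (ρ l • x) = f x := fun l x => by
    have h10 := h8 1 (Subgroup.one_mem _) l.2 x
    have h11 : l = (l.1, 1) * (1, l.2) := by simp
    rw [one_smul, one_smul, hno, sub_self, sub_eq_zero] at h10
    rw [h11, map_mul, mul_smul, h5, h10]
  have h12 := n.const_of_finite_range (fun x => ⟪f x₁ - f y₁, f x⟫) (fun x => by
    have := congrArg (fun v => ⟪f x₁ - f y₁, v⟫) (h2 x)
    simpa only [Net.lap, inner_sum, inner_sub_right, inner_zero_right] using this)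
    (W.finite_range _ fun l x => by rw [h9]) y₁ x₁
  rw [← sub_eq_zero, ← inner_sub_right, inner_self_eq_zero, sub_eq_zero] at h12
  exact h3 h12

/-- A real function with periods `ψ`, also along all translates by the big open subgroup. -/
def Good (ρ : P × Q →* E) (x₀ : X) (S : Finset Q) (ψ : Q → ℝ) (f : X → ℝ) : Prop :=
  (∀ p x, f (ρ (p, 1) • x) = f x) ∧
    ∀ h ∈ bigO ρ x₀ S, ∀ q x, f (h • ρ (1, q) • x) - f (h • x) = ψ q

theorem exists_good [CompleteSpace K] (hP : Group.FG P) (hQ : Group.FG Q) {ρ : P × Q →* E}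
    (n : Net E X) (x₀ : X) (hp : ∀ x y : X, {l | ρ l • x = y}.Finite)
    (hc : ∃ T : Finset X, ∀ x : X, ∃ l, ρ l • x ∈ T)
    (henv : EnvP n x₀ (ρ.comp (MonoidHom.inl P Q))) (α : AffAct Q K) (hα : NF α)
    {S : Finset Q} (hS : Subgroup.closure (S : Set Q) = ⊤) :
    ∃ (ψ : Q → ℝ) (f : X → ℝ), (∃ q, ψ q ≠ 0) ∧ Good ρ x₀ S ψ f := by
  obtain ⟨H, _, _, f, -, -, -, -, -, h1, h2, q₀, h3⟩ := core hP hQ n x₀ hp hc henv α hα hS
  set e := f (ρ (1, q₀) • x₀) - f x₀
  refine ⟨fun q => ⟪e, f (ρ (1, q) • x₀) - f x₀⟫, fun x => ⟪e, f x⟫, ⟨q₀, ?_⟩,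
    fun p x => by simp only [h1], fun h hh q x => by rw [← inner_sub_right, h2 h hh]⟩
  exact fun h => h3 (sub_eq_zero.1 (inner_self_eq_zero.1 h))

theorem exists_good_hom (hP : Group.FG P) (hQ : Group.FG Q) {ρ : P × Q →* E}
    (n : Net E X) (x₀ : X) (hp : ∀ x y : X, {l | ρ l • x = y}.Finite)
    (hc : ∃ T : Finset X, ∀ x : X, ∃ l, ρ l • x ∈ T)
    (henv : EnvP n x₀ (ρ.comp (MonoidHom.inl P Q))) (χ : Q → ℝ)
    (hχ : ∀ a b, χ (a * b) = χ a + χ b) {S : Finset Q} (hS : Subgroup.closure (S : Set Q) = ⊤) :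
    ∃ f : X → ℝ, Good ρ x₀ S χ f := by
  by_cases h0 : ∀ q, χ q = 0
  · exact ⟨fun _ => 0, fun _ _ => rfl, fun _ _ q _ => by simp [h0]⟩
  push Not at h0
  obtain ⟨q₀, hq₀⟩ := h0
  let α : AffAct Q ℝ := { π := 1, c := χ, c_mul := fun a b => by simp [hχ, add_comm] }
  have hα : ∀ q v, α.act q v = v + χ q := fun q v => rfl
  obtain ⟨H, _, _, f, φ, t, 𝒰, h1, h2, h3, h4, q₁, h5⟩ := core hP hQ n x₀ hp hc henv α
    (fun _ _ => ⟨0, fun v' hv' => absurd (by simpa [hα] using hv' q₀) hq₀⟩) hS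
  have h6 : ∀ q q', Tendsto (fun i => t i * (χ q' * χ q)) 𝒰
      (𝓝 ⟪f (ρ (1, q) • x₀) - f x₀, f (ρ (1, q') • x₀) - f x₀⟫) := fun q q' => by
    simpa [h1, hα] using h2 (ρ (1, q) • x₀) x₀ (ρ (1, q') • x₀) x₀
  set τ := ⟪f (ρ (1, q₀) • x₀) - f x₀, f (ρ (1, q₀) • x₀) - f x₀⟫ / (χ q₀ * χ q₀)
  have h7 : Tendsto t 𝒰 (𝓝 τ) := by
    have := (h6 q₀ q₀).div_const (χ q₀ * χ q₀)
    simpa only [mul_div_assoc, div_self (mul_ne_zero hq₀ hq₀), mul_one] using this
  have h8 : ∀ q q', ⟪f (ρ (1, q) • x₀) - f x₀, f (ρ (1, q') • x₀) - f x₀⟫ = τ * (χ q' * χ q) :=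
    fun q q' => tendsto_nhds_unique (h6 q q') (h7.mul_const _)
  have h9 : τ ≠ 0 := fun h => h5 (by
    have := h8 q₁ q₁
    rw [h, zero_mul] at this
    exact sub_eq_zero.1 (inner_self_eq_zero.1 this))
  refine ⟨fun x => (τ * χ q₀)⁻¹ * ⟪f (ρ (1, q₀) • x₀) - f x₀, f x⟫, fun p x => by simp only [h3],
    fun h hh q x => ?_⟩
  simp only
  rw [← mul_sub, ← inner_sub_right, h4 h hh, h8]
  field_simp

end Pool.Agent.Lib.MP_a6ff19_al
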