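import Pool.Agent.Lib.MP_a6ff19_al.Bdd

set_option autoImplicit false
set_option linter.unusedSectionVars false

/-!
Coset structures, finite generation of cocompact lattices, cocompactness in open subgroups.
-/

namespace Pool.Agent.Lib.MP_a6ff19_al

open scoped Pointwise

variable {E X : Type*} [Group E] [MulAction E X] {Λ : Type*} [Group Λ]

/-- Restriction to a subgroup. -/
def Net.restrict (n : Net E X) (O : Subgroup E) : Net O X where
  N := n.N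
  symm := n.symm
  smul_mem := fun g => n.smul_mem g
  conn := n.conn

lemma exists_cosetNet (J : Subgroup E) (S : Set E) (hsymm : ∀ s ∈ S, s⁻¹ ∈ S)
    (hgen : Subgroup.closure ((J : Set E) ∪ S) = ⊤)
    (hfin : ((fun g : E => (g : E ⧸ J)) '' ((J : Set E) * S)).Finite) :
    ∃ n : Net E (E ⧸ J), ∀ y z, z ∈ n.N y ↔
      ∃ g : E, ∃ s ∈ S, (g : E ⧸ J) = y ∧ ((g * s : E) : E ⧸ J) = z := by
  have h1 : ∀ y : E ⧸ J,
      {z | ∃ g : E, ∃ s ∈ S, (g : E ⧸ J) = y ∧ ((g * s : E) : E ⧸ J) = z}.Finite := fun y => by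
    obtain ⟨k, rfl⟩ := QuotientGroup.mk_surjective y
    refine (hfin.image fun z => k • z).subset ?_
    rintro _ ⟨g, s, hs, h2, rfl⟩
    refine ⟨_, ⟨k⁻¹ * g * s, ⟨_, QuotientGroup.eq.1 h2.symm, s, hs, rfl⟩, rfl⟩, ?_⟩
    simp [MulAction.Quotient.smul_mk, mul_assoc]
  refine ⟨⟨fun y => (h1 y).toFinset, ?_, ?_, ?_⟩, fun y z => Set.Finite.mem_toFinset _⟩
  · intro y z
    simp only [Set.Finite.mem_toFinset, Set.mem_ofPred_eq]
    rintro ⟨g, s, hs, rfl, rfl⟩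
    exact ⟨g * s, s⁻¹, hsymm s hs, rfl, by simp⟩
  · intro k y z
    simp only [Set.Finite.mem_toFinset, Set.mem_ofPred_eq]
    rintro ⟨g, s, hs, rfl, rfl⟩
    exact ⟨k * g, s, hs, rfl, by simp [MulAction.Quotient.smul_mk, mul_assoc]⟩
  · have h2 : ∀ g ∈ Subgroup.closure ((J : Set E) ∪ S), ∀ k : E, Relation.ReflTransGen
        (fun a b => b ∈ (h1 a).toFinset) (k : E ⧸ J) ((k * g : E) : E ⧸ J) := by
      have h3 : ∀ g ∈ (J : Set E) ∪ S, ∀ k : E, Relation.ReflTransGen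
          (fun a b => b ∈ (h1 a).toFinset) (k : E ⧸ J) ((k * g : E) : E ⧸ J) := by
        rintro g (hg | hg) k
        · rw [QuotientGroup.mk_mul_of_mem k hg]
        · exact Relation.ReflTransGen.single ((Set.Finite.mem_toFinset _).2 ⟨k, g, hg, rfl, rfl⟩)
      intro g hg
      induction hg using Subgroup.closure_induction'' with
      | mem g hg => exact h3 g hg
      | inv_mem g hg => exact h3 _ (hg.imp J.inv_mem (hsymm g))
      | one => intro k; rw [mul_one]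
      | mul a b _ _ ha hb => intro k; rw [← mul_assoc]; exact (ha k).trans (hb _)
    intro y z
    obtain ⟨a, rfl⟩ := QuotientGroup.mk_surjective y
    obtain ⟨b, rfl⟩ := QuotientGroup.mk_surjective z
    simpa using h2 (a⁻¹ * b) (hgen ▸ Subgroup.mem_top _) a

lemma fg_of_net {ρ : Λ →* E} (n : Net E X) (x₀ : X) (hp : ∀ x y : X, {l | ρ l • x = y}.Finite)
    (hc : ∃ T : Finset X, ∀ x : X, ∃ l, ρ l • x ∈ T) : Group.FG Λ := by
  obtain ⟨T, hT⟩ := hc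
  let S : Set Λ := {l | ∃ t ∈ T, ∃ t' ∈ T, ρ l • t' = t ∨ ρ l • t' ∈ n.N t}
  have hS : S.Finite := by
    refine (T.finite_toSet.biUnion fun t _ => T.finite_toSet.biUnion fun t' _ =>
      (hp t' t).union ((n.N t).finite_toSet.biUnion fun y _ => hp t' y)).subset ?_
    rintro l ⟨t, ht, t', ht', h⟩
    simp only [Set.mem_iUnion, Set.mem_union]
    exact ⟨t, ht, t', ht', h.imp id fun h => ⟨_, h, rfl⟩⟩
  obtain ⟨l₀, hl₀⟩ := hT x₀
  have h1 : ∀ x, ∃ h ∈ Subgroup.closure S, ρ h • x ∈ T := fun x => by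
    induction n.conn (ρ l₀ • x₀) x with
    | refl => exact ⟨1, Subgroup.one_mem _, by simpa using hl₀⟩
    | @tail b c _ h2 ih =>
      obtain ⟨h, hh, h3⟩ := ih
      obtain ⟨l, hl⟩ := hT (ρ h • c)
      have h4 : l⁻¹ ∈ S := ⟨_, h3, _, hl, Or.inr (by simpa using n.smul_mem _ _ _ h2)⟩
      refine ⟨l * h, Subgroup.mul_mem _ ?_ hh, by simpa [mul_smul] using hl⟩
      simpa using Subgroup.inv_mem _ (Subgroup.subset_closure h4)
  refine Group.fg_iff.2 ⟨S, eq_top_iff.2 fun l _ => ?_, hS⟩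
  obtain ⟨h, hh, h2⟩ := h1 (ρ l⁻¹ • ρ l₀ • x₀)
  have h3 : h * l⁻¹ ∈ S := ⟨_, h2, _, hl₀, Or.inl (by simp [mul_smul])⟩
  have h4 := Subgroup.mul_mem _ (Subgroup.inv_mem _ (Subgroup.subset_closure h3)) hh
  simpa using h4

lemma cov_of_relIndex {H K : Subgroup E} (h : H.relIndex K ≠ 0) :
    ∃ T : Set E, T.Finite ∧ T ⊆ K ∧ ∀ g ∈ K, ∃ t ∈ T, t⁻¹ * g ∈ H := by
  have : Finite (K ⧸ H.subgroupOf K) := Nat.finite_of_card_ne_zero h
  refine ⟨Set.range fun y : K ⧸ H.subgroupOf K => (y.out : E), Set.finite_range _, ?_, ?_⟩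
  · rintro _ ⟨y, rfl⟩; exact y.out.2
  · intro g hg
    refine ⟨_, ⟨((⟨g, hg⟩ : K) : K ⧸ H.subgroupOf K), rfl⟩, ?_⟩
    exact (QuotientGroup.eq (s := H.subgroupOf K)).1
      (QuotientGroup.out_eq' ((⟨g, hg⟩ : K) : K ⧸ H.subgroupOf K))

lemma cov_of_relIndex' {H K : Subgroup E} (h : H.relIndex K ≠ 0) :
    ∃ T : Set E, T.Finite ∧ T ⊆ K ∧ ∀ g ∈ K, ∃ t ∈ T, g * t ∈ H := by
  obtain ⟨T, h1, h2, h3⟩ := cov_of_relIndex h
  refine ⟨T, h1, h2, fun g hg => ?_⟩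
  obtain ⟨t, ht, h4⟩ := h3 _ (K.inv_mem hg)
  exact ⟨t, ht, by simpa using H.inv_mem h4⟩

lemma relIndex_of_cov {H K : Subgroup E} {T : Set E} (hT : T.Finite)
    (h : ∀ g ∈ K, ∃ t ∈ T, t⁻¹ * g ∈ H) : H.relIndex K ≠ 0 := by
  have h1 : Finite (K ⧸ H.subgroupOf K) := by
    have := (hT.image fun t : E => (t : E ⧸ H)).to_subtype
    refine Finite.of_injective (β := (fun t : E => (t : E ⧸ H)) '' T) (fun y => ⟨(y.out : E), ?_⟩) ?_
    · obtain ⟨t, ht, h2⟩ := h _ y.out.2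
      exact ⟨t, ht, QuotientGroup.eq.2 h2⟩
    · intro y z hyz
      rw [← QuotientGroup.out_eq' y, ← QuotientGroup.out_eq' z]
      exact QuotientGroup.eq.2 ((QuotientGroup.eq (s := H)).1 (congrArg Subtype.val hyz))
  exact Nat.card_pos.ne'

lemma Bdd.of_relIndex (n : Net E X) {x₀ : X} {H K : Subgroup E} (h : H.relIndex K ≠ 0)
    (hH : Bdd x₀ (H : Set E)) : Bdd x₀ (K : Set E) := by
  obtain ⟨T, h1, -, h3⟩ := cov_of_relIndex h
  refine ((Bdd.of_finite x₀ h1).mul n hH).mono fun g hg => ?_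
  obtain ⟨t, ht, h4⟩ := h3 g hg
  exact ⟨t, ht, _, h4, by simp⟩

lemma finite_of_relIndex {H K : Subgroup E} (h : H.relIndex K ≠ 0) (hH : (H : Set E).Finite) :
    (K : Set E).Finite := by
  obtain ⟨T, h1, -, h3⟩ := cov_of_relIndex h
  refine (h1.mul hH).subset fun g hg => ?_
  obtain ⟨t, ht, h4⟩ := h3 g hg
  exact ⟨t, ht, _, h4, by simp⟩

/-- The image of `ρ` is cocompact in the subgroup `O`. -/
def Coc (x₀ : X) (ρ : Λ →* E) (O : Subgroup E) : Prop :=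
  ∃ B : Set E, Bdd x₀ B ∧ ∀ g ∈ O, ∃ l, ρ l * g ∈ B

lemma Coc.mono {x₀ : X} {ρ : Λ →* E} {O O' : Subgroup E} (h : Coc x₀ ρ O) (h' : O' ≤ O) :
    Coc x₀ ρ O' :=
  let ⟨B, hB, h1⟩ := h; ⟨B, hB, fun g hg => h1 g (h' hg)⟩

lemma Coc.sub (n : Net E X) {x₀ : X} {ρ : Λ →* E} {O : Subgroup E} (h : Coc x₀ ρ O)
    (hO : Opn X O) : ∃ B : Set E, Bdd x₀ B ∧ ∀ g ∈ O, ∃ l, ρ l ∈ O ∧ ρ l * g ∈ B := by
  classical
  obtain ⟨B, hB, h1⟩ := h
  obtain ⟨T, hT, -, h2⟩ := hB.cover n hO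
  let c : E → Λ := fun t => if h : ∃ l, t⁻¹ * ρ l ∈ O then h.choose else 1
  refine ⟨_, (Bdd.of_finite x₀ (hT.image fun t => (ρ (c t))⁻¹)).mul n hB, fun g hg => ?_⟩
  obtain ⟨l, hl⟩ := h1 g hg
  obtain ⟨t, ht, h3⟩ := h2 _ hl
  have h4 : t⁻¹ * ρ l ∈ O := by simpa [mul_assoc] using O.mul_mem h3 (O.inv_mem hg)
  have h5 : ∃ l, t⁻¹ * ρ l ∈ O := ⟨l, h4⟩
  have h6 : t⁻¹ * ρ (c t) ∈ O := by simp only [c, dif_pos h5]; exact h5.choose_spec
  refine ⟨(c t)⁻¹ * l, ?_, _, ⟨t, ht, rfl⟩, _, hl, by simp [mul_assoc]⟩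
  simpa [mul_assoc] using O.mul_mem (O.inv_mem h6) h4

lemma Coc.of_relIndex (n : Net E X) {x₀ : X} {ρ : Λ →* E} {H K : Subgroup E} (h : Coc x₀ ρ H)
    (h' : H.relIndex K ≠ 0) : Coc x₀ ρ K := by
  obtain ⟨B, hB, h1⟩ := h
  obtain ⟨T, hT, -, h2⟩ := cov_of_relIndex' h'
  refine ⟨_, hB.mul n (Bdd.of_finite x₀ hT.inv), fun g hg => ?_⟩
  obtain ⟨t, ht, h3⟩ := h2 g hg
  obtain ⟨l, hl⟩ := h1 _ h3
  exact ⟨l, _, hl, t⁻¹, by simpa using ht, by simp [mul_assoc]⟩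

lemma Coc.bound (n : Net E X) {x₀ : X} {ρ : Λ →* E} {O V : Subgroup E} (h : Coc x₀ ρ O)
    (hρ : ∀ l, ρ l ∈ O) (hV : Opn X V) (D : E → ℝ) (h1 : ∀ l, ∀ g ∈ O, D (ρ l * g) = D g)
    (h2 : ∀ g ∈ O, ∀ v ∈ V, D (g * v) = D g) : ∃ M, ∀ g ∈ O, |D g| ≤ M := by
  obtain ⟨B, hB, h3⟩ := h
  obtain ⟨T, hT, hT', h4⟩ := (hB.mono (Set.inter_subset_left (t := O))).cover n hV
  obtain ⟨M, hM⟩ := (hT.image fun t => |D t|).bddAbove
  refine ⟨M, fun g hg => ?_⟩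
  obtain ⟨l, hl⟩ := h3 g hg
  obtain ⟨t, ht, h5⟩ := h4 _ ⟨hl, O.mul_mem (hρ l) hg⟩
  rw [← h1 l g hg, ← mul_inv_cancel_left t (ρ l * g), h2 t (hT' ht).2 _ h5]
  exact hM ⟨t, ht, rfl⟩

lemma hom_eq_zero_of_bdd {χ : Λ → ℝ} (hχ : ∀ a b, χ (a * b) = χ a + χ b) {A : Subgroup Λ}
    (hA : A.index ≠ 0) {M : ℝ} (hM : ∀ a ∈ A, |χ a| ≤ M) (a : Λ) : χ a = 0 := by
  have h1 : χ 1 = 0 := by simpa using hχ 1 1
  have h2 : ∀ (k : ℕ) a, χ (a ^ k) = k * χ a := fun k a => by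
    induction k with
    | zero => simpa using h1
    | succ k ih => rw [pow_succ, hχ, ih]; push_cast; ring
  obtain ⟨k, hk, -, h3⟩ := Subgroup.exists_pow_mem_of_index_ne_zero hA a
  have h4 : χ (a ^ k) = 0 := by
    by_contra h
    obtain ⟨m, hm⟩ := exists_nat_gt (M / |χ (a ^ k)|)
    have h5 := hM _ (A.pow_mem h3 m)
    rw [h2, abs_mul, Nat.abs_cast] at h5
    rw [div_lt_iff₀ (abs_pos.2 h)] at hm
    linarith
  rw [h2] at h4
  exact (mul_eq_zero.1 h4).resolve_left (by exact_mod_cast hk.ne')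

lemma mem_conj_iff (H : Subgroup E) (g x : E) :
    x ∈ ConjAct.toConjAct g • H ↔ g⁻¹ * x * g ∈ H := by
  rw [Subgroup.mem_pointwise_smul_iff_inv_smul_mem, ← map_inv, ConjAct.smul_def]
  simp

lemma Opn.conjAct {O : Subgroup E} (h : Opn X O) (k : E) : Opn X (ConjAct.toConjAct k • O) :=
  (h.conj k⁻¹).mono fun g hg => (mem_conj_iff _ _ _).2 (by simpa using hg)

lemma mem_commensurator_of_mem {H : Subgroup E} {g : E} (hg : g ∈ H) :
    g ∈ Subgroup.Commensurable.commensurator H := by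
  have : ConjAct.toConjAct g • H = H := by
    ext x
    rw [mem_conj_iff, H.mul_mem_cancel_right hg, H.mul_mem_cancel_left (H.inv_mem hg)]
  rw [Subgroup.Commensurable.commensurator_mem_iff, this]

lemma commensurable_inf {H K H' K' : Subgroup E} (h : H.Commensurable K) (h' : H'.Commensurable K') :
    (H ⊓ H').Commensurable (K ⊓ K') :=
  ⟨Subgroup.relIndex_inf_ne_zero
    (fun h0 => h.1 (Subgroup.relIndex_eq_zero_of_le_right inf_le_left h0))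
    (fun h0 => h'.1 (Subgroup.relIndex_eq_zero_of_le_right inf_le_right h0)),
  Subgroup.relIndex_inf_ne_zero
    (fun h0 => h.2 (Subgroup.relIndex_eq_zero_of_le_right inf_le_left h0))
    (fun h0 => h'.2 (Subgroup.relIndex_eq_zero_of_le_right inf_le_right h0))⟩

lemma mem_commensurator_inf {H K : Subgroup E} {g : E}
    (h : g ∈ Subgroup.Commensurable.commensurator H)
    (h' : g ∈ Subgroup.Commensurable.commensurator K) :
    g ∈ Subgroup.Commensurable.commensurator (H ⊓ K) := by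
  rw [Subgroup.Commensurable.commensurator_mem_iff, Subgroup.smul_inf]
  exact commensurable_inf h h'

lemma mem_commensurator_comap {H : Subgroup E} (σ : Λ →* E) {l : Λ}
    (h : σ l ∈ Subgroup.Commensurable.commensurator H) :
    l ∈ Subgroup.Commensurable.commensurator (H.comap σ) := by
  have : ConjAct.toConjAct l • H.comap σ = (ConjAct.toConjAct (σ l) • H).comap σ := by
    ext x
    simp only [mem_conj_iff, Subgroup.mem_comap, map_mul, map_inv]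
  rw [Subgroup.Commensurable.commensurator_mem_iff, this]
  exact ⟨Subgroup.relIndex_comap_ne_zero σ h.1, Subgroup.relIndex_comap_ne_zero σ h.2⟩

end Pool.Agent.Lib.MP_a6ff19_al
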