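import Pool.Agent.Lib.MP_a6ff19_al.Tidy

set_option autoImplicit false
set_option linter.unusedSectionVars false

/-!
If `P × Q` is a cocompact lattice and every open subgroup containing `P` contains a subgroup of
finite index of `Q`, then every element of `Q` has a power whose centraliser has finite index.
-/

namespace Pool.Agent.Lib.MP_a6ff19_al

open Filter
open scoped Pointwise

variable {E X : Type*} [Group E] [MulAction E X] {Λ : Type*} [Group Λ]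

/-- Poincaré recurrence. -/
lemma recur (n : Net E X) (x₀ : X) {ρ : Λ →* E} (hp : ∀ x y : X, {l | ρ l • x = y}.Finite)
    (hc : ∃ B : Set E, Bdd x₀ B ∧ ∀ g : E, ∃ l, ρ l * g ∈ B) {O : Subgroup E} (hO : Opn X O)
    (β u₀ : E) (M : ℕ) : ∃ k : ℕ, M ≤ k ∧ ∃ o ∈ O, ∃ o' ∈ O, ∃ l,
      β ^ (k : ℤ) * (o * u₀) = o' * u₀ * ρ l := by
  classical
  obtain ⟨I, hI0, hI1, hI2, hI3⟩ := exists_mean n x₀ hp hc
  by_contra hno
  push Not at hno
  let φ : E → ℝ := fun g => if ∃ l, u₀ * ρ l * g ∈ O then 1 else 0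
  have hφ : ∀ h, Adm ρ X fun g => φ (g * h) := fun h => by
    obtain ⟨F, hF⟩ := hO.conj h⁻¹
    refine ⟨fun l g => if_congr ⟨fun ⟨m, hm⟩ => ⟨m * l, by simpa [mul_assoc] using hm⟩,
      fun ⟨m, hm⟩ => ⟨m * l⁻¹, by simpa [mul_assoc] using hm⟩⟩ rfl rfl, F, fun g v hv => ?_⟩
    have h1 : h⁻¹ * v * h ∈ O := by simpa using hF v hv
    refine if_congr (exists_congr fun m => ?_) rfl rfl
    have h2 : u₀ * ρ m * (g * v * h) = u₀ * ρ m * (g * h) * (h⁻¹ * v * h) := by group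
    rw [h2, O.mul_mem_cancel_right h1]
  have hφ1 : Adm ρ X φ := by simpa using hφ 1
  have h0 : ∀ g, 0 ≤ φ g := fun g => by simp only [φ]; split_ifs <;> norm_num
  have h1 : ∀ J : ℕ, (J : ℝ) * I φ ≤ 1 := fun J => by
    let ψ : E → ℝ := ∑ j ∈ Finset.range J, fun g => φ (g * β ^ (((M + 1) * j : ℕ) : ℤ))
    have h2 : Adm ρ X ψ := Adm.sum _ fun j _ => hφ _
    have h3 : I ψ = J * I φ := by
      simp only [ψ, map_sum, hI3 φ _ hφ1, Finset.sum_const, Finset.card_range, nsmul_eq_mul]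
    have h4 : ∀ g, ψ g ≤ 1 := fun g => by
      simp only [ψ, φ, Finset.sum_apply, Finset.sum_boole, Nat.cast_le_one]
      have h5 : ∀ i j : ℕ, i < j → (∃ l, u₀ * ρ l * (g * β ^ (((M + 1) * i : ℕ) : ℤ)) ∈ O) →
          (∃ l, u₀ * ρ l * (g * β ^ (((M + 1) * j : ℕ) : ℤ)) ∈ O) → False := by
        rintro i j hij ⟨l, hl⟩ ⟨l', hl'⟩
        obtain ⟨d, rfl⟩ := Nat.exists_eq_add_of_lt hij
        refine hno ((M + 1) * (d + 1)) (by nlinarith) _ (O.inv_mem hl') _ (O.inv_mem hl)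
          (l * l'⁻¹) ?_
        have h6 : (((M + 1) * (i + d + 1) : ℕ) : ℤ) =
            (((M + 1) * i : ℕ) : ℤ) + (((M + 1) * (d + 1) : ℕ) : ℤ) := by push_cast; ring
        rw [h6, zpow_add, map_mul, map_inv]
        generalize (((M + 1) * i : ℕ) : ℤ) = a
        generalize (((M + 1) * (d + 1) : ℕ) : ℤ) = b
        group
      refine Finset.card_le_one.2 fun i hi j hj => ?_
      rcases lt_trichotomy i j with h | h | h
      · exact (h5 i j h (Finset.mem_filter.1 hi).2 (Finset.mem_filter.1 hj).2).elim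
      · exact h
      · exact (h5 j i h (Finset.mem_filter.1 hj).2 (Finset.mem_filter.1 hi).2).elim
    have h5 := hI1 _ ((Adm.const 1).add (h2.smul (-1))) fun g => by
      simpa using h4 g
    rw [map_add, map_smul, hI0, h3] at h5
    simpa using h5
  have h2 : I φ = 0 := by
    refine le_antisymm (le_of_not_gt fun h => ?_) (hI1 φ hφ1 h0)
    obtain ⟨J, hJ⟩ := exists_nat_gt (1 / I φ)
    rw [div_lt_iff₀ h] at hJ
    exact absurd (h1 J) (not_le.2 hJ)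
  have h3 := hI2 φ hφ1 h0 h2 u₀⁻¹
  simp only [φ] at h3
  rw [if_pos ⟨1, by simp⟩] at h3
  exact one_ne_zero h3

/-- Saturation of a finite set under a bounded subgroup. -/
lemma saturate (n : Net E X) {x₀ : X} {U : Subgroup E} (hU : Bdd x₀ (U : Set E)) (F : Finset X) :
    ∃ F' : Finset X, F ⊆ F' ∧ ∀ u ∈ U, ∀ x ∈ F', u • x ∈ F' := by
  have h1 := F.finite_toSet.biUnion fun x _ => hU.orbit n x
  refine ⟨h1.toFinset, fun x hx => h1.mem_toFinset.2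
    (Set.mem_biUnion hx ⟨1, U.one_mem, one_smul _ _⟩), fun u hu x hx => ?_⟩
  obtain ⟨y, hy, v, hv, rfl⟩ := Set.mem_iUnion₂.1 (h1.mem_toFinset.1 hx)
  exact h1.mem_toFinset.2 (Set.mem_biUnion hy ⟨u * v, U.mul_mem hu hv, mul_smul _ _ _⟩)

variable {P Q : Type*} [Group P] [Group Q]

theorem cyc_cpl (n : Net E X) (x₀ : X) (hcpl : Cpl E x₀) {ρ : P × Q →* E}
    (hp : ∀ x y : X, {l | ρ l • x = y}.Finite)
    (hc : ∃ B : Set E, Bdd x₀ B ∧ ∀ g : E, ∃ l, ρ l * g ∈ B)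
    (henv : ∀ O : Subgroup E, Opn X O → (∀ a, ρ (a, 1) ∈ O) →
      (O.comap (ρ.comp (MonoidHom.inr P Q))).index ≠ 0) (b : Q) :
    ((par n (ρ (1, b)) x₀).comap (ρ.comp (MonoidHom.inr P Q))).index ≠ 0 := by
  classical
  set β := ρ (1, b) with hβ
  have hA : ∀ a, ρ (a, 1) ∈ par n β x₀ := fun a => par.of_commute n (by
    rw [hβ]; exact (Commute.map (by simp [Commute, SemiconjBy]) ρ))
  obtain ⟨N, hN⟩ := tidy n hcpl β
  set U := Wf β x₀ (Set.Icc 0 N)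
  have hUb : Bdd x₀ (U : Set E) := Wf.bdd n (j := 0) (by simp)
  have hm : Wf β x₀ (Set.Iic N) ≤ U := Wf.mono Set.Icc_subset_Iic_self
  have hpl : Wf β x₀ (Set.Ici 0) ≤ U := Wf.mono Set.Icc_subset_Ici_self
  have hfix : ∀ {F : Finset X} {g : E}, g ∈ fixingSubgroup E (F : Set X) ↔ ∀ x ∈ F, g • x = x :=
    mem_fixingSubgroup_iff E
  have hnorm : ∀ {F : Finset X}, (∀ u ∈ U, ∀ x ∈ F, u • x ∈ F) → ∀ u ∈ U,
      ∀ o ∈ fixingSubgroup E (F : Set X), u * o * u⁻¹ ∈ fixingSubgroup E (F : Set X) :=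
    fun hF u hu o ho => hfix.2 fun x hx => by
      rw [mul_smul, mul_smul, hfix.1 ho _ (hF _ (U.inv_mem hu) x hx), smul_inv_smul]
  -- recurrence: the double coset of the lattice and the parabolic subgroup is dense in `U`
  have hR : ∀ u₀ ∈ U, ∀ F : Finset X, (∀ u ∈ U, ∀ x ∈ F, u • x ∈ F) →
      ∃ o ∈ fixingSubgroup E (F : Set X), ∃ p ∈ par n β x₀, ∃ l, u₀ = o * p * ρ l := by
    intro u₀ hu₀ F hF
    obtain ⟨M, hM⟩ := approx_neg (β := β) n hcpl N F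
    obtain ⟨k, hk, o, ho, o', ho', l, h1⟩ := recur n x₀ hp hc
      ((Wf.opn (β := β) (x₀ := x₀) 0 N).inf (Opn.fixing F)) β u₀ M
    obtain ⟨q, hq, h2⟩ := hN _ (U.inv_mem (U.mul_mem ho.1 hu₀))
    set r := (q⁻¹ * (o * u₀)⁻¹)⁻¹ with hr
    have h3 : r ∈ Wf β x₀ (Set.Iic N) := Subgroup.inv_mem _ h2
    have h4 : β ^ (k : ℤ) * r⁻¹ * β ^ (-(k : ℤ)) ∈ U :=
      Wf.shift _ (Subgroup.inv_mem _ h3) fun j hj => by
        simp only [Set.mem_Icc, Set.mem_Iic] at hj ⊢; omega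
    obtain ⟨v, hv, h5⟩ := hN _ (U.mul_mem h4 (U.mul_mem ho'.1 hu₀))
    set w := v⁻¹ * (β ^ (k : ℤ) * r⁻¹ * β ^ (-(k : ℤ)) * (o' * u₀)) with hw
    have h6 : β ^ (-(k : ℤ)) * v * β ^ (- -(k : ℤ)) ∈ Wf β x₀ (Set.Icc (-(M : ℤ)) N) :=
      Wf.shift _ hv fun j hj => by simp only [Set.mem_Icc, Set.mem_Ici] at hj ⊢; omega
    obtain ⟨p, h7, h8⟩ := hM _ h6
    have h9 : p⁻¹ * (β ^ (-(k : ℤ)) * v * β ^ (- -(k : ℤ))) ∈ fixingSubgroup E (F : Set X) :=
      hfix.2 fun x hx => by rw [mul_smul, h8 x hx, inv_smul_smul]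
    have h10 := Subgroup.mul_mem _ h3 h7
    refine ⟨_, Subgroup.mul_mem _ (Subgroup.inv_mem _ ho.2) (hnorm hF _ (hm h10) _ h9),
      r * p * β ^ (-(k : ℤ)) * w, Subgroup.mul_mem _ (Subgroup.mul_mem _ (par.of_Iic n h10)
        (par.of_commute n (Commute.self_zpow _ _))) (par.of_Iic n h5), l, ?_⟩
    have h11 : ρ l = (o' * u₀)⁻¹ * (β ^ (k : ℤ) * (o * u₀)) := by rw [h1]; group
    rw [h11, hw]
    group
  -- the conjugates of the first factor lie in the closure of the parabolic subgroup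
  have hC : ∀ u ∈ U, ∀ a, u * ρ (a, 1) * u⁻¹ ∈ cl X (par n β x₀) := by
    intro u hu a F
    obtain ⟨F', h1, h2⟩ := saturate n hUb (F ∪ F.image fun x => (u * ρ (a, 1) * u⁻¹) • x)
    obtain ⟨o, ho, p, hp', l, h3⟩ := hR u hu F' h2
    have h4 : ρ l * ρ (a, 1) * (ρ l)⁻¹ = ρ (l.1 * a * l.1⁻¹, 1) := by
      rw [← map_inv, ← map_mul, ← map_mul]
      congr 1
      ext <;> simp
    refine ⟨p * ρ (l.1 * a * l.1⁻¹, 1) * p⁻¹, Subgroup.mul_mem _ (Subgroup.mul_mem _ hp' (hA _))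
      (Subgroup.inv_mem _ hp'), fun x hx => ?_⟩
    have h5 : p * ρ (l.1 * a * l.1⁻¹, 1) * p⁻¹ = o⁻¹ * (u * ρ (a, 1) * u⁻¹) * o := by
      rw [← h4, h3]; group
    rw [h5, mul_smul _ o, hfix.1 ho x (h1 (Finset.mem_union_left _ hx)), mul_smul o⁻¹,
      hfix.1 (Subgroup.inv_mem _ ho) _
        (h1 (Finset.mem_union_right _ (Finset.mem_image_of_mem _ hx)))]
  let D := Subgroup.closure {g | ∃ u ∈ U, ∃ a, g = u * ρ (a, 1) * u⁻¹}
  have hD : D ≤ cl X (par n β x₀) := (Subgroup.closure_le _).2 (by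
    rintro _ ⟨u, hu, a, rfl⟩; exact hC u hu a)
  have hDn : ∀ u ∈ U, ∀ d ∈ D, u * d * u⁻¹ ∈ D := by
    intro u hu d hd
    induction hd using Subgroup.closure_induction with
    | mem g hg =>
      obtain ⟨v, hv, a, rfl⟩ := hg
      exact Subgroup.subset_closure ⟨u * v, U.mul_mem hu hv, a, by group⟩
    | one => simp
    | mul g g' _ _ h1 h2 => simpa [mul_assoc] using D.mul_mem h1 h2
    | inv g _ h1 => simpa [mul_assoc] using D.inv_mem h1
  -- the expanding group lies in the closure of the parabolic subgroup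
  have hE : ∀ u ∈ Wf β x₀ (Set.Ici 0), u ∈ cl X (par n β x₀) := by
    intro u hu
    refine cl_cl fun F => ?_
    obtain ⟨F', h1, h2⟩ := saturate n hUb F
    obtain ⟨M, hM⟩ := approx_neg (β := β) n hcpl N F'
    let H : Subgroup E :=
      { carrier := {g | ∃ d ∈ D, ∃ o ∈ U ⊓ fixingSubgroup E (F' : Set X), g = d * o}
        one_mem' := ⟨1, D.one_mem, 1, Subgroup.one_mem _, by simp⟩
        mul_mem' := by
          rintro _ _ ⟨d, hd, o, ho, rfl⟩ ⟨d', hd', o', ho', rfl⟩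
          exact ⟨_, D.mul_mem hd (hDn o ho.1 d' hd'), _, Subgroup.mul_mem _ ho ho', by group⟩
        inv_mem' := by
          rintro _ ⟨d, hd, o, ho, rfl⟩
          exact ⟨_, hDn _ (U.inv_mem ho.1) _ (D.inv_mem hd), _, Subgroup.inv_mem _ ho, by group⟩ }
    have h3 := henv H (((Wf.opn (β := β) (x₀ := x₀) 0 N).inf (Opn.fixing F')).mono
      fun o ho => ⟨1, D.one_mem, o, ho, by simp⟩) fun a =>
        ⟨_, Subgroup.subset_closure ⟨1, U.one_mem, a, rfl⟩, 1, Subgroup.one_mem _, by simp⟩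
    obtain ⟨k, hk, -, h4⟩ := Subgroup.exists_pow_mem_of_index_ne_zero h3 b
    have h5 : β ^ ((k * M : ℕ) : ℤ) ∈ H := by
      rw [zpow_natCast, pow_mul]
      refine H.pow_mem ?_ _
      rw [hβ, ← map_pow]
      simpa using h4
    obtain ⟨d, hd, o, ho, h6⟩ := h5
    have h7 : M ≤ k * M := Nat.le_mul_of_pos_left _ hk
    set c : ℤ := ((k * M : ℕ) : ℤ)
    have h8 : β ^ (-c) * u * β ^ (- -c) ∈ Wf β x₀ (Set.Icc (-(M : ℤ)) N) :=
      Wf.shift _ hu fun j hj => by simp only [Set.mem_Icc, Set.mem_Ici] at hj ⊢; omega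
    obtain ⟨p, h9, h10⟩ := hM _ h8
    have h11 : p⁻¹ * (β ^ (-c) * u * β ^ (- -c)) ∈ U ⊓ fixingSubgroup E (F' : Set X) :=
      ⟨U.mul_mem (U.inv_mem (hm h9)) (Wf.mono (Set.Icc_subset_Icc (by omega) le_rfl) h8),
        hfix.2 fun x hx => by rw [mul_smul, h10 x hx, inv_smul_smul]⟩
    have h12 : p⁻¹ * o * p⁻¹⁻¹ ∈ U ⊓ fixingSubgroup E (F' : Set X) :=
      ⟨U.mul_mem (U.mul_mem (U.inv_mem (hm h9)) ho.1) (U.inv_mem (U.inv_mem (hm h9))),
        hnorm h2 _ (U.inv_mem (hm h9)) _ ho.2⟩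
    have h13 := Subgroup.mul_mem _ (Subgroup.mul_mem _ h12 h11) (Subgroup.inv_mem _ ho)
    set o' := p⁻¹ * o * p⁻¹⁻¹ * (p⁻¹ * (β ^ (-c) * u * β ^ (- -c))) * o⁻¹ with ho'
    refine ⟨d * p * (o' * d⁻¹ * o'⁻¹), Subgroup.mul_mem _ (Subgroup.mul_mem _ (hD hd)
      (le_cl _ (par.of_Iic n h9))) (hD (hDn _ h13.1 _ (D.inv_mem hd))), fun x hx => ?_⟩
    have h14 : u = d * p * (o' * d⁻¹ * o'⁻¹) * o' := by
      rw [ho', neg_neg, zpow_neg, h6]; group
    conv_lhs => rw [h14, mul_smul, hfix.1 h13.2 x (h1 hx)]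
  have hplus : Wf β x₀ (Set.Ici 0) ≤ par n β x₀ := by
    refine bdd_plus n fun u hu => ?_
    obtain ⟨p, h1, h2⟩ := hE u hu ((Finset.Icc (-1 : ℤ) N).image fun j => β ^ j • x₀)
    have h3 : ∀ j : ℤ, -1 ≤ j → j ≤ N → u • β ^ j • x₀ = p • β ^ j • x₀ := fun j h h' =>
      h2 _ (Finset.mem_image_of_mem _ (Finset.mem_Icc.2 ⟨h, h'⟩))
    obtain ⟨q, h4, h5⟩ := hN p fun j hj => by
      rw [← h3 j (by have := hj.1; omega) hj.2, hu j hj.1]
    refine ⟨q, h4, ?_, ?_⟩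
    · simpa using Subgroup.mul_mem _ h1 (Subgroup.inv_mem _ (par.of_Iic n h5))
    · have h6 := h5 (-1) (by simp)
      rw [mul_smul, inv_smul_eq_iff] at h6
      rw [h3 (-1) le_rfl (by omega), h6]
  refine henv _ ((Wf.opn (β := β) (x₀ := x₀) 0 N).mono fun u hu => ?_) hA
  obtain ⟨q, h1, h2⟩ := hN u hu
  simpa using Subgroup.mul_mem _ (hplus h1) (par.of_Iic n h2)

end Pool.Agent.Lib.MP_a6ff19_al
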