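import Pool.Agent.Lib.MP_a6ff19_al.Cyc

set_option autoImplicit false
set_option linter.unusedSectionVars false

/-!
Passage to the closure in the full permutation group, and the virtual centrality of powers.
-/

namespace Pool.Agent.Lib.MP_a6ff19_al

open Filter
open scoped Pointwise

variable {G X : Type*} [Group G] [MulAction G X] {P Q : Type*} [Group P] [Group Q]

/-- The closure of a subgroup in the group of all permutations. -/
def clo (X : Type*) [MulAction G X] (E : Subgroup G) : Subgroup (Equiv.Perm X) :=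
  cl X (E.map (MulAction.toPermHom G X))

lemma clo_approx {E : Subgroup G} (σ : clo X E) (F : Finset X) :
    ∃ g ∈ E, ∀ x ∈ F, σ • x = g • x := by
  obtain ⟨_, ⟨g, hg, rfl⟩, h⟩ := σ.2 F
  exact ⟨g, hg, h⟩

/-- The neighbour structure for the closure. -/
def cloNet (n : Net G X) (E : Subgroup G) : Net (clo X E) X where
  N := n.N
  symm := n.symm
  smul_mem σ x y h := by
    classical
    obtain ⟨g, -, h1⟩ := clo_approx σ {x, y}
    rw [h1 x (by simp), h1 y (by simp)]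
    exact n.smul_mem g x y h
  conn := n.conn

lemma clo_cpl (n : Net G X) (E : Subgroup G) (x₀ : X) : Cpl (clo X E) x₀ := by
  intro 𝒰 g hb
  have h1 : ∀ g : ℕ → clo X E, Bdd x₀ (Set.range g) → ∀ x, ∃ y, {i | g i • x = y} ∈ 𝒰 :=
    fun g hb x => by
      obtain ⟨y, -, hy⟩ := (Ultrafilter.finite_biUnion_mem_iff (f := 𝒰)
        (s := fun y => {i | g i • x = y}) (hb.orbit (cloNet n E) x)).1
        (mem_of_superset univ_mem fun i _ => Set.mem_biUnion ⟨g i, ⟨i, rfl⟩, rfl⟩ rfl)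
      exact ⟨y, hy⟩
  choose f hf using h1 g hb
  choose f' hf' using h1 (fun i => (g i)⁻¹) ((hb.inv (cloNet n E)).mono (by
    rintro _ ⟨i, rfl⟩
    exact Set.inv_mem_inv.2 ⟨i, rfl⟩))
  let σ : Equiv.Perm X :=
    { toFun := f
      invFun := f'
      left_inv := fun x => by
        obtain ⟨i, h2, h3⟩ := Filter.nonempty_of_mem (inter_mem (hf x) (hf' (f x)))
        rw [← h3.out, ← h2.out, inv_smul_smul]
      right_inv := fun x => by
        obtain ⟨i, h2, h3⟩ := Filter.nonempty_of_mem (inter_mem (hf' x) (hf (f' x)))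
        rw [← h3.out, ← h2.out, smul_inv_smul] }
  refine ⟨⟨σ, cl_cl fun F => ?_⟩, fun x => hf x⟩
  obtain ⟨i, hi⟩ := Filter.nonempty_of_mem ((biInter_finset_mem F).2 fun x _ => hf x)
  exact ⟨g i, (g i).2, fun x hx => (Set.mem_iInter₂.1 hi x hx).symm⟩

theorem cyc (n : Net G X) (x₀ : X) {ρ : P × Q →* G} (hp : ∀ x y : X, {l | ρ l • x = y}.Finite)
    {S : Finset P} {E : Subgroup G} (h : IsEnv x₀ (ρ.comp (MonoidHom.inl P Q)) S E)
    (hρ : ∀ l, ρ l ∈ E) (hc : Coc x₀ ρ E) (hQ : Group.FG Q) (b : Q) :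
    ∃ m : ℕ, 0 < m ∧ (Subgroup.centralizer ({b ^ m} : Set Q)).FiniteIndex := by
  classical
  let ρ' : P × Q →* clo X E := ((MulAction.toPermHom G X).comp ρ).codRestrict _ fun l =>
    le_cl _ ⟨ρ l, hρ l, rfl⟩
  have hp' : ∀ x y : X, {l | ρ' l • x = y}.Finite := hp
  have h1 := cyc_cpl (cloNet n E) x₀ (clo_cpl n E x₀) (ρ := ρ') hp' (by
    obtain ⟨B, hB, h1⟩ := hc
    refine ⟨_, Bdd.preimage hB, fun σ => ?_⟩
    obtain ⟨g, hg, h2⟩ := clo_approx σ {x₀}
    obtain ⟨l, hl⟩ := h1 g hg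
    refine ⟨l, _, hl, ?_⟩
    change (ρ l * g) • x₀ = (ρ' l * σ) • x₀
    rw [mul_smul, mul_smul, h2 x₀ (by simp)]
    rfl) (fun O hO hO' => by
    obtain ⟨F, hF⟩ := hO
    obtain ⟨F', hF'⟩ := h.opn
    let O' := (O.map (clo X E).subtype).comap (MulAction.toPermHom G X)
    have h2 := h.relIndex n (O := O') ⟨F ∪ F', fun g hg => ⟨⟨_, le_cl _
      ⟨g, hF' g fun x hx => hg x (Finset.mem_union_right _ hx), rfl⟩⟩,
      hF _ fun x hx => hg x (Finset.mem_union_left _ hx), rfl⟩⟩ fun a => ⟨_, hO' a, rfl⟩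
    have h3 : O.comap (ρ'.comp (MonoidHom.inr P Q)) = O'.comap (ρ.comp (MonoidHom.inr P Q)) := by
      ext q
      exact ⟨fun hq => ⟨_, hq, rfl⟩, fun ⟨σ, h4, h5⟩ => by
        have : σ = ρ' (1, q) := Subtype.ext h5
        rw [this] at h4
        exact h4⟩
    rw [h3, Subgroup.index_comap]
    exact fun h4 => h2 (Subgroup.relIndex_eq_zero_of_le_right (by
      rintro _ ⟨q, rfl⟩; exact hρ _) h4)) b
  set Q' := (par (cloNet n E) (ρ' (1, b)) x₀).comap (ρ'.comp (MonoidHom.inr P Q))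
  have : Q'.FiniteIndex := ⟨h1⟩
  have h2 : ∀ s ∈ Q', ∃ k : ℕ, 0 < k ∧ Commute (b ^ k) s := fun s hs => by
    have h3 := Bdd.proper hp' hs
    obtain ⟨i, j, hij, h4⟩ := Set.Finite.exists_lt_map_eq_of_forall_mem
      (f := fun k : ℕ => ((1 : P), b ^ k * s * (b ^ k)⁻¹)) (fun k => by
        have h5 : ((1 : P), b ^ k * s * (b ^ k)⁻¹) = (1, b) ^ k * (1, s) * ((1, b) ^ k)⁻¹ := by
          simp
        refine Set.mem_range.2 ⟨k, ?_⟩
        simp only [h5, map_mul, map_inv, map_pow, zpow_neg, zpow_natCast]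
        rfl) h3
    obtain ⟨d, rfl⟩ := Nat.exists_eq_add_of_lt hij
    refine ⟨d + 1, d.succ_pos, ?_⟩
    have h5 : b ^ i * s * (b ^ i)⁻¹ = b ^ (i + d + 1) * s * (b ^ (i + d + 1))⁻¹ :=
      congrArg Prod.snd h4
    rw [add_assoc, pow_add] at h5
    have h6 : s = b ^ (d + 1) * s * (b ^ (d + 1))⁻¹ := by
      apply (MulAut.conj (b ^ i)).injective
      simp only [MulAut.conj_apply]
      rw [h5]; group
    exact (eq_mul_inv_iff_mul_eq.1 h6).symm
  obtain ⟨T, hT⟩ := (Group.fg_iff_subgroup_fg Q').1 inferInstance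
  choose! k hk1 hk2 using h2
  have h3 : ∀ s ∈ T, s ∈ Q' := fun s hs => hT ▸ Subgroup.subset_closure hs
  refine ⟨∏ s ∈ T, k s, Finset.prod_pos fun s hs => hk1 s (h3 s hs),
    Subgroup.finiteIndex_of_le (H := Q') ?_⟩
  rw [← hT, Subgroup.closure_le]
  intro s hs
  obtain ⟨c, hc⟩ := Finset.dvd_prod_of_mem k hs
  rw [SetLike.mem_coe, Subgroup.mem_centralizer_singleton_iff, hc, pow_mul]
  exact ((hk2 s (h3 s hs)).pow_left c).symm.eq

end Pool.Agent.Lib.MP_a6ff19_al
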