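import Mathlib

set_option autoImplicit false

/-!
Graphically discrete groups and property (FH).
-/

namespace Pool.Agent.Lib.MP_a6ff19_al

/-- The topology of pointwise convergence on the automorphism group of a graph, the vertex set
being discrete. -/
@[reducible] def autTop {V : Type} (X : SimpleGraph V) : TopologicalSpace (X ≃g X) :=
  TopologicalSpace.induced (fun g : X ≃g X => (g : V → V))
    (@Pi.topologicalSpace V (fun _ => V) fun _ => ⊥)

/-- A topological group is compact-by-discrete if it has a compact normal subgroup with discrete
quotient. -/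
def CompactByDiscrete (G : Type) [Group G] [TopologicalSpace G] : Prop :=
  ∃ K : Subgroup G, K.Normal ∧ IsCompact (K : Set G) ∧ DiscreteTopology (G ⧸ K)

/-- An action by graph automorphisms is geometric if it is proper and cocompact for the path
metric. -/
def IsGeometric {Γ V : Type} [Group Γ] (X : SimpleGraph V) (φ : Γ →* (X ≃g X)) : Prop :=
  (∀ (v : V) (r : ℕ), {γ : Γ | X.dist (φ γ v) v ≤ r}.Finite) ∧
    ∃ (v : V) (r : ℕ), ∀ w : V, ∃ γ : Γ, X.dist (φ γ v) w ≤ r

/-- A finitely generated group is graphically discrete if the automorphism group of every connected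
locally finite graph on which it acts geometrically is compact-by-discrete. -/
def GraphicallyDiscrete (Γ : Type) [Group Γ] : Prop :=
  Group.FG Γ ∧ ∀ (V : Type) (X : SimpleGraph V), X.Connected → (∀ v, (X.neighborSet v).Finite) →
    ∀ φ : Γ →* (X ≃g X), IsGeometric X φ → @CompactByDiscrete (X ≃g X) _ (autTop X)

/-- Property (FH): every isometric action on a real Hilbert space has a fixed point. -/
def PropertyFH (A : Type) [Group A] : Prop :=
  ∀ (H : Type) [NormedAddCommGroup H] [InnerProductSpace ℝ H] [CompleteSpace H]
    (α : A →* (H ≃ᵢ H)), ∃ v : H, ∀ a : A, α a v = v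

end Pool.Agent.Lib.MP_a6ff19_al
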