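import Pool.Agent.Lib.MP_a6ff19_al.Net

set_option autoImplicit false
set_option linter.unusedSectionVars false

/-!
Affine isometric actions, energy of equivariant maps, gradient flow, approximately harmonic maps.
-/

namespace Pool.Agent.Lib.MP_a6ff19_al

open Finset Filter Topology
open scoped RealInnerProductSpace

/-- An affine isometric action given by its linear part and its cocycle. -/
structure AffAct (Λ K : Type*) [Group Λ] [NormedAddCommGroup K] [InnerProductSpace ℝ K] where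
  π : Λ →* (K ≃ₗᵢ[ℝ] K)
  c : Λ → K
  c_mul : ∀ l m, c (l * m) = π l (c m) + c l

variable {E X : Type*} [Group E] [MulAction E X] {Λ : Type*} [Group Λ] {ρ : Λ →* E}
  {K : Type*} [NormedAddCommGroup K] [InnerProductSpace ℝ K]

namespace AffAct

variable (α : AffAct Λ K)

/-- The action itself. -/
def act (l : Λ) (v : K) : K := α.π l v + α.c l

lemma c_one : α.c 1 = 0 := by
  have := α.c_mul 1 1
  simpa using this

lemma act_one (v : K) : α.act 1 v = v := by simp [act, c_one]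

lemma act_mul (l m : Λ) (v : K) : α.act (l * m) v = α.act l (α.act m v) := by
  simp [act, α.c_mul, add_assoc]

lemma act_sub (l : Λ) (v w : K) : α.act l v - α.act l w = α.π l (v - w) := by
  simp [act]

lemma continuous_act (l : Λ) : Continuous (α.act l) :=
  (α.π l).continuous.add continuous_const

/-- Total displacement under a finite set. -/
noncomputable def disp (S : Finset Λ) (v : K) : ℝ := ∑ s ∈ S, ‖α.act s v - v‖

lemma disp_nonneg (S : Finset Λ) (v : K) : 0 ≤ α.disp S v :=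
  Finset.sum_nonneg fun _ _ => norm_nonneg _

lemma exists_disp_bound {S : Finset Λ} (hS : Subgroup.closure (S : Set Λ) = ⊤) (l : Λ) :
    ∃ C : ℝ, 0 ≤ C ∧ ∀ v, ‖α.act l v - v‖ ≤ C * α.disp S v := by
  have hl : l ∈ Subgroup.closure (S : Set Λ) := hS ▸ Subgroup.mem_top l
  induction hl using Subgroup.closure_induction with
  | mem s hs =>
    refine ⟨1, zero_le_one, fun v => ?_⟩
    rw [one_mul]
    exact Finset.single_le_sum (f := fun s => ‖α.act s v - v‖) (fun _ _ => norm_nonneg _) hs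
  | one => exact ⟨0, le_rfl, fun v => by simp [act_one]⟩
  | mul a b _ _ ha hb =>
    obtain ⟨C, hC, ha⟩ := ha
    obtain ⟨D, hD, hb⟩ := hb
    refine ⟨C + D, by positivity, fun v => ?_⟩
    have : α.act (a * b) v - v = α.π a (α.act b v - v) + (α.act a v - v) := by
      rw [act_mul, ← act_sub]; abel
    rw [this]
    refine (norm_add_le _ _).trans ?_
    rw [LinearIsometryEquiv.norm_map]
    linarith [ha v, hb v]
  | inv a _ ha =>
    obtain ⟨C, hC, ha⟩ := ha
    refine ⟨C, hC, fun v => ?_⟩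
    have : α.π a (α.act a⁻¹ v - v) = -(α.act a v - v) := by
      rw [← act_sub, ← act_mul, mul_inv_cancel, act_one]; abel
    rw [← (α.π a).norm_map, this, norm_neg]
    exact ha v

end AffAct

/-- Equivariance of differences. -/
def DiffEqv (ρ : Λ →* E) (π : Λ →* (K ≃ₗᵢ[ℝ] K)) (f : X → K) : Prop :=
  ∀ l x y, f (ρ l • x) - f (ρ l • y) = π l (f x - f y)

/-- Equivariance for the linear action. -/
def LinEqv (ρ : Λ →* E) (π : Λ →* (K ≃ₗᵢ[ℝ] K)) (f : X → K) : Prop :=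
  ∀ l x, f (ρ l • x) = π l (f x)

/-- Equivariance for the affine action. -/
def Eqv (ρ : Λ →* E) (α : AffAct Λ K) (f : X → K) : Prop :=
  ∀ l x, f (ρ l • x) = α.act l (f x)

lemma Eqv.diff {α : AffAct Λ K} {f : X → K} (h : Eqv ρ α f) : DiffEqv ρ α.π f :=
  fun l x y => by rw [h, h, α.act_sub]

lemma LinEqv.diff {π : Λ →* (K ≃ₗᵢ[ℝ] K)} {f : X → K} (h : LinEqv ρ π f) : DiffEqv ρ π f :=
  fun l x y => by rw [h, h, map_sub]

lemma DiffEqv.lap {π : Λ →* (K ≃ₗᵢ[ℝ] K)} {f : X → K} (h : DiffEqv ρ π f) (n : Net E X) :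
    LinEqv ρ π (n.lap f) := fun l x => by
  simp only [Net.lap]
  rw [n.sum_smul, map_sum]
  exact Finset.sum_congr rfl fun y _ => h l y x

variable (n : Net E X) (W : Weight ρ X)

/-- The energy form. -/
noncomputable def en (f g : X → K) : ℝ := ∑ x ∈ W.S, W.w x * ∑ y ∈ n.N x, ⟪f y - f x, g y - g x⟫

/-- The weighted square norm. -/
noncomputable def nrm (f : X → K) : ℝ := ∑ x ∈ W.S, W.w x * ‖f x‖ ^ 2

lemma en_self (f : X → K) : en n W f f = ∑ x ∈ W.S, W.w x * ∑ y ∈ n.N x, ‖f y - f x‖ ^ 2 := by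
  simp only [en, real_inner_self_eq_norm_sq]

lemma en_nonneg (f : X → K) : 0 ≤ en n W f f := by
  rw [en_self]
  exact Finset.sum_nonneg fun x _ => mul_nonneg (W.nonneg x)
    (Finset.sum_nonneg fun _ _ => sq_nonneg _)

lemma nrm_nonneg (f : X → K) : 0 ≤ nrm W f :=
  Finset.sum_nonneg fun x _ => mul_nonneg (W.nonneg x) (sq_nonneg _)

lemma en_comm (f g : X → K) : en n W f g = en n W g f := by
  simp only [en, real_inner_comm]

lemma en_add_left (f g h : X → K) : en n W (f + g) h = en n W f h + en n W g h := by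
  simp only [en, ← Finset.sum_add_distrib, ← mul_add, Pi.add_apply, ← inner_add_left]
  refine Finset.sum_congr rfl fun x _ => congrArg _ (Finset.sum_congr rfl fun y _ => ?_)
  congr 1; abel

lemma en_smul_left (t : ℝ) (f h : X → K) : en n W (t • f) h = t * en n W f h := by
  simp only [en, Pi.smul_apply, ← smul_sub, real_inner_smul_left, Finset.mul_sum]
  refine Finset.sum_congr rfl fun x _ => Finset.sum_congr rfl fun y _ => by ring

lemma by_parts {π : Λ →* (K ≃ₗᵢ[ℝ] K)} {ξ f : X → K} (hξ : LinEqv ρ π ξ) (hf : DiffEqv ρ π f) :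
    en n W ξ f = -2 * ∑ x ∈ W.S, W.w x * ⟪ξ x, n.lap f x⟫ := by
  have h1 := W.transport n (fun x y => ⟪ξ y, f y - f x⟫) (fun l x y => by
    rw [hξ, hf, LinearIsometryEquiv.inner_map_map])
  have h2 : ∀ x, ⟪ξ x, n.lap f x⟫ = ∑ y ∈ n.N x, ⟪ξ x, f y - f x⟫ := fun x => by
    rw [Net.lap, inner_sum]
  have h3 : ∀ x, ∑ y ∈ n.N x, ⟪ξ x, f x - f y⟫ = -∑ y ∈ n.N x, ⟪ξ x, f y - f x⟫ := fun x => by
    rw [← Finset.sum_neg_distrib]
    exact Finset.sum_congr rfl fun y _ => by rw [← inner_neg_right, neg_sub]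
  simp only [h3, mul_neg, Finset.sum_neg_distrib] at h1
  simp only [en, inner_sub_left, Finset.sum_sub_distrib, mul_sub, h2]
  rw [h1]
  ring

lemma en_le_nrm {π : Λ →* (K ≃ₗᵢ[ℝ] K)} {ξ : X → K} (hξ : LinEqv ρ π ξ) {d : ℕ}
    (hd : ∀ x, (n.N x).card ≤ d) : en n W ξ ξ ≤ 4 * d * nrm W ξ := by
  have h1 := W.transport n (fun _ y => ‖ξ y‖ ^ 2) (fun l x y => by
    rw [hξ, LinearIsometryEquiv.norm_map])
  have h2 : ∑ x ∈ W.S, W.w x * ∑ _y ∈ n.N x, ‖ξ x‖ ^ 2 ≤ d * nrm W ξ := by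
    rw [nrm, Finset.mul_sum]
    refine Finset.sum_le_sum fun x _ => ?_
    rw [Finset.sum_const, nsmul_eq_mul]
    have : ((n.N x).card : ℝ) ≤ d := by exact_mod_cast hd x
    have h0 := mul_nonneg (W.nonneg x) (sq_nonneg ‖ξ x‖)
    nlinarith
  rw [en_self]
  calc ∑ x ∈ W.S, W.w x * ∑ y ∈ n.N x, ‖ξ y - ξ x‖ ^ 2
      ≤ ∑ x ∈ W.S, W.w x * ∑ y ∈ n.N x, (2 * ‖ξ y‖ ^ 2 + 2 * ‖ξ x‖ ^ 2) := by
        refine Finset.sum_le_sum fun x _ => mul_le_mul_of_nonneg_left
          (Finset.sum_le_sum fun y _ => ?_) (W.nonneg x)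
        have := norm_sub_le (ξ y) (ξ x)
        nlinarith [norm_nonneg (ξ y - ξ x), norm_nonneg (ξ y), norm_nonneg (ξ x),
          sq_nonneg (‖ξ y‖ - ‖ξ x‖)]
    _ = 2 * ∑ x ∈ W.S, W.w x * ∑ y ∈ n.N x, ‖ξ y‖ ^ 2
        + 2 * ∑ x ∈ W.S, W.w x * ∑ _y ∈ n.N x, ‖ξ x‖ ^ 2 := by
        simp only [Finset.sum_add_distrib, mul_add, Finset.mul_sum]
        congr 1 <;> exact Finset.sum_congr rfl fun x _ => Finset.sum_congr rfl fun y _ => by ring
    _ ≤ _ := by rw [h1]; linarith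

/-- Local energy is controlled by the energy. -/
lemma exists_local_bound (x : X) : ∃ C : ℝ, 0 ≤ C ∧ ∀ (π : Λ →* (K ≃ₗᵢ[ℝ] K)) (f : X → K),
    DiffEqv ρ π f → ∑ y ∈ n.N x, ‖f y - f x‖ ^ 2 ≤ C * en n W f f := by
  obtain ⟨C, hC, h⟩ := W.exists_bound x
  refine ⟨C, hC, fun π f hf => ?_⟩
  rw [en_self]
  refine h (fun x => ∑ y ∈ n.N x, ‖f y - f x‖ ^ 2)
    (fun x => Finset.sum_nonneg fun _ _ => sq_nonneg _) fun l x => ?_
  rw [n.sum_smul]
  exact Finset.sum_congr rfl fun y _ => by rw [hf, LinearIsometryEquiv.norm_map]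

lemma exists_pair_bound (x y : X) : ∃ C : ℝ, 0 ≤ C ∧ ∀ (π : Λ →* (K ≃ₗᵢ[ℝ] K)) (f : X → K),
    DiffEqv ρ π f → ‖f y - f x‖ ≤ C * √(en n W f f) := by
  induction n.conn x y with
  | refl => exact ⟨0, le_rfl, fun π f _ => by simp⟩
  | @tail b c _ h2 ih =>
    obtain ⟨C, hC, ih⟩ := ih
    obtain ⟨D, hD, h⟩ := exists_local_bound (K := K) n W b
    refine ⟨√D + C, by positivity, fun π f hf => ?_⟩
    have h3 : ‖f c - f b‖ ^ 2 ≤ D * en n W f f :=
      (Finset.single_le_sum (f := fun y => ‖f y - f b‖ ^ 2) (fun _ _ => sq_nonneg _) h2).trans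
        (h π f hf)
    have h4 : ‖f c - f b‖ ≤ √D * √(en n W f f) := by
      rw [← Real.sqrt_mul hD]
      exact Real.le_sqrt_of_sq_le h3
    calc ‖f c - f x‖ = ‖(f c - f b) + (f b - f x)‖ := by congr 1; abel
      _ ≤ ‖f c - f b‖ + ‖f b - f x‖ := norm_add_le _ _
      _ ≤ _ := by linarith [ih π f hf]

lemma exists_lap_bound (x : X) : ∃ C : ℝ, 0 ≤ C ∧ ∀ (π : Λ →* (K ≃ₗᵢ[ℝ] K)) (f : X → K),
    DiffEqv ρ π f → ‖n.lap f x‖ ≤ C * √(en n W f f) := by
  choose C hC h using fun y => exists_pair_bound (K := K) n W x y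
  refine ⟨∑ y ∈ n.N x, C y, Finset.sum_nonneg fun y _ => hC y, fun π f hf => ?_⟩
  rw [Finset.sum_mul]
  exact (norm_sum_le _ _).trans (Finset.sum_le_sum fun y _ => h y π f hf)

lemma en_step {π : Λ →* (K ≃ₗᵢ[ℝ] K)} {f : X → K} (hf : DiffEqv ρ π f) {d : ℕ} (hd0 : 0 < d)
    (hd : ∀ x, (n.N x).card ≤ d) :
    en n W (f + (2 * d : ℝ)⁻¹ • n.lap f) (f + (2 * d : ℝ)⁻¹ • n.lap f) ≤
      en n W f f - (d : ℝ)⁻¹ * nrm W (n.lap f) := by
  have h1 : en n W (n.lap f) f = -2 * nrm W (n.lap f) := by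
    rw [by_parts n W (hf.lap n) hf]
    simp only [nrm, real_inner_self_eq_norm_sq]
  have h2 := en_le_nrm n W (hf.lap n) hd
  rw [en_add_left, en_smul_left, en_comm n W f, en_comm n W (n.lap f), en_add_left, en_add_left,
    en_smul_left, en_smul_left, en_comm n W f (n.lap f), h1]
  have hd' : (0 : ℝ) < d := by exact_mod_cast hd0
  have h3 : (2 * d : ℝ)⁻¹ * ((2 * d : ℝ)⁻¹ * en n W (n.lap f) (n.lap f)) ≤
      (2 * d : ℝ)⁻¹ * ((2 * d : ℝ)⁻¹ * (4 * d * nrm W (n.lap f))) := by gcongr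
  have h4 : (2 * d : ℝ)⁻¹ * ((2 * d : ℝ)⁻¹ * (4 * d * nrm W (n.lap f))) =
      (d : ℝ)⁻¹ * nrm W (n.lap f) := by field_simp; ring
  have h5 : (2 * d : ℝ)⁻¹ * (-2 * nrm W (n.lap f)) = -((d : ℝ)⁻¹ * nrm W (n.lap f)) := by
    field_simp
  rw [mul_add, h5]
  linarith

lemma Eqv.step {α : AffAct Λ K} {f : X → K} (hf : Eqv ρ α f) (t : ℝ) :
    Eqv ρ α (f + t • n.lap f) := fun l x => by
  simp only [Pi.add_apply, Pi.smul_apply]
  rw [hf, hf.diff.lap n, AffAct.act, AffAct.act, map_add, map_smul]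
  abel

/-- Gradient flow: a spectral gap makes every equivariant map close to a fixed point. -/
lemma flow [CompleteSpace K] (α : AffAct Λ K) (x₀ : X) {δ : ℝ} (hδ : 0 < δ)
    (h : ∀ f : X → K, Eqv ρ α f → δ * en n W f f ≤ nrm W (n.lap f)) :
    ∃ C : ℝ, 0 ≤ C ∧ ∀ f : X → K, Eqv ρ α f →
      ∃ v, (∀ l, α.act l v = v) ∧ ‖f x₀ - v‖ ≤ C * √(en n W f f) := by
  obtain ⟨d, hd0, hd⟩ := W.exists_deg n
  have hd' : (0 : ℝ) < d := by exact_mod_cast hd0
  set q : ℝ := max (1 - δ / d) 0 with hq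
  have hq0 : 0 ≤ q := le_max_right _ _
  have hq1 : q < 1 := max_lt (by linarith [div_pos hδ hd']) one_pos
  set r := √q with hr
  have hr0 : 0 ≤ r := Real.sqrt_nonneg _
  have hr1 : r < 1 := by rw [hr, Real.sqrt_lt' one_pos]; simpa using hq1
  obtain ⟨L, hL, hlap⟩ := exists_lap_bound (K := K) n W x₀
  refine ⟨(2 * d : ℝ)⁻¹ * L / (1 - r), by have := sub_pos.2 hr1; positivity, fun f hf => ?_⟩
  let T : (X → K) → (X → K) := fun g => g + (2 * d : ℝ)⁻¹ • n.lap g
  have hT : ∀ k, Eqv ρ α (T^[k] f) := fun k => by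
    induction k with
    | zero => exact hf
    | succ k ih => rw [Function.iterate_succ_apply']; exact ih.step n _
  have hen : ∀ k, √(en n W (T^[k] f) (T^[k] f)) ≤ √(en n W f f) * r ^ k := fun k => by
    induction k with
    | zero => simp
    | succ k ih =>
      rw [Function.iterate_succ_apply']
      have h1 := en_step n W (hT k).diff hd0 hd
      have h2 := h _ (hT k)
      have h3 : en n W (T (T^[k] f)) (T (T^[k] f)) ≤ q * en n W (T^[k] f) (T^[k] f) := by
        refine h1.trans ?_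
        have h4 : (d : ℝ)⁻¹ * (δ * en n W (T^[k] f) (T^[k] f)) ≤
            (d : ℝ)⁻¹ * nrm W (n.lap (T^[k] f)) := by gcongr
        have h5 : (1 - δ / d) * en n W (T^[k] f) (T^[k] f) ≤ q * en n W (T^[k] f) (T^[k] f) :=
          mul_le_mul_of_nonneg_right (le_max_left _ _) (en_nonneg n W _)
        rw [div_eq_inv_mul] at h5
        nlinarith
      calc _ ≤ √(q * en n W (T^[k] f) (T^[k] f)) := Real.sqrt_le_sqrt h3
        _ = r * √(en n W (T^[k] f) (T^[k] f)) := Real.sqrt_mul hq0 _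
        _ ≤ r * (√(en n W f f) * r ^ k) := by gcongr
        _ = _ := by ring
  have hstep : ∀ k, dist (T^[k] f x₀) (T^[k + 1] f x₀) ≤
      ((2 * d : ℝ)⁻¹ * L * √(en n W f f)) * r ^ k := fun k => by
    rw [Function.iterate_succ_apply', dist_comm, dist_eq_norm]
    simp only [T, Pi.add_apply, Pi.smul_apply, add_sub_cancel_left, norm_smul]
    rw [Real.norm_of_nonneg (by positivity)]
    have h1 := (hlap _ _ (hT k).diff).trans (mul_le_mul_of_nonneg_left (hen k) hL)
    calc _ ≤ (2 * d : ℝ)⁻¹ * (L * (√(en n W f f) * r ^ k)) := by gcongr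
      _ = _ := by ring
  obtain ⟨v, hv⟩ := cauchySeq_tendsto_of_complete (cauchySeq_of_le_geometric r _ hr1 hstep)
  refine ⟨v, fun l => ?_, ?_⟩
  · obtain ⟨C, hC, hpair⟩ := exists_pair_bound (K := K) n W x₀ (ρ l • x₀)
    have h1 : Tendsto (fun k => α.act l (T^[k] f x₀) - T^[k] f x₀) atTop (𝓝 (α.act l v - v)) :=
      (((α.continuous_act l).tendsto v).comp hv).sub hv
    have h2 : Tendsto (fun k => α.act l (T^[k] f x₀) - T^[k] f x₀) atTop (𝓝 0) := by
      refine squeeze_zero_norm (a := fun k => C * (√(en n W f f) * r ^ k)) (fun k => ?_) ?_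
      · rw [← hT k]
        exact (hpair _ _ (hT k).diff).trans (mul_le_mul_of_nonneg_left (hen k) hC)
      · simpa using ((tendsto_pow_atTop_nhds_zero_of_lt_one hr0 hr1).const_mul
          (√(en n W f f))).const_mul C
    exact sub_eq_zero.1 (tendsto_nhds_unique h1 h2)
  · have := dist_le_of_le_geometric_of_tendsto₀ r _ hr1 hstep hv
    rw [dist_eq_norm] at this
    refine this.trans (le_of_eq ?_)
    ring

/-- The equivariant map built from a point. -/
noncomputable def ext (α : AffAct Λ K) (v : K) (x : X) : K := ∑ᶠ l, W.w (ρ l • x) • α.act l⁻¹ v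

lemma ext_eq (α : AffAct Λ K) (v : K) (x : X) :
    ext W α v x = ∑ l ∈ (W.fin x).toFinset, W.w (ρ l • x) • α.act l⁻¹ v := by
  refine finsum_eq_sum_of_support_subset _ fun l hl => ?_
  simp only [Set.Finite.coe_toFinset]
  intro h
  simp only at h
  simp [h] at hl

lemma sum_w (x : X) : ∑ l ∈ (W.fin x).toFinset, W.w (ρ l • x) = 1 := by
  rw [← W.sum_one x, finsum_eq_sum _ (W.fin x)]

lemma ext_eqv (α : AffAct Λ K) (v : K) : Eqv ρ α (ext W α v) := fun m x => by
  have h1 : ext W α v (ρ m • x) = ∑ᶠ l, W.w (ρ l • x) • α.act m (α.act l⁻¹ v) := by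
    rw [ext, ← finsum_comp_equiv (Equiv.mulRight m⁻¹)]
    refine finsum_congr fun l => ?_
    simp [mul_smul, ← α.act_mul]
  rw [h1, finsum_eq_sum_of_support_subset (s := (W.fin x).toFinset), ext_eq]
  · simp only [AffAct.act, smul_add, Finset.sum_add_distrib, map_add, map_sum, map_smul,
      ← Finset.sum_smul, sum_w, one_smul]
  · intro l hl
    simp only [Set.Finite.coe_toFinset]
    intro h
    simp only at h
    simp [h] at hl

lemma exists_ext_bound (α : AffAct Λ K) {S : Finset Λ} (hS : Subgroup.closure (S : Set Λ) = ⊤)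
    (x : X) : ∃ C : ℝ, 0 ≤ C ∧ ∀ v, ‖ext W α v x - v‖ ≤ C * α.disp S v := by
  choose C hC h using α.exists_disp_bound hS
  refine ⟨∑ l ∈ (W.fin x).toFinset, W.w (ρ l • x) * C l⁻¹,
    Finset.sum_nonneg fun l _ => mul_nonneg (W.nonneg _) (hC _), fun v => ?_⟩
  have : ext W α v x - v = ∑ l ∈ (W.fin x).toFinset, W.w (ρ l • x) • (α.act l⁻¹ v - v) := by
    simp only [smul_sub, Finset.sum_sub_distrib, ← Finset.sum_smul, sum_w, one_smul, ext_eq]
  rw [this, Finset.sum_mul]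
  refine (norm_sum_le _ _).trans (Finset.sum_le_sum fun l _ => ?_)
  rw [norm_smul, Real.norm_of_nonneg (W.nonneg _), mul_assoc]
  exact mul_le_mul_of_nonneg_left (h _ v) (W.nonneg _)

lemma exists_ext_en_bound (α : AffAct Λ K) {S : Finset Λ}
    (hS : Subgroup.closure (S : Set Λ) = ⊤) :
    ∃ C : ℝ, 0 ≤ C ∧ ∀ v, √(en n W (ext W α v) (ext W α v)) ≤ C * α.disp S v := by
  choose C hC h using exists_ext_bound W α hS
  refine ⟨√(∑ x ∈ W.S, W.w x * ∑ y ∈ n.N x, (C y + C x) ^ 2), Real.sqrt_nonneg _, fun v => ?_⟩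
  rw [← Real.sqrt_sq (α.disp_nonneg S v), ← Real.sqrt_mul' _ (sq_nonneg _), en_self]
  refine Real.sqrt_le_sqrt ?_
  rw [Finset.sum_mul]
  refine Finset.sum_le_sum fun x _ => ?_
  rw [mul_assoc, Finset.sum_mul]
  refine mul_le_mul_of_nonneg_left (Finset.sum_le_sum fun y _ => ?_) (W.nonneg x)
  rw [← mul_pow]
  refine pow_le_pow_left₀ (norm_nonneg _) ?_ 2
  calc ‖ext W α v y - ext W α v x‖ = ‖(ext W α v y - v) - (ext W α v x - v)‖ := by congr 1; abel
    _ ≤ _ := norm_sub_le _ _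
    _ ≤ _ := by linarith [h x v, h y v]

/-- Approximately harmonic equivariant maps exist when points of small displacement need not be
close to fixed points. -/
lemma exists_approx [CompleteSpace K] (α : AffAct Λ K) (x₀ : X) {S : Finset Λ}
    (hS : Subgroup.closure (S : Set Λ) = ⊤)
    (hNF : ∀ C : ℝ, ∃ v, ∀ v', (∀ l, α.act l v' = v') → C * α.disp S v < ‖v - v'‖)
    {δ : ℝ} (hδ : 0 < δ) : ∃ f : X → K, Eqv ρ α f ∧ nrm W (n.lap f) < δ * en n W f f := by
  by_contra hno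
  push Not at hno
  obtain ⟨C, hC, h⟩ := flow n W α x₀ hδ hno
  obtain ⟨D, hD, h1⟩ := exists_ext_bound W α hS x₀
  obtain ⟨D', hD', h2⟩ := exists_ext_en_bound n W α hS
  obtain ⟨v, hv⟩ := hNF (D + C * D')
  obtain ⟨v', h3, h4⟩ := h _ (ext_eqv W α v)
  have h5 := hv v' h3
  have h6 : ‖v - v'‖ ≤ ‖ext W α v x₀ - v‖ + ‖ext W α v x₀ - v'‖ := by
    calc ‖v - v'‖ = ‖(ext W α v x₀ - v') - (ext W α v x₀ - v)‖ := by congr 1; abel
      _ ≤ _ := norm_sub_le _ _
      _ = _ := add_comm _ _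
  have h7 := mul_le_mul_of_nonneg_left (h2 v) hC
  nlinarith [h1 v]

include W in
/-- A harmonic equivariant map is constant if the action has almost fixed points. -/
lemma const_of_almost_fixed (α : AffAct Λ K) {S : Finset Λ}
    (hS : Subgroup.closure (S : Set Λ) = ⊤) (haf : ∀ ε : ℝ, 0 < ε → ∃ v, α.disp S v ≤ ε)
    {f : X → K} (hf : Eqv ρ α f) (hh : ∀ x, n.lap f x = 0) (x y : X) : f y = f x := by
  obtain ⟨D, hD, h2⟩ := exists_ext_en_bound n W α hS
  have key : ∀ v, en n W f f ≤ en n W (ext W α v) (ext W α v) := fun v => by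
    set g := ext W α v
    have hg : Eqv ρ α g := ext_eqv W α v
    have hξ : LinEqv ρ α.π (g + (-1 : ℝ) • f) := fun l z => by
      simp only [Pi.add_apply, Pi.neg_apply, neg_smul, one_smul]
      rw [← sub_eq_add_neg, ← sub_eq_add_neg, hf, hg, α.act_sub]
    have h3 := by_parts n W hξ hf.diff
    simp only [hh, inner_zero_right, mul_zero, Finset.sum_const_zero] at h3
    have h4 := en_nonneg n W (g + (-1 : ℝ) • f)
    rw [en_add_left, en_smul_left, en_comm n W f, h3, en_comm, en_add_left, en_smul_left] at h4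
    rw [en_add_left, en_smul_left] at h3
    rw [en_comm n W f g] at h4
    linarith
  have h0 : √(en n W f f) ≤ 0 := by
    refine le_of_forall_pos_le_add fun ε hε => ?_
    obtain ⟨v, hv⟩ := haf (ε / (D + 1)) (by positivity)
    have h5 := (Real.sqrt_le_sqrt (key v)).trans (h2 v)
    have h6 : D * α.disp S v ≤ D * (ε / (D + 1)) := mul_le_mul_of_nonneg_left hv hD
    have h7 : D * (ε / (D + 1)) ≤ ε := by
      rw [← mul_div_assoc, div_le_iff₀ (by positivity)]; nlinarith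
    linarith
  obtain ⟨C, hC, h⟩ := exists_pair_bound (K := K) n W x y
  have := (h _ _ hf.diff).trans (mul_nonpos_of_nonneg_of_nonpos hC h0)
  exact sub_eq_zero.1 (norm_le_zero_iff.1 this)

end Pool.Agent.Lib.MP_a6ff19_al
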