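import Pool.Agent.Lib.MP_a6ff19_al.Coset
import Pool.Agent.Lib.MP_a6ff19_al.Core

set_option autoImplicit false
set_option linter.unusedSectionVars false

/-!
Minimal open envelopes of finitely generated subgroups.
-/

namespace Pool.Agent.Lib.MP_a6ff19_al

open scoped Pointwise
open MulAction

universe u v

variable {G : Type u} {X : Type*} [Group G] [MulAction G X] {B : Type*} [Group B]

/-- A minimal open envelope of the image of `σ`. -/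
structure IsEnv (x₀ : X) (σ : B →* G) (S : Finset B) (E : Subgroup G) : Prop where
  symm : ∀ s ∈ S, s⁻¹ ∈ S
  top : Subgroup.closure (S : Set B) = ⊤
  opn : Opn X E
  mem : ∀ b, σ b ∈ E
  gen : E ≤ Subgroup.closure ({u | u ∈ E ∧ u • x₀ = x₀} ∪ σ '' S)
  edge : ∀ O : Subgroup G, Opn X O → (∀ b, σ b ∈ O) → ∀ w ∈ E, w • x₀ = x₀ → ∀ s ∈ S,
    ∃ w' ∈ O ⊓ E, w' • x₀ = x₀ ∧ ∃ s' ∈ S, w' • σ s' • x₀ = w • σ s • x₀

lemma exists_env (n : Net G X) (x₀ : X) (σ : B →* G) (hB : Group.FG B) {E₀ : Subgroup G}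
    (h₀ : Opn X E₀) (h₁ : ∀ b, σ b ∈ E₀) : ∃ S E, E ≤ E₀ ∧ IsEnv x₀ σ S E := by
  obtain ⟨S, -, hsymm, htop⟩ := exists_symm_gen hB
  let D : Subgroup G → Set X := fun O =>
    {y | ∃ w ∈ O, w • x₀ = x₀ ∧ ∃ s ∈ S, w • σ s • x₀ = y}
  have hD : ∀ O, (D O).Finite := fun O => by
    refine Set.Finite.subset (((Bdd.stab x₀).mul n
      (Bdd.of_finite x₀ (S.finite_toSet.image σ)))) ?_
    rintro _ ⟨w, -, hw, s, hs, rfl⟩
    exact ⟨_, ⟨w, hw, _, ⟨s, hs, rfl⟩, rfl⟩, mul_smul _ _ _⟩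
  obtain ⟨O₀, ⟨h1, h2, h3⟩, hmin⟩ := (measure fun O => (D O).ncard).wf.has_min
    {O | O ≤ E₀ ∧ Opn X O ∧ ∀ b, σ b ∈ O} ⟨E₀, le_rfl, h₀, h₁⟩
  let E := Subgroup.closure ({u | u ∈ O₀ ∧ u • x₀ = x₀} ∪ σ '' S)
  have hE : E ≤ O₀ := (Subgroup.closure_le _).2 (by
    rintro g (hg | ⟨s, -, rfl⟩)
    · exact hg.1
    · exact h3 s)
  have hEo : Opn X E := (h2.inf (Opn.stab x₀)).mono fun g hg =>
    Subgroup.subset_closure (Or.inl hg)
  have hEm : ∀ b, σ b ∈ E := fun b => by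
    have : Subgroup.closure (S : Set B) ≤ E.comap σ :=
      (Subgroup.closure_le _).2 fun s hs => Subgroup.subset_closure (Or.inr ⟨s, hs, rfl⟩)
    exact this (htop ▸ Subgroup.mem_top b)
  refine ⟨S, E, hE.trans h1, hsymm, htop, hEo, hEm, Subgroup.closure_mono ?_, ?_⟩
  · exact Set.union_subset_union_left _ fun g hg => ⟨Subgroup.subset_closure (Or.inl hg), hg.2⟩
  · intro O hO hO' w hw hw' s hs
    have h4 : D (O ⊓ E) = D O₀ := by
      refine Set.eq_of_subset_of_ncard_le ?_ (not_lt.1 (hmin (O ⊓ E)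
        ⟨inf_le_right.trans (hE.trans h1), hO.inf hEo, fun b => ⟨hO' b, hEm b⟩⟩)) (hD _)
      rintro _ ⟨w, hw, h⟩
      exact ⟨w, hE hw.2, h⟩
    have h5 : w • σ s • x₀ ∈ D O₀ := ⟨w, hE hw, hw', s, hs, rfl⟩
    rw [← h4] at h5
    exact h5

namespace IsEnv

variable {x₀ : X} {σ : B →* G} {S : Finset B} {E : Subgroup G}

lemma trans (h : IsEnv x₀ σ S E) {O : Subgroup G} (hO : Opn X O) (hO' : ∀ b, σ b ∈ O) :
    ∀ g ∈ E, ∃ k ∈ O ⊓ E, k • x₀ = g • x₀ := by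
  have h1 : ∀ g ∈ ({u | u ∈ E ∧ u • x₀ = x₀} ∪ σ '' S : Set G), g ∈ E ∧
      ∀ a ∈ E, (∃ k ∈ O ⊓ E, k • x₀ = a • x₀) → ∃ k ∈ O ⊓ E, k • x₀ = (a * g) • x₀ := by
    rintro g (hg | ⟨s, hs, rfl⟩)
    · exact ⟨hg.1, fun a _ ha => by rwa [mul_smul, hg.2]⟩
    · refine ⟨h.mem s, ?_⟩
      rintro a ha ⟨k, hk, h2⟩
      obtain ⟨w, hw, -, s', -, h3⟩ := h.edge O hO hO' (k⁻¹ * a) (E.mul_mem (E.inv_mem hk.2) ha)
        (by rw [mul_smul, ← h2, inv_smul_smul]) s hs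
      refine ⟨k * w * σ s', Subgroup.mul_mem _ (Subgroup.mul_mem _ hk hw) ⟨hO' _, h.mem _⟩, ?_⟩
      simp [mul_smul, h3]
  have h2 : ∀ g ∈ Subgroup.closure ({u | u ∈ E ∧ u • x₀ = x₀} ∪ σ '' S : Set G), g ∈ E ∧
      ∀ a ∈ E, (∃ k ∈ O ⊓ E, k • x₀ = a • x₀) → ∃ k ∈ O ⊓ E, k • x₀ = (a * g) • x₀ := by
    intro g hg
    induction hg using Subgroup.closure_induction'' with
    | mem g hg => exact h1 g hg
    | inv_mem g hg =>
      refine h1 _ ?_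
      rcases hg with hg | ⟨s, hs, rfl⟩
      · exact Or.inl ⟨E.inv_mem hg.1, inv_smul_eq_iff.2 hg.2.symm⟩
      · exact Or.inr ⟨s⁻¹, h.symm s hs, map_inv _ _⟩
    | one => exact ⟨E.one_mem, fun a _ ha => by rwa [mul_one]⟩
    | mul a b _ _ ha hb =>
      exact ⟨E.mul_mem ha.1 hb.1, fun c hc h3 => by
        rw [← mul_assoc]
        exact hb.2 _ (E.mul_mem hc ha.1) (ha.2 c hc h3)⟩
  intro g hg
  simpa using (h2 g (h.gen hg)).2 1 E.one_mem ⟨1, Subgroup.one_mem _, rfl⟩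

lemma relIndex (h : IsEnv x₀ σ S E) (n : Net G X) {O : Subgroup G} (hO : Opn X O)
    (hO' : ∀ b, σ b ∈ O) : O.relIndex E ≠ 0 := by
  obtain ⟨T, hT, -, h1⟩ := (Bdd.stab (E := G) x₀).cover n hO
  refine relIndex_of_cov hT fun g hg => ?_
  obtain ⟨k, hk, h2⟩ := h.trans hO hO' _ (E.inv_mem hg)
  obtain ⟨t, ht, h3⟩ := h1 (g * k) (by
    change (g * k) • x₀ = x₀
    rw [mul_smul, h2, smul_inv_smul])
  exact ⟨t, ht, by simpa [mul_assoc] using O.mul_mem h3 (O.inv_mem hk.1)⟩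

lemma comm (h : IsEnv x₀ σ S E) (n : Net G X) {γ : G} (hγ : ∀ b, γ * σ b = σ b * γ) :
    γ ∈ Subgroup.Commensurable.commensurator E := by
  have h1 : ∀ γ : G, (∀ b, γ * σ b = σ b * γ) → (ConjAct.toConjAct γ • E).relIndex E ≠ 0 :=
    fun γ hγ => h.relIndex n (h.opn.conjAct γ) fun b => (mem_conj_iff _ _ _).2 (by
      rw [mul_assoc, ← hγ, inv_mul_cancel_left]; exact h.mem b)
  refine ⟨h1 γ hγ, ?_⟩
  have h2 := h1 γ⁻¹ fun b => by
    rw [inv_mul_eq_iff_eq_mul, ← mul_assoc, hγ, mul_inv_cancel_right]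
  rw [← Subgroup.relIndex_pointwise_smul (ConjAct.toConjAct γ), map_inv, smul_inv_smul] at h2
  exact h2

end IsEnv

lemma exists_subNet (n : Net G X) (x₀ : X) (E : Subgroup G) (S : Set G) (hS : S.Finite)
    (hSE : S ⊆ E) (hsymm : ∀ s ∈ S, s⁻¹ ∈ S)
    (hgen : E ≤ Subgroup.closure ({u | u ∈ E ∧ u • x₀ = x₀} ∪ S)) :
    ∃ m : Net E (E ⧸ stabilizer E x₀), ∀ y z, z ∈ m.N y ↔ ∃ g : E, ∃ s ∈ E.subtype ⁻¹' S,
      (g : E ⧸ stabilizer E x₀) = y ∧ ((g * s : E) : E ⧸ stabilizer E x₀) = z := by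
  refine exists_cosetNet _ _ (fun s hs => hsymm _ hs) ?_ ?_
  · apply Subgroup.map_injective E.subtype_injective
    rw [MonoidHom.map_closure, ← MonoidHom.range_eq_map, E.range_subtype]
    refine le_antisymm ((Subgroup.closure_le _).2 ?_) (hgen.trans (Subgroup.closure_mono ?_))
    · rintro _ ⟨g, -, rfl⟩; exact g.2
    · rintro g (hg | hg)
      · exact ⟨⟨g, hg.1⟩, Or.inl hg.2, rfl⟩
      · exact ⟨⟨g, hSE hg⟩, Or.inr hg, rfl⟩
  · exact (((Bdd.stab x₀).mul (n.restrict E) (Bdd.of_finite x₀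
      (hS.preimage E.subtype_injective.injOn))).cover_left (n.restrict E) (Opn.stab x₀))

lemma sub_proper {Λ : Type*} [Group Λ] {ρ : Λ →* G} (x₀ : X)
    (hp : ∀ x y : X, {l | ρ l • x = y}.Finite) {E : Subgroup G} (hρ : ∀ l, ρ l ∈ E)
    (y z : E ⧸ stabilizer E x₀) : {l | ρ.codRestrict E hρ l • y = z}.Finite :=
  (hp (ofQuotientStabilizer E x₀ y) (ofQuotientStabilizer E x₀ z)).subset fun l hl => by
    have := congrArg (ofQuotientStabilizer E x₀) hl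
    rw [ofQuotientStabilizer_smul] at this
    exact this

lemma sub_cocompact {Λ : Type*} [Group Λ] {ρ : Λ →* G} (n : Net G X) {x₀ : X} {E : Subgroup G}
    (hρ : ∀ l, ρ l ∈ E) (hc : Coc x₀ ρ E) :
    ∃ T : Finset (E ⧸ stabilizer E x₀), ∀ y, ∃ l, ρ.codRestrict E hρ l • y ∈ T := by
  obtain ⟨C, hC, h1⟩ := hc
  have h2 : Bdd x₀ (E.subtype ⁻¹' C) := hC.subset (by
    rintro _ ⟨g, hg, rfl⟩; exact ⟨g, hg, rfl⟩)
  refine ⟨(h2.cover_left (n.restrict E) (Opn.stab x₀)).toFinset, fun y => ?_⟩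
  obtain ⟨g, rfl⟩ := QuotientGroup.mk_surjective y
  obtain ⟨l, hl⟩ := h1 g g.2
  exact ⟨l, (Set.Finite.mem_toFinset _).2 ⟨_, hl, rfl⟩⟩

lemma Opn.of_sub {x₀ : X} {E : Subgroup G} (hE : Opn X E) {O : Subgroup E}
    (hO : Opn (E ⧸ stabilizer E x₀) O) : Opn X (O.map E.subtype) := by
  classical
  obtain ⟨F, hF⟩ := hE
  obtain ⟨F', hF'⟩ := hO
  refine ⟨F ∪ F'.image (ofQuotientStabilizer E x₀), fun g hg => ?_⟩
  refine ⟨⟨g, hF g fun x hx => hg x (Finset.mem_union_left _ hx)⟩, hF' _ fun y hy => ?_, rfl⟩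
  apply injective_ofQuotientStabilizer
  rw [ofQuotientStabilizer_smul]
  exact hg _ (Finset.mem_union_right _ (Finset.mem_image_of_mem _ hy))

variable {P Q : Type*} [Group P] [Group Q]

/-- A real function on an open subgroup with periods `ψ` on both sides. -/
structure GoodG (x₀ : X) (ρ : P × Q →* G) (O : Subgroup G) (ψ : Q → ℝ) (f : G → ℝ) : Prop where
  stab : ∀ g ∈ O, ∀ u ∈ O, u • x₀ = x₀ → f (g * u) = f g
  left : ∀ l, ∀ g ∈ O, f (ρ l * g) = f g + ψ l.2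
  right : ∀ q, ∀ g ∈ O, f (g * ρ (1, q)) = f g + ψ q

theorem good_G (n : Net G X) (x₀ : X) {ρ : P × Q →* G} (hp : ∀ x y : X, {l | ρ l • x = y}.Finite)
    {S : Finset P} {E : Subgroup G} (h : IsEnv x₀ (ρ.comp (MonoidHom.inl P Q)) S E)
    (hρ : ∀ l, ρ l ∈ E) (hc : Coc x₀ ρ E) :
    Group.FG Q ∧ ∃ O : Subgroup G, O ≤ E ∧ Opn X O ∧ (∀ l, ρ l ∈ O) ∧
      (∀ χ : Q → ℝ, (∀ a b, χ (a * b) = χ a + χ b) → ∃ f, GoodG x₀ ρ O χ f) ∧
      ∀ (K : Type v) [NormedAddCommGroup K] [InnerProductSpace ℝ K] [CompleteSpace K]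
        (α : AffAct Q K), NF α → ∃ ψ f, (∃ q, ψ q ≠ 0) ∧ GoodG x₀ ρ O ψ f := by
  classical
  obtain ⟨m, hm⟩ := exists_subNet n x₀ E _ (S.finite_toSet.image _)
    (by rintro _ ⟨s, -, rfl⟩; exact h.mem s)
    (by rintro _ ⟨s, hs, rfl⟩; exact ⟨s⁻¹, h.symm s hs, map_inv _ _⟩) h.gen
  let ρ' := ρ.codRestrict E hρ
  let y₀ : E ⧸ stabilizer E x₀ := (1 : E)
  have hp' := sub_proper x₀ hp hρ
  have hc' := sub_cocompact n hρ hc
  have hΛ := fg_of_net m y₀ hp' hc'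
  have hQ : Group.FG Q := Group.fg_of_surjective (f := MonoidHom.snd P Q) Prod.snd_surjective
  have hP : Group.FG P := Group.fg_of_surjective (f := MonoidHom.fst P Q) Prod.fst_surjective
  have hy : ∀ a b : E, (a : G) • x₀ = (b : G) • x₀ → a • y₀ = (b : E ⧸ stabilizer E x₀) :=
    fun a b hab => by
    apply injective_ofQuotientStabilizer
    rw [ofQuotientStabilizer_smul, ofQuotientStabilizer_mk, ofQuotientStabilizer_mk, one_smul]
    exact hab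
  have henv : EnvP m y₀ (ρ'.comp (MonoidHom.inl P Q)) := by
    intro O hO hO' y z hz
    obtain ⟨g, s, ⟨s₀, hs₀, hs⟩, rfl, rfl⟩ := (hm y z).1 hz
    have h1 := h.opn.of_sub hO'
    have h2 : ∀ p, ρ.comp (MonoidHom.inl P Q) p ∈ O.map E.subtype := fun p => ⟨_, hO p, rfl⟩
    obtain ⟨k, hk, h3⟩ := h.trans h1 h2 g g.2
    obtain ⟨w, hw, h4, s', -, h5⟩ := h.edge _ h1 h2 (k⁻¹ * g) (E.mul_mem (E.inv_mem hk.2) g.2)
      (by rw [mul_smul, ← h3, inv_smul_smul]) s₀ hs₀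
    obtain ⟨k', hk', rfl⟩ := hk.1
    obtain ⟨w', hw', rfl⟩ := hw.1
    refine ⟨k' * w', O.mul_mem hk' hw', s', hy _ _ ?_, ?_⟩
    · rw [← h3, Subgroup.coe_mul, mul_smul]
      exact congrArg _ h4
    · rw [← mul_smul]
      refine hy _ _ ?_
      rw [hs, mul_smul, eq_inv_smul_iff] at h5
      rw [Subgroup.coe_mul, Subgroup.coe_mul, Subgroup.coe_mul, mul_smul, mul_smul, mul_smul]
      exact h5
  obtain ⟨SQ, hSQ⟩ := Group.fg_def.1 hQ
  have hO : Opn X ((bigO ρ' y₀ SQ).map E.subtype) := h.opn.of_sub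
    ⟨insert y₀ (SQ.image fun s => ρ' (1, s) • y₀), fun g hg => Subgroup.subset_closure (Or.inr
      ⟨hg _ (Finset.mem_insert_self _ _), fun s hs =>
        hg _ (Finset.mem_insert_of_mem (Finset.mem_image_of_mem _ hs))⟩)⟩
  have key : ∀ ψ f, Good ρ' y₀ SQ ψ f →
      ∃ f', GoodG x₀ ρ ((bigO ρ' y₀ SQ).map E.subtype) ψ f' := by
    intro ψ f hf
    let f' : G → ℝ := fun g => if hg : g ∈ E then f ((⟨g, hg⟩ : E) • y₀) else 0
    have hf' : ∀ g : E, f' g = f (g • y₀) := fun g => dif_pos g.2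
    refine ⟨f', ?_, ?_, ?_⟩
    · rintro _ ⟨g, -, rfl⟩ _ ⟨u, -, rfl⟩ hu
      rw [← map_mul, Subgroup.subtype_apply, Subgroup.subtype_apply, hf', hf', mul_smul,
        hy u 1 (by simpa using hu)]
    · rintro l _ ⟨g, -, rfl⟩
      have h1 : ρ l * E.subtype g = (ρ' l * g : E) := rfl
      have h2 : l = (l.1, 1) * (1, l.2) := by simp
      have h3 := hf.2 1 (Subgroup.one_mem _) l.2 (g • y₀)
      rw [one_smul, one_smul] at h3
      rw [h1, Subgroup.subtype_apply, hf', hf', ← h3]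
      conv_lhs => rw [h2, map_mul, mul_smul, mul_smul, hf.1]
      ring
    · rintro q _ ⟨g, hg, rfl⟩
      have h1 : E.subtype g * ρ (1, q) = (g * ρ' (1, q) : E) := rfl
      rw [h1, Subgroup.subtype_apply, hf', hf', ← hf.2 g hg q y₀, mul_smul]
      ring
  refine ⟨hQ, _, Subgroup.map_subtype_le _, hO,
    fun l => ⟨ρ' l, Subgroup.subset_closure (Or.inl ⟨l, rfl⟩), rfl⟩, fun χ hχ => ?_,
    fun K _ _ _ α hα => ?_⟩
  · obtain ⟨f, hf⟩ := exists_good_hom hP hQ m y₀ hp' hc' henv χ hχ hSQ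
    exact key _ _ hf
  · obtain ⟨ψ, f, h0, hf⟩ := exists_good hP hQ m y₀ hp' hc' henv α hα hSQ
    obtain ⟨f', hf'⟩ := key _ _ hf
    exact ⟨ψ, f', h0, hf'⟩

end Pool.Agent.Lib.MP_a6ff19_al
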