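import Pool.Agent.Lib.MP_a6ff19_al.GDuse

set_option autoImplicit false
set_option linter.unusedSectionVars false

/-!
Finiteness of the part of the second factor lying in the envelope of the first factor.
-/

namespace Pool.Agent.Lib.MP_a6ff19_al

open scoped Pointwise
open MulAction Subgroup.Commensurable

variable {G X : Type} [Group G] [MulAction G X] {P Q : Type*} [Group P] [Group Q]

/-- Elements with bounded conjugacy class under a subgroup. -/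
def bddConj (n : Net G X) (x₀ : X) (L : Subgroup G) : Subgroup G where
  carrier := {t | Bdd x₀ {k | ∃ l ∈ L, l⁻¹ * t * l = k}}
  one_mem' := (Bdd.of_finite x₀ (Set.finite_singleton 1)).mono (by
    rintro _ ⟨l, -, rfl⟩; simp)
  mul_mem' {a b} ha hb := (Bdd.mul n ha hb).mono (by
    rintro _ ⟨l, hl, rfl⟩
    exact ⟨_, ⟨l, hl, rfl⟩, _, ⟨l, hl, rfl⟩, by simp [mul_assoc]⟩)
  inv_mem' {a} ha := (Bdd.inv n ha).mono (by
    rintro _ ⟨l, hl, rfl⟩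
    exact ⟨l, hl, by simp [mul_assoc]⟩)

lemma bddConj_conj (n : Net G X) (x₀ : X) {L : Subgroup G} {t v : G} (ht : t ∈ bddConj n x₀ L)
    (hv : v ∈ L) : v * t * v⁻¹ ∈ bddConj n x₀ L :=
  Bdd.mono ht (by
    rintro _ ⟨l, hl, rfl⟩
    exact ⟨v⁻¹ * l, L.mul_mem (L.inv_mem hv) hl, by simp [mul_assoc]⟩)

lemma bddConj_le (n : Net G X) (x₀ : X) {L J : Subgroup G} (h : L.relIndex J ≠ 0) :
    bddConj n x₀ L ≤ bddConj n x₀ J := fun t ht => by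
  obtain ⟨T, hT, -, h1⟩ := cov_of_relIndex' h
  refine (((Bdd.of_finite x₀ hT).mul n ht).mul n (Bdd.of_finite x₀ hT.inv)).mono ?_
  rintro _ ⟨g, hg, rfl⟩
  obtain ⟨s, hs, h2⟩ := h1 g hg
  exact ⟨_, ⟨s, hs, _, ⟨_, h2, rfl⟩, rfl⟩, s⁻¹, by simpa using hs, by simp [mul_assoc]⟩

lemma NF_of_bddConj (n : Net G X) (x₀ : X) {τ : Q →* G}
    (hp : ∀ x y : X, {l | τ l • x = y}.Finite) {J : Subgroup G} (hJo : Opn X J)
    (hQ : ∀ q, τ q ∈ J) (hc : Coc x₀ τ J) (hfg : Group.FG Q) [Infinite Q]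
    (hβ : Coc x₀ (bddConj n x₀ J).subtype J) :
    ∃ (K : Type) (_ : NormedAddCommGroup K) (_ : InnerProductSpace ℝ K) (_ : CompleteSpace K)
      (α : AffAct Q K), NF α := by
  obtain ⟨S, -, hsymm, htop⟩ := exists_symm_gen hfg
  obtain ⟨C, hC, h1⟩ := hc
  obtain ⟨T, hT, hT', h2⟩ := (hC.mono (Set.inter_subset_left (t := J))).cover n (Opn.stab x₀)
  obtain ⟨m, -⟩ := exists_subNet n x₀ J (τ '' S ∪ (T ∪ T⁻¹))
    ((S.finite_toSet.image _).union (hT.union hT.inv))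
    (by
      rintro g (⟨s, -, rfl⟩ | hg | hg)
      · exact hQ s
      · exact (hT' hg).2
      · exact inv_mem_iff.1 (hT' hg).2)
    (by
      rintro g (⟨s, hs, rfl⟩ | hg | hg)
      · exact Or.inl ⟨s⁻¹, hsymm s hs, map_inv _ _⟩
      · exact Or.inr (Or.inr (by simpa using hg))
      · exact Or.inr (Or.inl hg))
    (by
      intro g hg
      obtain ⟨q, hq⟩ := h1 g hg
      have h3 := J.mul_mem (hQ q) hg
      obtain ⟨t, ht, h4⟩ := h2 _ ⟨hq, h3⟩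
      have h5 : g = (τ q)⁻¹ * t * (t⁻¹ * (τ q * g)) := by group
      rw [h5]
      refine Subgroup.mul_mem _ (Subgroup.mul_mem _ (Subgroup.inv_mem _ ?_)
        (Subgroup.subset_closure (Or.inr (Or.inr (Or.inl ht)))))
        (Subgroup.subset_closure (Or.inl ⟨J.mul_mem (J.inv_mem (hT' ht).2) h3, h4⟩))
      have h6 : q ∈ Subgroup.closure (S : Set Q) := htop ▸ Subgroup.mem_top q
      have h7 := Subgroup.mem_map_of_mem τ h6
      rw [MonoidHom.map_closure] at h7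
      exact Subgroup.closure_mono (fun x hx => Or.inr (Or.inl hx)) h7)
  refine exists_NF m ((1 : J) : J ⧸ stabilizer J x₀) (fun y => MulAction.exists_smul_eq J _ y)
    (β := {t | (t : G) ∈ bddConj n x₀ J}) (fun t ht => ?_) ?_ (τ.codRestrict J hQ)
    (sub_proper x₀ hp hQ)
  · have h3 : Bdd x₀ {k : J | ∃ g : J, g⁻¹ * t * g = k} := Set.Finite.subset ht (by
      rintro _ ⟨_, ⟨g, rfl⟩, rfl⟩
      exact ⟨_, ⟨g, g.2, rfl⟩, rfl⟩)
    refine (h3.cover_left (n.restrict J) (Opn.stab x₀)).subset ?_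
    rintro _ ⟨k, hk, rfl⟩
    exact ⟨k, hk, by simp [MulAction.Quotient.smul_mk]⟩
  · obtain ⟨C', hC', h3⟩ := hβ.sub n hJo
    obtain ⟨T', hT'⟩ := sub_cocompact (ρ := (bddConj n x₀ J ⊓ J).subtype) n (fun l => l.2.2)
      ⟨C', hC', fun g hg => by
        obtain ⟨l, hl, h4⟩ := h3 g hg
        exact ⟨⟨l, l.2, hl⟩, h4⟩⟩
    refine ⟨T', fun y => ?_⟩
    obtain ⟨l, hl⟩ := hT' y
    exact ⟨_, l.2.1, hl⟩

theorem fin_of_GD (n : Net G X) (x₀ : X) {ρ : P × Q →* G}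
    (hp : ∀ x y : X, {l | ρ l • x = y}.Finite) {S : Finset P} {E J : Subgroup G}
    (h : IsEnv x₀ (ρ.comp (MonoidHom.inl P Q)) S E) (hρ : ∀ l, ρ l ∈ E) (hc : Coc x₀ ρ E)
    (hJ : J ≤ E) (hQ : ∀ q, ρ (1, q) ∈ J) (hJo : Opn X J)
    (hfin : (J.comap (ρ.comp (MonoidHom.inl P Q)) : Set P).Finite)
    (hcomm : ∀ p, ρ (p, 1) ∈ commensurator J) (hGD : GDalg P) : Finite Q := by
  classical
  by_contra hinf
  rw [not_finite_iff_infinite] at hinf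
  obtain ⟨L, -, hLo, hLJ, hLn, -⟩ := gd_use n x₀ hc hJ (fun p => hρ _) hQ hJo hfin hcomm
    (Group.fg_def.2 ⟨S, h.top⟩) hGD
  obtain ⟨hfg, O, hOE, hOo, hρO, -, hψ⟩ := good_G.{0, 0} n x₀ hp h hρ hc
  set σ := ρ.comp (MonoidHom.inl P Q) with hσ
  set τ := ρ.comp (MonoidHom.inr P Q) with hτ
  replace hLn : ∀ p, ∀ l ∈ L, σ p * l * (σ p)⁻¹ ∈ L := hLn
  have hστ : ∀ l, ρ l = σ l.1 * τ l.2 := fun l => by
    rw [hσ, hτ, MonoidHom.comp_apply, MonoidHom.comp_apply, ← map_mul]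
    simp
  have hcom : ∀ p q, σ p * τ q = τ q * σ p := fun p q => by
    rw [hσ, hτ, MonoidHom.comp_apply, MonoidHom.comp_apply, ← map_mul, ← map_mul]
    simp
  have hcJ : Coc x₀ τ J := by
    obtain ⟨C, hC, h1⟩ := (hc.mono hJ).sub n hJo
    refine ⟨_, (Bdd.of_finite x₀ (hfin.image σ).inv).mul n hC, fun g hg => ?_⟩
    obtain ⟨l, hl, h2⟩ := h1 g hg
    refine ⟨l.2, (σ l.1)⁻¹, ?_, _, h2, by simp [hστ, mul_assoc]⟩
    rw [hστ, J.mul_mem_cancel_right (show τ l.2 ∈ J from hQ _)] at hl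
    exact Set.inv_mem_inv.2 ⟨l.1, hl, rfl⟩
  obtain ⟨K, hK, hA⟩ := (hcJ.of_relIndex n hLJ.2).sub n hLo
  have hβ1 : ∀ p, ∀ l ∈ L, l⁻¹ * (σ p * l * (σ p)⁻¹) ∈ bddConj n x₀ L := fun p l hl => by
    have h1 := (hK.inv n).mul n (((Bdd.of_finite x₀ (Set.finite_singleton (σ p))).mul n hK).mul n
      (Bdd.of_finite x₀ (Set.finite_singleton (σ p)⁻¹)))
    have h2 : ∀ l ∈ L, l⁻¹ * (σ p * l * (σ p)⁻¹) ∈ K⁻¹ * ({σ p} * K * {(σ p)⁻¹}) := fun l hl => by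
      obtain ⟨q, -, hq⟩ := hA l hl
      refine ⟨_, Set.inv_mem_inv.2 hq, _, ⟨_, ⟨_, rfl, _, hq, rfl⟩, _, rfl, rfl⟩, ?_⟩
      simp only [← mul_assoc, hcom]
      group
    refine (h1.mul n (h1.inv n)).mono ?_
    rintro _ ⟨k, hk, rfl⟩
    exact ⟨_, h2 _ (L.mul_mem hl hk), _, Set.inv_mem_inv.2 (h2 _ hk), by group⟩
  let V := O ⊓ stabilizer G x₀ ⊓ L
  have hVo : Opn X V := (hOo.inf (Opn.stab x₀)).inf hLo
  let LV := Subgroup.closure {k | ∃ p, ∃ v ∈ V, σ p * v * (σ p)⁻¹ = k}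
  have hLV : LV ≤ L := (Subgroup.closure_le _).2 (by
    rintro _ ⟨p, v, hv, rfl⟩; exact hLn p v hv.2)
  have hLVn : ∀ p, ∀ l ∈ LV, σ p * l * (σ p)⁻¹ ∈ LV := fun p => by
    have : LV ≤ LV.comap (MulAut.conj (σ p)).toMonoidHom := (Subgroup.closure_le _).2 (by
      rintro _ ⟨p', v, hv, rfl⟩
      exact Subgroup.subset_closure ⟨p * p', v, hv, by simp [mul_assoc]⟩)
    exact this
  have hM : ∀ m ∈ Subgroup.closure ((V : Set G) ∪ Set.range σ), ∃ p, m * (σ p)⁻¹ ∈ LV := by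
    intro m hm
    induction hm using Subgroup.closure_induction with
    | mem g hg =>
      rcases hg with hg | ⟨p, rfl⟩
      · exact ⟨1, Subgroup.subset_closure ⟨1, g, hg, by simp⟩⟩
      · exact ⟨p, by simp⟩
    | one => exact ⟨1, by simp⟩
    | mul a b _ _ ha hb =>
      obtain ⟨p, ha⟩ := ha
      obtain ⟨p', hb⟩ := hb
      exact ⟨p * p', by simpa [mul_assoc] using LV.mul_mem ha (hLVn p _ hb)⟩
    | inv a _ ha =>
      obtain ⟨p, ha⟩ := ha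
      exact ⟨p⁻¹, by simpa [mul_assoc] using hLVn p⁻¹ _ (LV.inv_mem ha)⟩
  have hB : {p | ∃ u : G, u • x₀ = x₀ ∧ σ p * u ∈ L}.Finite := by
    have h1 := finite_of_relIndex (Subgroup.relIndex_comap_ne_zero σ hLJ.2) hfin
    obtain ⟨T, hT, -, h2⟩ := (Bdd.stab (E := G) x₀).cover n hLo
    refine (hT.biUnion (t := fun t => {p | σ p * t ∈ L}) fun t _ => ?_).subset ?_
    · rcases Set.eq_empty_or_nonempty {p | σ p * t ∈ L} with h3 | ⟨p₀, h3⟩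
      · rw [h3]; exact Set.finite_empty
      refine (h1.image fun p => p * p₀).subset fun p h4 => ⟨p * p₀⁻¹, ?_, by simp⟩
      simpa [mul_assoc] using L.mul_mem h4 (L.inv_mem h3)
    · rintro p ⟨u, hu, h3⟩
      obtain ⟨t, ht, h4⟩ := h2 u hu
      exact Set.mem_biUnion ht (by simpa [mul_assoc] using L.mul_mem h3 (L.inv_mem h4))
  have hdec : ∀ q, τ q ∈ L → ∃ l ∈ LV, ∃ p ∈ {p | ∃ u : G, u • x₀ = x₀ ∧ σ p * u ∈ L},
      ∃ u : G, u • x₀ = x₀ ∧ τ q = l * σ p * u := fun q hq => by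
    obtain ⟨k, hk, h1⟩ := h.trans (O := Subgroup.closure ((V : Set G) ∪ Set.range σ))
      (hVo.mono fun g hg => Subgroup.subset_closure (Or.inl hg))
      (fun p => Subgroup.subset_closure (Or.inr ⟨p, rfl⟩)) (τ q) (hρ _)
    obtain ⟨p, h2⟩ := hM k hk.1
    have h3 : (k⁻¹ * τ q) • x₀ = x₀ := by rw [mul_smul, ← h1, inv_smul_smul]
    refine ⟨_, h2, p, ⟨_, h3, ?_⟩, _, h3, by group⟩
    simpa [mul_assoc] using L.mul_mem (L.inv_mem (hLV h2)) hq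
  have hLβ : ∀ l ∈ LV, ∃ v ∈ V, l * v⁻¹ ∈ bddConj n x₀ L := by
    intro l hl
    induction hl using Subgroup.closure_induction with
    | mem g hg =>
      obtain ⟨p, v, hv, rfl⟩ := hg
      exact ⟨v, hv, by simpa [mul_assoc] using bddConj_conj n x₀ (hβ1 p v hv.2) hv.2⟩
    | one => exact ⟨1, V.one_mem, by simp⟩
    | mul a b _ _ ha hb =>
      obtain ⟨v, hv, ha⟩ := ha
      obtain ⟨w, hw, hb⟩ := hb
      exact ⟨v * w, V.mul_mem hv hw, by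
        simpa [mul_assoc] using (bddConj n x₀ L).mul_mem ha (bddConj_conj n x₀ hb hv.2)⟩
    | inv a _ ha =>
      obtain ⟨v, hv, ha⟩ := ha
      exact ⟨v⁻¹, V.inv_mem hv, by
        simpa [mul_assoc] using bddConj_conj n x₀ ((bddConj n x₀ L).inv_mem ha) (L.inv_mem hv.2)⟩
  have hβL : Coc x₀ (bddConj n x₀ L).subtype L := by
    refine ⟨_, ((((Bdd.stab x₀).mul n (Bdd.of_finite x₀ (hB.image σ))).mul n (Bdd.stab x₀)).mul n
      hK), fun l hl => ?_⟩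
    obtain ⟨q, hq, h1⟩ := hA l hl
    obtain ⟨l', hl', p, hp', u, hu, h2⟩ := hdec q⁻¹ (by rw [map_inv]; exact L.inv_mem hq)
    obtain ⟨v, hv, h3⟩ := hLβ l' hl'
    refine ⟨⟨_, h3⟩⁻¹, _, ⟨_, ⟨v, hv.1.2, _, ⟨p, hp', rfl⟩, rfl⟩, u, hu, rfl⟩, _, h1, ?_⟩
    rw [map_inv, inv_eq_iff_eq_inv] at h2
    simp [h2, mul_assoc]
  have hβJ : Coc x₀ (bddConj n x₀ J).subtype J := by
    obtain ⟨C, hC, h1⟩ := hβL.of_relIndex n hLJ.1
    refine ⟨C, hC, fun g hg => ?_⟩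
    obtain ⟨l, hl⟩ := h1 g hg
    exact ⟨⟨l, bddConj_le n x₀ hLJ.1 l.2⟩, hl⟩
  obtain ⟨H, _, _, _, α, hα⟩ := NF_of_bddConj n x₀
    (proper_comp hp _ (Prod.mk_right_injective (1 : P))) hJo hQ hcJ hfg hβJ
  obtain ⟨ψ, f, ⟨q₀, hq₀⟩, hf⟩ := hψ H α hα
  obtain ⟨θ, h1, h2, h3, -⟩ := transfer n x₀ hp hρO (hc.mono hOE) hf
  have h4 : LV ≤ kerOn O θ h1 := (Subgroup.closure_le _).2 (by
    rintro _ ⟨p, v, hv, rfl⟩
    have h5 : σ p ∈ O := hρO _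
    refine ⟨O.mul_mem (O.mul_mem h5 hv.1.1) (O.inv_mem h5), ?_⟩
    rw [h1 _ (O.mul_mem h5 hv.1.1) _ (O.inv_mem h5), h1 _ h5 _ hv.1.1, h2 _ hv.1.1 hv.1.2, add_zero,
      ← h1 _ h5 _ (O.inv_mem h5), mul_inv_cancel]
    exact (kerOn O θ h1).one_mem.2)
  obtain ⟨M, hM'⟩ := (hB.image fun p => |θ (σ p)|).bddAbove
  refine hq₀ (hom_eq_zero_of_bdd (hf.hom hρO) (A := L.comap τ) ?_ (M := M) (fun q hq => ?_) q₀)
  · have h5 := Subgroup.relIndex_comap_ne_zero τ hLJ.1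
    rwa [(eq_top_iff.2 fun q _ => hQ q : J.comap τ = ⊤), Subgroup.relIndex_top_right] at h5
  · obtain ⟨l, hl, p, hp', u, hu, h5⟩ := hdec q hq
    have h6 : σ p ∈ O := hρO _
    have h7 : l * σ p ∈ O := O.mul_mem (h4 hl).1 h6
    have h8 : u ∈ O := by
      rw [← O.mul_mem_cancel_left h7, ← h5]
      exact hρO _
    have h9 : θ (τ q) = ψ q := h3 q
    rw [← h9, h5, h1 _ h7 _ h8, h2 _ h8 hu, h1 _ (h4 hl).1 _ h6, (h4 hl).2, zero_add, add_zero]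
    exact hM' ⟨p, hp', rfl⟩

end Pool.Agent.Lib.MP_a6ff19_al
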