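import Pool.Agent.Lib.MP_a6ff19_al.Core

set_option autoImplicit false
set_option linter.unusedSectionVars false

/-!
The Liouville property from a cocompact set of bounded automorphisms, and almost invariant vectors.
-/

namespace Pool.Agent.Lib.MP_a6ff19_al

open Finset Filter Topology
open scoped RealInnerProductSpace

universe u

variable {E : Type*} {Y : Type u} [Group E] [MulAction E Y]

lemma Net.lap_smul (n : Net E Y) (ψ : Y → ℝ) (g : E) (x : Y) :
    n.lap (fun z => ψ (g • z)) x = n.lap ψ (g • x) := by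
  simp only [Net.lap]
  rw [n.sum_smul]

lemma bounded_le (n : Net E Y) (y₀ : Y) (htr : ∀ y, ∃ g : E, g • y₀ = y) {t : E}
    (ht : Bdd y₀ {k | ∃ g : E, g⁻¹ * t * g = k}) {ψ : Y → ℝ} (hh : ∀ x, n.lap ψ x = 0) {M : ℝ}
    (hM : ∀ x, |ψ x| ≤ M) (y : Y) : ψ (t • y) ≤ ψ y := by
  choose C hC hC' using n.harnack y₀
  obtain ⟨D₀, hD₀⟩ := (Set.Finite.image C ht).bddAbove
  set D := max D₀ 1
  have hD1 : 1 ≤ D := le_max_right _ _
  have hD : ∀ φ : Y → ℝ, (∀ z, n.lap φ z = 0) → (∀ z, 0 ≤ φ z) → ∀ y, φ (t • y) ≤ D * φ y := by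
    intro φ h1 h2 y
    obtain ⟨g, rfl⟩ := htr y
    have h3 := hC' ((g⁻¹ * t * g) • y₀) (fun z => φ (g • z)) (fun z => by rw [n.lap_smul, h1])
      fun z => h2 _
    simp only [mul_smul, smul_inv_smul] at h3
    refine h3.trans (mul_le_mul_of_nonneg_right ((hD₀ ?_).trans (le_max_left _ _)) (h2 _))
    exact ⟨_, ⟨_, ⟨g, rfl⟩, rfl⟩, by simp [mul_smul]⟩
  have hb : BddAbove (Set.range fun z => ψ (t • z) - ψ z) := ⟨2 * M, by
    rintro _ ⟨z, rfl⟩
    linarith [(abs_le.1 (hM z)).1, (abs_le.1 (hM (t • z))).2]⟩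
  set m := ⨆ z, (ψ (t • z) - ψ z)
  have hm : ∀ z, ψ (t • z) - ψ z ≤ m := fun z => le_ciSup hb z
  by_contra hlt
  have hm0 : 0 < m := (sub_pos.2 (not_le.1 hlt)).trans_le (hm y)
  let φ : Y → ℝ := fun z => m - (ψ (t • z) - ψ z)
  have hφ : ∀ z, n.lap φ z = 0 := fun z => by
    have h1 := n.lap_smul ψ t z
    have h2 := hh z
    rw [hh] at h1
    simp only [Net.lap] at h1 h2 ⊢
    rw [← sub_self (0 : ℝ)]
    conv_rhs => rw [← h2]
    conv_rhs => enter [2]; rw [h2, ← h1]
    rw [← Finset.sum_sub_distrib]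
    exact Finset.sum_congr rfl fun w _ => by simp only [φ]; ring
  have hφ0 : ∀ z, 0 ≤ φ z := fun z => sub_nonneg.2 (hm z)
  obtain ⟨N, hN⟩ := exists_nat_gt (4 * M / m)
  have : Nonempty Y := ⟨y⟩
  obtain ⟨z, hz⟩ := exists_lt_of_lt_ciSup (f := fun z => ψ (t • z) - ψ z)
    (show m - m / (2 * D ^ N) < m from sub_lt_self _ (by positivity))
  have h1 : ∀ k : ℕ, φ (t ^ k • z) ≤ D ^ k * (m / (2 * D ^ N)) := fun k => by
    induction k with
    | zero => simp only [φ, pow_zero, one_smul, one_mul]; linarith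
    | succ k ih =>
      rw [pow_succ', mul_smul, pow_succ', mul_assoc]
      exact (hD φ hφ hφ0 _).trans (mul_le_mul_of_nonneg_left ih (by positivity))
  have h2 : ∀ k : ℕ, k ≤ N → k * (m / 2) ≤ ψ (t ^ k • z) - ψ z := fun k hk => by
    induction k with
    | zero => simp
    | succ k ih =>
      have h3 := h1 k
      have h4 : D ^ k * (m / (2 * D ^ N)) ≤ D ^ N * (m / (2 * D ^ N)) :=
        mul_le_mul_of_nonneg_right (pow_le_pow_right₀ hD1 (by omega)) (by positivity)
      have h5 : D ^ N * (m / (2 * D ^ N)) = m / 2 := by field_simp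
      have h6 := ih (by omega)
      simp only [φ] at h3
      rw [pow_succ', mul_smul]
      push_cast
      linarith
  have h3 := h2 N le_rfl
  rw [div_lt_iff₀ hm0] at hN
  linarith [(abs_le.1 (hM z)).1, (abs_le.1 (hM (t ^ N • z))).2]

lemma liouville (n : Net E Y) (y₀ : Y) (htr : ∀ y, ∃ g : E, g • y₀ = y) {β : Set E}
    (hβ : ∀ t ∈ β, Bdd y₀ {k | ∃ g : E, g⁻¹ * t * g = k})
    (hβc : ∃ T : Finset Y, ∀ y, ∃ t ∈ β, t • y ∈ T) {ψ : Y → ℝ} (hh : ∀ x, n.lap ψ x = 0) {M : ℝ}
    (hM : ∀ x, |ψ x| ≤ M) (x y : Y) : ψ y = ψ x := by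
  obtain ⟨T, hT⟩ := hβc
  refine n.const_of_finite_range ψ hh ((T.finite_toSet.image ψ).subset ?_) x y
  rintro _ ⟨z, rfl⟩
  obtain ⟨t, ht, h1⟩ := hT z
  refine ⟨_, h1, le_antisymm (bounded_le n y₀ htr (hβ t ht) hh hM z) ?_⟩
  have := bounded_le n y₀ htr (hβ t ht) (ψ := fun x => -ψ x) (fun x => by
    have := hh x
    simp only [Net.lap] at this ⊢
    rw [← neg_eq_zero, ← Finset.sum_neg_distrib, ← this]
    exact Finset.sum_congr rfl fun w _ => by ring) (M := M) (fun x => by rw [abs_neg]; exact hM x) z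
  linarith

/-- Transition kernels of the simple random walk. -/
noncomputable def walk (n : Net E Y) (d : ℝ) : ℕ → Y → Y →₀ ℝ
  | 0, x => Finsupp.single x 1
  | k + 1, x => d⁻¹ • ∑ y ∈ n.N x, walk n d k y

lemma walk_smul (n : Net E Y) (d : ℝ) (g : E) (k : ℕ) (x z : Y) :
    walk n d k (g • x) (g • z) = walk n d k x z := by
  classical
  induction k generalizing x with
  | zero => simp [walk, Finsupp.single_apply]
  | succ k ih =>
    simp only [walk, Finsupp.smul_apply, Finsupp.finsetSum_apply]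
    rw [n.sum_smul]
    simp only [ih]

lemma walk_nonneg (n : Net E Y) {d : ℝ} (hd : 0 ≤ d) (k : ℕ) (x z : Y) : 0 ≤ walk n d k x z := by
  classical
  induction k generalizing x with
  | zero => simp only [walk, Finsupp.single_apply]; split_ifs <;> norm_num
  | succ k ih =>
    simp only [walk, Finsupp.smul_apply, Finsupp.finsetSum_apply, smul_eq_mul]
    exact mul_nonneg (inv_nonneg.2 hd) (Finset.sum_nonneg fun y _ => ih y)

lemma walk_mass (n : Net E Y) {d : ℝ} (hd : 0 < d) (hN : ∀ x, ((n.N x).card : ℝ) = d) (k : ℕ)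
    (x : Y) : Finsupp.linearCombination ℝ (fun _ => (1 : ℝ)) (walk n d k x) = 1 := by
  induction k generalizing x with
  | zero => simp [walk]
  | succ k ih =>
    simp only [walk, map_smul, map_sum, ih, Finset.sum_const, nsmul_eq_mul, hN, smul_eq_mul]
    field_simp

lemma walk_abs (n : Net E Y) {d : ℝ} (hd : 0 < d) (hN : ∀ x, ((n.N x).card : ℝ) = d) {s : Y → ℝ}
    (hs : ∀ z, |s z| ≤ 1) (k : ℕ) (x : Y) :
    |Finsupp.linearCombination ℝ s (walk n d k x)| ≤ 1 := by
  induction k generalizing x with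
  | zero => simpa [walk] using hs x
  | succ k ih =>
    simp only [walk, map_smul, map_sum, smul_eq_mul]
    rw [abs_mul, abs_of_pos (inv_pos.2 hd), inv_mul_le_iff₀ hd]
    refine (Finset.abs_sum_le_sum_abs _ _).trans
      ((Finset.sum_le_card_nsmul _ _ _ fun y _ => ih y).trans (le_of_eq ?_))
    rw [nsmul_eq_mul, hN]

/-- Averages of the transition kernels. -/
noncomputable def ces (n : Net E Y) (d : ℝ) (m : ℕ) (x : Y) : Y →₀ ℝ :=
  ((m : ℝ) + 1)⁻¹ • ∑ k ∈ range (m + 1), walk n d k x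

lemma reiter (n : Net E Y) {d : ℝ} (hd : 0 < d) (hN : ∀ x, ((n.N x).card : ℝ) = d)
    (hL : ∀ ψ : Y → ℝ, (∀ x, n.lap ψ x = 0) → (∀ x, |ψ x| ≤ 1) → ∀ x y, ψ y = ψ x)
    (s : ℕ → Y → ℝ) (hs : ∀ m z, |s m z| ≤ 1) (x y : Y) :
    Tendsto (fun m => Finsupp.linearCombination ℝ (s m) (ces n d m x - ces n d m y))
      (hyperfilter ℕ) (𝓝 0) := by
  let ψ : ℕ → Y → ℝ := fun m z => Finsupp.linearCombination ℝ (s m) (ces n d m z)
  have h1 : ∀ m z, |ψ m z| ≤ 1 := fun m z => by
    simp only [ψ, ces, map_smul, map_sum, smul_eq_mul]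
    rw [abs_mul, abs_of_pos (by positivity), inv_mul_le_iff₀ (by positivity)]
    refine (Finset.abs_sum_le_sum_abs _ _).trans ((Finset.sum_le_card_nsmul _ _ _ fun k _ =>
      walk_abs n hd hN (hs m) k z).trans (le_of_eq ?_))
    simp
  have h2 : ∀ m z, |n.lap (ψ m) z| ≤ 2 * d * (1 / ((m : ℝ) + 1)) := fun m z => by
    have h3 : ∀ k, ∑ w ∈ n.N z, Finsupp.linearCombination ℝ (s m) (walk n d k w) =
        d * Finsupp.linearCombination ℝ (s m) (walk n d (k + 1) z) := fun k => by
      simp only [walk, map_smul, map_sum, smul_eq_mul]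
      field_simp
    have h4 : n.lap (ψ m) z = ((m : ℝ) + 1)⁻¹ * (d * (Finsupp.linearCombination ℝ (s m)
        (walk n d (m + 1) z) - Finsupp.linearCombination ℝ (s m) (walk n d 0 z))) := by
      rw [← Finset.sum_range_sub (fun k => Finsupp.linearCombination ℝ (s m) (walk n d k z))]
      simp only [Net.lap, ψ, ces, map_smul, map_sum, smul_eq_mul, Finset.sum_sub_distrib,
        Finset.sum_const, nsmul_eq_mul, hN, ← Finset.mul_sum]
      rw [Finset.sum_comm]
      simp only [h3, ← Finset.mul_sum]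
      ring
    have h5 := abs_le.1 (walk_abs n hd hN (hs m) (m + 1) z)
    have h6 := abs_le.1 (walk_abs n hd hN (hs m) 0 z)
    rw [h4, abs_mul, abs_mul, abs_of_pos hd, abs_of_pos (by positivity), one_div, mul_comm (2 * d),
      mul_comm 2 d]
    gcongr
    exact abs_le.2 ⟨by linarith [h5.1, h6.2], by linarith [h5.2, h6.1]⟩
  choose φ hφ using fun z => exists_ultralimit (hyperfilter ℕ) (fun m => ψ m z) 1 fun m => h1 m z
  have h3 := hL φ (fun z => by
    refine tendsto_nhds_unique (tendsto_finsetSum (n.N z) fun w _ => (hφ w).sub (hφ z)) ?_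
    refine squeeze_zero_norm (fun m => h2 m z) ?_
    simpa using (tendsto_one_div_add_atTop_nhds_zero_nat.const_mul (2 * d)).mono_left
      Nat.hyperfilter_le_atTop)
    (fun z => le_of_tendsto' (hφ z).abs fun m => h1 m z) y x
  have h4 := (hφ x).sub (hφ y)
  rw [h3, sub_self] at h4
  simpa only [map_sub] using h4

theorem exists_NF (n : Net E Y) (y₀ : Y) (htr : ∀ y, ∃ g : E, g • y₀ = y) {β : Set E}
    (hβ : ∀ t ∈ β, Bdd y₀ {k | ∃ g : E, g⁻¹ * t * g = k})
    (hβc : ∃ T : Finset Y, ∀ y, ∃ t ∈ β, t • y ∈ T) {A : Type*} [Group A] [Infinite A]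
    (τ : A →* E) (hp : ∀ x y : Y, {a | τ a • x = y}.Finite) :
    ∃ (K : Type u) (_ : NormedAddCommGroup K) (_ : InnerProductSpace ℝ K) (_ : CompleteSpace K)
      (α : AffAct A K), NF α := by
  classical
  have hinf : ∀ y : Y, (Set.range fun a => τ a • y).Infinite := fun y h => by
    refine Set.infinite_univ ((h.biUnion fun z _ => hp y z).subset fun a _ => ?_)
    simp only [Set.mem_iUnion]
    exact ⟨_, ⟨a, rfl⟩, rfl⟩
  set d : ℝ := ((n.N y₀).card : ℝ) with hdd
  have hN : ∀ x, ((n.N x).card : ℝ) = d := fun x => by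
    obtain ⟨g, rfl⟩ := htr x
    rw [n.card_smul]
  have hd : 0 < d := by
    obtain ⟨z, -, hz⟩ := (hinf y₀).exists_notMem_finset {y₀}
    rcases (n.conn y₀ z).cases_head with h | ⟨w, hw, -⟩
    · simp [h] at hz
    · rw [hdd]
      exact_mod_cast Finset.card_pos.2 ⟨w, hw⟩
  let k : Ker Y :=
    { κ := fun z z' => if z = z' then 1 else 0
      symm := fun z z' => by simp only [eq_comm]
      psd := fun s a => Finset.sum_nonneg fun z hz => by
        simp only [mul_ite, mul_one, mul_zero, Finset.sum_ite_eq, if_pos hz]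
        exact mul_self_nonneg _ }
  obtain ⟨H, _, _, _, π, Φ, h1, h2, h3⟩ := gns (E := E) k fun g z z' => by simp [k]
  have hon : Orthonormal ℝ Φ := orthonormal_iff_ite.2 h1
  let α : AffAct A H := { π := π.comp τ, c := 0, c_mul := fun _ _ => by simp }
  have hα : ∀ a v, α.act a v = π (τ a) v := fun a v => by simp [AffAct.act, α]
  have hfix : ∀ v, (∀ a, α.act a v = v) → v = 0 := fun v hv => by
    refine eq_zero_of_dense h3 fun z => ?_
    by_contra h0
    rw [real_inner_comm] at h0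
    obtain ⟨m, hm⟩ := exists_nat_gt (‖v‖ ^ 2 / ‖⟪Φ z, v⟫‖ ^ 2)
    obtain ⟨s, hs, rfl⟩ := (hinf z).exists_subset_card_eq m
    have h4 := hon.sum_inner_products_le (s := s) v
    rw [Finset.sum_congr rfl (g := fun _ => ‖⟪Φ z, v⟫‖ ^ 2) fun w hw => by
      obtain ⟨a, rfl⟩ := hs hw
      rw [← h2]
      conv_lhs => rw [← hv a, hα, LinearIsometryEquiv.inner_map_map], Finset.sum_const,
      nsmul_eq_mul] at h4
    rw [div_lt_iff₀ (by positivity)] at hm
    linarith
  have hq0 : ∀ m x z, 0 ≤ ces n d m x z := fun m x z => by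
    simp only [ces, Finsupp.smul_apply, Finsupp.finsetSum_apply, smul_eq_mul]
    exact mul_nonneg (by positivity) (Finset.sum_nonneg fun k _ => walk_nonneg n hd.le k x z)
  have hq1 : ∀ m (g : E) x z, ces n d m (g • x) (g • z) = ces n d m x z := fun m g x z => by
    simp only [ces, Finsupp.smul_apply, Finsupp.finsetSum_apply, walk_smul]
  let r : ℕ → Y → Y →₀ ℝ := fun m x => (ces n d m x).mapRange Real.sqrt Real.sqrt_zero
  let ξ : ℕ → Y → H := fun m x => Finsupp.linearCombination ℝ Φ (r m x)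
  have hsq : ∀ c : Y →₀ ℝ, ∀ s : Finset Y, c.support ⊆ s →
      ‖Finsupp.linearCombination ℝ Φ c‖ ^ 2 = ∑ z ∈ s, c z ^ 2 := fun c s hs => by
    rw [← real_inner_self_eq_norm_sq, hon.inner_finsupp_eq_sum_left,
      Finsupp.sum_of_support_subset _ hs _ (by simp)]
    simp [sq]
  have hξ1 : ∀ m x, ‖ξ m x‖ = 1 := fun m x => by
    have h4 := hsq (r m x) _ Finsupp.support_mapRange
    have h5 : Finsupp.linearCombination ℝ (fun _ => (1 : ℝ)) (ces n d m x) = 1 := by
      simp only [ces, map_smul, map_sum, walk_mass n hd hN, Finset.sum_const, card_range,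
        nsmul_eq_mul, smul_eq_mul]
      push_cast
      field_simp
    simp only [r, Finsupp.mapRange_apply, Real.sq_sqrt (hq0 _ _ _)] at h4
    rw [Finsupp.linearCombination_apply, Finsupp.sum] at h5
    simp only [smul_eq_mul, mul_one] at h5
    rw [h5] at h4
    exact (pow_eq_one_iff_of_nonneg (norm_nonneg _) two_ne_zero).1 h4
  have hξ2 : ∀ m (g : E) x, π g (ξ m x) = ξ m (g • x) := fun m g x => by
    have h4 : r m (g • x) = (r m x).mapDomain fun z => g • z := by
      ext z
      conv_rhs => rw [← smul_inv_smul g z, Finsupp.mapDomain_apply (MulAction.injective g)]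
      simp only [r, Finsupp.mapRange_apply]
      rw [← hq1 m g x, smul_inv_smul]
    simp only [ξ]
    rw [h4, Finsupp.linearCombination_mapDomain, Finsupp.linearCombination_apply,
      Finsupp.linearCombination_apply, map_finsuppSum]
    simp only [map_smul, h2, Function.comp_apply]
  have hξ3 : ∀ x y, Tendsto (fun m => ‖ξ m x - ξ m y‖) (hyperfilter ℕ) (𝓝 0) := fun x y => by
    have h4 := reiter n hd hN (fun ψ h5 h6 => liouville n y₀ htr hβ hβc h5 h6)
      (fun m z => SignType.sign ((ces n d m x - ces n d m y) z)) (fun m z => by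
        generalize SignType.sign ((ces n d m x - ces n d m y) z) = t
        cases t <;> simp) x y
    have h5 := h4.sqrt
    rw [Real.sqrt_zero] at h5
    refine squeeze_zero (fun _ => norm_nonneg _) (fun m => Real.le_sqrt_of_sq_le ?_) h5
    simp only [ξ]
    have h6 : (r m x - r m y).support ⊆ (ces n d m x - ces n d m y).support := fun z hz => by
      simp only [Finsupp.mem_support_iff, Finsupp.sub_apply, r, Finsupp.mapRange_apply, ne_eq,
        sub_eq_zero] at hz ⊢
      exact fun h => hz (by rw [h])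
    rw [← map_sub, hsq _ _ h6, Finsupp.linearCombination_apply, Finsupp.sum]
    refine Finset.sum_le_sum fun z _ => ?_
    rw [smul_eq_mul, mul_comm, sign_mul_self]
    simp only [Finsupp.sub_apply, r, Finsupp.mapRange_apply]
    have h7 := Real.sq_sqrt (hq0 m x z)
    have h8 := Real.sq_sqrt (hq0 m y z)
    have h9 := Real.sqrt_nonneg (ces n d m x z)
    have h10 := Real.sqrt_nonneg (ces n d m y z)
    rcases le_total √(ces n d m x z) √(ces n d m y z) with h | h
    · exact le_trans (by nlinarith) (neg_le_abs _)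
    · exact le_trans (by nlinarith) (le_abs_self _)
  refine ⟨H, inferInstance, inferInstance, inferInstance, α, fun S C => ?_⟩
  have h4 : Tendsto (fun m => C * α.disp S (ξ m y₀)) (hyperfilter ℕ) (𝓝 0) := by
    have := (tendsto_finsetSum S fun a _ => hξ3 (τ a • y₀) y₀).const_mul C
    simpa only [AffAct.disp, hα, hξ2, Finset.sum_const_zero, mul_zero] using this
  obtain ⟨m, hm⟩ := (h4.eventually (gt_mem_nhds one_pos)).exists
  exact ⟨ξ m y₀, fun v' hv' => by rw [hfix v' hv', sub_zero, hξ1]; exact hm⟩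

end Pool.Agent.Lib.MP_a6ff19_al
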