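import Pool.Agent.Lib.MP_a6ff19_al.Transfer
import Pool.Agent.Lib.MP_a6ff19_al.Reiter

set_option autoImplicit false
set_option linter.unusedSectionVars false

/-!
Using graphical discreteness on coset spaces of commensurated open subgroups.
-/

namespace Pool.Agent.Lib.MP_a6ff19_al

open scoped Pointwise
open MulAction Subgroup.Commensurable

/-- Algebraic form of graphical discreteness. -/
def GDalg (B : Type*) [Group B] : Prop :=
  ∀ (E Y : Type) [Group E] [MulAction E Y] (_ : Net E Y) (y₀ : Y) (σ : B →* E),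
    (∀ x y : Y, {b | σ b • x = y}.Finite) → (∃ T : Finset Y, ∀ y : Y, ∃ b, σ b • y ∈ T) →
    ∃ L : Subgroup E, L.Normal ∧ Opn Y L ∧ Bdd y₀ (L : Set E)

variable {G X : Type} [Group G] [MulAction G X] {P Q : Type*} [Group P] [Group Q]

lemma finite_sub_image (O J : Subgroup G) (C : Set O) {T : Set G} (hT : T.Finite)
    (h : ∀ c ∈ C, ∃ t ∈ T, t⁻¹ * c ∈ J) :
    ((fun g : O => (g : O ⧸ J.subgroupOf O)) '' C).Finite := by
  refine finite_image_of_factor (fun c : O => ((c : G) : G ⧸ J)) _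
    ((hT.image fun t : G => (t : G ⧸ J)).subset ?_) fun u _ u' _ huu =>
      QuotientGroup.eq.2 ((QuotientGroup.eq (s := J)).1 huu)
  rintro _ ⟨c, hc, rfl⟩
  obtain ⟨t, ht, h1⟩ := h c hc
  exact ⟨t, ht, QuotientGroup.eq.2 h1⟩

lemma double_cov {J : Subgroup G} {T : Set G} (hT : T.Finite) (h : T ⊆ commensurator J) :
    ∃ T' : Set G, T'.Finite ∧ ∀ j ∈ J, ∀ t ∈ T, ∃ t' ∈ T', t'⁻¹ * (j * t) ∈ J := by
  choose! C hC _ hC' using fun t (ht : t ∈ T) => cov_of_relIndex (h ht).1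
  refine ⟨⋃ t ∈ T, (fun c => c * t) '' C t, hT.biUnion fun t ht => (hC t ht).image _,
    fun j hj t ht => ?_⟩
  obtain ⟨c, hc, h1⟩ := hC' t ht j hj
  refine ⟨c * t, Set.mem_biUnion ht ⟨c, hc, rfl⟩, ?_⟩
  simpa [mul_assoc] using (mem_conj_iff _ _ _).1 h1

theorem gd_use (n : Net G X) (x₀ : X) {ρ : P × Q →* G} {E₀ J : Subgroup G} (hc : Coc x₀ ρ E₀)
    (hJ : J ≤ E₀) (hP : ∀ p, ρ (p, 1) ∈ E₀) (hQ : ∀ q, ρ (1, q) ∈ J) (hJo : Opn X J)
    (hfin : (J.comap (ρ.comp (MonoidHom.inl P Q)) : Set P).Finite)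
    (hcomm : ∀ p, ρ (p, 1) ∈ commensurator J) (hfg : Group.FG P) (hGD : GDalg P) :
    ∃ L : Subgroup G, L ≤ E₀ ∧ Opn X L ∧ L.Commensurable J ∧
      (∀ p, ∀ l ∈ L, ρ (p, 1) * l * (ρ (p, 1))⁻¹ ∈ L) ∧ ∀ j ∈ J, ∀ l ∈ L, j * l * j⁻¹ ∈ L := by
  classical
  obtain ⟨S, -, hsymm, htop⟩ := exists_symm_gen hfg
  set σ := ρ.comp (MonoidHom.inl P Q) with hσ
  let O := Subgroup.closure ((J : Set G) ∪ σ '' S)
  have hJO : J ≤ O := fun g hg => Subgroup.subset_closure (Or.inl hg)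
  have hσO : ∀ p, σ p ∈ O := fun p => by
    have : Subgroup.closure (S : Set P) ≤ O.comap σ :=
      (Subgroup.closure_le _).2 fun s hs => Subgroup.subset_closure (Or.inr ⟨s, hs, rfl⟩)
    exact this (htop ▸ Subgroup.mem_top p)
  have hOE : O ≤ E₀ := (Subgroup.closure_le _).2 (by
    rintro g (hg | ⟨s, -, rfl⟩)
    · exact hJ hg
    · exact hP s)
  have hOc : O ≤ commensurator J := (Subgroup.closure_le _).2 (by
    rintro g (hg | ⟨s, -, rfl⟩)
    · exact mem_commensurator_of_mem hg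
    · exact hcomm s)
  obtain ⟨m, -⟩ := exists_cosetNet (J.subgroupOf O) (O.subtype ⁻¹' (σ '' S))
    (by rintro s ⟨s₀, hs₀, hs⟩; exact ⟨s₀⁻¹, hsymm _ hs₀, by rw [map_inv, map_inv, hs]⟩)
    (Subgroup.closure_preimage_eq_top _) (by
      obtain ⟨T, hT, h1⟩ := double_cov (J := J) (S.finite_toSet.image σ)
        (by rintro _ ⟨s, -, rfl⟩; exact hcomm s)
      refine finite_sub_image O J _ hT ?_
      rintro _ ⟨j, hj, s, hs, rfl⟩
      exact h1 j hj s hs)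
  obtain ⟨L, hL1, ⟨F, hF⟩, hL3⟩ := hGD O (O ⧸ J.subgroupOf O) m ((1 : O) : O ⧸ J.subgroupOf O)
    (σ.codRestrict O hσO) (by
      intro y z
      obtain ⟨a, rfl⟩ := QuotientGroup.mk_surjective y
      obtain ⟨a', rfl⟩ := QuotientGroup.mk_surjective z
      have h1 : ∀ b, σ.codRestrict O hσO b • (a : O ⧸ J.subgroupOf O) = a' →
          (a' : G)⁻¹ * (σ b * a) ∈ J := fun b hb =>
        (QuotientGroup.eq (s := J.subgroupOf O)).1 hb.symm
      rcases Set.eq_empty_or_nonempty {b | σ.codRestrict O hσO b • (a : O ⧸ J.subgroupOf O) = a'}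
        with h | ⟨b₀, hb₀⟩
      · rw [h]; exact Set.finite_empty
      refine ((finite_of_relIndex (Subgroup.relIndex_comap_ne_zero σ (hOc a.2).2) hfin).image
        fun b => b₀ * b).subset fun b hb => ⟨b₀⁻¹ * b, ?_, by simp⟩
      refine (mem_conj_iff _ _ _).2 ?_
      simpa [mul_assoc] using J.mul_mem (J.inv_mem (h1 _ hb₀)) (h1 _ hb)) (by
      obtain ⟨C, hC, h1⟩ := hc
      obtain ⟨T, hT, hT', h2⟩ := (hC.mono (Set.inter_subset_left (t := O))).cover n hJo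
      obtain ⟨T', hT'', h3⟩ := double_cov (J := J) hT fun t ht => hOc (hT' ht).2
      refine ⟨(finite_sub_image O J {c | ∃ t ∈ T', t⁻¹ * c ∈ J} hT'' fun c hc => hc).toFinset,
        fun y => ?_⟩
      obtain ⟨g, rfl⟩ := QuotientGroup.mk_surjective y
      obtain ⟨l, hl⟩ := h1 g (hOE g.2)
      have h4 : ρ l = ρ (1, l.2) * σ l.1 := by
        rw [hσ, MonoidHom.comp_apply, ← map_mul]
        simp
      obtain ⟨t, ht, h5⟩ := h2 _ ⟨hl, O.mul_mem (h4 ▸ O.mul_mem (hJO (hQ _)) (hσO _)) g.2⟩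
      obtain ⟨t', ht', h6⟩ := h3 _ (J.inv_mem (hQ l.2)) t ht
      refine ⟨l.1, (Set.Finite.mem_toFinset _).2 ⟨_, ⟨t', ht', ?_⟩, rfl⟩⟩
      have := J.mul_mem h6 h5
      rw [h4] at this
      simpa [mul_assoc] using this)
  let V : Subgroup G := J ⊓ ⨅ y ∈ (F : Set (O ⧸ J.subgroupOf O)), ConjAct.toConjAct (y.out : G) • J
  have hV : V ≤ L.map O.subtype := fun g hg => by
    refine ⟨⟨g, hJO hg.1⟩, hF _ fun y hy => ?_, rfl⟩
    have h1 := (mem_conj_iff _ _ _).1 (Subgroup.mem_iInf.1 (Subgroup.mem_iInf.1 hg.2 y) hy)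
    conv_lhs => rw [← QuotientGroup.out_eq' y]
    conv_rhs => rw [← QuotientGroup.out_eq' y]
    refine Eq.symm (QuotientGroup.eq.2 ?_)
    simpa [Subgroup.mem_subgroupOf, mul_assoc] using h1
  have hn : ∀ g ∈ O, ∀ l ∈ L.map O.subtype, g * l * g⁻¹ ∈ L.map O.subtype := by
    rintro g hg _ ⟨l, hl, rfl⟩
    exact ⟨_, hL1.conj_mem l hl ⟨g, hg⟩, rfl⟩
  refine ⟨L.map O.subtype, (Subgroup.map_subtype_le _).trans hOE,
    (hJo.inf (Opn.iInf F.finite_toSet fun y _ => hJo.conjAct _)).mono hV, ⟨?_, ?_⟩,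
    fun p => hn _ (hσO p), fun j hj => hn _ (hJO hj)⟩
  · refine fun h => ?_
    refine Subgroup.relIndex_inf_ne_zero (by simp) ?_ (Subgroup.relIndex_eq_zero_of_le_left hV h)
    rw [iInf_subtype']
    exact Subgroup.relIndex_iInf_ne_zero fun y => (hOc y.1.out.2).1
  · refine relIndex_of_cov (hL3.image fun y => (y.out : G)) ?_
    rintro _ ⟨l, hl, rfl⟩
    refine ⟨_, ⟨_, ⟨l, hl, rfl⟩, rfl⟩, ?_⟩
    have := (QuotientGroup.eq (s := J.subgroupOf O)).1
      (QuotientGroup.out_eq' (l • ((1 : O) : O ⧸ J.subgroupOf O)))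
    simpa [Subgroup.mem_subgroupOf] using this

end Pool.Agent.Lib.MP_a6ff19_al
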