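import Mathlib

set_option autoImplicit false
set_option linter.unusedSectionVars false

/-!
The Hilbert space and unitary action attached to an invariant positive semidefinite kernel.
-/

namespace Pool.Agent.Lib.MP_a6ff19_al

open Finset
open scoped RealInnerProductSpace

universe u

/-- A symmetric positive semidefinite real kernel. -/
structure Ker (Z : Type u) where
  κ : Z → Z → ℝ
  symm : ∀ z z', κ z z' = κ z' z
  psd : ∀ (s : Finset Z) (a : Z → ℝ), 0 ≤ ∑ z ∈ s, ∑ z' ∈ s, a z * a z' * κ z z'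

namespace Ker

variable {Z : Type u} (k : Ker Z)

/-- The bilinear form of the kernel. -/
noncomputable def B : (Z →₀ ℝ) →ₗ[ℝ] (Z →₀ ℝ) →ₗ[ℝ] ℝ :=
  Finsupp.linearCombination ℝ fun z => Finsupp.linearCombination ℝ fun z' => k.κ z z'

lemma B_apply (c c' : Z →₀ ℝ) :
    k.B c c' = ∑ z ∈ c.support, ∑ z' ∈ c'.support, c z * c' z' * k.κ z z' := by
  simp only [B, Finsupp.linearCombination_apply, Finsupp.sum, LinearMap.coe_sum, Finset.sum_apply,
    LinearMap.smul_apply, smul_eq_mul, Finset.mul_sum, mul_assoc]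

lemma B_single (z z' : Z) : k.B (Finsupp.single z 1) (Finsupp.single z' 1) = k.κ z z' := by
  simp [B]

lemma B_symm (c c' : Z →₀ ℝ) : k.B c c' = k.B c' c := by
  rw [B_apply, B_apply, Finset.sum_comm]
  exact Finset.sum_congr rfl fun z _ => Finset.sum_congr rfl fun z' _ => by rw [k.symm]; ring

/-- The pre-Hilbert space of the kernel. -/
def Pre (_k : Ker Z) : Type u := Z →₀ ℝ

noncomputable instance : AddCommGroup k.Pre := inferInstanceAs (AddCommGroup (Z →₀ ℝ))
noncomputable instance : Module ℝ k.Pre := inferInstanceAs (Module ℝ (Z →₀ ℝ))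

noncomputable instance core : PreInnerProductSpace.Core ℝ k.Pre where
  inner c c' := k.B c c'
  conj_inner_symm c c' := by simpa using k.B_symm c' c
  re_inner_nonneg c := by
    have := k.psd (Finsupp.support c) (fun z => (show Z →₀ ℝ from c) z)
    rw [← k.B_apply] at this
    simpa using this
  add_left c c' d := by
    exact LinearMap.congr_fun (k.B.map_add c c') d
  smul_left c d r := by
    exact LinearMap.congr_fun (k.B.map_smul r c) d

noncomputable instance : SeminormedAddCommGroup k.Pre :=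
  InnerProductSpace.Core.toSeminormedAddCommGroup (𝕜 := ℝ)

noncomputable instance : InnerProductSpace ℝ k.Pre := .ofCore _

lemma inner_pre (c c' : k.Pre) : ⟪c, c'⟫ = k.B c c' := rfl

/-- The map from finitely supported functions to the completion. -/
noncomputable def e : (Z →₀ ℝ) →ₗ[ℝ] UniformSpace.Completion k.Pre :=
  (UniformSpace.Completion.toComplL (𝕜 := ℝ) (E := k.Pre)).toLinearMap

lemma e_inner (c c' : Z →₀ ℝ) : ⟪k.e c, k.e c'⟫ = k.B c c' :=
  UniformSpace.Completion.inner_coe (𝕜 := ℝ) (E := k.Pre) c c'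

lemma e_dense : DenseRange k.e := UniformSpace.Completion.denseRange_coe (α := k.Pre)

end Ker

theorem gns {E : Type*} {Z : Type u} [Group E] [MulAction E Z] (k : Ker Z)
    (hinv : ∀ (g : E) z z', k.κ (g • z) (g • z') = k.κ z z') :
    ∃ (H : Type u) (_ : NormedAddCommGroup H) (_ : InnerProductSpace ℝ H) (_ : CompleteSpace H)
      (π : E →* (H ≃ₗᵢ[ℝ] H)) (Φ : Z → H), (∀ z z', ⟪Φ z, Φ z'⟫ = k.κ z z') ∧
      (∀ g z, π g (Φ z) = Φ (g • z)) ∧ Dense (Submodule.span ℝ (Set.range Φ) : Set H) := by
  let T : E → (Z →₀ ℝ) ≃ₗ[ℝ] (Z →₀ ℝ) := fun g => Finsupp.domLCongr (MulAction.toPerm g)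
  have hT : ∀ g z a, T g (Finsupp.single z a) = Finsupp.single (g • z) a := fun g z a => by
    simp [T]
  have hB : ∀ g c c', k.B (T g c) (T g c') = k.B c c' := by
    intro g
    have : (k.B.compl₁₂ (T g).toLinearMap (T g).toLinearMap) = k.B := by
      ext z z'
      simp [hT, Ker.B_single, hinv]
    intro c c'
    exact LinearMap.congr_fun₂ this c c'
  have hnorm : ∀ g c, ‖k.e (T g c)‖ = ‖k.e c‖ := fun g c => by
    rw [norm_eq_sqrt_real_inner, norm_eq_sqrt_real_inner, k.e_inner, k.e_inner, hB]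
  let π₀ : E → (UniformSpace.Completion k.Pre ≃ₗᵢ[ℝ] UniformSpace.Completion k.Pre) := fun g =>
    (T g).extendOfIsometry k.e k.e k.e_dense k.e_dense (hnorm g)
  have hπ : ∀ g c, π₀ g (k.e c) = k.e (T g c) := fun g c =>
    LinearEquiv.extendOfIsometry_eq _ _ _ _ _ _ c
  have hmul : ∀ g h, π₀ (g * h) = π₀ g * π₀ h := fun g h => by
    ext v
    refine k.e_dense.induction_on v (isClosed_eq (π₀ _).continuous (π₀ g * π₀ h).continuous) ?_
    intro c
    rw [LinearIsometryEquiv.coe_mul, Function.comp_apply, hπ, hπ, hπ]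
    congr 1
    have : (T (g * h)).toLinearMap = (T g).toLinearMap ∘ₗ (T h).toLinearMap := by
      ext z
      simp [hT, mul_smul]
    exact LinearMap.congr_fun this c
  refine ⟨_, inferInstance, inferInstance, inferInstance, MonoidHom.mk' π₀ hmul,
    fun z => k.e (Finsupp.single z 1), fun z z' => by rw [k.e_inner, k.B_single],
    fun g z => by simp [hπ, hT], ?_⟩
  refine k.e_dense.mono ?_
  rintro _ ⟨c, rfl⟩
  induction c using Finsupp.induction_linear with
  | zero => simp
  | add a b ha hb => rw [map_add]; exact Submodule.add_mem _ ha hb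
  | single z a =>
    rw [← mul_one a, ← smul_eq_mul, ← Finsupp.smul_single, map_smul]
    exact Submodule.smul_mem _ _ (Submodule.subset_span ⟨z, rfl⟩)

/-- The Gram kernel of a family of vectors. -/
noncomputable def gram {Z : Type u} {K : Type*} [NormedAddCommGroup K] [InnerProductSpace ℝ K]
    (Φ : Z → K) : Ker Z where
  κ z z' := ⟪Φ z, Φ z'⟫
  symm z z' := real_inner_comm _ _
  psd s a := by
    have : ∑ z ∈ s, ∑ z' ∈ s, a z * a z' * ⟪Φ z, Φ z'⟫ =
        ⟪∑ z ∈ s, a z • Φ z, ∑ z ∈ s, a z • Φ z⟫ := by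
      simp only [sum_inner, inner_sum, real_inner_smul_left, real_inner_smul_right, mul_assoc]
      rw [Finset.sum_comm]
      exact Finset.sum_congr rfl fun z _ => Finset.sum_congr rfl fun z' _ => by ring
    rw [this]
    exact real_inner_self_nonneg

end Pool.Agent.Lib.MP_a6ff19_al
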