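import Pool.Agent.Lib.MP_a6ff19_al.H17NS

set_option autoImplicit false
set_option linter.unusedSectionVars false

/-!
The case where one factor is not expansive.
-/

namespace Pool.Agent.Lib.MP_a6ff19_al

open MulAction Filter
open scoped Pointwise

variable {E X : Type} [Group E] [MulAction E X] {Λ : Type*} [Group Λ] {x₀ : X}
  {A : Type*} [Group A] {σ : A →* E} {L : Subgroup E}

lemma eventually_lt_hyper (a : ℕ) : ∀ᶠ k in (hyperfilter ℕ : Filter ℕ), a < k :=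
  (eventually_gt_atTop a).filter_mono (Nat.cofinite_eq_atTop ▸ hyperfilter_le_cofinite)

lemma limit_mem (hc : cl X L ≤ L) {𝒰 : Ultrafilter ℕ} {w : ℕ → E} (hw : ∀ k, w k ∈ L) {v : E}
    (h : ∀ F : Finset X, ∀ᶠ i in (𝒰 : Filter ℕ), ∀ x ∈ F, w i • x = v • x) : v ∈ L :=
  hc fun F => let ⟨k, hk⟩ := (h F).exists; ⟨w k, hw k, fun x hx => (hk x hx).symm⟩

theorem Ctx.alpha {ρ : Λ →* E} (c : Ctx x₀ ρ L) (n : Net E X) {F₀ : Finset X} (hns : NS L F₀)
    (hfg : Group.FG A) (hnd : ND X σ L) (hd : L ≤ cl X (L ⊓ bddConj n x₀ σ.range)) : False := by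
  classical
  have hN := c.nrm
  obtain ⟨S, -, hs, ht⟩ := exists_symm_gen hfg
  let F := insert x₀ F₀
  obtain ⟨k₀, hk₀⟩ := n.exists_ball_finite x₀ F.finite_toSet
  let U : Subgroup E :=
    { carrier := {g | g ∈ L ∧ ∀ a, ∀ x ∈ F, g • σ a • x = σ a • x}
      one_mem' := ⟨L.one_mem, fun _ _ _ => one_smul _ _⟩
      mul_mem' := fun {a b} ha hb => ⟨L.mul_mem ha.1 hb.1, fun l x hx => by
        rw [mul_smul, hb.2 l x hx, ha.2 l x hx]⟩
      inv_mem' := fun {a} ha => ⟨L.inv_mem ha.1, fun l x hx =>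
        inv_smul_eq_iff.2 (ha.2 l x hx).symm⟩ }
  have h1 : ∀ k : ℕ, ∃ (a : A) (w : E), w ∈ L ∧ (∀ x ∈ F, w • x = x) ∧
      (∃ s ∈ S, ∃ x ∈ F, w • σ s • x ≠ σ s • x) ∧ ∀ x ∈ n.ball (σ a • x₀) k, w • x = x := by
    intro k
    by_contra hno
    push Not at hno
    have h1 : U = L := hnd U (fun g hg => hg.1) ⟨(n.ball_finite x₀ (k + k₀)).toFinset,
      fun w hw h1 => ⟨hw, fun a => by
        have h2 : ∀ a s, s ∈ S → (∀ x ∈ F, w • σ a • x = σ a • x) →
            ∀ x ∈ F, w • σ (a * s) • x = σ (a * s) • x := fun a s hs h2 x hx => by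
          by_contra h3
          obtain ⟨z, h4, h5⟩ := hno a⁻¹ _ (hN.conj_mem' w hw (σ a))
            (fun x hx => by simp [mul_smul, h2 x hx])
            ⟨s, hs, x, hx, fun h4 => h3 (by simpa [mul_smul, inv_smul_eq_iff] using h4)⟩
          have h6 := n.ball_smul (σ a) h4
          rw [map_inv, smul_inv_smul] at h6
          exact h5 (by
            rw [mul_smul, mul_smul, h1 _ ((Set.Finite.mem_toFinset _).2
              (n.ball_mono h6 (by omega))), inv_smul_smul])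
        have h3 : a ∈ Subgroup.closure (S : Set A) := ht ▸ Subgroup.mem_top a
        induction h3 using Subgroup.closure_induction_right with
        | one =>
          intro x hx
          simpa using h1 x ((Set.Finite.mem_toFinset _).2 (n.ball_mono (hk₀ hx) (by omega)))
        | mul_right l _ s h ih => exact h2 l s h ih
        | mul_inv_cancel l _ s h ih => exact h2 l _ (hs s h) ih⟩⟩
      fun b g hg => ⟨hN.conj_mem g hg.1 _, fun a x hx => by
        have := hg.2 (b⁻¹ * a) x hx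
        simp only [map_mul, map_inv, mul_smul] at this ⊢
        rw [this, smul_inv_smul]⟩
    exact c.unbdd ((Bdd.stab x₀).mono fun g hg => by
      simpa using (h1.ge hg).2 1 x₀ (Finset.mem_insert_self _ _))
  choose a w h1 h2 h3 h4 using h1
  obtain ⟨v, hv⟩ := c.cpl.lim (hyperfilter ℕ) w ((Bdd.stab x₀).mono (by
    rintro _ ⟨k, rfl⟩
    exact h2 k x₀ (Finset.mem_insert_self _ _)))
  have h5 : v = 1 := hns.key n c.cls (hyperfilter ℕ) (fun k => σ (a k) • x₀) (fun k => k + 1)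
    (fun k => k.succ_pos) (G := (L ⊓ bddConj n x₀ σ.range : Subgroup E))
    (fun g hg => Subgroup.inv_mem _ hg) (by rwa [Subgroup.closure_eq]) (fun g hg t F => by
      obtain ⟨D, hD⟩ := n.exists_ball_finite x₀ hg.2
      filter_upwards [eventually_lt_hyper (t * D)] with k hk
      refine ⟨g, D, by omega, ?_, fun _ _ => rfl⟩
      simpa [mul_smul] using n.ball_smul (σ (a k)) (hD ⟨_, ⟨σ (a k), ⟨_, rfl⟩, rfl⟩, rfl⟩))
    (limit_mem c.cls h1 hv) (t := 1) (fun F => by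
      filter_upwards [hv F] with k hk
      exact ⟨w k, h1 k, fun D hD x hx => h4 k x (n.ball_mono hx (by omega)), hk⟩) (g := 1)
    fun x hx => by
      obtain ⟨k, hk⟩ := (hv {x}).exists
      rw [one_smul, ← hk x (Finset.mem_singleton_self _), h2 k x (Finset.mem_insert_of_mem hx)]
  obtain ⟨k, hk⟩ := (hv (S.biUnion fun s => F.image fun x => σ s • x)).exists
  obtain ⟨s, hs, x, hx, h6⟩ := h3 k
  exact h6 (by
    rw [hk _ (Finset.mem_biUnion.2 ⟨s, hs, Finset.mem_image_of_mem _ hx⟩), h5, one_smul])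

lemma bddConj_anti (n : Net E X) (x₀ : X) {Z Z' : Subgroup E} (h : Z ≤ Z') :
    bddConj n x₀ Z' ≤ bddConj n x₀ Z := fun _ ht =>
  Bdd.mono ht fun _ ⟨l, h1, h2⟩ => ⟨l, h h1, h2⟩

lemma bddConj_nrm (n : Net E X) (x₀ : X) {Z : Subgroup E} {g t : E}
    (h : ∀ z ∈ Z, g⁻¹ * z * g ∈ Z) (ht : t ∈ bddConj n x₀ Z) : g * t * g⁻¹ ∈ bddConj n x₀ Z := by
  refine (((Bdd.of_finite x₀ (Set.finite_singleton g)).mul n ht).mul n
    (Bdd.of_finite x₀ (Set.finite_singleton g⁻¹))).mono ?_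
  rintro _ ⟨z, hz, rfl⟩
  exact ⟨_, ⟨g, rfl, _, ⟨_, h z hz, rfl⟩, rfl⟩, g⁻¹, rfl, by simp [mul_assoc]⟩

theorem Ctx.bdd_dense {ρ : Λ →* E} (c : Ctx x₀ ρ L) (n : Net E X) {Z : Subgroup E} (hZ : Nrm ρ Z)
    (h : ∀ F : Finset X, ∃ v ∈ L, v ≠ 1 ∧ ∀ z ∈ Z, ∀ x ∈ F, v • z • x = z • x) :
    L ≤ cl X (L ⊓ bddConj n x₀ Z) := by
  classical
  have hN := c.nrm
  have h0 : ∀ H, cl X (L ⊓ H) ≤ L := fun H => (cl_mono inf_le_left).trans c.cls
  by_cases h1 : Small x₀ ρ (cl X (L ⊓ bddConj n x₀ Z))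
  · obtain ⟨W, h1, h2, h3, F, h4⟩ := h1
    obtain ⟨C, hC, h5⟩ := c.coc
    have h6 : W ≤ L ⊓ bddConj n x₀ ⊤ := fun w hw => ⟨h0 _ (h1 hw),
      (((hC.inv n).mul n h2).mul n hC).mono (by
        rintro _ ⟨g, hg, rfl⟩
        obtain ⟨l, hl⟩ := h5 g hg
        exact ⟨_, ⟨_, Set.inv_mem_inv.2 hl, _, h3 l w hw, rfl⟩, _, hl, by simp [mul_assoc]⟩)⟩
    haveI : (cl X (L ⊓ bddConj n x₀ ⊤)).Normal := ⟨fun v hv g =>
      cl_conj (H := L ⊓ bddConj n x₀ ⊤) (fun w hw => le_cl (L ⊓ _) ⟨hN.conj_mem w hw.1 g,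
        bddConj_conj n x₀ hw.2 (Subgroup.mem_top g)⟩) v hv⟩
    by_cases h7 : cl X (L ⊓ bddConj n x₀ ⊤) = L
    · exact h7.ge.trans (cl_mono (inf_le_inf_left _ (bddConj_anti n x₀ le_top)))
    · obtain ⟨F', hF⟩ := c.disc n (cl_closed _) (h0 _) h7
      obtain ⟨v, h8, h9, h10⟩ := h (insert x₀ (F ∪ F'))
      have h11 : ∀ x ∈ F ∪ F', v • x = x := fun x hx => by
        simpa using h10 1 Z.one_mem x (Finset.mem_insert_of_mem hx)
      refine (h9 (hF v (le_cl _ (h6 (h4 v (le_cl _ ⟨h8, (Bdd.stab x₀).mono ?_⟩)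
        fun x hx => h11 x (Finset.mem_union_left _ hx))))
        fun x hx => h11 x (Finset.mem_union_right _ hx))).elim
      rintro _ ⟨z, hz, rfl⟩
      simp [mul_smul, h10 z hz x₀ (Finset.mem_insert_self _ _)]
  · exact (c.min _ (h0 _) (cl_closed _) (Nrm.cl fun l g hg =>
      ⟨hN.conj_mem g hg.1 _, bddConj_nrm n x₀ (fun z hz => hZ.inv l hz) hg.2⟩) h1).ge

end Pool.Agent.Lib.MP_a6ff19_al
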