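import Pool.Agent.Lib.MP_a6ff19_al.Main2

set_option autoImplicit false
set_option linter.unusedSectionVars false

/-!
Balls, compactness for directed families, closed subgroups, small subgroups and the propagation
lemma.
-/

namespace Pool.Agent.Lib.MP_a6ff19_al

open Filter
open scoped Pointwise

variable {E X : Type*} [Group E] [MulAction E X] {Λ : Type*} [Group Λ]

namespace Net

variable (n : Net E X)

/-- Balls of the neighbour structure. -/
def ball (x : X) : ℕ → Set X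
  | 0 => {x}
  | r + 1 => ball x r ∪ {z | ∃ y ∈ ball x r, z ∈ n.N y}

lemma ball_self (x : X) (r : ℕ) : x ∈ n.ball x r := by
  induction r with
  | zero => rfl
  | succ r ih => exact Or.inl ih

lemma ball_mono {x y : X} {r r' : ℕ} (h : y ∈ n.ball x r) (h' : r ≤ r') : y ∈ n.ball x r' := by
  induction h' with
  | refl => exact h
  | step _ ih => exact Or.inl ih

lemma ball_smul (g : E) {x y : X} {r : ℕ} (h : y ∈ n.ball x r) : g • y ∈ n.ball (g • x) r := by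
  induction r generalizing y with
  | zero => exact congrArg (g • ·) h
  | succ r ih =>
    rcases h with h | ⟨z, hz, h⟩
    · exact Or.inl (ih h)
    · exact Or.inr ⟨_, ih hz, n.smul_mem g _ _ h⟩

lemma ball_smul_iff (g : E) {x y : X} {r : ℕ} : g • y ∈ n.ball (g • x) r ↔ y ∈ n.ball x r :=
  ⟨fun h => by simpa using n.ball_smul g⁻¹ h, n.ball_smul g⟩

lemma ball_trans {x y z : X} {r s : ℕ} (h : y ∈ n.ball x r) (h' : z ∈ n.ball y s) :
    z ∈ n.ball x (r + s) := by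
  induction s generalizing z with
  | zero => exact (show z = y from h') ▸ h
  | succ s ih =>
    rcases h' with h' | ⟨w, hw, h'⟩
    · exact Or.inl (ih h')
    · exact Or.inr ⟨w, ih hw, h'⟩

lemma ball_one {x y : X} (h : y ∈ n.N x) : y ∈ n.ball x 1 := Or.inr ⟨x, rfl, h⟩

lemma ball_symm {x y : X} {r : ℕ} (h : y ∈ n.ball x r) : x ∈ n.ball y r := by
  induction r generalizing y with
  | zero => exact (show y = x from h).symm
  | succ r ih =>
    rcases h with h | ⟨z, hz, h⟩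
    · exact Or.inl (ih h)
    · rw [add_comm]
      exact n.ball_trans (n.ball_one (n.symm _ _ h)) (ih hz)

lemma ball_finite (x : X) (r : ℕ) : (n.ball x r).Finite := by
  induction r with
  | zero => exact Set.finite_singleton x
  | succ r ih =>
    refine ih.union ((ih.biUnion fun y _ => (n.N y).finite_toSet).subset ?_)
    rintro z ⟨y, hy, hz⟩
    exact Set.mem_biUnion hy hz

lemma exists_ball (x y : X) : ∃ r, y ∈ n.ball x r := by
  induction n.conn x y with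
  | refl => exact ⟨0, rfl⟩
  | tail _ h2 ih => exact let ⟨r, hr⟩ := ih; ⟨r + 1, Or.inr ⟨_, hr, h2⟩⟩

lemma exists_ball_finite (x : X) {F : Set X} (hF : F.Finite) : ∃ r, F ⊆ n.ball x r := by
  induction F, hF using Set.Finite.induction_on with
  | empty => exact ⟨0, Set.empty_subset _⟩
  | @insert y _ _ _ ih =>
    obtain ⟨r, hr⟩ := ih
    obtain ⟨s, hs⟩ := n.exists_ball x y
    exact ⟨max r s, Set.insert_subset (n.ball_mono hs (le_max_right _ _))
      fun z hz => n.ball_mono (hr hz) (le_max_left _ _)⟩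

lemma ball_succ {x z : X} {r : ℕ} (h : z ∈ n.ball x (r + 1)) :
    ∃ y ∈ n.ball x r, z ∈ n.ball y 1 := by
  rcases h with h | ⟨y, hy, h⟩
  · exact ⟨z, h, n.ball_self _ _⟩
  · exact ⟨y, hy, n.ball_one h⟩

/-- Lazy paths. -/
lemma exists_path {x y : X} {r : ℕ} (h : y ∈ n.ball x r) :
    ∃ c : ℕ → X, c 0 = x ∧ (∀ i, r ≤ i → c i = y) ∧ ∀ i, c (i + 1) ∈ n.ball (c i) 1 := by
  induction r generalizing y with
  | zero => exact ⟨fun _ => x, rfl, fun _ _ => (show y = x from h).symm, fun _ => n.ball_self _ _⟩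
  | succ r ih =>
    obtain ⟨z, hz, h1⟩ := n.ball_succ h
    obtain ⟨c, h2, h3, h4⟩ := ih hz
    refine ⟨fun i => if i ≤ r then c i else y, by simpa using h2,
      fun i hi => if_neg (by omega), fun i => ?_⟩
    by_cases hi : i + 1 ≤ r
    · simpa only [if_pos hi, if_pos (show i ≤ r by omega)] using h4 i
    · by_cases hi' : i ≤ r
      · simpa only [if_neg hi, if_pos hi', h3 i (by omega)] using h1
      · simpa only [if_neg hi, if_neg hi'] using n.ball_self _ _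

lemma path_ball {c : ℕ → X} (h : ∀ i, c (i + 1) ∈ n.ball (c i) 1) (i t : ℕ) :
    c (i + t) ∈ n.ball (c i) t := by
  induction t with
  | zero => rfl
  | succ t ih => exact n.ball_trans ih (h _)

end Net

/-- The Cayley structure of a finite symmetric generating set. -/
def cayley (S : Finset Λ) (hs : ∀ s ∈ S, s⁻¹ ∈ S) (ht : Subgroup.closure (S : Set Λ) = ⊤) :
    Net Λ Λ where
  N p := S.map ⟨fun s => p * s, mul_right_injective p⟩
  symm x y := by
    simp only [Finset.mem_map, Function.Embedding.coeFn_mk]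
    rintro ⟨s, h, rfl⟩
    exact ⟨s⁻¹, hs s h, by simp⟩
  smul_mem g x y := by
    simp only [Finset.mem_map, Function.Embedding.coeFn_mk]
    rintro ⟨s, h, rfl⟩
    exact ⟨s, h, by simp [mul_assoc]⟩
  conn x y := by
    have h : ∀ g ∈ Subgroup.closure (S : Set Λ), Relation.ReflTransGen
        (fun a b => b ∈ S.map ⟨fun s => a * s, mul_right_injective a⟩) x (x * g) := by
      intro g hg
      induction hg using Subgroup.closure_induction_right with
      | one => rw [mul_one]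
      | mul_right g _ s h ih => exact ih.tail (Finset.mem_map.2 ⟨s, h, by simp [mul_assoc]⟩)
      | mul_inv_cancel g _ s h ih =>
        exact ih.tail (Finset.mem_map.2 ⟨s⁻¹, hs s h, by simp [mul_assoc]⟩)
    simpa using h (x⁻¹ * y) (ht ▸ Subgroup.mem_top _)

lemma cayley_one {S : Finset Λ} {hs : ∀ s ∈ S, s⁻¹ ∈ S} {ht : Subgroup.closure (S : Set Λ) = ⊤}
    {a b : Λ} (h : b ∈ (cayley S hs ht).ball a 1) : b = a ∨ ∃ s ∈ S, b = a * s := by
  rcases h with h | ⟨y, hy, h⟩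
  · exact Or.inl h
  · obtain ⟨s, h1, h2⟩ := Finset.mem_map.1 h
    exact Or.inr ⟨s, h1, by rw [← h2, show y = a from hy]; rfl⟩

lemma cayley_gen {S : Finset Λ} {hs : ∀ s ∈ S, s⁻¹ ∈ S} {ht : Subgroup.closure (S : Set Λ) = ⊤}
    (a : Λ) {s : Λ} (h : s ∈ S) : a * s ∈ (cayley S hs ht).ball a 1 :=
  Net.ball_one _ (Finset.mem_map.2 ⟨s, h, rfl⟩)

lemma orbit_lip (n : Net E X) (x₀ : X) (σ : Λ →* E) (m : Net Λ Λ) :
    ∃ L : ℕ, ∀ (r : ℕ) (a b : Λ), b ∈ m.ball a r → σ b • x₀ ∈ n.ball (σ a • x₀) (L * r) := by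
  obtain ⟨L, hL⟩ := n.exists_ball_finite x₀ ((m.ball_finite 1 1).image fun s => σ s • x₀)
  refine ⟨L, fun r => ?_⟩
  induction r with
  | zero => intro a b h; rw [show b = a from h]; exact n.ball_self _ _
  | succ r ih =>
    intro a b h
    obtain ⟨c, h1, h2⟩ := m.ball_succ h
    have h3 := n.ball_smul (σ c) (hL ⟨c⁻¹ * b, by simpa using m.ball_smul c⁻¹ h2, rfl⟩)
    rw [← mul_smul, ← map_mul, mul_inv_cancel_left] at h3
    exact n.ball_trans (ih a c h1) h3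

/-- Bounded ultrafilters have pointwise limits. -/
def CplU (E : Type*) {X : Type*} [Group E] [MulAction E X] (x₀ : X) : Prop :=
  ∀ 𝒰 : Ultrafilter E, (∃ B, Bdd x₀ B ∧ B ∈ 𝒰) → ∃ h : E, ∀ x : X, {g | g • x = h • x} ∈ 𝒰

variable {x₀ : X}

lemma CplU.compact (hc : CplU E x₀) {ι : Type*} [Nonempty ι] (A : ι → Set E)
    (hd : Directed (· ⊇ ·) A) (hne : ∀ i, (A i).Nonempty) {B : Set E} (hB : Bdd x₀ B)
    (hAB : ∀ i, A i ⊆ B) : ∃ h : E, ∀ i, ∀ F : Finset X, ∃ g ∈ A i, ∀ x ∈ F, g • x = h • x := by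
  have h1 : (⨅ i, 𝓟 (A i)).NeBot := iInf_neBot_of_directed'
    (fun i j => let ⟨k, h1, h2⟩ := hd i j; ⟨k, principal_mono.2 h1, principal_mono.2 h2⟩)
    fun i => principal_neBot_iff.2 (hne i)
  have h2 : ∀ i, A i ∈ Ultrafilter.of (⨅ i, 𝓟 (A i)) := fun i =>
    Ultrafilter.of_le _ (mem_iInf_of_mem i (mem_principal_self _))
  obtain ⟨h, h3⟩ := hc _ ⟨B, hB, mem_of_superset (h2 (Classical.arbitrary ι)) (hAB _)⟩
  refine ⟨h, fun i F => ?_⟩
  obtain ⟨g, h4, h5⟩ := Filter.nonempty_of_mem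
    (inter_mem (h2 i) ((biInter_finset_mem F).2 fun x _ => h3 x))
  exact ⟨g, h4, fun x hx => Set.mem_iInter₂.1 h5 x hx⟩

lemma CplU.lim (hc : CplU E x₀) (𝒰 : Ultrafilter ℕ) (g : ℕ → E) (hb : Bdd x₀ (Set.range g)) :
    ∃ h : E, ∀ F : Finset X, ∀ᶠ i in (𝒰 : Filter ℕ), ∀ x ∈ F, g i • x = h • x := by
  obtain ⟨h, h1⟩ := hc (𝒰.map g) ⟨_, hb, range_mem_map⟩
  exact ⟨h, fun F => (eventually_all_finset F).2 fun x _ => h1 x⟩

lemma clo_cplU {G : Type*} [Group G] [MulAction G X] (n : Net G X) (H : Subgroup G) (x₀ : X) :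
    CplU (clo X H) x₀ := by
  rintro 𝒰 ⟨B, hb, hB⟩
  have h1 : ∀ (φ : clo X H → clo X H), Bdd x₀ (φ '' B) → ∀ x, ∃ y, {g | φ g • x = y} ∈ 𝒰 :=
    fun φ hb x => by
      obtain ⟨y, -, hy⟩ := (Ultrafilter.finite_biUnion_mem_iff (f := 𝒰)
        (s := fun y => {g | φ g • x = y}) (hb.orbit (cloNet n H) x)).1
        (mem_of_superset hB fun g hg => Set.mem_biUnion ⟨φ g, ⟨g, hg, rfl⟩, rfl⟩ rfl)
      exact ⟨y, hy⟩
  choose f hf using h1 id (by simpa using hb)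
  choose f' hf' using h1 (fun g => g⁻¹) ((hb.inv (cloNet n H)).mono (by
    rintro _ ⟨i, hi, rfl⟩
    exact Set.inv_mem_inv.2 hi))
  let σ : Equiv.Perm X :=
    { toFun := f
      invFun := f'
      left_inv := fun x => by
        obtain ⟨i, h2, h3⟩ := Filter.nonempty_of_mem (inter_mem (hf x) (hf' (f x)))
        rw [← h3.out, ← h2.out, id, inv_smul_smul]
      right_inv := fun x => by
        obtain ⟨i, h2, h3⟩ := Filter.nonempty_of_mem (inter_mem (hf' x) (hf (f' x)))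
        rw [← h3.out, ← h2.out, id, smul_inv_smul] }
  refine ⟨⟨σ, cl_cl fun F => ?_⟩, fun x => hf x⟩
  obtain ⟨i, hi⟩ := Filter.nonempty_of_mem ((biInter_finset_mem F).2 fun x _ => hf x)
  exact ⟨i, i.2, fun x hx => (Set.mem_iInter₂.1 hi x hx).symm⟩

lemma CplU.sub (hc : CplU E x₀) {H : Subgroup E} (hH : cl X H ≤ H) : CplU H x₀ := by
  rintro 𝒰 ⟨B, hb, hB⟩
  obtain ⟨h, h1⟩ := hc (𝒰.map H.subtype) ⟨H.subtype '' B, by
    rw [Bdd, Set.image_image]; exact hb, image_mem_map hB⟩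
  refine ⟨⟨h, hH fun F => ?_⟩, fun x => h1 x⟩
  obtain ⟨i, hi⟩ := Filter.nonempty_of_mem
    (show _ ∈ (𝒰 : Filter H) from (biInter_finset_mem F).2 fun x _ => h1 x)
  exact ⟨i, i.2, fun x hx => (Set.mem_iInter₂.1 hi x hx).symm⟩

lemma cl_mono {H K : Subgroup E} (h : H ≤ K) : cl X H ≤ cl X K := fun _ hg F =>
  let ⟨k, h1, h2⟩ := hg F; ⟨k, h h1, h2⟩

lemma cl_closed (H : Subgroup E) : cl X (cl X H) ≤ cl X H := fun _ hg => cl_cl hg

lemma closed_inf {H K : Subgroup E} (h : cl X H ≤ H) (h' : cl X K ≤ K) : cl X (H ⊓ K) ≤ H ⊓ K :=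
  le_inf ((cl_mono inf_le_left).trans h) ((cl_mono inf_le_right).trans h')

lemma Opn.closed {H : Subgroup E} (h : Opn X H) : cl X H ≤ H := fun g hg => by
  obtain ⟨F, hF⟩ := h
  obtain ⟨k, h1, h2⟩ := hg F
  simpa using H.mul_mem h1 (hF (k⁻¹ * g) fun x hx => by rw [mul_smul, h2 x hx, inv_smul_smul])

lemma cl_word {H K : Subgroup E} {g h h' : E} (hg : g ∈ cl X K)
    (hk : ∀ k ∈ K, k * h * k⁻¹ * h' ∈ cl X H) : g * h * g⁻¹ * h' ∈ cl X H := by
  classical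
  refine cl_cl fun F => ?_
  obtain ⟨k, h1, h2⟩ := hg ((F.image fun x => g⁻¹ • h' • x) ∪ F.image fun x => h • g⁻¹ • h' • x)
  refine ⟨_, hk k h1, fun x hx => ?_⟩
  have h3 := h2 _ (Finset.mem_union_left _ (Finset.mem_image_of_mem _ hx))
  have h4 := h2 _ (Finset.mem_union_right _ (Finset.mem_image_of_mem _ hx))
  rw [smul_inv_smul, ← inv_smul_eq_iff] at h3
  simp only [mul_smul]
  rw [h3, h4]

lemma cl_conj {H K : Subgroup E} {g : E} (hg : ∀ h ∈ H, g * h * g⁻¹ ∈ cl X K) :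
    ∀ h ∈ cl X H, g * h * g⁻¹ ∈ cl X K := fun h hh => by
  classical
  refine cl_cl fun F => ?_
  obtain ⟨k, h1, h2⟩ := hh (F.image fun x => g⁻¹ • x)
  exact ⟨_, hg k h1, fun x hx => by
    simp only [mul_smul, h2 _ (Finset.mem_image_of_mem _ hx)]⟩

/-- The elements normalising a closed subgroup form a closed set. -/
lemma conj_of_cl {H K : Subgroup E} (hH : cl X H ≤ H) (hk : ∀ k ∈ K, ∀ h ∈ H, k * h * k⁻¹ ∈ H) :
    ∀ g ∈ cl X K, ∀ h ∈ H, g * h * g⁻¹ ∈ H := fun g hg h hh => by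
  simpa using hH (cl_word (h := h) (h' := 1) hg fun k h1 => le_cl _ (by simpa using hk k h1 h hh))

/-- A subgroup normalised by the image of a homomorphism. -/
def Nrm (σ : Λ →* E) (H : Subgroup E) : Prop := ∀ l, ∀ g ∈ H, σ l * g * (σ l)⁻¹ ∈ H

/-- A subgroup that is open in another subgroup. -/
def OpnIn (X : Type*) [MulAction E X] (W U : Subgroup E) : Prop :=
  ∃ F : Finset X, ∀ g ∈ U, (∀ x ∈ F, g • x = x) → g ∈ W

/-- A subgroup with a bounded relatively open subgroup normalised by the image of `σ`. -/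
def Small (x₀ : X) (σ : Λ →* E) (U : Subgroup E) : Prop :=
  ∃ W ≤ U, Bdd x₀ (W : Set E) ∧ Nrm σ W ∧ OpnIn X W U

variable {σ : Λ →* E}

lemma Nrm.inf {H K : Subgroup E} (h : Nrm σ H) (h' : Nrm σ K) : Nrm σ (H ⊓ K) :=
  fun l g hg => ⟨h l g hg.1, h' l g hg.2⟩

lemma Nrm.cl {H : Subgroup E} (h : Nrm σ H) : Nrm σ (cl X H) :=
  fun l => cl_conj fun g hg => le_cl _ (h l g hg)

lemma Nrm.of_normal (σ : Λ →* E) (H : Subgroup E) [h : H.Normal] : Nrm σ H :=
  fun _ g hg => h.conj_mem g hg _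

lemma Nrm.inv {H : Subgroup E} (h : Nrm σ H) (l : Λ) {g : E} (hg : g ∈ H) :
    (σ l)⁻¹ * g * σ l ∈ H := by simpa using h l⁻¹ g hg

lemma OpnIn.trans {W U T : Subgroup E} (h : OpnIn X W U) (h' : OpnIn X U T) : OpnIn X W T := by
  classical
  obtain ⟨F, hF⟩ := h
  obtain ⟨F', hF'⟩ := h'
  exact ⟨F ∪ F', fun g hg h1 => hF g (hF' g hg fun x hx => h1 x (Finset.mem_union_right _ hx))
    fun x hx => h1 x (Finset.mem_union_left _ hx)⟩

lemma OpnIn.closed {U T : Subgroup E} (h : OpnIn X U T) (hU : U ≤ T) (hT : cl X T ≤ T) :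
    cl X U ≤ U := fun g hg => by
  obtain ⟨F, hF⟩ := h
  obtain ⟨k, h1, h2⟩ := hg F
  simpa using U.mul_mem h1 (hF (k⁻¹ * g) (T.mul_mem (T.inv_mem (hU h1)) (hT (cl_mono hU hg)))
    fun x hx => by rw [mul_smul, h2 x hx, inv_smul_smul])

lemma Small.mono {U T : Subgroup E} (h : Small x₀ σ T) (hU : U ≤ T) (hn : Nrm σ U) :
    Small x₀ σ U := by
  obtain ⟨W, -, h2, h3, F, hF⟩ := h
  exact ⟨U ⊓ W, inf_le_left, h2.mono fun g hg => hg.2, hn.inf h3,
    F, fun g hg h4 => ⟨hg, hF g (hU hg) h4⟩⟩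

lemma Small.of_opnIn {U T : Subgroup E} (h : Small x₀ σ U) (hU : U ≤ T) (ho : OpnIn X U T) :
    Small x₀ σ T := by
  obtain ⟨W, h1, h2, h3, h4⟩ := h
  exact ⟨W, h1.trans hU, h2, h3, h4.trans ho⟩

/-- The propagation lemma. -/
theorem propagate (n : Net E X) (hc : CplU E x₀) (hΛ : Group.FG Λ) {ι : Type*} [Nonempty ι]
    (U : ι → Subgroup E) (hd : Directed (· ≥ ·) U) (hcl : ∀ i, cl X (U i) ≤ U i)
    (hn : ∀ i, Nrm σ (U i)) (h : Small x₀ σ (⨅ i, U i)) : ∃ i, Small x₀ σ (U i) := by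
  classical
  obtain ⟨S, -, hs, ht⟩ := exists_symm_gen hΛ
  obtain ⟨W, h1, h2, h3, F₀, h4⟩ := h
  obtain ⟨F, h5, h6⟩ := saturate n h2 (insert x₀ F₀)
  have hx₀ : x₀ ∈ F := h5 (Finset.mem_insert_self _ _)
  have hWU : ∀ i, W ≤ U i := fun i => h1.trans (iInf_le U i)
  obtain ⟨i, hi⟩ : ∃ i, ∀ g ∈ U i, (∀ x ∈ F, g • x = x) →
      ∃ w ∈ W, ∀ s ∈ S, ∀ x ∈ F, g • σ s • x = w • σ s • x := by
    by_contra hno
    push Not at hno
    obtain ⟨h, h7⟩ := hc.compact (fun i => {g | g ∈ U i ∧ (∀ x ∈ F, g • x = x) ∧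
        ∀ w ∈ W, ∃ s ∈ S, ∃ x ∈ F, g • σ s • x ≠ w • σ s • x})
      (fun i j => let ⟨k, h1, h2⟩ := hd i j
        ⟨k, fun g hg => ⟨h1 hg.1, hg.2⟩, fun g hg => ⟨h2 hg.1, hg.2⟩⟩)
      (fun i => let ⟨g, h1, h2, h3⟩ := hno i; ⟨g, h1, h2, h3⟩) (Bdd.stab x₀)
      fun i g hg => hg.2.1 x₀ hx₀
    have h8 : h ∈ W := by
      refine h4 h (Subgroup.mem_iInf.2 fun i => hcl i fun F' => ?_) fun x hx => ?_
      · obtain ⟨g, hg, h8⟩ := h7 i F'
        exact ⟨g, hg.1, fun x hx => (h8 x hx).symm⟩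
      · obtain ⟨g, hg, h8⟩ := h7 (Classical.arbitrary ι) F
        have := h5 (Finset.mem_insert_of_mem hx)
        rw [← h8 x this, hg.2.1 x this]
    obtain ⟨g, hg, h9⟩ := h7 (Classical.arbitrary ι) (S.biUnion fun s => F.image fun x => σ s • x)
    obtain ⟨s, hs, x, hx, h10⟩ := hg.2.2 h h8
    exact h10 (h9 _ (Finset.mem_biUnion.2 ⟨s, hs, Finset.mem_image_of_mem _ hx⟩))
  have hinv : ∀ l, ∀ w ∈ W, ∀ x ∈ F, ∃ x' ∈ F, w • σ l • x = σ l • x' := fun l w hw x hx =>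
    ⟨_, h6 _ (h3.inv l hw) x hx, by simp [mul_smul]⟩
  let W' : Subgroup E :=
    { carrier := {g | g ∈ U i ∧ ∀ l, ∃ w ∈ W, ∀ x ∈ F, g • σ l • x = w • σ l • x}
      one_mem' := ⟨(U i).one_mem, fun l => ⟨1, W.one_mem, fun _ _ => rfl⟩⟩
      mul_mem' := fun {a b} ha hb => ⟨(U i).mul_mem ha.1 hb.1, fun l => by
        obtain ⟨w, hw, h7⟩ := ha.2 l
        obtain ⟨w', hw', h8⟩ := hb.2 l
        refine ⟨w * w', W.mul_mem hw hw', fun x hx => ?_⟩
        obtain ⟨x', hx', h9⟩ := hinv l w' hw' x hx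
        rw [mul_smul, mul_smul, h8 x hx, h9, h7 x' hx']⟩
      inv_mem' := fun {a} ha => ⟨(U i).inv_mem ha.1, fun l => by
        obtain ⟨w, hw, h7⟩ := ha.2 l
        refine ⟨w⁻¹, W.inv_mem hw, fun x hx => ?_⟩
        obtain ⟨x', hx', h9⟩ := hinv l _ (W.inv_mem hw) x hx
        rw [h9, inv_smul_eq_iff, h7 x' hx', ← h9, smul_inv_smul]⟩ }
  refine ⟨i, W', fun g hg => hg.1, ?_, fun l g hg => ⟨hn i l g hg.1, fun l' => ?_⟩,
    F, fun g hg h7 => ⟨hg, fun l => ?_⟩⟩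
  · refine Set.Finite.subset h2 ?_
    rintro _ ⟨g, hg, rfl⟩
    obtain ⟨w, hw, h7⟩ := hg.2 1
    exact ⟨w, hw, by simpa using (h7 x₀ hx₀).symm⟩
  · obtain ⟨w, hw, h7⟩ := hg.2 (l⁻¹ * l')
    refine ⟨_, h3 l w hw, fun x hx => ?_⟩
    have := h7 x hx
    simp only [map_mul, map_inv, mul_smul] at this ⊢
    rw [this]
  · have h8 : ∀ l s, s ∈ S → (∃ w ∈ W, ∀ x ∈ F, g • σ l • x = w • σ l • x) →
        ∃ w ∈ W, ∀ x ∈ F, g • σ (l * s) • x = w • σ (l * s) • x := by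
      rintro l s hs ⟨w, hw, h8⟩
      obtain ⟨w', hw', h9⟩ := hi _ ((hn i).inv l ((U i).mul_mem ((U i).inv_mem (hWU i hw)) hg))
        fun x hx => by simp [mul_smul, h8 x hx]
      refine ⟨_, W.mul_mem hw (h3 l w' hw'), fun x hx => ?_⟩
      have := h9 s hs x hx
      simp only [map_mul, mul_smul, inv_smul_smul] at this ⊢
      rw [← this, smul_inv_smul, smul_inv_smul]
    have h9 : l ∈ Subgroup.closure (S : Set Λ) := ht ▸ Subgroup.mem_top l
    induction h9 using Subgroup.closure_induction_right with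
    | one => exact ⟨1, W.one_mem, fun x hx => by simp [h7 x hx]⟩
    | mul_right l _ s h ih => exact h8 l s h ih
    | mul_inv_cancel l _ s h ih => exact h8 l _ (hs s h) ih

/-- Minimal closed normalised subgroups that are not small. -/
theorem exists_minimal (n : Net E X) (hc : CplU E x₀) (hΛ : Group.FG Λ) (σ : Λ →* E)
    (h : ¬Small x₀ σ ⊤) : ∃ L : Subgroup E, cl X L ≤ L ∧ Nrm σ L ∧ ¬Small x₀ σ L ∧
      ∀ H ≤ L, cl X H ≤ H → Nrm σ H → ¬Small x₀ σ H → H = L := by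
  obtain ⟨L, -, hL⟩ := zorn_le_nonempty₀ (α := (Subgroup E)ᵒᵈ)
    {L | cl X (OrderDual.ofDual L) ≤ OrderDual.ofDual L ∧ Nrm σ (OrderDual.ofDual L) ∧
      ¬Small x₀ σ (OrderDual.ofDual L)} (fun c hcs hch y hy => by
      have : Nonempty c := ⟨⟨y, hy⟩⟩
      refine ⟨OrderDual.toDual (⨅ i : c, OrderDual.ofDual i.1), ⟨?_, ?_, fun hs => ?_⟩,
        fun z hz => iInf_le (fun i : c => OrderDual.ofDual i.1) ⟨z, hz⟩⟩
      · exact le_iInf fun i => (cl_mono (iInf_le _ i)).trans (hcs i.2).1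
      · exact fun l g hg => Subgroup.mem_iInf.2 fun i =>
          (hcs i.2).2.1 l g (Subgroup.mem_iInf.1 hg i)
      · obtain ⟨i, hi⟩ := propagate n hc hΛ (fun i : c => OrderDual.ofDual i.1)
          hch.directed (fun i => (hcs i.2).1) (fun i => (hcs i.2).2.1) hs
        exact (hcs i.2).2.2 hi)
    (OrderDual.toDual ⊤) ⟨le_top, fun _ _ _ => Subgroup.mem_top _, h⟩
  exact ⟨OrderDual.ofDual L, hL.prop.1, hL.prop.2.1, hL.prop.2.2, fun H h1 h2 h3 h4 =>
    le_antisymm h1 (hL.le_of_ge (y := OrderDual.toDual H) ⟨h2, h3, h4⟩ h1)⟩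

end Pool.Agent.Lib.MP_a6ff19_al
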