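import Pool.Agent.Lib.MP_a6ff19_al.H17NF

set_option autoImplicit false
set_option linter.unusedSectionVars false

/-!
The chain of envelopes: finiteness goes up the chain, and finiteness at the top gives a
compact-by-discrete group.
-/

namespace Pool.Agent.Lib.MP_a6ff19_al

open scoped Pointwise
open MulAction Subgroup.Commensurable

/-- Every affine isometric action has a spectral gap. -/
def NoNF (A : Type*) [Group A] : Prop :=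
  ∀ (K : Type) [NormedAddCommGroup K] [InnerProductSpace ℝ K] [CompleteSpace K] (α : AffAct A K),
    ¬NF α

variable {G X : Type} [Group G] [MulAction G X] {P Q : Type*} [Group P] [Group Q]

theorem fin_of_FH (n : Net G X) (x₀ : X) {ρ : P × Q →* G}
    (hp : ∀ x y : X, {l | ρ l • x = y}.Finite) {S : Finset P} {E J : Subgroup G}
    (h : IsEnv x₀ (ρ.comp (MonoidHom.inl P Q)) S E) (hc : Coc x₀ ρ E)
    (hJ : J ≤ E) (hQ : ∀ q, ρ (1, q) ∈ J) (hJo : Opn X J)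
    (hfin : (J.comap (ρ.comp (MonoidHom.inl P Q)) : Set P).Finite)
    (hfg : Group.FG Q) (hFH : NoNF Q) : Finite Q := by
  classical
  by_contra hinf
  rw [not_finite_iff_infinite] at hinf
  set σ := ρ.comp (MonoidHom.inl P Q) with hσ
  set τ := ρ.comp (MonoidHom.inr P Q) with hτ
  have hστ : ∀ l, ρ l = σ l.1 * τ l.2 := fun l => by
    rw [hσ, hτ, MonoidHom.comp_apply, MonoidHom.comp_apply, ← map_mul]
    simp
  have hcom : ∀ p q, σ p * τ q = τ q * σ p := fun p q => by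
    rw [hσ, hτ, MonoidHom.comp_apply, MonoidHom.comp_apply, ← map_mul, ← map_mul]
    simp
  have hcJ : Coc x₀ τ J := by
    obtain ⟨C, hC, h1⟩ := (hc.mono hJ).sub n hJo
    refine ⟨_, (Bdd.of_finite x₀ (hfin.image σ).inv).mul n hC, fun g hg => ?_⟩
    obtain ⟨l, hl, h2⟩ := h1 g hg
    refine ⟨l.2, (σ l.1)⁻¹, ?_, _, h2, by simp [hστ, mul_assoc]⟩
    rw [hστ, J.mul_mem_cancel_right (show τ l.2 ∈ J from hQ _)] at hl
    exact Set.inv_mem_inv.2 ⟨l.1, hl, rfl⟩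
  have hσβ : ∀ p, σ p ∈ bddConj n x₀ J := fun p => by
    obtain ⟨C, hC, h1⟩ := hcJ
    refine (((hC.inv n).mul n (Bdd.of_finite x₀ (Set.finite_singleton (σ p)))).mul n hC).mono ?_
    rintro _ ⟨j, hj, rfl⟩
    obtain ⟨q, hq⟩ := h1 j hj
    refine ⟨_, ⟨_, Set.inv_mem_inv.2 hq, _, rfl, rfl⟩, _, hq, ?_⟩
    simp only [mul_inv_rev, mul_assoc]
    rw [← mul_assoc (σ p), hcom, mul_assoc, inv_mul_cancel_left]
  let O : Subgroup G :=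
    { carrier := {g | ∃ v ∈ J ⊓ stabilizer G x₀, g * v⁻¹ ∈ bddConj n x₀ J}
      one_mem' := ⟨1, Subgroup.one_mem _, by simp⟩
      mul_mem' := by
        rintro a b ⟨v, hv, ha⟩ ⟨w, hw, hb⟩
        exact ⟨v * w, Subgroup.mul_mem _ hv hw, by
          simpa [mul_assoc] using (bddConj n x₀ J).mul_mem ha (bddConj_conj n x₀ hb hv.1)⟩
      inv_mem' := by
        rintro a ⟨v, hv, ha⟩
        exact ⟨v⁻¹, Subgroup.inv_mem _ hv, by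
          simpa [mul_assoc] using
            bddConj_conj n x₀ ((bddConj n x₀ J).inv_mem ha) (J.inv_mem hv.1)⟩ }
  have hO : O.relIndex J ≠ 0 := fun h0 => h.relIndex n (O := O)
    ((hJo.inf (Opn.stab x₀)).mono fun g hg => ⟨g, hg, by simp⟩)
    (fun p => ⟨1, Subgroup.one_mem _, by simpa using hσβ p⟩)
    (Subgroup.relIndex_eq_zero_of_le_right hJ h0)
  have hβ : Coc x₀ (bddConj n x₀ J).subtype O := ⟨_, Bdd.stab x₀, by
    rintro g ⟨v, hv, h1⟩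
    exact ⟨⟨_, h1⟩⁻¹, by simpa [mul_assoc] using hv.2⟩⟩
  obtain ⟨H, _, _, _, α, hα⟩ := NF_of_bddConj n x₀
    (proper_comp hp _ (Prod.mk_right_injective (1 : P))) hJo hQ hcJ hfg (hβ.of_relIndex n hO)
  exact hFH H α hα

theorem cd_of_finite (hP : Group.FG P) (gP : GDalg P) (gQ : GDalg Q) (hQ : Group.FG Q)
    (n : Net G X) (x₀ : X) {ρ : P × Q →* G} (hp : ∀ x y : X, {l | ρ l • x = y}.Finite)
    (hc : Coc x₀ ρ ⊤) {S₁ : Finset Q} {E₁ : Subgroup G}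
    (h₁ : IsEnv x₀ (ρ.comp (MonoidHom.inr P Q)) S₁ E₁)
    (hA : Finite (E₁.comap (ρ.comp (MonoidHom.inl P Q)))) : CD G x₀ := by
  let e : Q × P →* P × Q := (MulEquiv.prodComm : Q × P ≃* P × Q).toMonoidHom
  let ρ' : Q × P →* G := ρ.comp e
  have hp' := proper_comp hp e (MulEquiv.prodComm : Q × P ≃* P × Q).injective
  have hc' : Coc x₀ ρ' ⊤ := by
    obtain ⟨C, hC, h⟩ := hc
    exact ⟨C, hC, fun g hg => let ⟨l, hl⟩ := h g hg; ⟨l.swap, hl⟩⟩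
  have hcom : ∀ p q, ρ (p, 1) * ρ (1, q) = ρ (1, q) * ρ (p, 1) := fun p q => by
    rw [← map_mul, ← map_mul]; simp
  obtain ⟨S, E, -, h⟩ := exists_env n x₀ (ρ.comp (MonoidHom.inl P Q)) hP Opn.top
    fun _ => Subgroup.mem_top _
  let A := E₁.comap (ρ.comp (MonoidHom.inl P Q))
  let A' := E.comap (ρ'.comp (MonoidHom.inl Q P))
  let ρ₂ : P × A' →* G := ρ'.comp (swapSub A')
  have hp₂ := proper_comp hp' _ (swapSub_injective (Q := P) A')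
  have hc₂ : Coc x₀ ρ₂ E := (hc'.mono le_top).swapSub n h.opn h.mem
  have hρ₂ : ∀ l, ρ₂ l ∈ E := swapSub_mem (ρ := ρ') h.mem
  have hcm₁ : ∀ p, ρ (p, 1) ∈ commensurator E₁ := fun p => h₁.comm n fun q => hcom p q
  have hcm : ∀ q, ρ' (q, 1) ∈ commensurator E := fun q => h.comm n fun p => (hcom p q).symm
  have hA' : Finite A' := fin_of_GD (ρ := ρ₂) (J := E₁ ⊓ E) n x₀ hp₂ h hρ₂ hc₂ inf_le_right
    (fun a => ⟨h₁.mem _, a.2⟩) (h₁.opn.inf h.opn)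
    ((Set.toFinite (A : Set P)).subset fun p hp => hp.1)
    (fun p => mem_commensurator_inf (hcm₁ p) (mem_commensurator_of_mem (h.mem p))) gP
  obtain ⟨L, -, hL1, hL2, hL3, hL4⟩ := gd_use (ρ := ρ') n x₀ hc' le_top
    (fun _ => Subgroup.mem_top _) h.mem h.opn (Set.toFinite (A' : Set Q)) hcm hQ gQ
  obtain ⟨L₁, -, hK1, hK2, hK3, hK4⟩ := gd_use (ρ := ρ) n x₀ hc le_top
    (fun _ => Subgroup.mem_top _) h₁.mem h₁.opn (Set.toFinite (A : Set P)) hcm₁ hP gP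
  have hEb : Bdd x₀ ((E ⊓ E₁ : Subgroup G) : Set G) := by
    obtain ⟨C, hC, h1⟩ := (hc.mono (le_top : E ⊓ E₁ ≤ ⊤)).sub n (h.opn.inf h₁.opn)
    refine ((Bdd.of_finite x₀ (((Set.toFinite (A : Set P)).prod
      (Set.toFinite (A' : Set Q))).image ρ).inv).mul n hC).mono fun g hg => ?_
    obtain ⟨l, hl, h2⟩ := h1 g hg
    have h3 : ρ l = ρ (l.1, 1) * ρ (1, l.2) := by rw [← map_mul]; simp
    refine ⟨(ρ l)⁻¹, Set.inv_mem_inv.2 ⟨l, ⟨?_, ?_⟩, rfl⟩, _, h2, by simp⟩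
    · have h4 := hl.2
      rw [h3] at h4
      exact (E₁.mul_mem_cancel_right (h₁.mem l.2)).1 h4
    · have h4 := hl.1
      rw [h3] at h4
      exact (E.mul_mem_cancel_left (h.mem l.1)).1 h4
  have hMb : Bdd x₀ ((L ⊓ L₁ : Subgroup G) : Set G) :=
    Bdd.of_relIndex n (commensurable_inf hL2 hK2).2 hEb
  have hMn : Nrm ρ (L ⊓ L₁) := fun l g hg => by
    have h3 : ρ l * g * (ρ l)⁻¹ = ρ (l.1, 1) * (ρ (1, l.2) * g * (ρ (1, l.2))⁻¹) * (ρ (l.1, 1))⁻¹ := by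
      have : ρ l = ρ (l.1, 1) * ρ (1, l.2) := by rw [← map_mul]; simp
      rw [this]
      group
    rw [h3]
    exact ⟨hL4 _ (h.mem _) _ (hL3 _ _ hg.1), hK3 _ _ (hK4 _ (h₁.mem _) _ hg.2)⟩
  obtain ⟨F, hF⟩ := hL1.inf hK1
  exact CD.of_small n hc ⟨_, le_top, hMb, hMn, F, fun g _ => hF g⟩

/-- The data of one level of the chain of envelopes. -/
structure Level (x₀ : X) (ρ : P × Q →* G) (A : Type) [Group A] (σ : A →* G) (J K : Subgroup G) :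
    Prop where
  fg : Group.FG A
  fh : NoNF A
  mem : ∀ a, ∃ p, σ a = ρ (p, 1) ∧ ρ (p, 1) ∈ J
  range : ∀ p, ρ (p, 1) ∈ J → ∃ a, σ a = ρ (p, 1)
  comm : ∀ p, ρ (p, 1) ∈ commensurator J
  env : ∃ S, IsEnv x₀ σ S K
  inf : {q | ρ (1, q) ∈ K}.Infinite

theorem exists_chain {P Q : Type} [Group P] [Group Q] (hP : Group.FG P) (gP : GDalg P)
    (gQ : GDalg Q) (hQ : Group.FG Q)
    (n : Net G X) (x₀ : X) {ρ : P × Q →* G} (hp : ∀ x y : X, {l | ρ l • x = y}.Finite)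
    (hc : Coc x₀ ρ ⊤) (hG : ¬CD G x₀) :
    ∃ (A₁ : Type) (_ : Group A₁) (σ₁ : A₁ →* G) (S : Finset A₁) (A B : Type) (_ : Group A)
      (_ : Group B) (σ : A →* G) (τ : B →* G) (E₂ E₃ E₄ : Subgroup G),
      (∀ a, ∃ p, σ₁ a = ρ (p, 1)) ∧ IsEnv x₀ σ₁ S E₂ ∧ E₄ ≤ E₃ ∧
      Level x₀ (ρ.comp (MulEquiv.prodComm : Q × P ≃* P × Q).toMonoidHom) B τ E₂ E₃ ∧
      Level x₀ ρ A σ E₃ E₄ := by
  have hcom : ∀ p q, ρ (p, 1) * ρ (1, q) = ρ (1, q) * ρ (p, 1) := fun p q => by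
    rw [← map_mul, ← map_mul]; simp
  obtain ⟨S₁, E₁, -, h₁⟩ := exists_env n x₀ (ρ.comp (MonoidHom.inr P Q)) hQ Opn.top
    fun _ => Subgroup.mem_top _
  let A₁ := E₁.comap (ρ.comp (MonoidHom.inl P Q))
  let ρ₁ : Q × A₁ →* G := ρ.comp (swapSub A₁)
  have hp₁ := proper_comp hp _ (swapSub_injective (Q := Q) A₁)
  have hc₁ : Coc x₀ ρ₁ E₁ := (hc.mono le_top).swapSub n h₁.opn h₁.mem
  have hρ₁ : ∀ l, ρ₁ l ∈ E₁ := swapSub_mem h₁.mem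
  obtain ⟨hfg₁, -⟩ := good_G.{0, 0} (ρ := ρ₁) n x₀ hp₁ h₁ hρ₁ hc₁
  obtain ⟨S₂, E₂, hle₂, h₂⟩ := exists_env n x₀ (ρ₁.comp (MonoidHom.inr Q A₁)) hfg₁ h₁.opn
    fun _ => hρ₁ _
  let B := E₂.comap (ρ₁.comp (MonoidHom.inl Q A₁))
  let ρ₂ : A₁ × B →* G := ρ₁.comp (swapSub B)
  have hp₂ := proper_comp hp₁ _ (swapSub_injective (Q := A₁) B)
  have hc₂ : Coc x₀ ρ₂ E₂ := (hc₁.mono hle₂).swapSub n h₂.opn h₂.mem
  have hρ₂ : ∀ l, ρ₂ l ∈ E₂ := swapSub_mem h₂.mem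
  obtain ⟨hfg₂, -⟩ := good_G.{0, 0} (ρ := ρ₂) n x₀ hp₂ h₂ hρ₂ hc₂
  obtain ⟨S₃, E₃, hle₃, h₃⟩ := exists_env n x₀ (ρ₂.comp (MonoidHom.inr A₁ B)) hfg₂ h₂.opn
    fun _ => hρ₂ _
  let A := E₃.comap (ρ₂.comp (MonoidHom.inl A₁ B))
  let ρ₃ : B × A →* G := ρ₂.comp (swapSub A)
  have hp₃ := proper_comp hp₂ _ (swapSub_injective (Q := B) A)
  have hc₃ : Coc x₀ ρ₃ E₃ := (hc₂.mono hle₃).swapSub n h₃.opn h₃.mem
  have hρ₃ : ∀ l, ρ₃ l ∈ E₃ := swapSub_mem h₃.mem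
  obtain ⟨hfg₃, -⟩ := good_G.{0, 0} (ρ := ρ₃) n x₀ hp₃ h₃ hρ₃ hc₃
  obtain ⟨S₄, E₄, hle₄, h₄⟩ := exists_env n x₀ (ρ₃.comp (MonoidHom.inr B A)) hfg₃ h₃.opn
    fun _ => hρ₃ _
  have hcm₂ : ∀ q, ρ₁ (q, 1) ∈ commensurator E₂ := fun q => h₂.comm n fun a => (hcom a q).symm
  have fhB : NoNF B := fun K _ _ _ α hα => no_NF (ρ := ρ₁) n x₀ hp₁ h₁ hρ₁ hc₁ h₂ hle₂ α hα
  have fhA : NoNF A := fun K _ _ _ α hα => no_NF (ρ := ρ₂) n x₀ hp₂ h₂ hρ₂ hc₂ h₃ hle₃ α hα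
  have iB : ¬Finite B := fun h => hG (cd_of_finite hP gP gQ hQ n x₀ hp hc h₁
    (fin_of_GD (ρ := ρ₁) n x₀ hp₁ h₁ hρ₁ hc₁ hle₂ h₂.mem h₂.opn (Set.toFinite (B : Set Q)) hcm₂ gQ))
  have iA : ¬Finite A := fun h => iB (fin_of_FH (ρ := ρ₂) n x₀ hp₂ h₂ hc₂ hle₃ h₃.mem h₃.opn
    (Set.toFinite (A : Set A₁)) hfg₂ fhB)
  have iB₂ : ¬(E₄.comap (ρ₃.comp (MonoidHom.inl B A)) : Set B).Finite := fun h =>
    iA (fin_of_FH (ρ := ρ₃) n x₀ hp₃ h₃ hc₃ hle₄ h₄.mem h₄.opn h hfg₃ fhA)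
  refine ⟨A₁, inferInstance, _, S₂, A, B, inferInstance, inferInstance,
    ρ₃.comp (MonoidHom.inr B A), ρ₂.comp (MonoidHom.inr A₁ B), E₂, E₃, E₄, fun a => ⟨a, rfl⟩, h₂,
    hle₄, ⟨hfg₂, fhB, fun b => ⟨b, rfl, b.2⟩, fun q hq => ⟨⟨q, hq⟩, rfl⟩, hcm₂, ⟨S₃, h₃⟩,
      fun h => iA ?_⟩,
    ⟨hfg₃, fhA, fun a => ⟨a, rfl, a.2⟩, fun p h => ⟨⟨⟨p, hle₂ (hle₃ h)⟩, h⟩, rfl⟩,
      fun p => h₃.comm n fun b => hcom p b, ⟨S₄, h₄⟩, fun h => iB₂ ?_⟩⟩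
  · exact Set.Finite.to_subtype (h.preimage (f := fun a : A₁ => (a : P))
      Subtype.val_injective.injOn)
  · exact h.preimage (f := fun b : B => (b : Q)) Subtype.val_injective.injOn

end Pool.Agent.Lib.MP_a6ff19_al
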