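import Pool.Agent.Lib.MP_a6ff19_al.H17Chain

set_option autoImplicit false
set_option linter.unusedSectionVars false

/-!
The standing assumptions of the main argument and the notions shared by its parts.
-/

namespace Pool.Agent.Lib.MP_a6ff19_al

variable {E X : Type} [Group E] [MulAction E X] {Λ : Type*} [Group Λ]

/-- A closed faithful group with a uniform lattice and a minimal normal subgroup that is not
small. -/
structure Ctx (x₀ : X) (ρ : Λ →* E) (L : Subgroup E) : Prop where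
  faith : ∀ g : E, (∀ x : X, g • x = x) → g = 1
  cpl : CplU E x₀
  fg : Group.FG Λ
  prop : ∀ x y : X, {l | ρ l • x = y}.Finite
  cov : ∃ T : Finset X, ∀ x : X, ∃ l, ρ l • x ∈ T
  nrm : L.Normal
  cls : cl X L ≤ L
  big : ¬Small x₀ ρ L
  min : ∀ H ≤ L, cl X H ≤ H → Nrm ρ H → ¬Small x₀ ρ H → H = L
  dense : ∀ (g : E) (F : Finset X), ∃ l ∈ L, ∃ γ, ∀ x ∈ F, g • x = ρ γ • l • x
  bf : BF E x₀

lemma Ctx.coc {x₀ : X} {ρ : Λ →* E} {L : Subgroup E} (c : Ctx x₀ ρ L) : Coc x₀ ρ ⊤ :=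
  let ⟨B, h1, h2⟩ := exists_bdd_of_cocompact x₀ c.cov; ⟨B, h1, fun g _ => h2 g⟩

/-- No proper relatively open subgroup of `L` is normalised by the image of `σ`. -/
def ND (X : Type) [MulAction E X] {A : Type*} [Group A] (σ : A →* E) (L : Subgroup E) : Prop :=
  ∀ U ≤ L, OpnIn X U L → Nrm σ U → U = L

/-- The properties of the invariant mean. -/
structure IsMean (ρ : Λ →* E) (X : Type) [MulAction E X] (I : (E → ℝ) →ₗ[ℝ] ℝ) : Prop where
  const : ∀ c, I (fun _ => c) = c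
  pos : ∀ φ, Adm ρ X φ → (∀ g, 0 ≤ φ g) → 0 ≤ I φ
  faith : ∀ φ, Adm ρ X φ → (∀ g, 0 ≤ φ g) → I φ = 0 → ∀ g, φ g = 0
  right : ∀ φ h, Adm ρ X φ → I (fun g => φ (g * h)) = I φ

lemma Ctx.mean (n : Net E X) {x₀ : X} {ρ : Λ →* E} {L : Subgroup E} (c : Ctx x₀ ρ L) :
    ∃ I, IsMean ρ X I :=
  let ⟨I, h1, h2, h3, h4⟩ := exists_mean n x₀ c.prop (exists_bdd_of_cocompact x₀ c.cov)
  ⟨I, h1, h2, h3, h4⟩

lemma Adm.mul {ρ : Λ →* E} {φ ψ : E → ℝ} (h : Adm ρ X φ) (h' : Adm ρ X ψ) : Adm ρ X (φ * ψ) := by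
  classical
  obtain ⟨h1, F, hF⟩ := h
  obtain ⟨h2, F', hF'⟩ := h'
  exact ⟨fun l g => by simp [h1, h2], F ∪ F', fun g v hv => by
    simp [hF g v fun x hx => hv x (by simp [hx]), hF' g v fun x hx => hv x (by simp [hx])]⟩

lemma Adm.sub {ρ : Λ →* E} {φ ψ : E → ℝ} (h : Adm ρ X φ) (h' : Adm ρ X ψ) : Adm ρ X (φ - ψ) := by
  simpa [sub_eq_add_neg] using h.add (h'.smul (-1))

lemma Adm.right {ρ : Λ →* E} {φ : E → ℝ} (h : Adm ρ X φ) (k : E) :
    Adm ρ X fun g => φ (g * k) := by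
  classical
  obtain ⟨h1, F, hF⟩ := h
  refine ⟨fun l g => by simp only [mul_assoc, h1], F.image fun x => k • x, fun g v hv => ?_⟩
  have := hF (g * k) (k⁻¹ * v * k) fun x hx => by
    rw [mul_smul, mul_smul, hv _ (Finset.mem_image_of_mem _ hx), inv_smul_smul]
  simpa [mul_assoc] using this

/-- The Poincaré inequality for right translations by a finite set. -/
def Poin (ρ : Λ →* E) (X : Type) [MulAction E X] (I : (E → ℝ) →ₗ[ℝ] ℝ) (S : Finset E) : Prop :=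
  ∃ C : ℝ, 0 < C ∧ ∀ φ, Adm ρ X φ →
    I (fun g => φ g ^ 2) - I φ ^ 2 ≤ C * ∑ s ∈ S, I fun g => (φ (g * s) - φ g) ^ 2

/-- The products of elements of `H` and short elements of `Z` meet all double cosets. -/
def Hit (n : Net E X) (x₀ : X) (ρ : Λ →* E) (Z : Subgroup E) (F : Finset X) (r : ℕ)
    (H : Subgroup E) : Prop :=
  ∀ g : E, ∃ h ∈ H, ∃ a ∈ Z, a • x₀ ∈ n.ball x₀ r ∧
    ∃ (γ : Λ) (v : E), (∀ x ∈ F, v • x = x) ∧ h * a = ρ γ * g * v

/-- The index estimate for subgroups that miss a double coset. -/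
def Loss (x₀ : X) (ρ : Λ →* E) (Gd : ℕ → Subgroup E → Prop) : Prop :=
  ∃ κ C D : ℝ, 0 < κ ∧ ∀ k : ℕ, ∃ W : Subgroup E, W ≤ MulAction.stabilizer E x₀ ∧ Opn X W ∧
    Real.log (W.relIndex (MulAction.stabilizer E x₀)) ≤ D * (k + 1) ∧
    ∀ (γ : Λ) (H : Subgroup E), H ≤ MulAction.stabilizer E (ρ γ • x₀) → Opn X H → ¬Gd k H →
      Real.log (W.relIndex H) + κ * k ≤
        Real.log (W.relIndex (MulAction.stabilizer E (ρ γ • x₀))) + C

end Pool.Agent.Lib.MP_a6ff19_al
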