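import Pool.Agent.Lib.MP_a6ff19_al.H17Ctx

set_option autoImplicit false
set_option linter.unusedSectionVars false

/-!
Exponential decay of the measure of the points whose path avoids a set.
-/

namespace Pool.Agent.Lib.MP_a6ff19_al

open MulAction

variable {E X : Type} [Group E] [MulAction E X] {Λ : Type*} [Group Λ]

namespace Decay

variable {ρ : Λ →* E} {I : (E → ℝ) →ₗ[ℝ] ℝ} {S : Finset E} {χ : E → ℝ}

lemma adm2 {φ ψ : E → ℝ} (h : Adm ρ X φ) (h' : Adm ρ X ψ) (F : ℝ → ℝ → ℝ) :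
    Adm ρ X fun g => F (φ g) (ψ g) := by
  classical
  obtain ⟨h1, A, hA⟩ := h
  obtain ⟨h2, B, hB⟩ := h'
  exact ⟨fun l g => by simp only [h1, h2], A ∪ B, fun g v hv => by
    simp only [hA g v fun x hx => hv x (by simp [hx]), hB g v fun x hx => hv x (by simp [hx])]⟩

lemma adm1 {φ : E → ℝ} (h : Adm ρ X φ) (F : ℝ → ℝ) : Adm ρ X fun g => F (φ g) :=
  adm2 h h fun a _ => F a

lemma admSum {ι : Type} (s : Finset ι) {φ : ι → E → ℝ} (h : ∀ i ∈ s, Adm ρ X (φ i)) :
    Adm ρ X fun g => ∑ i ∈ s, φ i g := by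
  have := Adm.sum s h
  rwa [Finset.sum_fn] at this

lemma admProd (hχ : Adm ρ X χ) (a : ℕ → E) (k : ℕ) :
    Adm ρ X fun g => ∏ i ∈ Finset.range k, (1 - χ (g * a i)) := by
  induction k with
  | zero => simpa using Adm.const 1
  | succ k ih =>
    simp only [Finset.prod_range_succ]
    exact adm2 ih (hχ.right (a k)) fun x y => x * (1 - y)

lemma mono (hI : IsMean ρ X I) {φ ψ : E → ℝ} (h : Adm ρ X φ) (h' : Adm ρ X ψ)
    (hle : ∀ g, φ g ≤ ψ g) : I φ ≤ I ψ := by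
  have := hI.pos _ (h'.sub h) fun g => sub_nonneg.2 (hle g)
  rw [map_sub] at this
  linarith

lemma lin_avg (I : (E → ℝ) →ₗ[ℝ] ℝ) (S : Finset E) (c : ℝ) (u : E → E → ℝ) :
    I (fun g => c * ∑ s ∈ S, u s g) = c * ∑ s ∈ S, I (u s) := by
  have : (fun g => c * ∑ s ∈ S, u s g) = c • ∑ s ∈ S, u s := by
    ext g; simp
  rw [this, map_smul, map_sum, smul_eq_mul]

lemma lin3 (I : (E → ℝ) →ₗ[ℝ] ℝ) (a b c : ℝ) (u v w : E → ℝ) :
    I (fun g => a * u g + b * v g + c * w g) = a * I u + b * I v + c * I w := by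
  have : (fun g => a * u g + b * v g + c * w g) = a • u + b • v + c • w := by
    ext g; simp
  rw [this, map_add, map_add, map_smul, map_smul, map_smul, smul_eq_mul, smul_eq_mul, smul_eq_mul]

/-- the killed lazy walk -/
noncomputable def ff (S : Finset E) (χ : E → ℝ) : ℕ → E → ℝ
  | 0 => fun g => 1 - χ g
  | k + 1 => fun g => (1 - χ g) * ((S.card : ℝ)⁻¹ * ∑ s ∈ S, (ff S χ k g + ff S χ k (g * s)) / 2)

lemma adm_ff (hχ : Adm ρ X χ) (k : ℕ) : Adm ρ X (ff S χ k) := by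
  induction k with
  | zero => exact adm1 hχ fun x => 1 - x
  | succ k ih =>
    exact adm2 hχ (admSum S fun s _ => adm2 ih (ih.right s) fun x y => (x + y) / 2)
      fun x y => (1 - x) * ((S.card : ℝ)⁻¹ * y)

lemma ff_mul (h01 : ∀ g, χ g = 0 ∨ χ g = 1) (k : ℕ) (g : E) : ff S χ k g * χ g = 0 := by
  cases k <;> rcases h01 g with h | h <;> simp [ff, h]

lemma var_le (hI : IsMean ρ X I) (hχ : Adm ρ X χ) (h01 : ∀ g, χ g = 0 ∨ χ g = 1) {f : E → ℝ}
    (hf : Adm ρ X f) (h0 : ∀ g, f g * χ g = 0) :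
    (1 + I χ) * I f ^ 2 ≤ I fun g => f g ^ 2 := by
  have h1 := hI.pos _ (adm2 hf hχ fun x y => (x - I f * (1 - y)) ^ 2) fun g => sq_nonneg _
  have h2 : (fun g => (f g - I f * (1 - χ g)) ^ 2) =
      fun g => 1 * f g ^ 2 + (-2 * I f) * f g + I f ^ 2 * (1 - χ g) := by
    ext g
    have := h0 g
    rcases h01 g with h | h <;> rw [h] at this ⊢
    · ring
    · rw [mul_one] at this
      rw [this]; ring
  have h3 : I (fun g => 1 - χ g) = 1 - I χ := by
    have : (fun g => 1 - χ g) = (fun _ => (1 : ℝ)) - χ := rfl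
    rw [this, map_sub, hI.const]
  rw [h2, lin3, h3] at h1
  nlinarith

lemma contract (hI : IsMean ρ X I) (hS : S.Nonempty) (hχ : Adm ρ X χ)
    (h01 : ∀ g, χ g = 0 ∨ χ g = 1) (k : ℕ) :
    I (fun g => ff S χ (k + 1) g ^ 2) ≤ I (fun g => ff S χ k g ^ 2) -
      (4 * S.card : ℝ)⁻¹ * ∑ s ∈ S, I fun g => (ff S χ k (g * s) - ff S χ k g) ^ 2 := by
  have hc : (0 : ℝ) < S.card := by exact_mod_cast hS.card_pos
  have hf := adm_ff (S := S) hχ k
  set f := ff S χ k with hfdef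
  have h1 : I (fun g => ff S χ (k + 1) g ^ 2) ≤ I fun g => (S.card : ℝ)⁻¹ * ∑ s ∈ S,
      (1 / 2 * f g ^ 2 + 1 / 2 * f (g * s) ^ 2 + (-1 / 4) * (f (g * s) - f g) ^ 2) := by
    refine mono hI (adm1 (adm_ff hχ (k + 1)) (· ^ 2)) (adm1 (admSum S fun s _ =>
      adm2 hf (hf.right s) fun x y => 1 / 2 * x ^ 2 + 1 / 2 * y ^ 2 + (-1 / 4) * (y - x) ^ 2)
      fun x => (S.card : ℝ)⁻¹ * x) fun g => ?_
    have e1 : ∑ s ∈ S, (1 / 2 * f g ^ 2 + 1 / 2 * f (g * s) ^ 2 +
        (-1 / 4) * (f (g * s) - f g) ^ 2) = ∑ s ∈ S, ((f g + f (g * s)) / 2) ^ 2 :=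
      Finset.sum_congr rfl fun s _ => by ring
    have e2 := sq_sum_le_card_mul_sum_sq (s := S) (f := fun s => (f g + f (g * s)) / 2)
    have e3 : ((S.card : ℝ)⁻¹ * ∑ s ∈ S, (f g + f (g * s)) / 2) ^ 2 ≤
        (S.card : ℝ)⁻¹ * ∑ s ∈ S, ((f g + f (g * s)) / 2) ^ 2 := by
      rw [mul_pow, sq, mul_assoc]
      refine mul_le_mul_of_nonneg_left ?_ (inv_nonneg.2 hc.le)
      rw [inv_mul_le_iff₀ hc]
      exact e2
    rw [e1]
    refine le_trans ?_ e3
    show ((1 - χ g) * ((S.card : ℝ)⁻¹ * ∑ s ∈ S, (f g + f (g * s)) / 2)) ^ 2 ≤ _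
    rcases h01 g with h | h <;> rw [h]
    · simp
    · simp only [sub_self, zero_mul]
      nlinarith [sq_nonneg ((S.card : ℝ)⁻¹ * ∑ s ∈ S, (f g + f (g * s)) / 2)]
  rw [lin_avg] at h1
  have h2 : ∀ s ∈ S, I (fun g => 1 / 2 * f g ^ 2 + 1 / 2 * f (g * s) ^ 2 +
      (-1 / 4) * (f (g * s) - f g) ^ 2) = I (fun g => f g ^ 2) -
        1 / 4 * I fun g => (f (g * s) - f g) ^ 2 := fun s _ => by
    rw [lin3, hI.right (fun g => f g ^ 2) s (adm1 hf (· ^ 2))]
    ring
  rw [Finset.sum_congr rfl h2, Finset.sum_sub_distrib, Finset.sum_const, ← Finset.mul_sum,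
    nsmul_eq_mul] at h1
  refine h1.trans (le_of_eq ?_)
  field_simp

lemma path (hI : IsMean ρ X I) (hS : S.Nonempty) (hχ : Adm ρ X χ) (k : ℕ) :
    ∀ h : E → ℝ, Adm ρ X h → ∃ a : ℕ → E, a 0 = 1 ∧
      (∀ i, a (i + 1) = a i ∨ ∃ s ∈ S, a (i + 1) = a i * s) ∧
      I (fun g => h g * ∏ i ∈ Finset.range (k + 1), (1 - χ (g * a i))) ≤
        I fun g => h g * ff S χ k g := by
  induction k with
  | zero => exact fun h _ => ⟨fun _ => 1, rfl, fun _ => Or.inl rfl, by simp [ff]⟩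
  | succ k ih =>
    intro h hh
    have hc : (0 : ℝ) < S.card := by exact_mod_cast hS.card_pos
    have hf := adm_ff (S := S) hχ k
    set J : E → ℝ := fun t => I fun g => h g * (1 - χ g) * ff S χ k (g * t) with hJ
    have e1 : I (fun g => h g * ff S χ (k + 1) g) =
        (S.card : ℝ)⁻¹ * ∑ s ∈ S, (1 / 2 * J 1 + 1 / 2 * J s) := by
      have : (fun g => h g * ff S χ (k + 1) g) = fun g => (S.card : ℝ)⁻¹ * ∑ s ∈ S,
          (1 / 2 * (h g * (1 - χ g) * ff S χ k (g * 1)) +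
            1 / 2 * (h g * (1 - χ g) * ff S χ k (g * s)) + 0 * h g) := by
        ext g
        simp only [ff, mul_one, Finset.mul_sum]
        exact Finset.sum_congr rfl fun s _ => by ring
      rw [this, lin_avg]
      congr 1
      exact Finset.sum_congr rfl fun s _ => by rw [lin3]; ring
    obtain ⟨t, ht, hle⟩ : ∃ t, (t = 1 ∨ t ∈ S) ∧ J t ≤ I fun g => h g * ff S χ (k + 1) g := by
      by_contra hcon
      push Not at hcon
      have := Finset.sum_lt_sum_of_nonempty hS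
        (f := fun _ => I fun g => h g * ff S χ (k + 1) g) (g := fun s => 1 / 2 * J 1 + 1 / 2 * J s)
        fun s hs => by linarith [hcon 1 (Or.inl rfl), hcon s (Or.inr hs)]
      rw [Finset.sum_const, nsmul_eq_mul, ← lt_inv_mul_iff₀ hc, ← e1] at this
      exact lt_irrefl _ this
    have hh' : Adm ρ X fun g => h (g * t⁻¹) * (1 - χ (g * t⁻¹)) :=
      (adm2 hh hχ fun x y => x * (1 - y)).right t⁻¹
    obtain ⟨a, a0, as, ha⟩ := ih _ hh'
    rw [← hI.right _ t (adm2 hh' (admProd hχ a (k + 1)) (· * ·)),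
      ← hI.right _ t (adm2 hh' hf (· * ·))] at ha
    simp only [mul_inv_cancel_right] at ha
    refine ⟨fun i => Nat.casesOn i 1 fun j => t * a j, rfl, fun i => ?_, le_trans ?_ hle⟩
    · cases i with
      | zero =>
        rcases ht with rfl | ht
        · exact Or.inl (by simp [a0])
        · exact Or.inr ⟨t, ht, by simp [a0]⟩
      | succ i =>
        rcases as i with e | ⟨s, hs, e⟩
        · exact Or.inl (by simp [e])
        · exact Or.inr ⟨s, hs, by simp [e, mul_assoc]⟩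
    · refine le_trans (le_of_eq ?_) ha
      congr 1
      ext g
      rw [Finset.prod_range_succ' _ (k + 1)]
      simp only [Nat.rec_zero, mul_one, mul_assoc]
      ring

end Decay

open Decay in
theorem decay {ρ : Λ →* E} {I : (E → ℝ) →ₗ[ℝ] ℝ} (hI : IsMean ρ X I) {S : Finset E}
    (hS : S.Nonempty) (h : Poin ρ X I S) {χ : E → ℝ} (hχ : Adm ρ X χ)
    (h01 : ∀ g, χ g = 0 ∨ χ g = 1) (hpos : 0 < I χ) :
    ∃ κ : ℝ, 0 < κ ∧ ∀ k : ℕ, ∃ a : ℕ → E, a 0 = 1 ∧
      (∀ i, a (i + 1) = a i ∨ ∃ s ∈ S, a (i + 1) = a i * s) ∧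
      I (fun g => ∏ i ∈ Finset.range (k + 1), (1 - χ (g * a i))) ≤ Real.exp (-(κ * k)) := by
  obtain ⟨C, hC, hP⟩ := h
  have hc : (0 : ℝ) < S.card := by exact_mod_cast hS.card_pos
  set η : ℝ := (4 * S.card : ℝ)⁻¹ * (I χ / ((1 + I χ) * C)) with hη
  have hη0 : 0 < η := by positivity
  have hsq : ∀ k, I (fun g => ff S χ k g ^ 2) ≤ Real.exp (-(η * k)) := by
    intro k
    induction k with
    | zero =>
      have := mono hI (adm1 (adm_ff (S := S) hχ 0) (· ^ 2)) (Adm.const 1) fun g => by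
        rcases h01 g with h | h <;> simp [ff, h]
      rw [hI.const] at this
      simpa using this
    | succ k ih =>
      have hf := adm_ff (S := S) hχ k
      have h1 := contract hI hS hχ h01 k
      have h2 := var_le hI hχ h01 hf (ff_mul h01 k)
      have h3 := hP _ hf
      have h4 := hI.pos _ (adm1 hf (· ^ 2)) fun g => sq_nonneg _
      set A := I fun g => ff S χ k g ^ 2
      set B := ∑ s ∈ S, I fun g => (ff S χ k (g * s) - ff S χ k g) ^ 2
      have h5 : I χ / ((1 + I χ) * C) * A ≤ B := by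
        rw [div_mul_eq_mul_div, div_le_iff₀ (by positivity)]
        nlinarith [mul_le_mul_of_nonneg_left h3 (by positivity : 0 ≤ 1 + I χ)]
      have h6 : η * A ≤ (4 * S.card : ℝ)⁻¹ * B := by
        rw [hη, mul_assoc]
        exact mul_le_mul_of_nonneg_left h5 (by positivity)
      have h7 := Real.add_one_le_exp (-η)
      have h8 : Real.exp (-(η * (k + 1 : ℕ))) = Real.exp (-η) * Real.exp (-(η * k)) := by
        rw [← Real.exp_add]; congr 1; push_cast; ring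
      rw [h8]
      calc _ ≤ (-η + 1) * A := by linarith
        _ ≤ Real.exp (-η) * A := mul_le_mul_of_nonneg_right h7 h4
        _ ≤ _ := mul_le_mul_of_nonneg_left ih (Real.exp_pos _).le
  refine ⟨η / 2, by positivity, fun k => ?_⟩
  obtain ⟨a, a0, as, ha⟩ := path hI hS hχ k (fun _ => 1) (Adm.const 1)
  simp only [one_mul] at ha
  refine ⟨a, a0, as, ha.trans ?_⟩
  have h2 := var_le hI hχ h01 (adm_ff (S := S) hχ k) (ff_mul h01 k)
  have h3 : Real.exp (-(η * k)) = Real.exp (-(η / 2 * k)) ^ 2 := by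
    rw [sq, ← Real.exp_add]; congr 1; ring
  have h4 := hsq k
  rw [h3] at h4
  have h5 : I (ff S χ k) ^ 2 ≤ Real.exp (-(η / 2 * k)) ^ 2 := by
    nlinarith [mul_nonneg hpos.le (sq_nonneg (I (ff S χ k)))]
  exact le_trans (le_abs_self _) (abs_le_of_sq_le_sq' h5 (Real.exp_pos _).le |> abs_le.2)

end Pool.Agent.Lib.MP_a6ff19_al
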