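import Pool.Agent.Lib.MP_a6ff19_al.H17Decay

set_option autoImplicit false
set_option linter.unusedSectionVars false

/-!
Subgroups that miss a double coset lose entropy.
-/

namespace Pool.Agent.Lib.MP_a6ff19_al

open MulAction

variable {E X : Type} [Group E] [MulAction E X] {Λ : Type*} [Group Λ]

lemma loss_ne (n : Net E X) {x : X} {W K : Subgroup E} (hK : K ≤ stabilizer E x) (hW : Opn X W) :
    W.relIndex K ≠ 0 :=
  let ⟨_, h1, _, h2⟩ := ((Bdd.stab x).mono (B' := (K : Set E)) fun _ h => hK h).cover n hW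
  relIndex_of_cov h1 h2

/-- The conjugate of a subgroup. -/
def lossCj (V : Subgroup E) (a : E) : Subgroup E := V.comap (MulAut.conj a⁻¹).toMonoidHom

lemma loss_mem_cj {V : Subgroup E} {a u : E} : u ∈ lossCj V a ↔ a⁻¹ * u * a ∈ V := by
  simp [lossCj]

lemma loss_cj_one (V : Subgroup E) : lossCj V 1 = V := by
  ext u
  simp [loss_mem_cj]

lemma loss_cj_relIndex (V : Subgroup E) (a s : E) :
    (lossCj V (a * s)).relIndex (lossCj V a) = (lossCj V s).relIndex V := by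
  have h : lossCj V (a * s) = lossCj (lossCj V s) a := by
    ext u
    simp [loss_mem_cj, mul_assoc]
  rw [h, lossCj, Subgroup.relIndex_comap, lossCj, lossCj,
    Subgroup.map_comap_eq_self_of_surjective (MulAut.conj a⁻¹).surjective]

/-- The intersection of the conjugates along a path. -/
def lossW (V : Subgroup E) (a : ℕ → E) : ℕ → Subgroup E
  | 0 => lossCj V (a 0)
  | j + 1 => lossCj V (a (j + 1)) ⊓ lossW V a j

lemma loss_W_le (V : Subgroup E) (a : ℕ → E) {i j : ℕ} (h : i ≤ j) :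
    lossW V a j ≤ lossCj V (a i) := by
  induction j with
  | zero => rw [Nat.le_zero.1 h]; exact le_rfl
  | succ j ih =>
    rcases h.eq_or_lt with rfl | h
    · exact inf_le_left
    · exact inf_le_right.trans (ih (Nat.le_of_lt_succ h))

lemma loss_W_opn {V : Subgroup E} (hV : Opn X V) (a : ℕ → E) (j : ℕ) : Opn X (lossW V a j) := by
  induction j with
  | zero => exact hV.conj _
  | succ j ih => exact (hV.conj _).inf ih

lemma loss_W_index (n : Net E X) {x₀ : X} {V : Subgroup E} (hV : Opn X V)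
    (hV' : V ≤ stabilizer E x₀) {S : Finset E} {C : ℕ} (h1 : V.relIndex (stabilizer E x₀) ≤ C)
    (h2 : ∀ s ∈ S, (lossCj V s).relIndex V ≤ C) {a : ℕ → E} (h0 : a 0 = 1)
    (ha : ∀ i, a (i + 1) = a i ∨ ∃ s ∈ S, a (i + 1) = a i * s) (j : ℕ) :
    (lossW V a j).relIndex (stabilizer E x₀) ≤ C ^ (j + 1) := by
  induction j with
  | zero => simpa [lossW, h0, loss_cj_one] using h1
  | succ j ih =>
    rw [lossW, ← Subgroup.relIndex_inf_mul_relIndex, pow_succ']
    refine Nat.mul_le_mul ?_ ih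
    have h3 : lossW V a j ⊓ stabilizer E x₀ ≤ lossCj V (a j) :=
      inf_le_left.trans (loss_W_le V a le_rfl)
    rcases ha j with h | ⟨s, hs, h⟩
    · rw [h, Subgroup.relIndex_eq_one.2 h3]
      exact (Nat.pos_of_ne_zero (loss_ne n le_rfl hV)).trans_le h1
    · rw [h]
      refine (Subgroup.relIndex_le_of_le_right h3 ?_).trans ?_ <;> rw [loss_cj_relIndex]
      · exact loss_ne n hV' (hV.conj _)
      · exact h2 s hs

open Classical in
/-- The indicator of the saturation of a set. -/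
noncomputable def lossInd (ρ : Λ →* E) (A : Set E) (g : E) : ℝ :=
  if ∃ l, ∃ a ∈ A, g = ρ l * a then 1 else 0

lemma loss_ind_one {ρ : Λ →* E} {A : Set E} (l : Λ) {a : E} (ha : a ∈ A) :
    lossInd ρ A (ρ l * a) = 1 := if_pos ⟨l, a, ha, rfl⟩

lemma loss_ind_cases (ρ : Λ →* E) (A : Set E) (g : E) :
    lossInd ρ A g = 0 ∨ lossInd ρ A g = 1 ∧ ∃ l, ∃ a ∈ A, g = ρ l * a := by
  by_cases h : ∃ l, ∃ a ∈ A, g = ρ l * a
  · exact Or.inr ⟨if_pos h, h⟩
  · exact Or.inl (if_neg h)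

lemma loss_ind_nonneg (ρ : Λ →* E) (A : Set E) (g : E) : 0 ≤ lossInd ρ A g := by
  rcases loss_ind_cases ρ A g with h | h
  · rw [h]
  · rw [h.1]; exact zero_le_one

lemma loss_ind_congr {ρ : Λ →* E} {A A' : Set E} {g g' : E}
    (h : (∃ l, ∃ a ∈ A, g = ρ l * a) ↔ ∃ l, ∃ a ∈ A', g' = ρ l * a) :
    lossInd ρ A g = lossInd ρ A' g' := by
  rw [lossInd, lossInd, h]

lemma loss_ind_adm (ρ : Λ →* E) {A : Set E} {O : Subgroup E} (hO : Opn X O)
    (h : ∀ a ∈ A, ∀ v ∈ O, a * v ∈ A) : Adm ρ X (lossInd ρ A) := by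
  obtain ⟨F, hF⟩ := hO
  refine ⟨fun l g => loss_ind_congr ?_, F, fun g v hv => loss_ind_congr ?_⟩
  · constructor
    · rintro ⟨l', a, ha, e⟩
      exact ⟨l⁻¹ * l', a, ha, by rw [map_mul, mul_assoc, ← e, map_inv, inv_mul_cancel_left]⟩
    · rintro ⟨l', a, ha, rfl⟩
      exact ⟨l * l', a, ha, by rw [map_mul, mul_assoc]⟩
  · constructor
    · rintro ⟨l', a, ha, e⟩
      exact ⟨l', _, h a ha _ (O.inv_mem (hF v hv)), by rw [← mul_assoc, ← e, mul_inv_cancel_right]⟩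
    · rintro ⟨l', a, ha, rfl⟩
      exact ⟨l', _, h a ha _ (hF v hv), mul_assoc _ _ _⟩

variable {ρ : Λ →* E} {I : (E → ℝ) →ₗ[ℝ] ℝ}

lemma loss_ind_pos (hI : IsMean ρ X I) {A : Set E} (h : Adm ρ X (lossInd ρ A)) {a : E}
    (ha : a ∈ A) : 0 < I (lossInd ρ A) := by
  refine (hI.pos _ h (loss_ind_nonneg ρ A)).lt_of_ne' fun e => ?_
  have := hI.faith _ h (loss_ind_nonneg ρ A) e (ρ 1 * a)
  rw [loss_ind_one 1 ha] at this
  exact one_ne_zero this

lemma loss_mono (hI : IsMean ρ X I) {φ ψ : E → ℝ} (h : Adm ρ X φ) (h' : Adm ρ X ψ)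
    (hle : ∀ g, φ g ≤ ψ g) : I φ ≤ I ψ := by
  have := hI.pos _ (h'.sub h) fun g => sub_nonneg.2 (hle g)
  rw [map_sub] at this
  exact sub_nonneg.1 this

lemma loss_count (n : Net E X) (hI : IsMean ρ X I) {x : X} {W H : Subgroup E} (hW : Opn X W)
    (hH : H ≤ stabilizer E x) :
    W.relIndex H * I (lossInd ρ (stabilizer E x)) ≤ W.relIndex (stabilizer E x) *
      I (lossInd ρ {g | ∃ h ∈ H, ∃ u ∈ W ⊓ stabilizer E x, g = h * u}) := by
  classical
  set U := stabilizer E x with hU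
  set A := {g | ∃ h ∈ H, ∃ u ∈ W ⊓ U, g = h * u} with hA
  have h1 : Adm ρ X (lossInd ρ A) := loss_ind_adm ρ (hW.inf (Opn.stab x)) (by
    rintro _ ⟨h, h1, u, h2, rfl⟩ v hv
    exact ⟨h, h1, u * v, mul_mem h2 hv, mul_assoc _ _ _⟩)
  have h2 : Adm ρ X (lossInd ρ U) := loss_ind_adm ρ (Opn.stab x) fun a ha v hv => mul_mem ha hv
  have : Finite (U ⧸ W.subgroupOf U) := Nat.finite_of_card_ne_zero (loss_ne n (le_refl U) hW)
  have : Finite (H ⧸ W.subgroupOf H) := Nat.finite_of_card_ne_zero (loss_ne n hH hW)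
  have := Fintype.ofFinite (U ⧸ W.subgroupOf U)
  have := Fintype.ofFinite (H ⧸ W.subgroupOf H)
  have h3 := loss_mono hI (h2.smul (W.relIndex H)) (Adm.sum Finset.univ
    fun (r : U ⧸ W.subgroupOf U) _ => h1.right (r.out : E)) fun g => by
      rw [Finset.sum_apply, Pi.smul_apply, smul_eq_mul]
      rcases loss_ind_cases ρ U g with h | ⟨h, l, u, hu, rfl⟩
      · rw [h, mul_zero]
        exact Finset.sum_nonneg fun _ _ => loss_ind_nonneg _ _ _
      set f : H ⧸ W.subgroupOf H → U ⧸ W.subgroupOf U :=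
        fun y => ((⟨u⁻¹ * y.out, mul_mem (inv_mem hu) (hH y.out.2)⟩ : U) : U ⧸ _) with hf
      have h3 : Function.Injective f := fun y y' e => by
        rw [← QuotientGroup.out_eq' y, ← QuotientGroup.out_eq' y']
        have := QuotientGroup.eq.1 e
        refine QuotientGroup.eq.2 ?_
        simpa [Subgroup.mem_subgroupOf, mul_assoc] using this
      refine le_trans ?_ (Finset.sum_le_sum_of_subset_of_nonneg
        (Finset.subset_univ (Finset.univ.image f)) fun _ _ _ => loss_ind_nonneg _ _ _)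
      rw [Finset.sum_image fun _ _ _ _ e => h3 e, h, mul_one, Finset.sum_congr rfl
        (g := fun _ => (1 : ℝ)) fun y _ => ?_]
      · simp [Subgroup.relIndex, Subgroup.index]
      · obtain ⟨w, hw⟩ := QuotientGroup.mk_out_eq_mul (W.subgroupOf U)
          ⟨u⁻¹ * y.out, mul_mem (inv_mem hu) (hH y.out.2)⟩
        rw [hf, hw, Subgroup.coe_mul, mul_assoc, ← mul_assoc u, mul_inv_cancel_left]
        exact loss_ind_one l ⟨_, y.out.2, _, ⟨w.2, w.1.2⟩, rfl⟩
  rw [map_smul, map_sum, Finset.sum_congr rfl fun r _ => hI.right _ _ h1] at h3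
  simpa [Subgroup.relIndex, Subgroup.index] using h3

lemma loss_stab (hI : IsMean ρ X I) (x₀ : X) (γ : Λ) :
    I (lossInd ρ (stabilizer E (ρ γ • x₀))) = I (lossInd ρ (stabilizer E x₀)) := by
  rw [← hI.right _ (ρ γ) (loss_ind_adm ρ (Opn.stab x₀) fun a ha v hv => mul_mem ha hv)]
  refine congrArg I (funext fun g => loss_ind_congr ?_)
  constructor
  · rintro ⟨l, a, ha, rfl⟩
    refine ⟨l * γ, (ρ γ)⁻¹ * a * ρ γ, ?_, by simp [mul_assoc]⟩
    rw [SetLike.mem_coe, mem_stabilizer_iff, mul_smul, mul_smul, mem_stabilizer_iff.1 ha,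
      inv_smul_smul]
  · rintro ⟨l, a, ha, e⟩
    refine ⟨l * γ⁻¹, ρ γ * a * (ρ γ)⁻¹, ?_, by rw [eq_mul_inv_iff_mul_eq.2 e]; simp [mul_assoc]⟩
    rw [SetLike.mem_coe, mem_stabilizer_iff, mul_smul, mul_smul, inv_smul_smul,
      mem_stabilizer_iff.1 ha]

theorem loss_of_poin (n : Net E X) {x₀ : X} {ρ : Λ →* E} (hc : Coc x₀ ρ ⊤)
    {I : (E → ℝ) →ₗ[ℝ] ℝ} (hI : IsMean ρ X I) {Z : Subgroup E} {S : Finset E} (hS : S.Nonempty)
    (hZ : ∀ s ∈ S, s ∈ Z) (h : Poin ρ X I S) :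
    ∃ LA : ℕ, ∀ F : Finset X, Loss x₀ ρ fun k H => Hit n x₀ ρ Z F (LA * k) H := by
  classical
  obtain ⟨LA, hLA⟩ := n.exists_ball_finite x₀ (S.finite_toSet.image fun s => s • x₀)
  refine ⟨LA, fun F => ?_⟩
  have path : ∀ a : ℕ → E, a 0 = 1 → (∀ i, a (i + 1) = a i ∨ ∃ s ∈ S, a (i + 1) = a i * s) →
      ∀ i, a i ∈ Z ∧ a i • x₀ ∈ n.ball x₀ (LA * i) := by
    intro a h0 ha i
    induction i with
    | zero => rw [h0, one_smul]; exact ⟨one_mem _, n.ball_self _ _⟩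
    | succ i ih =>
      rcases ha i with h | ⟨s, hs, h⟩ <;> rw [h]
      · exact ⟨ih.1, n.ball_mono ih.2 (Nat.mul_le_mul_left _ i.le_succ)⟩
      · rw [mul_smul]
        exact ⟨mul_mem ih.1 (hZ s hs), n.ball_trans ih.2 (n.ball_smul _ (hLA ⟨s, hs, rfl⟩))⟩
  set V := fixingSubgroup E ((insert x₀ F : Finset X) : Set X) with hV
  have hV1 : Opn X V := Opn.fixing _
  have hV2 : V ≤ stabilizer E x₀ := fun v hv => (mem_fixingSubgroup_iff E).1 hv x₀ (by simp)
  obtain ⟨B, hB, hB'⟩ := hc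
  obtain ⟨T, hT, -, hT'⟩ := hB.cover n hV1
  have h1 : ∀ t, Adm ρ X (lossInd ρ {g | t⁻¹ * g ∈ V}) := fun t =>
    loss_ind_adm ρ hV1 fun a ha v hv => by
      rw [Set.mem_ofPred_eq, ← mul_assoc]
      exact mul_mem ha hv
  choose κ hκ a ha0 ha ha' using fun t => decay hI hS h (h1 t)
    (fun g => (loss_ind_cases ρ _ g).imp id And.left)
    (loss_ind_pos hI (h1 t) (a := t) (by simp [one_mem]))
  obtain ⟨t₀, -, ht₀⟩ := Set.exists_min_image T κ hT (by
    obtain ⟨l, hl⟩ := hB' 1 (Subgroup.mem_top _)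
    obtain ⟨t, ht, -⟩ := hT' _ hl
    exact ⟨t, ht⟩)
  set C := V.relIndex (stabilizer E x₀) + ∑ s ∈ S, (lossCj V s).relIndex V with hC
  have := hT.fintype
  have h2 := loss_ind_pos hI (loss_ind_adm ρ (A := stabilizer E x₀) (Opn.stab x₀)
    fun a ha v hv => mul_mem ha hv) (one_mem _)
  refine ⟨κ t₀, -Real.log (I (lossInd ρ (stabilizer E x₀))), Fintype.card T * Real.log C, hκ t₀,
    fun k => ?_⟩
  set W := ⨅ t : T, lossW V (a t k) k with hW
  have h3 : Opn X W := by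
    rw [hW, iInf_subtype'' T fun t => lossW V (a t k) k]
    exact Opn.iInf hT fun t _ => loss_W_opn hV1 (a t k) k
  have h4 : ∀ t ∈ T, ∀ i ≤ k, W ≤ lossCj V (a t k i) := fun t ht i hi =>
    (iInf_le (fun t : T => lossW V (a t k) k) ⟨t, ht⟩).trans (loss_W_le V _ hi)
  refine ⟨W, ?_, h3, ?_, fun γ H hH _ hn => ?_⟩
  · obtain ⟨l, hl⟩ := hB' 1 (Subgroup.mem_top _)
    obtain ⟨t, ht, -⟩ := hT' _ hl
    refine (h4 t ht 0 k.zero_le).trans ?_
    rwa [ha0, loss_cj_one]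
  · have h5 : W.relIndex (stabilizer E x₀) ≤ (C ^ (k + 1)) ^ Fintype.card T :=
      (Subgroup.relIndex_iInf_le _).trans (Finset.prod_le_pow_card _ _ _ fun t _ =>
        loss_W_index n hV1 hV2 (Nat.le_add_right _ _) (fun s hs => (Finset.single_le_sum
          (f := fun s => (lossCj V s).relIndex V) (fun _ _ => Nat.zero_le _) hs).trans
            (Nat.le_add_left _ _)) (ha0 t k) (ha t k) k)
    refine (Real.log_le_log (Nat.cast_pos.2 (Nat.pos_of_ne_zero (loss_ne n le_rfl h3)))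
      (Nat.cast_le.2 h5)).trans_eq ?_
    push_cast
    rw [Real.log_pow, Real.log_pow]
    push_cast
    ring
  · obtain ⟨g₀, h5⟩ := not_forall.1 hn
    obtain ⟨l₀, h6⟩ := hB' g₀ (Subgroup.mem_top _)
    obtain ⟨t, ht, h7⟩ := hT' _ h6
    have h8 := loss_count n hI h3 hH
    rw [loss_stab hI] at h8
    have h9 : Adm ρ X fun g => ∏ i ∈ Finset.range (k + 1),
        (1 - lossInd ρ {g | t⁻¹ * g ∈ V} (g * a t k i)) := by
      rw [← Finset.prod_fn]
      exact Finset.prod_induction _ _ (fun _ _ => Adm.mul) (Adm.const 1)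
        fun i _ => (Adm.const 1).sub ((h1 t).right _)
    have h10 := (loss_mono hI (loss_ind_adm ρ (A := {g | ∃ h ∈ H,
      ∃ u ∈ W ⊓ stabilizer E (ρ γ • x₀), g = h * u}) (h3.inf (Opn.stab _)) (by
        rintro _ ⟨h, h1, u, h2, rfl⟩ v hv
        exact ⟨h, h1, u * v, mul_mem h2 hv, mul_assoc _ _ _⟩)) h9 fun g => by
        rcases loss_ind_cases ρ {g | ∃ h ∈ H, ∃ u ∈ W ⊓ stabilizer E (ρ γ • x₀), g = h * u} g with
          e | ⟨e, l, _, ⟨h, k1, u, k2, rfl⟩, rfl⟩ <;> rw [e]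
        · refine Finset.prod_nonneg fun i _ => ?_
          rcases loss_ind_cases ρ {g | t⁻¹ * g ∈ V} (g * a t k i) with e | ⟨e, -⟩ <;> simp [e]
        refine (Finset.prod_eq_one fun i hi => ?_).ge
        have k3 := Nat.le_of_lt_succ (Finset.mem_range.1 hi)
        rcases loss_ind_cases ρ {g | t⁻¹ * g ∈ V} (ρ l * (h * u) * a t k i) with e | ⟨-, l', b, k4, e⟩
        · rw [e, sub_zero]
        obtain ⟨k5, k6⟩ := path _ (ha0 t k) (ha t k) i
        have k7 := mul_mem (mul_mem (inv_mem h7) k4) (inv_mem (loss_mem_cj.1 (h4 t ht i k3 k2.1)))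
        refine absurd ⟨h, k1, _, k5, n.ball_mono k6 (Nat.mul_le_mul_left _ k3), l⁻¹ * l' * l₀, _,
          fun x hx => (mem_fixingSubgroup_iff E).1 k7 x (by simp [hx]), ?_⟩ h5
        rw [map_mul, map_mul, map_inv, eq_inv_mul_iff_mul_eq.2 e.symm]
        group).trans (ha' t k)
    have h11 : (0 : ℝ) < W.relIndex H := Nat.cast_pos.2 (Nat.pos_of_ne_zero (loss_ne n hH h3))
    have h12 : (0 : ℝ) < W.relIndex (stabilizer E (ρ γ • x₀)) :=
      Nat.cast_pos.2 (Nat.pos_of_ne_zero (loss_ne n le_rfl h3))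
    have h13 := Real.log_le_log (mul_pos h11 h2)
      (h8.trans (mul_le_mul_of_nonneg_left h10 h12.le))
    rw [Real.log_mul h11.ne' h2.ne', Real.log_mul h12.ne' (Real.exp_pos _).ne', Real.log_exp] at h13
    linarith [mul_le_mul_of_nonneg_right (ht₀ t ht) (Nat.cast_nonneg k : (0 : ℝ) ≤ k)]

end Pool.Agent.Lib.MP_a6ff19_al
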