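import Pool.Agent.Lib.MP_a6ff19_al.H17Ctx

set_option autoImplicit false
set_option linter.unusedSectionVars false

/-!
The spectral gap on the homogeneous space.
-/

namespace Pool.Agent.Lib.MP_a6ff19_al

open MulAction
open scoped RealInnerProductSpace

variable {E X : Type} [Group E] [MulAction E X] {Λ : Type*} [Group Λ]

/-- The admissible functions as a submodule. -/
def admSub (ρ : Λ →* E) (X : Type) [MulAction E X] : Submodule ℝ (E → ℝ) where
  carrier := {φ | Adm ρ X φ}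
  add_mem' := Adm.add
  zero_mem' := Adm.const (ρ := ρ) (X := X) 0
  smul_mem' t _ h := Adm.smul h t

/-- Right translation of an admissible function. -/
def admRt {ρ : Λ →* E} (g : E) (φ : admSub ρ X) : admSub ρ X :=
  ⟨fun x => φ.1 (x * g), Adm.right φ.2 g⟩

/-- The constant function one. -/
def admOne (ρ : Λ →* E) (X : Type) [MulAction E X] : admSub ρ X :=
  ⟨fun _ => 1, Adm.const (ρ := ρ) (X := X) 1⟩

lemma admRt_mul {ρ : Λ →* E} (g h : E) (φ : admSub ρ X) :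
    admRt (g * h) φ = admRt g (admRt h φ) :=
  Subtype.ext (funext fun x => by simp [admRt, mul_assoc])

lemma admRt_one {ρ : Λ →* E} (φ : admSub ρ X) : admRt 1 φ = φ :=
  Subtype.ext (funext fun x => by simp [admRt])

lemma admRt_sum {ρ : Λ →* E} (g : E) (s : Finset (admSub ρ X)) :
    admRt g (∑ φ ∈ s, φ) = ∑ φ ∈ s, admRt g φ :=
  Subtype.ext (funext fun x => by simp [admRt, Finset.sum_apply])

lemma admRt_fix {ρ : Λ →* E} (φ : admSub ρ X) :
    ∃ F : Finset X, ∀ v : E, (∀ x ∈ F, v • x = x) → admRt v φ = φ :=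
  let ⟨F, hF⟩ := (show Adm ρ X φ.1 from φ.2).2
  ⟨F, fun v hv => Subtype.ext (funext fun x => hF x v hv)⟩

/-- The unitary representation on the completion of the admissible functions. -/
structure AdmRep {ρ : Λ →* E} (I : (E → ℝ) →ₗ[ℝ] ℝ) {H : Type} [NormedAddCommGroup H]
    [InnerProductSpace ℝ H] (π : E →* (H ≃ₗᵢ[ℝ] H)) (Φ : admSub ρ X →ₗ[ℝ] H) : Prop where
  inn : ∀ φ ψ, ⟪Φ φ, Φ ψ⟫ = I (φ.1 * ψ.1)
  eqv : ∀ g φ, π g (Φ φ) = Φ (admRt g φ)
  dns : DenseRange Φ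

theorem exists_admRep {ρ : Λ →* E} {I : (E → ℝ) →ₗ[ℝ] ℝ} (hI : IsMean ρ X I) :
    ∃ (H : Type) (_ : NormedAddCommGroup H) (_ : InnerProductSpace ℝ H) (_ : CompleteSpace H)
      (π : E →* (H ≃ₗᵢ[ℝ] H)) (Φ : admSub ρ X →ₗ[ℝ] H), AdmRep I π Φ := by
  letI : MulAction E (admSub ρ X) :=
    { smul := admRt, one_smul := admRt_one, mul_smul := admRt_mul }
  let k : Ker (admSub ρ X) :=
    { κ := fun φ ψ => I (φ.1 * ψ.1)
      symm := fun φ ψ => by rw [mul_comm]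
      psd := fun s a => by
        have h1 : ∑ z ∈ s, ∑ z' ∈ s, a z * a z' * I (z.1 * z'.1) =
            I ((∑ z ∈ s, a z • z).1 * (∑ z ∈ s, a z • z).1) := by
          simp only [Submodule.coe_sum, Submodule.coe_smul, Finset.sum_mul_sum, map_sum,
            smul_mul_smul_comm, map_smul, smul_eq_mul]
        rw [h1]
        exact hI.pos _ (Adm.mul (∑ z ∈ s, a z • z).2 (∑ z ∈ s, a z • z).2) fun g =>
          mul_self_nonneg _ }
  obtain ⟨H, i1, i2, i3, π, Φ, h1, h2, h3⟩ := gns (E := E) k fun g φ ψ =>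
    hI.right (φ.1 * ψ.1) g (Adm.mul φ.2 ψ.2)
  have h1' : ∀ φ ψ : admSub ρ X, ⟪Φ φ, Φ ψ⟫ = I (φ.1 * ψ.1) := h1
  let Ψ : admSub ρ X →ₗ[ℝ] H :=
    { toFun := Φ
      map_add' := fun φ ψ => sub_eq_zero.1 (eq_zero_of_dense h3 fun z => by
        rw [inner_sub_left, inner_add_left, h1', h1', h1', Submodule.coe_add, add_mul, map_add,
          sub_self])
      map_smul' := fun t φ => sub_eq_zero.1 (eq_zero_of_dense h3 fun z => by
        rw [inner_sub_left, real_inner_smul_left, h1', h1', Submodule.coe_smul, smul_mul_assoc,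
          map_smul, smul_eq_mul, RingHom.id_apply, sub_self]) }
  refine ⟨H, i1, i2, i3, π, Ψ, h1', h2, h3.mono ?_⟩
  have : Submodule.span ℝ (Set.range Φ) ≤ LinearMap.range Ψ := Submodule.span_le.2 subset_rfl
  exact this

namespace AdmRep

variable {ρ : Λ →* E} {I : (E → ℝ) →ₗ[ℝ] ℝ} {H : Type} [NormedAddCommGroup H]
  [InnerProductSpace ℝ H] {π : E →* (H ≃ₗᵢ[ℝ] H)} {Φ : admSub ρ X →ₗ[ℝ] H} (r : AdmRep I π Φ)
include r

lemma zero {v : H} (hv : ∀ φ, ⟪v, Φ φ⟫ = 0) : v = 0 :=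
  eq_zero_of_dense (r.dns.mono Submodule.subset_span) hv

lemma cont (v : H) (ε : ℝ) (hε : 0 < ε) :
    ∃ F : Finset X, ∀ g : E, (∀ x ∈ F, g • x = x) → ‖π g v - v‖ < ε := by
  obtain ⟨φ, h1⟩ := r.dns.exists_dist_lt v (half_pos hε)
  obtain ⟨F, hF⟩ := admRt_fix φ
  refine ⟨F, fun g hg => ?_⟩
  have h3 : π g v - v = π g (v - Φ φ) - (v - Φ φ) := by rw [map_sub, r.eqv, hF g hg]; abel
  rw [dist_eq_norm] at h1
  rw [h3]
  refine (norm_sub_le _ _).trans_lt ?_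
  rw [LinearIsometryEquiv.norm_map]
  linarith

lemma inj (hI : IsMean ρ X I) {φ ψ : admSub ρ X} (h : Φ φ = Φ ψ) : φ = ψ := by
  have h1 : I ((φ - ψ).1 * (φ - ψ).1) = 0 := by
    rw [← r.inn, map_sub, h, sub_self, inner_zero_left]
  have h2 := hI.faith _ (Adm.mul (φ - ψ).2 (φ - ψ).2) (fun g => mul_self_nonneg _) h1
  exact sub_eq_zero.1 (Subtype.ext (funext fun g => mul_self_eq_zero.1 (h2 g)))

lemma one_inner (φ : admSub ρ X) : ⟪Φ (admOne ρ X), Φ φ⟫ = I φ.1 := by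
  rw [r.inn]
  congr 1
  exact funext fun g => one_mul _

lemma one_fix (g : E) : π g (Φ (admOne ρ X)) = Φ (admOne ρ X) := r.eqv g _

lemma fixed_mem (n : Net E X) {x₀ : X} (hc : Coc x₀ ρ ⊤) {F : Finset X} (hF : x₀ ∈ F) {w : H}
    (hw : ∀ v : E, (∀ x ∈ F, v • x = x) → π v w = w) :
    ∃ ψ, Φ ψ = w ∧ ∀ v : E, (∀ x ∈ F, v • x = x) → admRt v ψ = ψ := by
  classical
  let C₀ : Submodule ℝ (admSub ρ X) :=
    { carrier := {ψ | ∀ v : E, (∀ x ∈ F, v • x = x) → admRt v ψ = ψ}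
      add_mem' := fun {a b} ha hb v hv => by
        have : admRt v (a + b) = admRt v a + admRt v b := rfl
        rw [this, ha v hv, hb v hv]
      zero_mem' := fun v _ => rfl
      smul_mem' := fun t a ha v hv => by
        have : admRt v (t • a) = t • admRt v a := rfl
        rw [this, ha v hv] }
  obtain ⟨B, hB, hcov⟩ := hc
  obtain ⟨T, hT, -, hTB⟩ := hB.cover n (Opn.fixing F)
  haveI : Finite T := hT
  let res : C₀ →ₗ[ℝ] (T → ℝ) :=
    { toFun := fun ψ t => ψ.1.1 t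
      map_add' := fun _ _ => rfl
      map_smul' := fun _ _ => rfl }
  have hres : Function.Injective res := by
    rw [injective_iff_map_eq_zero]
    intro ψ h
    refine Subtype.ext (Subtype.ext (funext fun g => ?_))
    obtain ⟨l, hl⟩ := hcov g trivial
    obtain ⟨t, ht, h1⟩ := hTB _ hl
    have h2 := congrFun (congrArg Subtype.val (ψ.2 _ ((mem_fixingSubgroup_iff E).1 h1))) t
    have h3 : ψ.1.1 t = 0 := congrFun h ⟨t, ht⟩
    have h4 := (show Adm ρ X ψ.1.1 from ψ.1.2).1 l g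
    simp only [admRt, mul_inv_cancel_left] at h2
    exact h4.symm.trans (h2.trans h3)
  haveI : FiniteDimensional ℝ C₀ := Module.Finite.of_injective res hres
  let C : Submodule ℝ H := C₀.map Φ
  haveI : FiniteDimensional ℝ C := inferInstance
  haveI : CompleteSpace C := FiniteDimensional.complete ℝ C
  obtain ⟨ψ, hψ, h1⟩ := Submodule.mem_map.1 (C.starProjection_apply_mem w)
  refine ⟨ψ, (sub_eq_zero.1 (r.zero fun φ => ?_)).symm, hψ⟩
  have h2 : w - Φ ψ ∈ Cᗮ := h1 ▸ C.sub_starProjection_mem_orthogonal w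
  have h3 : ∀ v : E, (∀ x ∈ F, v • x = x) → π v (w - Φ ψ) = w - Φ ψ := fun v hv => by
    rw [map_sub, hw v hv, r.eqv, hψ v hv]
  obtain ⟨F', hF'⟩ := admRt_fix φ
  have h4 : ((fun v => admRt v φ) '' {v : E | ∀ x ∈ F, v • x = x}).Finite := by
    refine finite_image_of_factor _ _ (((Bdd.stab x₀).mono
      (B' := {v : E | ∀ x ∈ F, v • x = x}) fun g hg => hg x₀ hF).cover_left n
      (Opn.fixing F')) fun u _ u' _ huu => ?_
    have h5 := hF' _ ((mem_fixingSubgroup_iff E).1 (QuotientGroup.eq.1 huu))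
    calc admRt u φ = admRt u (admRt (u⁻¹ * u') φ) := by rw [h5]
      _ = admRt u' φ := by rw [← admRt_mul, mul_inv_cancel_left]
  have h5 : ∀ v : E, (∀ x ∈ F, v • x = x) → ∀ a ∈ h4.toFinset, admRt v a ∈ h4.toFinset := by
    intro v hv a ha
    obtain ⟨u, hu, rfl⟩ := h4.mem_toFinset.1 ha
    exact h4.mem_toFinset.2 ⟨v * u, fun x hx => by rw [mul_smul, hu x hx, hv x hx],
      admRt_mul v u φ⟩
  have h6 : (∑ a ∈ h4.toFinset, a) ∈ C₀ := by
    intro v hv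
    rw [admRt_sum]
    have hv' : ∀ x ∈ F, v⁻¹ • x = x := fun x hx => by rw [inv_smul_eq_iff, hv x hx]
    exact Finset.sum_nbij' (admRt v) (admRt v⁻¹) (h5 v hv) (h5 _ hv')
      (fun a _ => by rw [← admRt_mul, inv_mul_cancel, admRt_one])
      (fun a _ => by rw [← admRt_mul, mul_inv_cancel, admRt_one]) fun _ _ => rfl
  have h7 : ⟪w - Φ ψ, Φ (∑ a ∈ h4.toFinset, a)⟫ = 0 :=
    Submodule.inner_left_of_mem_orthogonal (Submodule.mem_map_of_mem h6) h2
  have h8 : ∀ a ∈ h4.toFinset, ⟪w - Φ ψ, Φ a⟫ = ⟪w - Φ ψ, Φ φ⟫ := by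
    intro a ha
    obtain ⟨u, hu, rfl⟩ := h4.mem_toFinset.1 ha
    conv_lhs => rw [← h3 u hu, ← r.eqv, LinearIsometryEquiv.inner_map_map]
  rw [map_sum, inner_sum, Finset.sum_congr rfl h8, Finset.sum_const, nsmul_eq_mul] at h7
  refine (mul_eq_zero.1 h7).resolve_left (Nat.cast_ne_zero.2 (Finset.card_ne_zero.2 ⟨φ, ?_⟩))
  exact h4.mem_toFinset.2 ⟨1, fun x _ => one_smul _ x, admRt_one φ⟩

lemma fixed_one (hI : IsMean ρ X I) (n : Net E X) {x₀ : X} {L : Subgroup E} (c : Ctx x₀ ρ L)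
    {F : Finset X} (hF : x₀ ∈ F) {w : H} (hw : ∀ v : E, (∀ x ∈ F, v • x = x) → π v w = w)
    (hL : ∀ l ∈ L, π l w = w) : ∃ t : ℝ, w = t • Φ (admOne ρ X) := by
  obtain ⟨ψ, rfl, hψ⟩ := r.fixed_mem n c.coc hF hw
  refine ⟨ψ.1 1, ?_⟩
  rw [← map_smul]
  congr 1
  refine Subtype.ext (funext fun g => ?_)
  obtain ⟨l, hl, γ, h1⟩ := c.dense g F
  have h2 := congrFun (congrArg Subtype.val (hψ ((ρ γ * l)⁻¹ * g) fun x hx => by
    rw [mul_smul, inv_smul_eq_iff, mul_smul, h1 x hx])) (ρ γ * l)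
  have h3 := congrFun (congrArg Subtype.val (r.inj hI ((r.eqv l ψ).symm.trans (hL l hl)))) 1
  have h4 := (show Adm ρ X ψ.1 from ψ.2).1 γ l
  simp only [admRt, mul_inv_cancel_left, one_mul] at h2 h3
  simp [admOne, h2, h3, h4]

lemma fixed_L [CompleteSpace H] (hI : IsMean ρ X I) (n : Net E X) {x₀ : X} {L : Subgroup E}
    (c : Ctx x₀ ρ L) {w : H} (hL : ∀ l ∈ L, π l w = w) : ∃ t : ℝ, w = t • Φ (admOne ρ X) := by
  classical
  let C := fixSub (π.comp L.subtype)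
  haveI : CompleteSpace C := (isClosed_fixSub _).completeSpace_coe
  have hC : ∀ g, ∀ v ∈ C, π g v ∈ C := fun g v hv l => by
    have h1 := hv ⟨g⁻¹ * l * g, by simpa using c.nrm.conj_mem _ l.2 g⁻¹⟩
    have h2 : (l : E) * g = g * (g⁻¹ * l * g) := by simp [mul_assoc]
    change π l (π g v) = π g v
    change π (g⁻¹ * l * g) v = v at h1
    rw [← rep_mul, h2, rep_mul, h1]
  have hw : w ∈ C := fun l => hL l l.2
  have h1 : Φ (admOne ρ X) ∈ C := fun l => r.one_fix _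
  have h11 : ⟪Φ (admOne ρ X), Φ (admOne ρ X)⟫ = 1 := by rw [r.one_inner]; exact hI.const 1
  refine ⟨⟪w, Φ (admOne ρ X)⟫, sub_eq_zero.1 (r.zero fun φ => ?_)⟩
  obtain ⟨F, hF⟩ := admRt_fix φ
  obtain ⟨t, ht⟩ := r.fixed_one hI n c (Finset.mem_insert_self x₀ F)
    (w := C.starProjection (Φ φ)) (fun v hv => by
      rw [← proj_comm π hC, r.eqv, hF v fun x hx => hv x (Finset.mem_insert_of_mem hx)])
    fun l hl => C.starProjection_apply_mem (Φ φ) ⟨l, hl⟩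
  have h2 : ∀ u ∈ C, ⟪u, Φ φ⟫ = t * ⟪u, Φ (admOne ρ X)⟫ := fun u hu => by
    have := Submodule.inner_right_of_mem_orthogonal hu (C.sub_starProjection_mem_orthogonal (Φ φ))
    rw [inner_sub_right, ht, real_inner_smul_right] at this
    linarith
  rw [inner_sub_left, real_inner_smul_left, h2 w hw, h2 _ h1, h11]
  ring

lemma fixed_sigma (n : Net E X) (x₀ : X) {L : Subgroup E} (hn : L.Normal) {A : Type} [Group A]
    {σ : A →* E} (hfg : Group.FG A) (hnd : ND X σ L) {w : H} (hw : ∀ a, π (σ a) w = w) :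
    ∀ l ∈ L, π l w = w := by
  classical
  intro l hl
  obtain ⟨S, hS⟩ := Group.fg_def.1 hfg
  refine sub_eq_zero.1 (norm_le_zero_iff.1 (le_of_forall_pos_le_add fun ε hε => ?_))
  obtain ⟨O, h1, ⟨F, hF⟩, h3⟩ := mautner n x₀ π w (r.cont w) (S.image σ) (fun s hs => by
    obtain ⟨a, -, rfl⟩ := Finset.mem_image.1 hs
    exact hw a) hε
  have h4 : ∀ a, σ a ∈ O := fun a => by
    have : Subgroup.closure (S : Set A) ≤ O.comap σ := (Subgroup.closure_le _).2 fun s hs =>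
      h1 _ (Finset.mem_image_of_mem _ hs)
    exact this (hS ▸ Subgroup.mem_top a)
  have h5 := hnd (L ⊓ O) inf_le_left ⟨F, fun g hg h => ⟨hg, hF g h⟩⟩ fun a g hg =>
    ⟨hn.conj_mem _ hg.1 _, O.mul_mem (O.mul_mem (h4 a) hg.2) (O.inv_mem (h4 a))⟩
  rw [zero_add]
  exact h3 l (h5.ge hl).2

end AdmRep

theorem poincare (n : Net E X) {x₀ : X} {ρ : Λ →* E} {L : Subgroup E} (c : Ctx x₀ ρ L)
    {A : Type} [Group A] {σ : A →* E} (hfg : Group.FG A) (hfh : NoNF A) (hnd : ND X σ L)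
    {I : (E → ℝ) →ₗ[ℝ] ℝ} (hI : IsMean ρ X I) :
    ∃ S : Finset E, S.Nonempty ∧ (∀ s ∈ S, s ∈ σ.range) ∧ Poin ρ X I S := by
  classical
  obtain ⟨H, i1, i2, i3, π, Φ, r⟩ := exists_admRep hI
  let α : AffAct A H := ⟨π.comp σ, fun _ => 0, fun _ _ => by simp⟩
  have hα : ∀ a v, α.act a v = π (σ a) v := fun a v => add_zero _
  have h0 := hfh H α
  simp only [NF, not_forall, not_exists, not_lt] at h0
  obtain ⟨S, C, hC⟩ := h0
  refine ⟨insert 1 (S.image σ), Finset.insert_nonempty _ _, fun s hs => ?_,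
    C ^ 2 * (S.card : ℝ) ^ 2 + 1, by positivity, fun φ hφ => ?_⟩
  · rcases Finset.mem_insert.1 hs with rfl | hs
    · exact one_mem _
    · obtain ⟨a, -, rfl⟩ := Finset.mem_image.1 hs
      exact ⟨a, rfl⟩
  let ψ : admSub ρ X := ⟨φ, hφ⟩
  obtain ⟨v, hv, h1⟩ := hC (Φ ψ)
  obtain ⟨t, rfl⟩ := r.fixed_L hI n c
    (r.fixed_sigma n x₀ c.nrm hfg hnd fun a => (hα a v).symm.trans (hv a))
  have h2 : ∀ s, I (fun g => (φ (g * s) - φ g) ^ 2) = ‖π s (Φ ψ) - Φ ψ‖ ^ 2 := fun s => by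
    rw [r.eqv, ← map_sub, ← real_inner_self_eq_norm_sq, r.inn]
    congr 1
    exact funext fun g => sq _
  have h3 : I (fun g => φ g ^ 2) = ⟪Φ ψ, Φ ψ⟫ := by
    rw [r.inn]
    congr 1
    exact funext fun g => sq _
  have h11 : ⟪Φ (admOne ρ X), Φ (admOne ρ X)⟫ = 1 := by rw [r.one_inner]; exact hI.const 1
  have h4 : ‖Φ ψ - t • Φ (admOne ρ X)‖ ^ 2 = ⟪Φ ψ, Φ ψ⟫ - 2 * t * I φ + t ^ 2 := by
    have h5 : ⟪Φ (admOne ρ X), Φ ψ⟫ = I φ := r.one_inner ψ
    rw [← real_inner_self_eq_norm_sq, inner_sub_left, inner_sub_right, inner_sub_right,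
      real_inner_smul_left, real_inner_smul_left, real_inner_smul_right, real_inner_smul_right,
      h11, real_inner_comm (Φ (admOne ρ X)) (Φ ψ), h5]
    ring
  simp only [h2]
  set J := ∑ s ∈ insert 1 (S.image σ), ‖π s (Φ ψ) - Φ ψ‖ ^ 2 with hJ
  have hJ0 : 0 ≤ J := Finset.sum_nonneg fun _ _ => sq_nonneg _
  have h5 : α.disp S (Φ ψ) ^ 2 ≤ (S.card : ℝ) ^ 2 * J := by
    refine sq_sum_le_card_mul_sum_sq.trans ?_
    rw [sq (S.card : ℝ), mul_assoc]
    refine mul_le_mul_of_nonneg_left ?_ (Nat.cast_nonneg _)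
    rw [← nsmul_eq_mul]
    refine Finset.sum_le_card_nsmul _ _ _ fun a ha => ?_
    rw [hα]
    exact Finset.single_le_sum (f := fun s => ‖π s (Φ ψ) - Φ ψ‖ ^ 2) (fun _ _ => sq_nonneg _)
      (Finset.mem_insert_of_mem (Finset.mem_image_of_mem _ ha))
  have h6 := pow_le_pow_left₀ (norm_nonneg _) h1 2
  rw [h4, mul_pow] at h6
  have h7 := mul_le_mul_of_nonneg_left h5 (sq_nonneg C)
  rw [h3]
  nlinarith [sq_nonneg (t - I φ)]

end Pool.Agent.Lib.MP_a6ff19_al
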