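import Pool.Agent.Lib.MP_a6ff19_al.H17Ctx

set_option autoImplicit false
set_option linter.unusedSectionVars false

/-!
The rising sun lemma for the fixed point set of an element.
-/

namespace Pool.Agent.Lib.MP_a6ff19_al

open MulAction

variable {E X : Type} [Group E] [MulAction E X] {Λ : Type*} [Group Λ]

theorem sun_iter {P Q : Type*} [Group P] [Group Q] (mP : Net P P) (mQ : Net Q Q)
    {Fx : P → Q → Prop} {R : ℕ}
    (hP : ∀ p₀ q₀ q, (∀ p ∈ mP.ball p₀ R, Fx p q₀) → q ∈ mQ.ball q₀ 1 → Fx p₀ q) (t : ℕ) :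
    ∀ p₀ q₀ q, (∀ p ∈ mP.ball p₀ (R * t), Fx p q₀) → q ∈ mQ.ball q₀ t → Fx p₀ q := by
  induction t with
  | zero => exact fun p₀ q₀ q h hq => (show q = q₀ from hq) ▸ h p₀ (mP.ball_self _ _)
  | succ t ih =>
    intro p₀ q₀ q h hq
    obtain ⟨y, h1, h2⟩ := mQ.ball_succ hq
    refine hP p₀ y q (fun p hp => ih p q₀ y (fun p' hp' => h p' ?_) h1) h2
    rw [Nat.mul_succ, add_comm]
    exact mP.ball_trans hp hp'

open Classical in
theorem sun_rise (g : ℕ → ℤ) (K N : ℕ) (hg : ∀ i, g (i + 1) ≤ g i + K) (d : ℕ) :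
    ∀ j, j + d = N → ∃ i, j ≤ i ∧ i ≤ N ∧ (∀ i', j ≤ i' → i' ≤ N → g i ≤ g i') ∧ g N - g i ≤ K *
      ((Finset.Ico j N).filter fun j => ∀ i, j ≤ i → i ≤ N → g j ≤ g i).card := by
  induction d with
  | zero =>
    rintro j rfl
    exact ⟨j, le_rfl, le_rfl, fun i' h1 h2 => by rw [le_antisymm h1 h2], by simp⟩
  | succ d ih =>
    intro j hj
    obtain ⟨i, h1, h2, h3, h4⟩ := ih (j + 1) (by omega)
    by_cases h : g j ≤ g i
    · have h5 : ∀ i', j ≤ i' → i' ≤ N → g j ≤ g i' := fun i' k1 k2 => by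
        rcases k1.eq_or_lt with rfl | k
        · exact le_rfl
        · exact h.trans (h3 i' k k2)
      refine ⟨j, le_rfl, by omega, h5, ?_⟩
      rw [← Finset.insert_Ico_succ_left_eq_Ico (show j < N by omega), Finset.filter_insert,
        if_pos h5, Finset.card_insert_of_notMem (by simp)]
      have h6 := hg j
      have h7 := h3 (j + 1) le_rfl (by omega)
      push_cast
      simp only [Order.succ_eq_add_one]
      linarith
    · refine ⟨i, by omega, h2, fun i' k1 k2 => ?_, h4.trans ?_⟩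
      · rcases k1.eq_or_lt with rfl | k
        · exact (not_le.1 h).le
        · exact h3 i' k k2
      · gcongr
        exact Nat.le_succ j

theorem sun {P Q : Type*} [Group P] [Group Q] (mP : Net P P) (mQ : Net Q Q) (Fx : P → Q → Prop)
    {R : ℕ} (hR : 0 < R)
    (hP : ∀ p₀ q₀ q, (∀ p ∈ mP.ball p₀ R, Fx p q₀) → q ∈ mQ.ball q₀ 1 → Fx p₀ q)
    (hQ : ∀ p₀ q₀ p, (∀ q ∈ mQ.ball q₀ R, Fx p₀ q) → p ∈ mP.ball p₀ 1 → Fx p q₀)
    (hE : ∀ q, ∃ p, ¬Fx p q) (s₀ : ℕ) (h₀ : ∀ p ∈ mP.ball 1 s₀, Fx p 1) :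
    ∃ N, s₀ ≤ N ∧ ∃ c : ℕ → Q, (∀ i, c (i + 1) ∈ mQ.ball (c i) 1) ∧ (∀ i, N ≤ i → c i = c N) ∧
      ∃ Act ⊆ Finset.range N, N ≤ 2 * R ^ 2 * Act.card ∧ ∀ j ∈ Act, ∃ p₀, ¬Fx p₀ (c j) ∧
        ∀ t D, j + t ≤ N → 2 * R * (1 + R) * D < t →
          ∀ p ∈ mP.ball p₀ D, ∀ q ∈ mQ.ball (c (j + t)) D, Fx p q := by
  classical
  let ψ : Q → ℕ := fun q => sInf {r | ∃ p ∈ mP.ball 1 r, ¬Fx p q}
  have h1 : ∀ q, ∃ p ∈ mP.ball 1 (ψ q), ¬Fx p q := fun q => by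
    obtain ⟨p, hp⟩ := hE q
    obtain ⟨r, hr⟩ := mP.exists_ball 1 p
    exact Nat.sInf_mem (s := {r | ∃ p ∈ mP.ball 1 r, ¬Fx p q}) ⟨r, p, hr, hp⟩
  have h2 : ∀ q r, ∀ p ∈ mP.ball 1 r, ¬Fx p q → ψ q ≤ r := fun q r p hp k =>
    Nat.sInf_le ⟨p, hp, k⟩
  have h3 : ∀ q, ∀ q' ∈ mQ.ball q 1, ψ q' ≤ ψ q + R := fun q q' hq => by
    obtain ⟨p, hp, k⟩ := h1 q
    by_contra hc
    exact k (hP p q' q (fun p' hp' => not_not.1 fun k' =>
      hc (h2 q' _ p' (mP.ball_trans hp hp') k')) (mQ.ball_symm hq))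
  obtain ⟨p₁, h4, h5⟩ := h1 1
  have h6 : s₀ ≤ ψ 1 := le_of_not_ge fun k => h5 (h₀ p₁ (mP.ball_mono h4 k))
  obtain ⟨q', h7, h8⟩ : ∃ q' ∈ mQ.ball 1 (R * ψ 1), ¬Fx 1 q' := by
    by_contra hc
    push Not at hc
    exact h5 (sun_iter mQ mP (Fx := fun q p => Fx p q) (fun q₀ p₀ p => hQ p₀ q₀ p) _ 1 1 p₁ hc h4)
  have h9 : ψ q' = 0 := Nat.le_zero.1 (h2 q' 0 1 rfl h8)
  obtain ⟨c, c0, c1, c2⟩ := mQ.exists_path (mQ.ball_symm h7)
  obtain ⟨i, -, i1, i2, i3⟩ := sun_rise (fun i => 2 * R * (ψ (c i) : ℤ) - i) (2 * R ^ 2) (R * ψ 1)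
    (fun i => by
      have k : (ψ (c (i + 1)) : ℤ) ≤ ψ (c i) + R := by exact_mod_cast h3 _ _ (c2 i)
      have k' := mul_le_mul_of_nonneg_left k (show (0 : ℤ) ≤ 2 * R by positivity)
      push_cast
      linarith) _ 0 (zero_add _)
  refine ⟨R * ψ 1, h6.trans (Nat.le_mul_of_pos_left _ hR), c, c2,
    fun i hi => (c1 i hi).trans (c1 _ le_rfl).symm, (Finset.Ico 0 (R * ψ 1)).filter fun j =>
      ∀ i, j ≤ i → i ≤ R * ψ 1 → 2 * R * (ψ (c j) : ℤ) - j ≤ 2 * R * (ψ (c i) : ℤ) - i,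
    (Finset.filter_subset _ _).trans (Finset.range_eq_Ico _).ge, ?_, fun j hj => ?_⟩
  · have k := i2 0 le_rfl (Nat.zero_le _)
    simp only [c0, h9, c1 _ le_rfl] at k i3
    generalize Finset.card _ = a at i3 ⊢
    zify
    push_cast at i3 k
    linarith
  · obtain ⟨p₀, k1, k2⟩ := h1 (c j)
    refine ⟨p₀, k2, fun t D k3 k4 p hp q hq => sun_iter mP mQ hP D p _ q (fun p' hp' => ?_) hq⟩
    by_contra hc
    have k5 := h2 _ _ p' (mP.ball_trans (mP.ball_trans k1 hp) hp') hc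
    have k6 := (Finset.mem_filter.1 hj).2 (j + t) (Nat.le_add_right _ _) k3
    zify at k4 k5
    have k7 := mul_le_mul_of_nonneg_left k5 (show (0 : ℤ) ≤ 2 * R by positivity)
    push_cast at k6
    linarith

end Pool.Agent.Lib.MP_a6ff19_al
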