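import Pool.Agent.Lib.MP_a6ff19_al.H17Ctx

set_option autoImplicit false
set_option linter.unusedSectionVars false

/-!
Telescoping of the entropy and coarse differentiation.
-/

namespace Pool.Agent.Lib.MP_a6ff19_al

open MulAction

variable {E X : Type} [Group E] [MulAction E X] {Λ : Type*} [Group Λ]

open Finset in
lemma tele_pigeon {u : ℕ → ℕ} (hu : Monotone u) (hu0 : u 0 = 0) {r : ℕ} (hr : 2 ≤ u r)
    (k₀ d : ℕ) (b₀ : ℝ) : ∃ N₀ : ℕ, ∀ N, N₀ ≤ N → ∀ g : ℕ → ℕ → ℝ, (∀ i j, 0 ≤ g i j) →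
      (∀ i, g i i = 0) → (∀ i j l, g i l ≤ g i j + g j l) → (∀ i, g i (i + 1) ≤ b₀) →
      (∀ i j, N ≤ i → N ≤ j → g i j = 0) → ∀ Act ⊆ range N, N ≤ d * Act.card →
      ∃ k, k₀ ≤ k ∧ ∃ j ∈ Act, j + k * u r ≤ N ∧
        ∑ i ∈ range r, g (j + k * u i) (j + k * u (i + 1)) - g j (j + k * u r) < k := by
  classical
  set Q := u r with hQ
  obtain ⟨J, hJ⟩ := exists_nat_gt (2 * d * Q * |b₀|)
  have hJ0 : (0 : ℝ) < J := lt_of_le_of_lt (by positivity) hJ
  refine ⟨2 * d * Q ^ (k₀ + J) + 1, fun N hN g g0 g1 g2 g3 g4 Act hAct hd => ?_⟩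
  have hQ0 : (0 : ℝ) < Q := by exact_mod_cast (by omega : 0 < Q)
  let A : ℕ → ℝ := fun s => ∑ j ∈ range N, g j (j + s)
  have A0 : ∀ s, 0 ≤ A s := fun s => sum_nonneg fun j _ => g0 _ _
  have shift : ∀ a s, ∑ j ∈ range N, g (j + a) (j + a + s) ≤ A s := fun a s => by
    have h1 := sum_range_add (fun j => g j (j + s)) a N
    have h2 := sum_range_add (fun j => g j (j + s)) N a
    rw [sum_eq_zero (s := range a) fun j _ => g4 _ _ (by omega) (by omega), add_zero,
      add_comm N a, h1] at h2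
    have h3 : 0 ≤ ∑ j ∈ range a, g j (j + s) := sum_nonneg fun j _ => g0 _ _
    simp only [add_comm a] at h2
    simp only [A]
    linarith
  have Amul : ∀ v s : ℕ, A (v * s) ≤ v * A s := fun v s => by
    induction v with
    | zero => simp [A, g1]
    | succ v ih =>
      have h1 : A ((v + 1) * s) ≤ A (v * s) + ∑ j ∈ range N, g (j + v * s) (j + v * s + s) := by
        rw [← sum_add_distrib]
        refine sum_le_sum fun j _ => ?_
        rw [add_mul, one_mul, ← add_assoc]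
        exact g2 _ _ _
      have h2 := shift (v * s) s
      push_cast
      linarith
  have A1 : A 1 ≤ N * |b₀| := by
    have := card_nsmul_le_sum (range N) (fun j => -g j (j + 1)) (-|b₀|) fun j _ =>
      neg_le_neg ((g3 j).trans (le_abs_self _))
    simp only [card_range, nsmul_eq_mul, sum_neg_distrib] at this
    simp only [A]
    linarith
  let b : ℕ → ℝ := fun e => A (Q ^ e) / Q ^ e
  have hb : ∑ e ∈ range J, (b (k₀ + e) - b (k₀ + (e + 1))) ≤ ∑ _e ∈ range J, N * |b₀| / J := by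
    rw [sum_range_sub' fun e => b (k₀ + e), sum_const, card_range, nsmul_eq_mul,
      mul_div_cancel₀ _ hJ0.ne']
    have h1 : 0 ≤ b (k₀ + J) := div_nonneg (A0 _) (by positivity)
    have h2 : b (k₀ + 0) ≤ A 1 := by
      have := Amul (Q ^ (k₀ + 0)) 1
      rw [mul_one] at this
      rw [div_le_iff₀ (by positivity), mul_comm]
      exact_mod_cast this
    linarith
  obtain ⟨e, he, hb'⟩ := exists_le_of_sum_le ⟨0, mem_range.2 (by exact_mod_cast hJ0)⟩ hb
  set k := Q ^ (k₀ + e) with hk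
  have hk0 : (0 : ℝ) < k := by rw [hk]; positivity
  have hk1 : k * Q ≤ Q ^ (k₀ + J) := by
    rw [hk, ← pow_succ]
    exact Nat.pow_le_pow_right (by omega) (by have := mem_range.1 he; omega)
  refine ⟨k, (Nat.lt_pow_self (by omega)).le.trans
    (Nat.pow_le_pow_right (by omega) (Nat.le_add_right k₀ e)), ?_⟩
  let Df : ℕ → ℝ := fun j =>
    ∑ i ∈ range r, g (j + k * u i) (j + k * u (i + 1)) - g j (j + k * Q)
  have D0 : ∀ j, 0 ≤ Df j := fun j => by
    have : ∀ r', g j (j + k * u r') ≤ ∑ i ∈ range r', g (j + k * u i) (j + k * u (i + 1)) := by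
      intro r'
      induction r' with
      | zero => simp [hu0, g1]
      | succ r' ih => rw [sum_range_succ]; exact (g2 _ _ _).trans (by gcongr)
    exact sub_nonneg.2 (this r)
  have D1 : ∑ j ∈ range N, Df j ≤ k * (Q * (N * |b₀| / J)) := by
    have h1 : ∑ i ∈ range r, ∑ j ∈ range N, g (j + k * u i) (j + k * u (i + 1)) ≤
        ∑ i ∈ range r, ((u (i + 1) - u i : ℕ) : ℝ) * A k := by
      refine sum_le_sum fun i _ => le_trans ?_ (Amul _ k)
      refine le_trans (le_of_eq (sum_congr rfl fun j _ => ?_)) (shift (k * u i) _)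
      rw [add_assoc, mul_comm _ k, ← mul_add, Nat.add_sub_cancel' (hu i.le_succ)]
    rw [← sum_mul, ← Nat.cast_sum, sum_range_tsub hu, hu0, Nat.sub_zero, sum_comm] at h1
    have h2 : (k : ℝ) * (Q * (b (k₀ + e) - b (k₀ + (e + 1)))) = Q * A k - A (k * Q) := by
      simp only [b, ← add_assoc, pow_succ, ← hk]
      have : (Q : ℝ) ^ (k₀ + e) = k := by rw [hk]; push_cast; rfl
      rw [this]
      field_simp
    have h3 : (k : ℝ) * (Q * (b (k₀ + e) - b (k₀ + (e + 1)))) ≤ k * (Q * (N * |b₀| / J)) := by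
      gcongr
    simp only [Df, sum_sub_distrib]
    simp only [A] at h1 h2
    linarith
  by_contra hcon
  push Not at hcon
  have h1 : Act ⊆ (range N).filter (fun j => (k : ℝ) ≤ Df j) ∪ Ico (N - k * Q) N := by
    intro j hj
    have h2 := mem_range.1 (hAct hj)
    by_cases h3 : j + k * Q ≤ N
    · exact mem_union_left _ (mem_filter.2 ⟨hAct hj, hcon j hj h3⟩)
    · exact mem_union_right _ (mem_Ico.2 ⟨by omega, h2⟩)
  have h2 : (((range N).filter fun j => (k : ℝ) ≤ Df j).card : ℝ) ≤ Q * (N * |b₀| / J) := by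
    refine le_of_mul_le_mul_left (le_trans ?_ D1) hk0
    refine le_trans ?_ (sum_le_sum_of_subset_of_nonneg (filter_subset (fun j => (k : ℝ) ≤ Df j) _)
      fun j _ _ => D0 j)
    rw [mul_comm, ← nsmul_eq_mul]
    exact card_nsmul_le_sum _ _ _ fun j hj => (mem_filter.1 hj).2
  have h3 := (card_le_card h1).trans (card_union_le _ _)
  have h4 : Act.card ≤ ((range N).filter fun j => (k : ℝ) ≤ Df j).card + Q ^ (k₀ + J) := by
    rw [Nat.card_Ico] at h3
    omega
  have h5 : (N : ℝ) ≤ d * (Q * (N * |b₀| / J) + Q ^ (k₀ + J)) := by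
    refine le_trans (show (N : ℝ) ≤ d * Act.card by exact_mod_cast hd) ?_
    gcongr
    have h5 := (Nat.cast_le (α := ℝ)).2 h4
    push_cast at h5
    linarith
  have h6 : 2 * d * (Q : ℝ) ^ (k₀ + J) + 1 ≤ N := by exact_mod_cast hN
  have h7 : 2 * (d * (Q * (N * |b₀| / J))) ≤ N := by
    rw [show 2 * (d * (Q * (N * |b₀| / J))) = N * (2 * d * Q * |b₀| / J) by ring]
    exact mul_le_of_le_one_right (by positivity) ((div_le_one hJ0).2 hJ.le)
  linarith

lemma tele_fin (n : Net E X) {A B : Subgroup E} (hA : Opn X A) {y : X}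
    (hB : B ≤ stabilizer E y) : A.relIndex B ≠ 0 :=
  let ⟨_, h1, _, h2⟩ := ((Bdd.stab y).mono (B' := B) hB).cover n hA
  relIndex_of_cov h1 h2

lemma tele_log_le {a b : ℕ} (ha : a ≠ 0) (h : a ≤ b) : Real.log a ≤ Real.log b :=
  Real.log_le_log (by positivity) (by exact_mod_cast h)

lemma tele_log_mul {a b c : ℕ} (ha : a ≠ 0) (hb : b ≠ 0) (h : a * b = c) :
    Real.log a + Real.log b = Real.log c := by
  rw [← h, Nat.cast_mul, Real.log_mul (by exact_mod_cast ha) (by exact_mod_cast hb)]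

lemma tele_tri (n : Net E X) (x y z : X) :
    Real.log ((stabilizer E z).relIndex (stabilizer E x)) ≤
      Real.log ((stabilizer E y).relIndex (stabilizer E x)) +
        Real.log ((stabilizer E z).relIndex (stabilizer E y)) := by
  have h1 := tele_log_mul (tele_fin n (Opn.stab z) inf_le_left) (tele_fin n (Opn.stab y) le_rfl)
    (Subgroup.relIndex_inf_mul_relIndex (stabilizer E z) (stabilizer E y) (stabilizer E x))
  have h2 := tele_log_le (tele_fin n (Opn.stab z) (le_refl (stabilizer E x)))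
    (Subgroup.relIndex_le_of_le_left (inf_le_left (b := stabilizer E y))
      (tele_fin n ((Opn.stab z).inf (Opn.stab y)) le_rfl))
  have h3 := tele_log_le (tele_fin n (Opn.stab z) (inf_le_left (b := stabilizer E x)))
    (Subgroup.relIndex_le_of_le_right inf_le_left (tele_fin n (Opn.stab z) (le_refl (stabilizer E y))))
  linarith

lemma tele_step (n : Net E X) {x₀ : X} {W : Subgroup E} (hW : W ≤ stabilizer E x₀) (hO : Opn X W)
    (p y : X) : Real.log ((W ⊓ stabilizer E y).relIndex (stabilizer E x₀)) +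
      Real.log (W.relIndex (stabilizer E p)) ≤
        Real.log ((W ⊓ stabilizer E p).relIndex (stabilizer E x₀)) +
          Real.log ((stabilizer E y).relIndex (stabilizer E p)) +
            Real.log (W.relIndex (stabilizer E p ⊓ stabilizer E y)) := by
  have h1 := tele_log_mul (tele_fin n hO inf_le_left) (tele_fin n (Opn.stab y) le_rfl)
    (Subgroup.relIndex_inf_mul_relIndex W (stabilizer E y) (stabilizer E p))
  have h2 := tele_log_mul (tele_fin n (Opn.stab y) inf_le_right) (tele_fin n hO le_rfl)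
    (Subgroup.relIndex_inf_mul_relIndex (stabilizer E y) W (stabilizer E p))
  have h3 := tele_log_mul (tele_fin n (Opn.stab y) inf_le_right)
    (tele_fin n (hO.inf (Opn.stab p)) le_rfl)
    (Subgroup.relIndex_inf_mul_relIndex (stabilizer E y) (W ⊓ stabilizer E p) (stabilizer E x₀))
  have h4 := tele_log_le (tele_fin n (hO.inf (Opn.stab y)) (le_refl (stabilizer E x₀)))
    (Subgroup.relIndex_le_of_le_left (H := stabilizer E y ⊓ (W ⊓ stabilizer E p))
      (le_inf (inf_le_right.trans inf_le_left) inf_le_left)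
      (tele_fin n ((Opn.stab y).inf (hO.inf (Opn.stab p))) le_rfl))
  rw [inf_of_le_left (inf_le_left.trans hW)] at h3
  rw [inf_comm (stabilizer E y) W] at h2
  rw [inf_comm (stabilizer E y)] at h1
  linarith

lemma tele_inv (g : E) (x y : X) : (stabilizer E (g • y)).relIndex (stabilizer E (g • x)) =
    (stabilizer E y).relIndex (stabilizer E x) := by
  rw [stabilizer_smul_eq_stabilizer_map_conj, stabilizer_smul_eq_stabilizer_map_conj]
  exact Subgroup.relIndex_map_map_of_injective _ _ (MulAut.conj g).injective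

theorem tele (n : Net E X) {x₀ : X} {ρ : Λ →* E} {Q : Type*} [Group Q] (ι : Q →* Λ)
    (m : Net Q Q) {Gd : ℕ → Subgroup E → Prop} (h : Loss x₀ ρ Gd) {M : ℕ} (hM : 2 ≤ M) (d : ℕ) :
    ∃ N₀ : ℕ, ∀ N, N₀ ≤ N → ∀ c : ℕ → Q, (∀ i, c (i + 1) ∈ m.ball (c i) 1) →
      (∀ i, N ≤ i → c i = c N) → ∀ Act ⊆ Finset.range N, N ≤ d * Act.card →
      ∃ j ∈ Act, ∃ i₁ i₂ k : ℕ, j + i₂ ≤ N ∧ M * i₁ ≤ i₂ ∧ M * k ≤ i₂ ∧ M ≤ i₂ ∧
        Gd k (stabilizer E (ρ (ι ((c j)⁻¹ * c (j + i₁))) • x₀) ⊓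
          stabilizer E (ρ (ι ((c j)⁻¹ * c (j + i₂))) • x₀)) := by
  obtain ⟨κ, C, D, hκ, h⟩ := h
  let P : Q → X := fun z => ρ (ι z) • x₀
  have hP : ∀ q z, P (q * z) = ρ (ι q) • P z := fun q z => by simp only [P, map_mul, mul_smul]
  have hP1 : P 1 = x₀ := by simp [P]
  let H : Q → Q → ℝ := fun x y => Real.log ((stabilizer E (P y)).relIndex (stabilizer E (P x)))
  have hH : ∀ q x y, H (q * x) (q * y) = H x y := fun q x y => by simp only [H, hP, tele_inv]
  obtain ⟨b₀, hb₀⟩ := ((m.ball_finite 1 1).image (H 1)).bddAbove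
  obtain ⟨r, hr⟩ := exists_nat_ge ((2 * |D| + 1) / (κ / 2))
  obtain ⟨k₀, hk₀⟩ := exists_nat_ge (C / (κ / 2))
  rw [div_le_iff₀ (by positivity)] at hr hk₀
  let u : ℕ → ℕ := fun i => if i = 0 then 0 else M ^ i
  have hu1 : ∀ i, u (i + 1) = M ^ (i + 1) := fun i => if_neg i.succ_ne_zero
  have hu2 : ∀ i, M * u i ≤ u (i + 1) := fun i => by
    cases i with
    | zero => simp [u]
    | succ i => rw [hu1, hu1, ← pow_succ']
  have hu3 : ∀ i, M ≤ u (i + 1) := fun i => by
    rw [hu1]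
    exact Nat.le_self_pow i.succ_ne_zero M
  have hu : Monotone u := monotone_nat_of_le_succ fun i => le_trans (by nlinarith) (hu2 i)
  obtain ⟨N₀, hN₀⟩ := tele_pigeon hu rfl (r := r + 1) (hM.trans (hu3 r)) (k₀ + 1) d b₀
  refine ⟨N₀, fun N hN c hc hc' Act hAct hd => ?_⟩
  obtain ⟨k, hk, j, hj, h1, h2⟩ := hN₀ N hN (fun i j => H (c i) (c j))
    (fun i j => Real.log_natCast_nonneg _) (fun i => by simp [H]) (fun i j l => tele_tri n _ _ _)
    (fun i => by
      rw [← hH (c i)⁻¹, inv_mul_cancel]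
      exact hb₀ ⟨_, by simpa using m.ball_smul (c i)⁻¹ (hc i), rfl⟩)
    (fun i j hi hj => by simp [H, hc' i hi, hc' j hj]) Act hAct hd
  by_contra hcon
  push Not at hcon
  obtain ⟨W, hW, hO, hD, hL⟩ := h k
  let z : ℕ → Q := fun i => (c j)⁻¹ * c (j + k * u i)
  let Φ : ℕ → ℝ := fun i => Real.log ((W ⊓ stabilizer E (P (z i))).relIndex (stabilizer E x₀))
  have h3 : ∑ i ∈ Finset.range (r + 1), (Φ (i + 1) - Φ i) ≤ ∑ i ∈ Finset.range (r + 1),
      (H (c (j + k * u i)) (c (j + k * u (i + 1))) - κ / 2 * k) := by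
    refine Finset.sum_le_sum fun i hi => ?_
    have h4 := hL (ι (z i)) _ inf_le_left ((Opn.stab _).inf (Opn.stab (P (z (i + 1)))))
      (hcon j hj (k * u i) (k * u (i + 1)) k
        (le_trans (Nat.add_le_add_left (Nat.mul_le_mul_left _ (hu (Finset.mem_range.1 hi))) _) h1)
        (by rw [mul_left_comm]; exact Nat.mul_le_mul_left _ (hu2 i))
        (by rw [mul_comm]; exact Nat.mul_le_mul_left _ (hu3 i))
        ((hu3 i).trans (Nat.le_mul_of_pos_left _ (by omega))))
    have h5 := tele_step n hW hO (P (z i)) (P (z (i + 1)))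
    have h6 : (k₀ : ℝ) ≤ k := by exact_mod_cast (by omega : k₀ ≤ k)
    rw [← hH (c j)⁻¹]
    simp only [Φ, H, P, z] at h4 h5 ⊢
    nlinarith
  rw [Finset.sum_range_sub Φ, Finset.sum_sub_distrib, Finset.sum_const, Finset.card_range,
    nsmul_eq_mul] at h3
  have h4 : Φ 0 ≤ D * (k + 1) := by
    have : z 0 = 1 := by simp [z, u]
    simp only [Φ, this, hP1, inf_of_le_left hW]
    exact hD
  have h5 : H (c j) (c (j + k * u (r + 1))) ≤ Φ (r + 1) := by
    rw [← hH (c j)⁻¹, inv_mul_cancel]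
    simp only [H, hP1]
    exact tele_log_le (tele_fin n (Opn.stab _) le_rfl) (Subgroup.relIndex_le_of_le_left
      inf_le_right (tele_fin n (hO.inf (Opn.stab _)) le_rfl))
  have h6 : (1 : ℝ) ≤ k := by exact_mod_cast (by omega : 1 ≤ k)
  have h7 : D * (k + 1) ≤ |D| * (2 * k) :=
    mul_le_mul (le_abs_self D) (by linarith) (by positivity) (abs_nonneg D)
  push_cast at h3
  nlinarith [mul_le_mul_of_nonneg_right hr (by linarith : (0 : ℝ) ≤ k)]

end Pool.Agent.Lib.MP_a6ff19_al
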