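import Pool.Agent.Lib.MP_a6ff19_al.H17Alpha
import Pool.Agent.Lib.MP_a6ff19_al.H17Poin
import Pool.Agent.Lib.MP_a6ff19_al.H17Loss
import Pool.Agent.Lib.MP_a6ff19_al.H17Tele
import Pool.Agent.Lib.MP_a6ff19_al.H17Sun

set_option autoImplicit false
set_option linter.unusedSectionVars false

/-!
The case where both factors are expansive.
-/

namespace Pool.Agent.Lib.MP_a6ff19_al

open MulAction Filter
open scoped Pointwise

variable {E X : Type} [Group E] [MulAction E X] {x₀ : X} {P Q : Type*} [Group P] [Group Q]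
  {ρ : P × Q →* E} {L : Subgroup E}

lemma rho_one (ρ : P × Q →* E) : ρ (1, 1) = 1 := map_one ρ

lemma Ctx.lip (c : Ctx x₀ ρ L) (mP : Net P P) (mQ : Net Q Q) {F : Finset X} (hx : x₀ ∈ F)
    (he : ∀ v ∈ L, (∀ p, ∀ x ∈ F, v • ρ (p, 1) • x = ρ (p, 1) • x) → v = 1) :
    ∃ R : ℕ, ∀ v ∈ L, ∀ p₀ q₀ q, (∀ p ∈ mP.ball p₀ R, ∀ x ∈ F, v • ρ (p, q₀) • x = ρ (p, q₀) • x) →
      q ∈ mQ.ball q₀ 1 → ∀ x ∈ F, v • ρ (p₀, q) • x = ρ (p₀, q) • x := by
  classical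
  let F' := (mQ.ball_finite 1 1).toFinset.biUnion fun s => F.image fun x => ρ (1, s) • x
  obtain ⟨R, hR⟩ : ∃ R : ℕ, ∀ v ∈ L, (∀ p ∈ mP.ball 1 R, ∀ x ∈ F,
      v • ρ (p, 1) • x = ρ (p, 1) • x) → ∀ x ∈ F', v • x = x := by
    by_contra hno
    push Not at hno
    choose w h1 h2 h3 using hno
    obtain ⟨v, hv⟩ := c.cpl.lim (hyperfilter ℕ) w ((Bdd.stab x₀).mono (by
      rintro _ ⟨k, rfl⟩
      simpa [rho_one] using h2 k 1 (mP.ball_self _ _) x₀ hx))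
    have h4 : v = 1 := he v (limit_mem c.cls h1 hv) fun p x hx => by
      obtain ⟨r, hr⟩ := mP.exists_ball 1 p
      obtain ⟨k, h4, h5⟩ := ((hv {ρ (p, 1) • x}).and (eventually_lt_hyper r)).exists
      rw [← h4 _ (Finset.mem_singleton_self _), h2 k p (mP.ball_mono hr h5.le) x hx]
    obtain ⟨k, hk⟩ := (hv F').exists
    obtain ⟨x, h5, h6⟩ := h3 k
    exact h6 (by rw [hk x h5, h4, one_smul])
  refine ⟨R, fun v hv p₀ q₀ q h1 h2 x hx => ?_⟩
  have h3 := hR _ (c.nrm.conj_mem' v hv (ρ (p₀, q₀))) (fun p hp x hx => by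
    have h3 := h1 (p₀ * p) (by simpa using mP.ball_smul p₀ hp) x hx
    have h4 : ρ (p₀ * p, q₀) = ρ (p₀, q₀) * ρ (p, 1) := by rw [← map_mul]; simp
    rw [h4, mul_smul] at h3
    rw [mul_smul, mul_smul, h3, inv_smul_smul]) (ρ (1, q₀⁻¹ * q) • x)
    (Finset.mem_biUnion.2 ⟨_, (Set.Finite.mem_toFinset _).2 (by
      simpa using mQ.ball_smul q₀⁻¹ h2), Finset.mem_image_of_mem _ hx⟩)
  have h4 : ρ (p₀, q) = ρ (p₀, q₀) * ρ (1, q₀⁻¹ * q) := by rw [← map_mul]; simp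
  rw [mul_smul, mul_smul, inv_smul_eq_iff] at h3
  rw [h4, mul_smul, h3]

lemma exists_cover (n : Net E X) (mP : Net P P) (mQ : Net Q Q) {F : Finset X} (hx : x₀ ∈ F)
    (hF : ∀ x : X, ∃ l, ρ l • x ∈ F) : ∃ C : ℕ, ∀ D, ∀ z ∈ n.ball x₀ D, ∃ p ∈ mP.ball 1 (C * D),
      ∃ q ∈ mQ.ball 1 (C * D), ∃ x ∈ F, z = ρ (p, q) • x := by
  choose l hl using hF
  have hY : (⋃ x ∈ F, n.ball x 1).Finite := F.finite_toSet.biUnion fun x _ => n.ball_finite x 1
  obtain ⟨C, hC⟩ := mP.exists_ball_finite 1 (hY.image fun y => (l y)⁻¹.1)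
  obtain ⟨C', hC'⟩ := mQ.exists_ball_finite 1 (hY.image fun y => (l y)⁻¹.2)
  refine ⟨C + C', fun D => ?_⟩
  induction D with
  | zero => exact fun z hz => ⟨1, rfl, 1, rfl, x₀, hx, by rw [rho_one, one_smul]; exact hz⟩
  | succ D ih =>
    intro z hz
    obtain ⟨y, h1, h2⟩ := n.ball_succ hz
    obtain ⟨p, h3, q, h4, x, h5, rfl⟩ := ih y h1
    have h6 : (ρ (p, q))⁻¹ • z ∈ ⋃ x ∈ F, n.ball x 1 :=
      Set.mem_biUnion h5 (by simpa using n.ball_smul (ρ (p, q))⁻¹ h2)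
    refine ⟨p * _, mP.ball_trans h3 (mP.ball_mono (by simpa using mP.ball_smul p (hC ⟨_, h6, rfl⟩))
      (Nat.le_add_right _ _)), q * _, mQ.ball_trans h4 (mQ.ball_mono
        (by simpa using mQ.ball_smul q (hC' ⟨_, h6, rfl⟩)) (Nat.le_add_left _ _)), _,
      hl ((ρ (p, q))⁻¹ • z), ?_⟩
    rw [← Prod.mk_mul_mk, map_mul, mul_smul, ← Prod.inv_mk, Prod.mk.eta, map_inv, inv_smul_smul,
      smul_inv_smul]

lemma hit_disp (n : Net E X) {y y' : X} {h a b τ : E} {r r' κ : ℕ} (hy : h • y = y)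
    (hy' : h • y' = y') (h1 : y' ∈ n.ball x₀ r') (ha : a • x₀ ∈ n.ball x₀ r)
    (ha' : a • y ∈ n.ball y r) (hb : ∀ D, b • x₀ ∈ n.ball x₀ D → b • y ∈ n.ball y D)
    (hτ : h * a * τ = b * (h * a)) (hκ : τ • x₀ ∈ n.ball x₀ κ) :
    τ • y ∈ n.ball y (4 * r + 4 * r' + κ) := by
  have e1 : (h * a) • y ∈ n.ball y r := by simpa only [mul_smul, hy] using n.ball_smul h ha'
  have e2 : (h * a) • x₀ ∈ n.ball x₀ (r' + r' + r) := by
    have := n.ball_smul h (n.ball_symm h1)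
    rw [hy'] at this
    simpa only [mul_smul] using n.ball_trans (n.ball_trans h1 this) (n.ball_smul h ha)
  have e3 := n.ball_smul b (n.ball_symm e2)
  rw [← mul_smul, ← hτ, mul_smul] at e3
  have e4 := n.ball_trans (n.ball_trans (n.ball_symm e1) (hb _
    (n.ball_trans (n.ball_trans e2 (n.ball_smul (h * a) hκ)) e3))) (n.ball_smul b e1)
  rw [← mul_smul b, ← hτ, mul_smul (h * a) τ, n.ball_smul_iff] at e4
  exact n.ball_mono e4 (by omega)

lemma ball_comm (n : Net E X) (p : P) (q : Q) {D : ℕ} (h : ρ (p, 1) • x₀ ∈ n.ball x₀ D) :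
    ρ (p, 1) • ρ (1, q) • x₀ ∈ n.ball (ρ (1, q) • x₀) D := by
  rw [← mul_smul, rho_comm, mul_smul]
  exact n.ball_smul _ h

lemma Ctx.le_closure (c : Ctx x₀ ρ L) (n : Net E X) {F : Finset X}
    (he : ∀ v ∈ L, (∀ p, ∀ x ∈ F, v • ρ (p, 1) • x = ρ (p, 1) • x) → v = 1) :
    L ≤ cl X (Subgroup.normalClosure (Set.range fun p => ρ (p, 1))) := by
  classical
  have hN := c.nrm
  have := c.fg
  obtain ⟨S, -, -, ht⟩ := exists_symm_gen
    (Group.fg_of_surjective (f := MonoidHom.fst P Q) Prod.fst_surjective)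
  set N := Subgroup.normalClosure (Set.range fun p => ρ (p, 1)) with hN'
  have hn : N.Normal := Subgroup.normalClosure_normal
  haveI : (cl X N).Normal := ⟨fun v hv g => cl_conj (fun w hw => le_cl _ (hn.conj_mem w hw g)) v hv⟩
  by_contra h
  obtain ⟨F', hF⟩ := c.disc n (closed_inf c.cls (cl_closed N)) inf_le_left
    fun h1 => h (h1.ge.trans inf_le_right)
  obtain ⟨v, h1, h2, h3⟩ := c.nondisc
    (F ∪ F' ∪ S.biUnion fun s => F'.image fun x => (ρ (s, 1))⁻¹ • x)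
  have h4 : Subgroup.closure (S : Set P) ≤
      (Subgroup.centralizer {v}).comap (ρ.comp (MonoidHom.inl P Q)) :=
    (Subgroup.closure_le _).2 fun s hs => by
      have h4 : ρ (s, 1) ∈ N := Subgroup.subset_normalClosure ⟨s, rfl⟩
      have h5 := hF (ρ (s, 1) * v * (ρ (s, 1))⁻¹ * v⁻¹)
        ⟨L.mul_mem (hN.conj_mem v h1 _) (L.inv_mem h1), le_cl _ (by
          simpa [mul_assoc] using N.mul_mem h4 (hn.conj_mem _ (N.inv_mem h4) v))⟩ fun x hx => by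
          rw [mul_smul, inv_smul_eq_iff.2 (h3 x (by simp [hx])).symm, mul_smul, mul_smul,
            h3 _ (Finset.mem_union_right _ (Finset.mem_biUnion.2
              ⟨s, hs, Finset.mem_image_of_mem _ hx⟩)), smul_inv_smul]
      rw [mul_inv_eq_one, mul_inv_eq_iff_eq_mul] at h5
      exact Subgroup.mem_centralizer_singleton_iff.2 h5
  refine h2 (he v h1 fun p x hx => ?_)
  have h5 : ρ (p, 1) * v = v * ρ (p, 1) :=
    Subgroup.mem_centralizer_singleton_iff.1 (h4 (ht ▸ Subgroup.mem_top p))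
  rw [← mul_smul, ← h5, mul_smul, h3 x (by simp [hx])]

theorem Ctx.gamma (c : Ctx x₀ ρ L) (n : Net E X) {F₀ : Finset X} (hns : NS L F₀) {A : Type}
    [Group A] {σ : A →* E} (hfg : Group.FG A) (hfh : NoNF A) (hσ : ∀ a, ∃ p, σ a = ρ (p, 1))
    (hnd : ND X σ L) {FP FQ : Finset X}
    (heP : ∀ v ∈ L, (∀ p, ∀ x ∈ FP, v • ρ (p, 1) • x = ρ (p, 1) • x) → v = 1)
    (heQ : ∀ v ∈ L, (∀ q, ∀ x ∈ FQ, v • ρ (1, q) • x = ρ (1, q) • x) → v = 1) : False := by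
  classical
  have hN := c.nrm
  have := c.fg
  obtain ⟨SP, -, h1, h2⟩ := exists_symm_gen
    (Group.fg_of_surjective (f := MonoidHom.fst P Q) Prod.fst_surjective)
  obtain ⟨SQ, -, h3, h4⟩ := exists_symm_gen
    (Group.fg_of_surjective (f := MonoidHom.snd P Q) Prod.snd_surjective)
  generalize cayley SP h1 h2 = mP
  generalize cayley SQ h3 h4 = mQ
  clear h1 h2 h3 h4 SP SQ
  obtain ⟨T, hT⟩ := c.cov
  obtain ⟨F, hx, hT, heP, heQ⟩ : ∃ F : Finset X, x₀ ∈ F ∧ (∀ x : X, ∃ l, ρ l • x ∈ F) ∧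
      (∀ v ∈ L, (∀ p, ∀ x ∈ F, v • ρ (p, 1) • x = ρ (p, 1) • x) → v = 1) ∧
      ∀ v ∈ L, (∀ q, ∀ x ∈ F, v • ρ (1, q) • x = ρ (1, q) • x) → v = 1 :=
    ⟨insert x₀ (T ∪ FP ∪ FQ), by simp, fun x => let ⟨l, hl⟩ := hT x; ⟨l, by simp [hl]⟩,
      fun v hv h => heP v hv fun p x hx => h p x (by simp [hx]),
      fun v hv h => heQ v hv fun p x hx => h p x (by simp [hx])⟩
  obtain ⟨RP, hP⟩ := c.lip mP mQ hx heP
  obtain ⟨RQ, hQ⟩ := (c.comp (MulEquiv.prodComm : Q × P ≃* P × Q)).lip mQ mP hx heQ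
  obtain ⟨C, hC⟩ := exists_cover n mP mQ hx hT
  obtain ⟨LQ, hLQ⟩ := orbit_lip n x₀ (ρ.comp (MonoidHom.inr P Q)) mQ
  obtain ⟨I, hI⟩ := c.mean n
  obtain ⟨S, h1, h2, h3⟩ := poincare n c hfg hfh hnd hI
  obtain ⟨LA, hLA⟩ := loss_of_poin n c.coc hI h1 h2 h3
  set R := RP + RQ + 1 with hR
  set C₂ := 2 * R * (1 + R) * C with hC₂
  have key : ∀ m : ℕ, ∃ (u : E) (z : ℕ → Q) (i₁ i₂ k : ℕ), u ∈ L ∧ (∃ x ∈ F, u • x ≠ x) ∧
      (∀ t ≤ i₂, ∀ D, C₂ * D < t → ∀ x ∈ n.ball (ρ (1, z t) • x₀) D, u • x = x) ∧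
      (∀ t, z t ∈ mQ.ball 1 t) ∧ (m + 2) * i₁ ≤ i₂ ∧ (m + 2) * k ≤ i₂ ∧ m + 2 ≤ i₂ ∧
      Hit n x₀ ρ σ.range (n.ball_finite x₀ m).toFinset (LA * k)
        (stabilizer E (ρ (1, z i₁) • x₀) ⊓ stabilizer E (ρ (1, z i₂) • x₀)) := fun m => by
    obtain ⟨N₀, hN₀⟩ := tele n (MonoidHom.inr P Q) mQ (hLA (n.ball_finite x₀ m).toFinset)
      (Nat.le_add_left 2 m) (2 * R ^ 2)
    obtain ⟨v, hv, h4, h5⟩ := c.nondisc
      ((mP.ball_finite 1 N₀).toFinset.biUnion fun p => F.image fun x => ρ (p, 1) • x)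
    obtain ⟨N, h6, w, h7, h8, Act, h9, h10, h11⟩ := sun mP mQ
      (fun p q => ∀ x ∈ F, v • ρ (p, q) • x = ρ (p, q) • x) (R := R) (by omega)
      (fun p₀ q₀ q h => hP v hv p₀ q₀ q fun p hp => h p (mP.ball_mono hp (by omega)))
      (fun p₀ q₀ p h => hQ v hv q₀ p₀ p fun q hq => h q (mQ.ball_mono hq (by omega)))
      (fun q => by
        by_contra hno
        push Not at hno
        have := heP _ (hN.conj_mem' v hv (ρ (1, q))) fun p x hx => by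
          have := hno p x hx
          rw [rho_split, rho_comm, mul_smul] at this
          rw [mul_smul, mul_smul, this, inv_smul_smul]
        exact h4 (by simpa [mul_assoc, inv_mul_eq_iff_eq_mul] using this))
      N₀ fun p hp x hx => h5 _ (Finset.mem_biUnion.2
        ⟨p, (Set.Finite.mem_toFinset _).2 hp, Finset.mem_image_of_mem _ hx⟩)
    obtain ⟨j, hj, i₁, i₂, k, g1, g2, g3, g4, g5⟩ := hN₀ N h6 w h7 h8 Act h9 h10
    obtain ⟨p₀, g6, g7⟩ := h11 j hj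
    refine ⟨_, fun t => (w j)⁻¹ * w (j + t), i₁, i₂, k, hN.conj_mem' v hv (ρ (p₀, w j)), ?_,
      fun t ht D hD x hx => ?_, fun t => by simpa using mQ.ball_smul (w j)⁻¹ (mQ.path_ball h7 j t),
      g2, g3, g4, g5⟩
    · push Not at g6
      obtain ⟨x, g8, g9⟩ := g6
      exact ⟨x, g8, fun h => g9 (by rwa [mul_smul, mul_smul, inv_smul_eq_iff] at h)⟩
    · obtain ⟨p, g8, q, g9, y, g10, g11⟩ := hC D _
        (by simpa using n.ball_smul (ρ (1, (w j)⁻¹ * w (j + t)))⁻¹ hx)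
      have g12 := g7 t (C * D) (by omega) (by rwa [← mul_assoc]) (p₀ * p)
        (by simpa using mP.ball_smul p₀ g8) (w (j + t) * q)
        (by simpa using mQ.ball_smul (w (j + t)) g9) y g10
      have g13 : ρ (p₀ * p, w (j + t) * q) • y = ρ (p₀, w j) • x := by
        rw [inv_smul_eq_iff.1 g11, ← mul_smul, ← mul_smul, ← map_mul, ← map_mul]
        simp [mul_assoc]
      rw [g13] at g12
      rw [mul_smul, mul_smul, g12, inv_smul_smul]
  choose u z i₁ i₂ k g1 g2 g3 g4 g5 g6 g7 g8 using key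
  have hz : ∀ m t, ρ (1, z m t) • x₀ ∈ n.ball x₀ (LQ * t) := fun m t => by
    simpa [rho_one] using hLQ t 1 _ (g4 m t)
  obtain ⟨v, hv⟩ := c.cpl.lim (hyperfilter ℕ) u
    ((Bdd.preimage (n.ball_finite x₀ (LQ * 1 + LQ * 1))).mono (by
      rintro _ ⟨m, rfl⟩
      have h4 := n.ball_smul (u m) (n.ball_symm (hz m 1))
      rw [g3 m 1 (by have := g7 m; omega) 0 (by simp) _ rfl] at h4
      exact n.ball_trans (hz m 1) h4))
  obtain ⟨D₀, hD₀⟩ := n.exists_ball_finite x₀ F₀.finite_toSet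
  obtain ⟨m₀, h4, h5⟩ := ((hv ((mQ.ball_finite 1 (C₂ * D₀ + 1)).toFinset.biUnion fun q =>
    F₀.image fun x => ρ (1, q) • x)).and (eventually_lt_hyper (C₂ * D₀))).exists
  have h6 : v = 1 := hns.key n c.cls (hyperfilter ℕ) (fun m => ρ (1, z m (i₂ m)) • x₀) i₂
    (fun m => by have := g7 m; omega) (G := Group.conjugatesOfSet (Set.range fun p => ρ (p, 1)))
    (fun g hg => by
      obtain ⟨_, ⟨p, rfl⟩, h⟩ := Group.mem_conjugatesOfSet_iff.1 hg
      obtain ⟨a, rfl⟩ := isConj_iff.1 h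
      exact Group.mem_conjugatesOfSet_iff.2 ⟨_, ⟨p⁻¹, rfl⟩, isConj_iff.2 ⟨a, by
        simp [← map_inv, mul_assoc]⟩⟩)
    (c.le_closure n heP) (fun τ hτ t F' => by
      obtain ⟨_, ⟨p, rfl⟩, h⟩ := Group.mem_conjugatesOfSet_iff.1 hτ
      obtain ⟨g, hg⟩ := isConj_iff.1 h
      obtain ⟨κ, hκ⟩ := n.exists_ball x₀ (τ • x₀)
      obtain ⟨m₁, hm₁⟩ := n.exists_ball_finite x₀
        (insert x₀ F' ∪ (insert x₀ F').image fun x => τ • x).finite_toSet
      filter_upwards [eventually_lt_hyper m₁, eventually_lt_hyper (t * (4 * LA + 4 * LQ + κ))]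
        with m e1 e2
      obtain ⟨h, e3, _, ⟨a, rfl⟩, e4, γ, w, e5, e6⟩ := g8 m g⁻¹
      obtain ⟨p', e7⟩ := hσ a
      have e8 : ∀ x ∈ insert x₀ F', (w⁻¹ * τ * w) • x = τ • x := fun x hx => by
        rw [mul_smul, mul_smul, e5 x ((Set.Finite.mem_toFinset _).2 (n.ball_mono
          (hm₁ (Finset.mem_union_left _ hx)) e1.le)), inv_smul_eq_iff,
          e5 _ ((Set.Finite.mem_toFinset _).2 (n.ball_mono
          (hm₁ (Finset.mem_union_right _ (Finset.mem_image_of_mem _ hx))) e1.le))]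
      refine ⟨w⁻¹ * τ * w, _, ?_, hit_disp n e3.2 e3.1 (hz m _) e4 (e7 ▸ ball_comm n _ _ (e7 ▸ e4))
        (fun D => ball_comm n (γ.1 * p * γ.1⁻¹) _) ?_
        (by rwa [e8 _ (Finset.mem_insert_self _ _)]), fun x hx => e8 x (Finset.mem_insert_of_mem hx)⟩
      · have e9 := g5 m
        have e10 := g6 m
        have e11 := g7 m
        refine lt_of_mul_lt_mul_left (a := m + 2) ?_ (Nat.zero_le _)
        calc (m + 2) * (t * (4 * (LA * k m) + 4 * (LQ * i₁ m) + κ))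
            = t * (4 * LA * ((m + 2) * k m) + 4 * LQ * ((m + 2) * i₁ m) + κ * (m + 2)) := by ring
          _ ≤ t * (4 * LA * i₂ m + 4 * LQ * i₂ m + κ * i₂ m) := by gcongr
          _ = t * (4 * LA + 4 * LQ + κ) * i₂ m := by ring
          _ < (m + 2) * i₂ m := Nat.mul_lt_mul_of_pos_right (by omega) (by omega)
      · have e9 : ρ (γ.1 * p * γ.1⁻¹, 1) = ρ γ * ρ (p, 1) * (ρ γ)⁻¹ := by
          rw [← map_inv, ← map_mul, ← map_mul]
          congr 1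
          ext <;> simp
        rw [e6, e9, ← hg]
        group)
    (limit_mem c.cls g1 hv) (t := C₂) (fun F' => by
      filter_upwards [hv F'] with m hm
      exact ⟨u m, g1 m, g3 m _ le_rfl, hm⟩) (g := ρ (1, z m₀ (C₂ * D₀ + 1))) fun x hx => by
      rw [← h4 _ (Finset.mem_biUnion.2 ⟨_, (Set.Finite.mem_toFinset _).2 (g4 m₀ _),
        Finset.mem_image_of_mem _ hx⟩)]
      exact g3 m₀ _ (by have := g7 m₀; omega) D₀ (Nat.lt_succ_self _) _ (n.ball_smul _ (hD₀ hx))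
  obtain ⟨m, hm⟩ := (hv F).exists
  obtain ⟨x, h7, h8⟩ := g2 m
  exact h8 (by rw [hm x h7, h6, one_smul])

end Pool.Agent.Lib.MP_a6ff19_al
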