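import Pool.Agent.Lib.MP_a6ff19_al.H17Gamma

set_option autoImplicit false
set_option linter.unusedSectionVars false

/-!
Direct products of graphically discrete groups are graphically discrete.
-/

namespace Pool.Agent.Lib.MP_a6ff19_al

open MulAction

variable {E X : Type} [Group E] [MulAction E X] {x₀ : X} {P Q : Type} [Group P] [Group Q]

lemma Ctx.expansive {ρ : P × Q →* E} {L : Subgroup E} (c : Ctx x₀ ρ L) (n : Net E X)
    {F₀ : Finset X} (hns : NS L F₀) {A : Type} [Group A] {σ : A →* E} {J K : Subgroup E}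
    (lv : Level x₀ ρ A σ J K) (hnd : ND X σ L) :
    ∃ F : Finset X, ∀ v ∈ L, (∀ p, ∀ x ∈ F, v • ρ (p, 1) • x = ρ (p, 1) • x) → v = 1 := by
  by_contra h
  push Not at h
  refine c.alpha n hns lv.fg hnd ((c.bdd_dense n (Z := (ρ.comp (MonoidHom.inl P Q)).range) ?_
    fun F => ?_).trans (cl_mono (inf_le_inf_left _ (bddConj_anti n x₀ ?_))))
  · rintro l _ ⟨p, rfl⟩
    refine ⟨l.1 * p * l.1⁻¹, ?_⟩
    rw [MonoidHom.comp_apply, MonoidHom.comp_apply, ← map_inv, ← map_mul, ← map_mul]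
    congr 1
    ext <;> simp
  · obtain ⟨v, h1, h2, h3⟩ := h F
    exact ⟨v, h1, h3, by rintro _ ⟨p, rfl⟩; exact h2 p⟩
  · rintro _ ⟨a, rfl⟩
    obtain ⟨p, hp, -⟩ := lv.mem a
    exact ⟨p, hp.symm⟩

theorem Ctx.false {ρ : P × Q →* E} {L : Subgroup E} (c : Ctx x₀ ρ L) (n : Net E X)
    (hP : Group.FG P) (hQ : Group.FG Q) (gP : GDalg P) (gQ : GDalg Q) : False := by
  have hN := c.nrm
  obtain ⟨A₁, _, σ₁, S, A, B, _, _, σ, τ, E₂, E₃, E₄, h1, h2, h3, lB, lA⟩ :=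
    exists_chain hP gP gQ hQ n x₀ c.prop c.coc
      fun h => c.big ((h.small ρ).mono le_top (Nrm.of_normal ρ L))
  obtain ⟨S₃, e₃⟩ := lB.env
  have k₃ : Cof x₀ E₃ L := c.cof n h1 h2 lB.fg lB.fh lB.mem e₃
  have c' := c.comp (MulEquiv.prodComm : Q × P ≃* P × Q)
  have ndB := c'.nd n lB k₃
  have ndA := c.nd n lA (k₃.mono h3 le_rfl)
  obtain ⟨F, hF⟩ := e₃.opn
  have hL : L ≤ E₃ := (ndB (L ⊓ E₃) inf_le_left ⟨F, fun g h4 h5 => ⟨h4, hF g h5⟩⟩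
    ((Nrm.of_normal τ L).inf fun b g hg =>
      E₃.mul_mem (E₃.mul_mem (e₃.mem b) hg) (E₃.inv_mem (e₃.mem b)))).ge.trans inf_le_right
  obtain ⟨F₀, hns⟩ := c.ns n e₃ hL k₃
  obtain ⟨FP, h4⟩ := c.expansive n hns lA ndA
  obtain ⟨FQ, h5⟩ := c'.expansive n hns lB ndB
  exact c.gamma n hns lA.fg lA.fh (fun a => let ⟨p, h, _⟩ := lA.mem a; ⟨p, h⟩) ndA h4 h5

lemma small_map {Λ : Type*} [Group Λ] {ρ : Λ →* E} {J : Subgroup E} (hρ : ∀ l, ρ l ∈ J)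
    (H : Subgroup J) : Small x₀ (ρ.codRestrict J hρ) H ↔ Small x₀ ρ (H.map J.subtype) := by
  constructor
  · rintro ⟨W, h1, h2, h3, F, h4⟩
    refine ⟨W.map J.subtype, Subgroup.map_mono h1, ?_, ?_, F, ?_⟩
    · rw [Bdd, Subgroup.coe_map, Set.image_image]
      exact h2
    · rintro l _ ⟨w, hw, rfl⟩
      exact ⟨_, h3 l w hw, rfl⟩
    · rintro _ ⟨g, hg, rfl⟩ h5
      exact ⟨g, h4 g hg h5, rfl⟩
  · rintro ⟨W, h1, h2, h3, F, h4⟩
    refine ⟨W.comap J.subtype, fun g hg => ?_, h2.subset ?_, fun l g hg => h3 l _ hg,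
      F, fun g hg h5 => h4 _ ⟨g, hg, rfl⟩ h5⟩
    · obtain ⟨k, h5, h6⟩ := h1 hg
      exact Subtype.ext h6 ▸ h5
    · rintro _ ⟨g, hg, rfl⟩
      exact ⟨g, hg, rfl⟩

lemma exists_moved (n : Net E X) {w : E} {x y : X} (h : w • x = x) (h' : w • y ≠ y) :
    ∃ a b, w • a = a ∧ b ∈ n.N a ∧ w • b ≠ b := by
  induction n.conn x y with
  | refl => exact (h' h).elim
  | @tail b c _ h2 ih =>
    by_cases h3 : w • b = b
    · exact ⟨b, c, h3, h2, h'⟩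
    · exact ih h3

theorem cd_all (hP : Group.FG P) (hQ : Group.FG Q) (gP : GDalg P) (gQ : GDalg Q) (N : ℕ) :
    ∀ (G X : Type) [Group G] [MulAction G X] (n : Net G X) (x₀ : X) (ρ : P × Q →* G)
      (T : Finset X), (∀ x y : X, {l | ρ l • x = y}.Finite) → (∀ x : X, ∃ l, ρ l • x ∈ T) →
      ∑ x ∈ T, (n.N x).card < N → CD G x₀ := by
  induction N with
  | zero => exact fun _ _ _ _ _ _ _ _ _ _ h => (Nat.not_lt_zero _ h).elim
  | succ N ih =>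
    intro G X _ _ n x₀ ρ T hp hT hN
    let φ : G →* clo X (⊤ : Subgroup G) :=
      (toPermHom G X).codRestrict _ fun g => le_cl _ ⟨g, trivial, rfl⟩
    let m := cloNet n ⊤
    have hc := clo_cplU n ⊤ x₀
    have hΛ : Group.FG (P × Q) := inferInstance
    suffices h : CD (clo X (⊤ : Subgroup G)) x₀ by
      obtain ⟨W, h1, ⟨F, h2⟩, h3⟩ := h
      refine ⟨W.comap φ, h1.comap φ, ⟨F, fun g hg => h2 (φ g) hg⟩, h3.subset ?_⟩
      rintro _ ⟨g, hg, rfl⟩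
      exact ⟨φ g, hg, rfl⟩
    by_contra hno
    obtain ⟨B, h1, h2⟩ := exists_bdd_of_cocompact (ρ := φ.comp ρ) x₀ ⟨T, hT⟩
    obtain ⟨L, h3, h4, h5, h6⟩ := exists_minimal m hc hΛ (φ.comp ρ)
      fun h => hno (CD.of_small m ⟨B, h1, fun g _ => h2 g⟩ h)
    let J := cl X (L ⊔ (φ.comp ρ).range)
    have hLJ : L ≤ J := le_sup_left.trans (le_cl _)
    have hρ : ∀ l, φ.comp ρ l ∈ J := fun l => le_cl _ (Subgroup.mem_sup_right ⟨l, rfl⟩)
    have hmap : (L.subgroupOf J).map J.subtype = L := Subgroup.map_subgroupOf_eq_of_le hLJ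
    have hf : ∀ g : J, (∀ x : X, g • x = x) → g = 1 := fun g hg =>
      Subtype.ext (Subtype.ext (Equiv.ext hg))
    have hn : (L.subgroupOf J).Normal := ⟨fun l hl g => conj_of_cl h3 (fun k hk =>
      ((sup_le (fun l hl => ⟨fun h hh => L.mul_mem (L.mul_mem hl hh) (L.inv_mem hl),
        fun h hh => L.mul_mem (L.mul_mem (L.inv_mem hl) hh) hl⟩)
        (by rintro _ ⟨γ, rfl⟩; exact ⟨h4 γ, fun h hh => h4.inv γ hh⟩) :
        L ⊔ (φ.comp ρ).range ≤ nrmz L) hk).1) g g.2 l hl⟩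
    have hbig : ¬Small x₀ ((φ.comp ρ).codRestrict J hρ) (L.subgroupOf J) := by
      rwa [small_map, hmap]
    refine Ctx.false (ρ := (φ.comp ρ).codRestrict J hρ) (L := L.subgroupOf J)
      ⟨hf, hc.sub (cl_closed _), hΛ, hp, ⟨T, hT⟩, hn, fun g hg => h3 fun F => ?_, hbig,
        fun H g1 g2 g3 g4 => ?_, fun g F => ?_, fun W hW hb w hw g1 => ?_⟩
      (m.restrict J) hP hQ gP gQ
    · obtain ⟨k, g1, g2⟩ := hg F
      exact ⟨k, g1, g2⟩
    · apply Subgroup.map_injective J.subtype_injective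
      rw [hmap]
      refine h6 _ (hmap ▸ Subgroup.map_mono g1) (fun g hg => ⟨⟨g, cl_closed _
        (cl_mono (Subgroup.map_subtype_le H) hg)⟩, g2 fun F => ?_, rfl⟩) ?_
        (by rwa [← small_map])
      · obtain ⟨_, ⟨k, g5, rfl⟩, g6⟩ := hg F
        exact ⟨k, g5, g6⟩
      · rintro l _ ⟨w, hw, rfl⟩
        exact ⟨_, g3 l w hw, rfl⟩
    · obtain ⟨k, g1, g2⟩ := g.2 F
      obtain ⟨l, g3, _, ⟨γ, rfl⟩, rfl⟩ := mem_sup_of_nrm (L := (φ.comp ρ).range)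
        (by rintro ⟨_, γ, rfl⟩; exact h4 γ) le_rfl g1
      refine ⟨⟨_, hLJ (h4.inv γ g3)⟩, h4.inv γ g3, γ, fun x hx => (g2 x hx).trans ?_⟩
      change _ = φ.comp ρ γ • ((φ.comp ρ γ)⁻¹ * l * φ.comp ρ γ) • x
      rw [mul_smul, mul_smul, mul_smul, smul_inv_smul]
    · refine hf w fun y => by_contra fun g2 => ?_
      obtain ⟨a, b, g3, g4, g5⟩ := exists_moved (m.restrict J) g1 g2
      obtain ⟨Y, _, m', y₀, T', g6, g7, g8, g9⟩ := quot_step (m.restrict J) x₀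
        (ρ := (φ.comp ρ).codRestrict J hρ) hp hT W hb hw g3 g4 g5
      exact hbig (((g9 (ih J Y m' y₀ _ T' g6 g7 (g8.trans_le (Nat.le_of_lt_succ hN)))).small _).mono
        le_top (Nrm.of_normal _ _))

theorem product_full (Γ Γ' : Type) [Group Γ] [Group Γ'] (h : GraphicallyDiscrete Γ)
    (h' : GraphicallyDiscrete Γ') : GraphicallyDiscrete (Γ × Γ') := by
  obtain ⟨h1, h2⟩ := (gd_iff Γ).1 h
  obtain ⟨h3, h4⟩ := (gd_iff Γ').1 h'
  exact (gd_iff _).2 ⟨inferInstance, fun E Y _ _ n y₀ σ hp ⟨T, hT⟩ =>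
    cd_all h1 h3 h2 h4 _ E Y n y₀ σ T hp hT (Nat.lt_succ_self _)⟩

end Pool.Agent.Lib.MP_a6ff19_al
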