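import Pool.Agent.Lib.MP_a6ff19_al.H17Ctx

set_option autoImplicit false
set_option linter.unusedSectionVars false

/-!
The minimal normal subgroup is cocompact in the envelopes and has no proper relatively open
subgroup normalised by the groups of the chain.
-/

namespace Pool.Agent.Lib.MP_a6ff19_al

open MulAction Subgroup.Commensurable
open scoped Pointwise

variable {E X : Type} [Group E] [MulAction E X] {Λ : Type*} [Group Λ] {x₀ : X}

/-- The subgroup `H` has finitely many orbits on the orbit of `K`. -/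
def Cof (x₀ : X) (K H : Subgroup E) : Prop :=
  ∃ T : Set X, T.Finite ∧ ∀ g ∈ K, ∃ h ∈ H, h • g • x₀ ∈ T

lemma Cof.mono {K K' H H' : Subgroup E} (h : Cof x₀ K H) (h1 : K' ≤ K) (h2 : H ≤ H') :
    Cof x₀ K' H' :=
  let ⟨T, hT, h3⟩ := h; ⟨T, hT, fun g hg => let ⟨k, h4, h5⟩ := h3 g (h1 hg); ⟨k, h2 h4, h5⟩⟩

/-- The elements normalising a subgroup. -/
def nrmz (H : Subgroup E) : Subgroup E where
  carrier := {g | (∀ h ∈ H, g * h * g⁻¹ ∈ H) ∧ ∀ h ∈ H, g⁻¹ * h * g ∈ H}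
  one_mem' := by simp
  mul_mem' {a b} ha hb := ⟨fun h hh => by simpa [mul_assoc] using ha.1 _ (hb.1 h hh),
    fun h hh => by simpa [mul_assoc] using hb.2 _ (ha.2 h hh)⟩
  inv_mem' {a} ha := ⟨by simpa using ha.2, by simpa using ha.1⟩

namespace Ctx

variable {ρ : Λ →* E} {L : Subgroup E} (c : Ctx x₀ ρ L)
include c

lemma comp {Λ' : Type*} [Group Λ'] (e : Λ' ≃* Λ) : Ctx x₀ (ρ.comp e.toMonoidHom) L := by
  have h1 : ∀ H, Nrm (ρ.comp e.toMonoidHom) H ↔ Nrm ρ H := fun H =>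
    ⟨fun h l => by simpa using h (e.symm l), fun h l => h (e l)⟩
  have h2 : ∀ H, Small x₀ (ρ.comp e.toMonoidHom) H ↔ Small x₀ ρ H := fun H => by
    simp only [Small, h1]
  refine ⟨c.faith, c.cpl, ?_, proper_comp c.prop _ e.injective, ?_, c.nrm, c.cls,
    by rw [h2]; exact c.big, by simpa only [h1, h2] using c.min, fun g F => ?_, c.bf⟩
  · have := c.fg
    exact Group.fg_of_surjective (f := e.symm.toMonoidHom) e.symm.surjective
  · obtain ⟨T, hT⟩ := c.cov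
    exact ⟨T, fun x => let ⟨l, hl⟩ := hT x; ⟨e.symm l, by simpa using hl⟩⟩
  · obtain ⟨l, h3, γ, h4⟩ := c.dense g F
    exact ⟨l, h3, e.symm γ, by simpa using h4⟩

lemma normal_of {H : Subgroup E} (hH : cl X H ≤ H) (h1 : Nrm ρ H)
    (h2 : ∀ l ∈ L, ∀ h ∈ H, l * h * l⁻¹ ∈ H) : H.Normal := by
  refine ⟨fun h hh g => conj_of_cl (K := nrmz H) hH (fun k hk => hk.1) g (fun F => ?_) h hh⟩
  obtain ⟨l, h3, γ, h4⟩ := c.dense g F
  exact ⟨ρ γ * l, (nrmz H).mul_mem ⟨h1 γ, fun h hh => h1.inv γ hh⟩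
    ⟨h2 l h3, by simpa using h2 l⁻¹ (L.inv_mem h3)⟩, by simpa only [mul_smul] using h4⟩

lemma disc (n : Net E X) {T : Subgroup E} [T.Normal] (hT : cl X T ≤ T) (h1 : T ≤ L) (h2 : T ≠ L) :
    ∃ F : Finset X, ∀ g ∈ T, (∀ x ∈ F, g • x = x) → g = 1 :=
  discrete_of_small n c.coc c.bf (by_contra fun h => h2 (c.min T h1 hT (Nrm.of_normal ρ T) h))

lemma unbdd : ¬Bdd x₀ (L : Set E) := fun h =>
  haveI := c.nrm
  c.big ⟨L, le_rfl, h, Nrm.of_normal ρ L, ∅, fun _ hg _ => hg⟩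

lemma nondisc (F : Finset X) : ∃ v ∈ L, v ≠ 1 ∧ ∀ x ∈ F, v • x = x := by
  by_contra h
  push Not at h
  refine c.big ⟨⊥, bot_le, Bdd.of_finite x₀ (by simp), Nrm.of_normal ρ ⊥, F, fun g hg h1 => ?_⟩
  by_contra h2
  obtain ⟨x, hx, h3⟩ := h g hg h2
  exact h3 (h1 x hx)

end Ctx

variable {P Q : Type*} [Group P] [Group Q] {ρ : P × Q →* E} {L : Subgroup E}

lemma rho_comm (ρ : P × Q →* E) (p : P) (q : Q) : ρ (p, 1) * ρ (1, q) = ρ (1, q) * ρ (p, 1) := by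
  rw [← map_mul, ← map_mul]; simp

lemma rho_split (ρ : P × Q →* E) (l : P × Q) : ρ l = ρ (l.1, 1) * ρ (1, l.2) := by
  rw [← map_mul]; simp

theorem Ctx.cof (c : Ctx x₀ ρ L) (n : Net E X) {A : Type*} [Group A] {σ : A →* E} {S : Finset A}
    {J K : Subgroup E} (h₁ : ∀ a, ∃ p, σ a = ρ (p, 1)) (h₂ : IsEnv x₀ σ S J) {B : Type} [Group B]
    {τ : B →* E} (hfg : Group.FG B) (hfh : NoNF B) (hτ : ∀ b, ∃ q, τ b = ρ (1, q) ∧ ρ (1, q) ∈ J)
    {S' : Finset B} (h₃ : IsEnv x₀ τ S' K) : Cof x₀ K L := by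
  classical
  haveI := c.nrm
  obtain ⟨m, -⟩ := exists_qNet n L
  set y₀ := QX.mk L x₀ with hy₀
  have hL : ∀ l ∈ L, ∀ y : QX L X, l • y = y := fun l hl y => by
    obtain ⟨x, rfl⟩ := QX.surj y
    exact QX.eq.2 ⟨l, hl, rfl⟩
  let C : Subgroup E :=
    { carrier := {g | ∀ (q : Q) (y : QX L X), g • ρ (1, q) • y = ρ (1, q) • g • y}
      one_mem' := fun q y => by simp
      mul_mem' := fun {a b} ha hb q y => by rw [mul_smul, mul_smul, hb, ha]
      inv_mem' := fun {a} ha q y => by rw [inv_smul_eq_iff, ha, smul_inv_smul] }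
  have hP : ∀ p, ρ (p, 1) ∈ C := fun p q y => by rw [← mul_smul, rho_comm, mul_smul]
  have hLC : L ≤ C := fun l hl q y => by rw [hL l hl, hL l hl]
  have hC : C.Normal := by
    refine c.normal_of (fun g hg q y => ?_) (fun l g hg => ?_) fun l hl h hh =>
      C.mul_mem (C.mul_mem (hLC hl) hh) (C.inv_mem (hLC hl))
    · obtain ⟨x, rfl⟩ := QX.surj y
      obtain ⟨k, hk, h1⟩ := hg {x, ρ (1, q) • x}
      have := hk q (QX.mk L x)
      simp only [QX.smul_mk] at this ⊢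
      rw [h1 x (by simp), h1 (ρ (1, q) • x) (by simp), this]
    · have h1 : ρ (1, l.2) * g * (ρ (1, l.2))⁻¹ ∈ C := fun q y => by
        have h2 : ρ (1, q) = ρ (1, l.2) * ρ (1, l.2⁻¹ * q * l.2) * (ρ (1, l.2))⁻¹ := by
          rw [← map_inv, ← map_mul, ← map_mul]; simp [mul_assoc]
        rw [h2]
        simp only [mul_smul, inv_smul_smul, hg _ _]
      have := C.mul_mem (C.mul_mem (hP l.1) h1) (C.inv_mem (hP l.1))
      rw [rho_split ρ l]
      simpa [mul_assoc] using this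
  have hJ : ∀ g ∈ J, ∃ k ∈ C, ∃ u : E, u • x₀ = x₀ ∧ g = k * u := fun g hg => by
    obtain ⟨k, hk, h1⟩ := h₂.trans (O := C ⊔ stabilizer E x₀) ((Opn.stab x₀).mono le_sup_right)
      (fun a => by obtain ⟨p, hp⟩ := h₁ a; exact hp ▸ Subgroup.mem_sup_left (hP p)) g hg
    have h2 : g ∈ C ⊔ stabilizer E x₀ := by
      simpa using Subgroup.mul_mem _ hk.1 (Subgroup.mem_sup_right
        (show k⁻¹ * g ∈ stabilizer E x₀ by rw [mem_stabilizer_iff, mul_smul, ← h1, inv_smul_smul]))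
    obtain ⟨a, ha, b, hb, rfl⟩ := Subgroup.mem_sup_of_normal_left.1 h2
    exact ⟨a, ha, b, hb, rfl⟩
  let V := (stabilizer E y₀).comap τ
  have hfac : ∀ U : Set B, ((fun b => τ b • y₀) '' U).Finite →
      ((fun g : B => (g : B ⧸ V)) '' U).Finite := fun U hU =>
    finite_image_of_factor _ _ hU fun u _ u' _ h => QuotientGroup.eq.2 (by
      change τ (u⁻¹ * u') • y₀ = y₀
      rw [map_mul, map_inv, mul_smul, ← h, inv_smul_smul])
  obtain ⟨N, -⟩ := exists_cosetNet V (S' : Set B) h₃.symm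
    (eq_top_iff.2 (h₃.top ▸ Subgroup.closure_mono Set.subset_union_right))
    (hfac _ (((Bdd.stab y₀).mul m (Bdd.of_finite y₀ (S'.finite_toSet.image τ))).subset (by
      rintro _ ⟨_, ⟨a, ha, s, hs, rfl⟩, rfl⟩
      exact ⟨_, ⟨τ a, ha, τ s, ⟨s, hs, rfl⟩, rfl⟩, by simp⟩)))
  have htr : ∀ y : B ⧸ V, ∃ g : B, g • ((1 : B) : B ⧸ V) = y := fun y => by
    obtain ⟨g, rfl⟩ := QuotientGroup.mk_surjective y
    exact ⟨g, by simp⟩
  have hfin : Finite (B ⧸ V) := by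
    by_contra hinf
    rw [not_finite_iff_infinite] at hinf
    obtain ⟨H, _, _, _, α, hα⟩ := exists_NF' N ((1 : B) : B ⧸ V) htr (β := Set.univ)
      (fun t _ => by
        have := hfac {k | ∃ g : B, g⁻¹ * t * g = k} (((Bdd.stab y₀).orbit m (τ t • y₀)).subset (by
          rintro _ ⟨_, ⟨g, rfl⟩, rfl⟩
          obtain ⟨q, h1, -⟩ := hτ t
          obtain ⟨q', h2, h3⟩ := hτ g
          obtain ⟨k, hk, u, hu, h4⟩ := hJ _ h3
          have h5 : u • y₀ = y₀ := by rw [hy₀, QX.smul_mk, hu]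
          refine ⟨u⁻¹, inv_smul_eq_iff.2 h5.symm, ?_⟩
          simp only [map_mul, map_inv, h1, h2, h4, mul_inv_rev, mul_smul, h5, ← hk q,
            inv_smul_smul]))
        simpa [Bdd] using this)
      ⟨{((1 : B) : B ⧸ V)}, fun y => by
        obtain ⟨g, rfl⟩ := htr y
        exact ⟨g⁻¹, trivial, by simp⟩⟩ (MonoidHom.id B) (fun y => by
        obtain ⟨g, rfl⟩ := htr y
        refine Set.infinite_univ.mono fun z _ => ?_
        obtain ⟨k, rfl⟩ := htr z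
        exact ⟨k * g⁻¹, by simp [mul_smul]⟩)
    exact hfh H α hα
  have hΩ : (Set.range fun b => τ b • y₀).Finite := by
    rw [← Set.image_univ]
    refine finite_image_of_factor (fun g : B => (g : B ⧸ V)) _ (Set.toFinite _) fun u _ u' _ h => ?_
    have h1 : τ (u⁻¹ * u') • y₀ = y₀ := QuotientGroup.eq.1 h
    rw [map_mul, map_inv, mul_smul, inv_smul_eq_iff] at h1
    exact h1.symm
  have hT := hΩ.image fun y => (QX.surj y).choose
  refine ⟨_, hT, fun g hg => ?_⟩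
  obtain ⟨k, hk, h1⟩ := h₃.trans (O := stabilizer E (Set.range fun b => τ b • y₀))
    ⟨hT.toFinset, fun g hg => (mem_stabilizer_set_iff_smul_set_subset hΩ).2 (by
      rintro _ ⟨y, hy, rfl⟩
      have h1 := hg _ (hT.mem_toFinset.2 ⟨y, hy, rfl⟩)
      have h2 := (QX.surj y).choose_spec
      change g • y ∈ _
      rwa [← h2, QX.smul_mk, h1, h2])⟩
    (fun b => (mem_stabilizer_set_iff_smul_set_subset hΩ).2 (by
      rintro _ ⟨_, ⟨b', rfl⟩, rfl⟩
      exact ⟨b * b', by simp [mul_smul]⟩)) g hg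
  have h2 : k • y₀ ∈ Set.range fun b => τ b • y₀ :=
    (mem_stabilizer_set.1 hk.1 y₀).2 ⟨1, by simp⟩
  obtain ⟨l, h3, h4⟩ := QX.eq.1 ((QX.surj (k • y₀)).choose_spec.trans (QX.smul_mk L k x₀))
  exact ⟨l, h3, _, h2, by rw [← h1, h4]⟩

theorem Ctx.not_small (c : Ctx x₀ ρ L) (n : Net E X) {A : Type} [Group A] {σ : A →* E}
    {J K : Subgroup E} (lv : Level x₀ ρ A σ J K) (hK : Cof x₀ K L) : ¬Small x₀ σ L := by
  classical
  intro h
  have hN := c.nrm
  obtain ⟨S, he⟩ := lv.env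
  let O : Finset X → Subgroup E := fun F =>
    { carrier := {g | ∀ a, ∃ l ∈ L, ∀ x ∈ F, g • σ a • x = l • σ a • x}
      one_mem' := fun a => ⟨1, L.one_mem, fun _ _ => rfl⟩
      mul_mem' := fun {g g'} hg hg' a => by
        obtain ⟨l, h1, h2⟩ := hg a
        obtain ⟨l', h3, h4⟩ := hg' a
        refine ⟨_, L.mul_mem (hN.conj_mem l' h3 g) h1, fun x hx => ?_⟩
        simp only [mul_smul, h4 x hx, ← h2 x hx, inv_smul_smul]
      inv_mem' := fun {g} hg a => by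
        obtain ⟨l, h1, h2⟩ := hg a
        refine ⟨_, hN.conj_mem' _ (L.inv_mem h1) g, fun x hx => ?_⟩
        simp only [mul_smul, h2 x hx, inv_smul_smul] }
  have hO : ⨅ F, O F = L := le_antisymm
    (fun g hg => c.cls fun F => by simpa using Subgroup.mem_iInf.1 hg F 1)
    (le_iInf fun F g hg a => ⟨g, hg, fun _ _ => rfl⟩)
  obtain ⟨F, W, -, h2, h3, F₁, h4⟩ := propagate n c.cpl lv.fg O
    (fun F F' => ⟨F ∪ F', fun g hg a => let ⟨l, h1, h2⟩ := hg a
        ⟨l, h1, fun x hx => h2 x (Finset.mem_union_left _ hx)⟩,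
      fun g hg a => let ⟨l, h1, h2⟩ := hg a
        ⟨l, h1, fun x hx => h2 x (Finset.mem_union_right _ hx)⟩⟩)
    (fun F g hg a => by
      obtain ⟨k, hk, h1⟩ := hg (F.image fun x => σ a • x)
      obtain ⟨l, h2, h3⟩ := hk a
      exact ⟨l, h2, fun x hx => by rw [h1 _ (Finset.mem_image_of_mem _ hx), h3 x hx]⟩)
    (fun F b g hg a => by
      obtain ⟨l, h1, h2⟩ := hg (b⁻¹ * a)
      refine ⟨_, hN.conj_mem l h1 (σ b), fun x hx => ?_⟩
      have := h2 x hx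
      simp only [map_mul, map_inv, mul_smul] at this ⊢
      rw [this]) (hO ▸ h)
  obtain ⟨T, hT, h5⟩ := hK
  have h6 : (⋃ x ∈ F, (fun g : E => g • x) '' {g : E | g • x₀ ∈ T}).Finite :=
    F.finite_toSet.biUnion fun x _ => (Bdd.preimage hT).orbit n x
  let O' : Subgroup E :=
    { carrier := {g | ∃ a, (σ a)⁻¹ * g ∈ W}
      one_mem' := ⟨1, by simp⟩
      mul_mem' := by
        rintro g g' ⟨a, ha⟩ ⟨b, hb⟩
        exact ⟨a * b, by simpa [mul_assoc] using W.mul_mem (h3.inv b ha) hb⟩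
      inv_mem' := by
        rintro g ⟨a, ha⟩
        exact ⟨a⁻¹, by simpa [mul_assoc] using h3 a _ (W.inv_mem ha)⟩ }
  have h7 : O'.relIndex K ≠ 0 := he.relIndex n
    ⟨F₁ ∪ h6.toFinset, fun g hg => ⟨1, by
      simpa using h4 g (fun a => by
        obtain ⟨l, h7, h8⟩ := h5 _ (he.mem a)
        refine ⟨_, L.mul_mem (hN.conj_mem _ (L.inv_mem h7) g) h7, fun x hx => ?_⟩
        have := hg _ (Finset.mem_union_right _ (h6.mem_toFinset.2 (Set.mem_biUnion hx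
          ⟨l * σ a, by simpa [mul_smul] using h8, rfl⟩)))
        simp only [mul_smul] at this ⊢
        rw [inv_smul_eq_iff.2 this.symm, inv_smul_smul])
        fun x hx => hg x (Finset.mem_union_left _ hx)⟩⟩ fun a => ⟨a, by simp⟩
  refine lv.inf (finite_of_relIndex
    (Subgroup.relIndex_comap_ne_zero (ρ.comp (MonoidHom.inr P Q)) h7)
    (((h2.proper c.prop).image Prod.snd).subset ?_))
  rintro q ⟨a, ha⟩
  obtain ⟨p, hp, -⟩ := lv.mem a
  refine ⟨(p⁻¹, q), ?_, rfl⟩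
  rw [hp, ← map_inv, MonoidHom.comp_apply, ← map_mul] at ha
  simpa using ha

theorem Ctx.nd (c : Ctx x₀ ρ L) (n : Net E X) {A : Type} [Group A] {σ : A →* E}
    {J K : Subgroup E} (lv : Level x₀ ρ A σ J K) (hK : Cof x₀ K L) : ND X σ L := by
  classical
  have hN := c.nrm
  let ι := {U : Subgroup E // U ≤ L ∧ OpnIn X U L ∧ Nrm σ U}
  have hι : Nonempty ι := ⟨⟨L, le_rfl, ⟨∅, fun _ h _ => h⟩, Nrm.of_normal σ L⟩⟩
  have hcl : ∀ U : ι, cl X U.1 ≤ U.1 := fun U => U.2.2.1.closed U.2.1 c.cls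
  have h1 : ¬Small x₀ σ (⨅ U : ι, U.1) := fun h => by
    obtain ⟨U, hU⟩ := propagate n c.cpl lv.fg (fun U : ι => U.1)
      (fun U U' => ⟨⟨U.1 ⊓ U'.1, inf_le_left.trans U.2.1, by
        obtain ⟨F, hF⟩ := U.2.2.1
        obtain ⟨F', hF'⟩ := U'.2.2.1
        exact ⟨F ∪ F', fun g hg h => ⟨hF g hg fun x hx => h x (Finset.mem_union_left _ hx),
          hF' g hg fun x hx => h x (Finset.mem_union_right _ hx)⟩⟩, U.2.2.2.inf U'.2.2.2⟩,
        inf_le_left, inf_le_right⟩) hcl (fun U => U.2.2.2) h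
    exact c.not_small n lv hK (hU.of_opnIn U.2.1 U.2.2.1)
  have h2 : Nrm ρ (⨅ U : ι, U.1) := fun l g hg => Subgroup.mem_iInf.2 fun U => by
    obtain ⟨T, hT, -, h3⟩ := cov_of_relIndex'
      (Subgroup.relIndex_comap_ne_zero σ (lv.comm l.1⁻¹).1)
    have h4 : ∀ a, ∃ a', ∃ t ∈ T, ρ l * σ a = σ a' * (ρ l * (σ t)⁻¹) := fun a => by
      obtain ⟨t, ht, h4⟩ := h3 a (by
        obtain ⟨p, h4, h5⟩ := lv.mem a
        rwa [Subgroup.mem_comap, h4])
      obtain ⟨p, h5, -⟩ := lv.mem (a * t)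
      have h6 := (mem_conj_iff _ _ _).1 (Subgroup.mem_comap.1 h4)
      rw [h5, ← map_inv, ← map_mul, ← map_mul] at h6
      obtain ⟨a', h7⟩ := lv.range (l.1 * p * l.1⁻¹) (by simpa using h6)
      refine ⟨a', t, ht, ?_⟩
      rw [← mul_assoc, eq_mul_inv_iff_mul_eq, mul_assoc, ← map_mul, h5, h7, ← map_mul, ← map_mul]
      congr 1
      ext <;> simp
    obtain ⟨F, hF⟩ := U.2.2.1
    let U' : Subgroup E :=
      { carrier := {g | g ∈ L ∧ ∀ a, ρ l * σ a * g * (ρ l * σ a)⁻¹ ∈ U.1}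
        one_mem' := ⟨L.one_mem, fun a => by simpa using U.1.one_mem⟩
        mul_mem' := fun {g g'} hg hg' => ⟨L.mul_mem hg.1 hg'.1, fun a => by
          simpa [mul_assoc] using U.1.mul_mem (hg.2 a) (hg'.2 a)⟩
        inv_mem' := fun {g} hg => ⟨L.inv_mem hg.1, fun a => by
          simpa [mul_assoc] using U.1.inv_mem (hg.2 a)⟩ }
    have h5 : g ∈ U' := Subgroup.mem_iInf.1 hg ⟨U', fun g hg => hg.1,
      ⟨hT.toFinset.biUnion fun t => F.image fun x => (ρ l * (σ t)⁻¹)⁻¹ • x, fun g hg h5 =>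
        ⟨hg, fun a => by
          obtain ⟨a', t, ht, h6⟩ := h4 a
          have := U.2.2.2 a' _ (hF _ (hN.conj_mem g hg (ρ l * (σ t)⁻¹)) fun x hx => by
            rw [mul_smul, mul_smul, h5 _ (Finset.mem_biUnion.2
              ⟨t, hT.mem_toFinset.2 ht, Finset.mem_image_of_mem _ hx⟩), smul_inv_smul])
          rw [h6]
          simpa [mul_assoc] using this⟩⟩,
      fun b g hg => ⟨hN.conj_mem g hg.1 _, fun a => by
        simpa [mul_assoc] using hg.2 (a * b)⟩⟩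
    simpa using h5.2 1
  intro U h3 h4 h5
  refine le_antisymm h3 ?_
  rw [← c.min _ ((iInf_le _ (Classical.arbitrary ι)).trans (Classical.arbitrary ι).2.1)
    (le_iInf fun U => (cl_mono (iInf_le _ U)).trans (hcl U)) h2 fun ⟨W, h6, h7, h8, h9⟩ =>
      h1 ⟨W, h6, h7, fun a => by obtain ⟨p, hp, -⟩ := lv.mem a; exact hp ▸ h8 _, h9⟩]
  exact iInf_le (fun U : ι => U.1) ⟨U, h3, h4, h5⟩

end Pool.Agent.Lib.MP_a6ff19_al
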