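import Pool.Agent.Lib.MP_a6ff19_al.H17Quot

set_option autoImplicit false
set_option linter.unusedSectionVars false

/-!
Almost invariant vectors for actions with infinite orbits (the proof is that of `exists_NF`).
-/

namespace Pool.Agent.Lib.MP_a6ff19_al

open Finset Filter Topology
open scoped RealInnerProductSpace

universe u

variable {E : Type*} {Y : Type u} [Group E] [MulAction E Y]

theorem exists_NF' (n : Net E Y) (y₀ : Y) (htr : ∀ y, ∃ g : E, g • y₀ = y) {β : Set E}
    (hβ : ∀ t ∈ β, Bdd y₀ {k | ∃ g : E, g⁻¹ * t * g = k})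
    (hβc : ∃ T : Finset Y, ∀ y, ∃ t ∈ β, t • y ∈ T) {A : Type*} [Group A]
    (τ : A →* E) (hinf : ∀ y : Y, (Set.range fun a => τ a • y).Infinite) :
    ∃ (K : Type u) (_ : NormedAddCommGroup K) (_ : InnerProductSpace ℝ K) (_ : CompleteSpace K)
      (α : AffAct A K), NF α := by
  classical
  set d : ℝ := ((n.N y₀).card : ℝ) with hdd
  have hN : ∀ x, ((n.N x).card : ℝ) = d := fun x => by
    obtain ⟨g, rfl⟩ := htr x
    rw [n.card_smul]
  have hd : 0 < d := by
    obtain ⟨z, -, hz⟩ := (hinf y₀).exists_notMem_finset {y₀}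
    rcases (n.conn y₀ z).cases_head with h | ⟨w, hw, -⟩
    · simp [h] at hz
    · rw [hdd]
      exact_mod_cast Finset.card_pos.2 ⟨w, hw⟩
  let k : Ker Y :=
    { κ := fun z z' => if z = z' then 1 else 0
      symm := fun z z' => by simp only [eq_comm]
      psd := fun s a => Finset.sum_nonneg fun z hz => by
        simp only [mul_ite, mul_one, mul_zero, Finset.sum_ite_eq, if_pos hz]
        exact mul_self_nonneg _ }
  obtain ⟨H, _, _, _, π, Φ, h1, h2, h3⟩ := gns (E := E) k fun g z z' => by simp [k]
  have hon : Orthonormal ℝ Φ := orthonormal_iff_ite.2 h1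
  let α : AffAct A H := { π := π.comp τ, c := 0, c_mul := fun _ _ => by simp }
  have hα : ∀ a v, α.act a v = π (τ a) v := fun a v => by simp [AffAct.act, α]
  have hfix : ∀ v, (∀ a, α.act a v = v) → v = 0 := fun v hv => by
    refine eq_zero_of_dense h3 fun z => ?_
    by_contra h0
    rw [real_inner_comm] at h0
    obtain ⟨m, hm⟩ := exists_nat_gt (‖v‖ ^ 2 / ‖⟪Φ z, v⟫‖ ^ 2)
    obtain ⟨s, hs, rfl⟩ := (hinf z).exists_subset_card_eq m
    have h4 := hon.sum_inner_products_le (s := s) v
    rw [Finset.sum_congr rfl (g := fun _ => ‖⟪Φ z, v⟫‖ ^ 2) fun w hw => by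
      obtain ⟨a, rfl⟩ := hs hw
      rw [← h2]
      conv_lhs => rw [← hv a, hα, LinearIsometryEquiv.inner_map_map], Finset.sum_const,
      nsmul_eq_mul] at h4
    rw [div_lt_iff₀ (by positivity)] at hm
    linarith
  have hq0 : ∀ m x z, 0 ≤ ces n d m x z := fun m x z => by
    simp only [ces, Finsupp.smul_apply, Finsupp.finsetSum_apply, smul_eq_mul]
    exact mul_nonneg (by positivity) (Finset.sum_nonneg fun k _ => walk_nonneg n hd.le k x z)
  have hq1 : ∀ m (g : E) x z, ces n d m (g • x) (g • z) = ces n d m x z := fun m g x z => by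
    simp only [ces, Finsupp.smul_apply, Finsupp.finsetSum_apply, walk_smul]
  let r : ℕ → Y → Y →₀ ℝ := fun m x => (ces n d m x).mapRange Real.sqrt Real.sqrt_zero
  let ξ : ℕ → Y → H := fun m x => Finsupp.linearCombination ℝ Φ (r m x)
  have hsq : ∀ c : Y →₀ ℝ, ∀ s : Finset Y, c.support ⊆ s →
      ‖Finsupp.linearCombination ℝ Φ c‖ ^ 2 = ∑ z ∈ s, c z ^ 2 := fun c s hs => by
    rw [← real_inner_self_eq_norm_sq, hon.inner_finsupp_eq_sum_left,
      Finsupp.sum_of_support_subset _ hs _ (by simp)]
    simp [sq]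
  have hξ1 : ∀ m x, ‖ξ m x‖ = 1 := fun m x => by
    have h4 := hsq (r m x) _ Finsupp.support_mapRange
    have h5 : Finsupp.linearCombination ℝ (fun _ => (1 : ℝ)) (ces n d m x) = 1 := by
      simp only [ces, map_smul, map_sum, walk_mass n hd hN, Finset.sum_const, card_range,
        nsmul_eq_mul, smul_eq_mul]
      push_cast
      field_simp
    simp only [r, Finsupp.mapRange_apply, Real.sq_sqrt (hq0 _ _ _)] at h4
    rw [Finsupp.linearCombination_apply, Finsupp.sum] at h5
    simp only [smul_eq_mul, mul_one] at h5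
    rw [h5] at h4
    exact (pow_eq_one_iff_of_nonneg (norm_nonneg _) two_ne_zero).1 h4
  have hξ2 : ∀ m (g : E) x, π g (ξ m x) = ξ m (g • x) := fun m g x => by
    have h4 : r m (g • x) = (r m x).mapDomain fun z => g • z := by
      ext z
      conv_rhs => rw [← smul_inv_smul g z, Finsupp.mapDomain_apply (MulAction.injective g)]
      simp only [r, Finsupp.mapRange_apply]
      rw [← hq1 m g x, smul_inv_smul]
    simp only [ξ]
    rw [h4, Finsupp.linearCombination_mapDomain, Finsupp.linearCombination_apply,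
      Finsupp.linearCombination_apply, map_finsuppSum]
    simp only [map_smul, h2, Function.comp_apply]
  have hξ3 : ∀ x y, Tendsto (fun m => ‖ξ m x - ξ m y‖) (hyperfilter ℕ) (𝓝 0) := fun x y => by
    have h4 := reiter n hd hN (fun ψ h5 h6 => liouville n y₀ htr hβ hβc h5 h6)
      (fun m z => SignType.sign ((ces n d m x - ces n d m y) z)) (fun m z => by
        generalize SignType.sign ((ces n d m x - ces n d m y) z) = t
        cases t <;> simp) x y
    have h5 := h4.sqrt
    rw [Real.sqrt_zero] at h5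
    refine squeeze_zero (fun _ => norm_nonneg _) (fun m => Real.le_sqrt_of_sq_le ?_) h5
    simp only [ξ]
    have h6 : (r m x - r m y).support ⊆ (ces n d m x - ces n d m y).support := fun z hz => by
      simp only [Finsupp.mem_support_iff, Finsupp.sub_apply, r, Finsupp.mapRange_apply, ne_eq,
        sub_eq_zero] at hz ⊢
      exact fun h => hz (by rw [h])
    rw [← map_sub, hsq _ _ h6, Finsupp.linearCombination_apply, Finsupp.sum]
    refine Finset.sum_le_sum fun z _ => ?_
    rw [smul_eq_mul, mul_comm, sign_mul_self]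
    simp only [Finsupp.sub_apply, r, Finsupp.mapRange_apply]
    have h7 := Real.sq_sqrt (hq0 m x z)
    have h8 := Real.sq_sqrt (hq0 m y z)
    have h9 := Real.sqrt_nonneg (ces n d m x z)
    have h10 := Real.sqrt_nonneg (ces n d m y z)
    rcases le_total √(ces n d m x z) √(ces n d m y z) with h | h
    · exact le_trans (by nlinarith) (neg_le_abs _)
    · exact le_trans (by nlinarith) (le_abs_self _)
  refine ⟨H, inferInstance, inferInstance, inferInstance, α, fun S C => ?_⟩
  have h4 : Tendsto (fun m => C * α.disp S (ξ m y₀)) (hyperfilter ℕ) (𝓝 0) := by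
    have := (tendsto_finsetSum S fun a _ => hξ3 (τ a • y₀) y₀).const_mul C
    simpa only [AffAct.disp, hα, hξ2, Finset.sum_const_zero, mul_zero] using this
  obtain ⟨m, hm⟩ := (h4.eventually (gt_mem_nhds one_pos)).exists
  exact ⟨ξ m y₀, fun v' hv' => by rw [hfix v' hv', sub_zero, hξ1]; exact hm⟩

end Pool.Agent.Lib.MP_a6ff19_al
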