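import Pool.Agent.Lib.MP_a6ff19_al.H17ND

set_option autoImplicit false
set_option linter.unusedSectionVars false

/-!
Locally elliptic normal subgroups of the minimal normal subgroup are uniformly discrete.
-/

namespace Pool.Agent.Lib.MP_a6ff19_al

open MulAction Filter
open scoped Pointwise

variable {E X : Type} [Group E] [MulAction E X] {Λ : Type*} [Group Λ] {x₀ : X}
  {A : Type*} [Group A] {σ : A →* E} {S : Finset A} {K L : Subgroup E}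

lemma cof_fin (n : Net E X) (he : IsEnv x₀ σ S K) {H : Subgroup E} (h : Cof x₀ K H) :
    ∃ D : Finset (E × X), (∀ d ∈ D, d.1 ∈ H) ∧
      ∀ H' ≤ K, (∀ d ∈ D, ∃ u ∈ H', u • d.2 = d.1 • d.2) → Cof x₀ K H' := by
  classical
  obtain ⟨T, hT, h1⟩ := h
  let Y : Set X := {y | y = x₀ ∨ ∃ g ∈ K, g • x₀ ∈ T ∧ ∃ s ∈ S, y = g • σ s • x₀}
  have hY : Y.Finite := by
    refine (Set.Finite.insert x₀ ((Bdd.preimage hT).mul n
      (Bdd.of_finite x₀ (S.finite_toSet.image σ)))).subset ?_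
    rintro y (rfl | ⟨g, -, h2, s, hs, rfl⟩)
    · exact Or.inl rfl
    · exact Or.inr ⟨_, ⟨g, h2, _, ⟨s, hs, rfl⟩, rfl⟩, mul_smul _ _ _⟩
  have h2 : ∀ y ∈ Y, ∃ h ∈ H, h • y ∈ T := by
    rintro y (rfl | ⟨g, h2, -, s, -, rfl⟩)
    · simpa using h1 1 K.one_mem
    · simpa only [mul_smul] using h1 _ (K.mul_mem h2 (he.mem s))
  choose! f h2 h3 using h2
  refine ⟨hY.toFinset.image fun y => (f y, y), fun d hd => ?_, fun H' h4 h5 => ⟨T, hT, ?_⟩⟩
  · obtain ⟨y, hy, rfl⟩ := Finset.mem_image.1 hd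
    exact h2 y (hY.mem_toFinset.1 hy)
  have h6 : ∀ y ∈ Y, ∃ u ∈ H', u • y ∈ T := fun y hy => by
    obtain ⟨u, h6, h7⟩ := h5 _ (Finset.mem_image_of_mem _ (hY.mem_toFinset.2 hy))
    exact ⟨u, h6, h7 ▸ h3 y hy⟩
  have h7 : ∀ g ∈ K, ∀ s ∈ S, (∃ u ∈ H', u • g • x₀ ∈ T) → ∃ u ∈ H', u • (g * σ s) • x₀ ∈ T := by
    rintro g hg s hs ⟨u, h7, h8⟩
    obtain ⟨u', h9, h10⟩ := h6 _ (Or.inr ⟨u * g, K.mul_mem (h4 h7) hg,
      by rwa [mul_smul], s, hs, rfl⟩)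
    exact ⟨u' * u, H'.mul_mem h9 h7, by simpa only [mul_smul] using h10⟩
  have h8 : Subgroup.closure ({u | u ∈ K ∧ u • x₀ = x₀} ∪ σ '' S) ≤ K :=
    (Subgroup.closure_le _).2 (by
      rintro g (hg | ⟨s, -, rfl⟩)
      · exact hg.1
      · exact he.mem s)
  intro g hg
  have h9 := he.gen hg
  clear hg
  induction h9 using Subgroup.closure_induction_right with
  | one => simpa using h6 x₀ (Or.inl rfl)
  | mul_right g hg s hs ih =>
    rcases hs with hs | ⟨s, hs, rfl⟩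
    · rwa [mul_smul, hs.2]
    · exact h7 g (h8 hg) s hs ih
  | mul_inv_cancel g hg s hs ih =>
    rcases hs with hs | ⟨s, hs, rfl⟩
    · rwa [mul_smul, inv_smul_eq_iff.2 hs.2.symm]
    · rw [← map_inv]
      exact h7 g (h8 hg) _ (he.symm s hs) ih

lemma Nrm.sup {H M : Subgroup E} (h : Nrm σ H) (h' : Nrm σ M) : Nrm σ (H ⊔ M) := fun l =>
  show H ⊔ M ≤ (H ⊔ M).comap (MulAut.conj (σ l)).toMonoidHom from
    sup_le (fun g hg => Subgroup.mem_sup_left (h l g hg)) fun g hg =>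
      Subgroup.mem_sup_right (h' l g hg)

lemma mem_sup_of_nrm {H M : Subgroup E} (hn : Nrm L.subtype H) (hM : M ≤ L) {g : E}
    (hg : g ∈ H ⊔ M) : ∃ h ∈ H, ∃ m ∈ M, g = h * m := by
  let O : Subgroup E :=
    { carrier := {g | ∃ h ∈ H, ∃ m ∈ M, g = h * m}
      one_mem' := ⟨1, H.one_mem, 1, M.one_mem, by simp⟩
      mul_mem' := by
        rintro _ _ ⟨h, h1, m, h2, rfl⟩ ⟨h', h3, m', h4, rfl⟩
        exact ⟨_, H.mul_mem h1 (hn ⟨m, hM h2⟩ h' h3), _, M.mul_mem h2 h4, by simp [mul_assoc]⟩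
      inv_mem' := by
        rintro _ ⟨h, h1, m, h2, rfl⟩
        exact ⟨_, hn.inv ⟨m, hM h2⟩ (H.inv_mem h1), _, M.inv_mem h2, by simp [mul_assoc]⟩ }
  exact (show H ⊔ M ≤ O from sup_le (fun h h1 => ⟨h, h1, 1, M.one_mem, by simp⟩)
    fun m h1 => ⟨1, H.one_mem, m, h1, by simp⟩) hg

/-- Finitely many moves of elements of `M` are made by elements of `L` with a common fixed point. -/
def LC (X : Type) [MulAction E X] (L M : Subgroup E) : Prop :=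
  ∀ D : Finset (E × X), (∀ d ∈ D, d.1 ∈ M) →
    ∃ z : X, ∀ d ∈ D, ∃ u ∈ L, u • z = z ∧ u • d.2 = d.1 • d.2

lemma LC.cl {M : Subgroup E} (h : LC X L M) : LC X L (cl X M) := fun D hD => by
  classical
  choose! f h1 h2 using fun d hd => hD d hd {d.2}
  obtain ⟨z, hz⟩ := h (D.image fun d => (f d, d.2)) fun e he => by
    obtain ⟨d, hd, rfl⟩ := Finset.mem_image.1 he
    exact h1 d hd
  refine ⟨z, fun d hd => ?_⟩
  obtain ⟨u, h3, h4, h5⟩ := hz _ (Finset.mem_image_of_mem _ hd)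
  exact ⟨u, h3, h4, h5.trans (h2 d hd _ (Finset.mem_singleton_self _)).symm⟩

lemma Cof.of_lc (n : Net E X) (he : IsEnv x₀ σ S K) (hL : L ≤ K) {M H : Subgroup E} (hM : M ≤ L)
    (hlc : LC X L M) (hH : H ≤ L) (hn : Nrm L.subtype H) (h : Cof x₀ K (H ⊔ M)) : Cof x₀ K H := by
  classical
  obtain ⟨D, h1, h2⟩ := cof_fin n he h
  choose! f h3 m h4 h5 using fun d hd => mem_sup_of_nrm hn hM (h1 d hd)
  obtain ⟨z, hz⟩ := hlc (D.image fun d => (m d, d.2)) fun e he => by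
    obtain ⟨d, hd, rfl⟩ := Finset.mem_image.1 he
    exact h4 d hd
  obtain ⟨T, hT, h6⟩ := h2 (H ⊔ L ⊓ stabilizer E z) (sup_le (hH.trans hL) (inf_le_left.trans hL))
    fun d hd => by
      obtain ⟨u, h6, h7, h8⟩ := hz _ (Finset.mem_image_of_mem _ hd)
      refine ⟨_, Subgroup.mul_mem_sup (h3 d hd) ⟨h6, h7⟩, ?_⟩
      conv_rhs => rw [h5 d hd]
      rw [mul_smul, mul_smul, h8]
  refine ⟨_, hT.biUnion fun t _ => (Bdd.stab (E := E) z).orbit n t, fun g hg => ?_⟩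
  obtain ⟨k, h7, h8⟩ := h6 g hg
  obtain ⟨h, h9, u, h10, rfl⟩ := mem_sup_of_nrm hn inf_le_left h7
  exact ⟨_, hn.inv ⟨u, h10.1⟩ h9, Set.mem_biUnion h8 ⟨u⁻¹, (stabilizer E z).inv_mem h10.2, by
    simp [mul_smul]⟩⟩

/-- Locally elliptic normal subgroups of `L` meet the stabilisers of the translates of `F`
trivially. -/
def NS (L : Subgroup E) (F : Finset X) : Prop :=
  ∀ M ≤ L, Nrm L.subtype M → LC X L M → ∀ g : E, ∀ v ∈ M, (∀ x ∈ F, v • g • x = g • x) → v = 1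

theorem Ctx.ns {ρ : Λ →* E} (c : Ctx x₀ ρ L) (n : Net E X) (he : IsEnv x₀ σ S K) (hL : L ≤ K)
    (hK : Cof x₀ K L) : ∃ F : Finset X, NS L F := by
  classical
  have hN := c.nrm
  let ι := {M : Subgroup E // M ≤ L ∧ Nrm L.subtype M ∧ LC X L M}
  let R : Subgroup E := ⨆ M : ι, M.1
  have hRL : R ≤ L := iSup_le fun M => M.2.1
  have hR : ∀ g : E, ∀ v ∈ R, g * v * g⁻¹ ∈ R := fun g =>
    show R ≤ R.comap (MulAut.conj g).toMonoidHom from iSup_le fun M v hv => by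
      refine le_iSup (fun M : ι => M.1) ⟨M.1.comap (MulAut.conj g⁻¹).toMonoidHom, fun m hm => ?_,
        fun l m hm => ?_, fun D hD => ?_⟩ (by simpa [mul_assoc] using hv)
      · simpa [mul_assoc] using hN.conj_mem _ (M.2.1 hm) g
      · simpa [mul_assoc] using M.2.2.1 ⟨_, hN.conj_mem' _ l.2 g⟩ _ hm
      · obtain ⟨z, hz⟩ := M.2.2.2 (D.image fun d => (g⁻¹ * d.1 * g, g⁻¹ • d.2)) fun e he => by
          obtain ⟨d, hd, rfl⟩ := Finset.mem_image.1 he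
          simpa using hD d hd
        refine ⟨g • z, fun d hd => ?_⟩
        obtain ⟨u, h1, h2, h3⟩ := hz _ (Finset.mem_image_of_mem _ hd)
        exact ⟨_, hN.conj_mem u h1 g, by simp [mul_smul, h2], by
          simpa [mul_smul, eq_inv_smul_iff] using h3⟩
  haveI : (cl X R).Normal := ⟨fun v hv g => cl_conj (fun w hw => le_cl _ (hR g w hw)) v hv⟩
  let Neg : Subgroup E → Prop := fun N => N ≤ L ∧ Nrm L.subtype N ∧
    ∀ H ≤ L, Nrm L.subtype H → Cof x₀ K (H ⊔ N) → Cof x₀ K H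
  have n0 : Neg ⊥ := ⟨bot_le, Nrm.of_normal _ _, fun H _ _ h => by simpa using h⟩
  have n1 : ∀ N N', Neg N → Neg N' → Neg (N ⊔ N') := fun N N' h h' =>
    ⟨sup_le h.1 h'.1, h.2.1.sup h'.2.1, fun H h1 h2 h3 => h.2.2 H h1 h2
      (h'.2.2 _ (sup_le h1 h.1) (h2.sup h.2.1) (by rwa [sup_assoc]))⟩
  have n2 : ∀ v ∈ R, ∃ N, Neg N ∧ v ∈ N := fun v hv => by
    induction hv using Subgroup.iSup_induction' with
    | hp M v hv => exact ⟨M.1, ⟨M.2.1, M.2.2.1, fun H => Cof.of_lc n he hL M.2.1 M.2.2.2⟩, hv⟩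
    | h1 => exact ⟨⊥, n0, Subgroup.one_mem _⟩
    | hmul a b _ _ ha hb =>
      obtain ⟨N, h1, h2⟩ := ha
      obtain ⟨N', h3, h4⟩ := hb
      exact ⟨_, n1 N N' h1 h3, Subgroup.mul_mem_sup h2 h4⟩
  have n3 : ∀ D : Finset (E × X), (∀ d ∈ D, d.1 ∈ cl X R) →
      ∃ N, Neg N ∧ ∀ d ∈ D, ∃ u ∈ N, u • d.2 = d.1 • d.2 := fun D => by
    induction D using Finset.induction_on with
    | empty => exact fun _ => ⟨⊥, n0, by simp⟩
    | insert d D _ ih =>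
      intro h
      obtain ⟨N, h1, h2⟩ := ih fun d hd => h d (Finset.mem_insert_of_mem hd)
      obtain ⟨u, h3, h4⟩ := h d (Finset.mem_insert_self _ _) {d.2}
      obtain ⟨N', h5, h6⟩ := n2 u h3
      refine ⟨_, n1 N N' h1 h5, Finset.forall_mem_insert _ _ _ |>.2
        ⟨⟨u, Subgroup.mem_sup_right h6, (h4 _ (Finset.mem_singleton_self _)).symm⟩, fun d hd => ?_⟩⟩
      obtain ⟨u, h7, h8⟩ := h2 d hd
      exact ⟨u, Subgroup.mem_sup_left h7, h8⟩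
  obtain ⟨F, hF⟩ := c.disc n (cl_closed R) ((cl_mono hRL).trans c.cls) fun h => by
    obtain ⟨D, h1, h2⟩ := cof_fin n he hK
    obtain ⟨N, h3, h4⟩ := n3 D (h ▸ h1)
    obtain ⟨T, hT, h5⟩ := h3.2.2 ⊥ bot_le (Nrm.of_normal _ _)
      (by simpa using h2 N (h3.1.trans hL) h4)
    refine c.unbdd ((Bdd.preimage hT).mono fun g hg => ?_)
    simpa using h5 g (hL hg)
  refine ⟨F, fun M h1 h2 h3 g v hv h4 => ?_⟩
  have := hF _ (le_cl _ (hR g⁻¹ v (le_iSup (fun M : ι => M.1) ⟨M, h1, h2, h3⟩ hv))) fun x hx => by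
    simp [mul_smul, h4 x hx]
  simpa [mul_assoc, mul_eq_one_iff_eq_inv, inv_mul_eq_iff_eq_mul] using this

theorem NS.key {F₀ : Finset X} (hns : NS L F₀) (n : Net E X) [hN : L.Normal] (hc : cl X L ≤ L)
    (𝒰 : Ultrafilter ℕ) (y : ℕ → X) (r : ℕ → ℕ) (hr : ∀ k, 0 < r k) {G : Set E}
    (hs : ∀ g ∈ G, g⁻¹ ∈ G) (hG : L ≤ cl X (Subgroup.closure G))
    (happ : ∀ g ∈ G, ∀ (t : ℕ) (F : Finset X), ∀ᶠ k in (𝒰 : Filter ℕ), ∃ (s : E) (D : ℕ),
      t * D < r k ∧ s • y k ∈ n.ball (y k) D ∧ ∀ x ∈ F, s • x = g • x)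
    {v : E} (hv : v ∈ L) {t : ℕ} (h1 : ∀ F : Finset X, ∀ᶠ k in (𝒰 : Filter ℕ), ∃ w ∈ L,
      (∀ D, t * D < r k → ∀ x ∈ n.ball (y k) D, w • x = x) ∧ ∀ x ∈ F, w • x = v • x)
    {g : E} (h2 : ∀ x ∈ F₀, v • g • x = g • x) : v = 1 := by
  classical
  let M : Subgroup E :=
    { carrier := {v | v ∈ L ∧ ∃ t : ℕ, ∀ F : Finset X, ∀ᶠ k in (𝒰 : Filter ℕ), ∃ w ∈ L,
        (∀ D, t * D < r k → ∀ x ∈ n.ball (y k) D, w • x = x) ∧ ∀ x ∈ F, w • x = v • x}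
      one_mem' := ⟨L.one_mem, 0, fun F => Eventually.of_forall fun k =>
        ⟨1, L.one_mem, fun _ _ _ _ => one_smul _ _, fun _ _ => rfl⟩⟩
      mul_mem' := by
        rintro a b ⟨ha, s, h3⟩ ⟨hb, t, h4⟩
        refine ⟨L.mul_mem ha hb, s + t, fun F => ?_⟩
        filter_upwards [h3 (F.image fun x => b • x), h4 F] with k ⟨u, h5, h6, h7⟩ ⟨w, h8, h9, h10⟩
        refine ⟨_, L.mul_mem h5 h8, fun D hD x hx => ?_, fun x hx => ?_⟩
        · rw [add_mul] at hD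
          rw [mul_smul, h9 D (by omega) x hx, h6 D (by omega) x hx]
        · rw [mul_smul, mul_smul, h10 x hx, h7 _ (Finset.mem_image_of_mem _ hx)]
      inv_mem' := by
        rintro a ⟨ha, s, h3⟩
        refine ⟨L.inv_mem ha, s, fun F => ?_⟩
        filter_upwards [h3 (F.image fun x => a⁻¹ • x)] with k ⟨u, h5, h6, h7⟩
        refine ⟨_, L.inv_mem h5, fun D hD x hx => inv_smul_eq_iff.2 (h6 D hD x hx).symm,
          fun x hx => ?_⟩
        rw [inv_smul_eq_iff, h7 _ (Finset.mem_image_of_mem _ hx), smul_inv_smul] }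
  have h3 : ∀ g ∈ G, ∀ v ∈ M, g * v * g⁻¹ ∈ M := by
    rintro g hg v ⟨h3, t, h4⟩
    refine ⟨hN.conj_mem v h3 g, 2 * t, fun F => ?_⟩
    filter_upwards [h4 (F.image fun x => g⁻¹ • x), happ g hg (2 * t)
      ((F.image fun x => g⁻¹ • x) ∪ F.image fun x => v • g⁻¹ • x)] with k ⟨w, h5, h6, h7⟩
      ⟨s, D, h8, h9, h10⟩
    refine ⟨_, hN.conj_mem w h5 s, fun D' hD x hx => ?_, fun x hx => ?_⟩
    · have h11 : s⁻¹ • y k ∈ n.ball (y k) D :=
        n.ball_symm (by simpa using n.ball_smul s⁻¹ h9)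
      rw [mul_smul, mul_smul, h6 (D + D') (by rw [mul_assoc] at h8 hD; rw [mul_add]; omega) _
        (n.ball_trans h11 (n.ball_smul s⁻¹ hx)), smul_inv_smul]
    · have h11 := h10 _ (Finset.mem_union_left _ (Finset.mem_image_of_mem _ hx))
      rw [smul_inv_smul, ← eq_inv_smul_iff] at h11
      simp only [mul_smul]
      rw [← h11, h7 _ (Finset.mem_image_of_mem _ hx),
        h10 _ (Finset.mem_union_right _ (Finset.mem_image_of_mem _ hx))]
  have h4 : Subgroup.closure G ≤ nrmz (cl X M) := (Subgroup.closure_le _).2 fun g hg =>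
    ⟨cl_conj fun v hv => le_cl _ (h3 g hg v hv), by
      simpa using cl_conj fun v hv => le_cl _ (h3 _ (hs g hg) v hv)⟩
  refine hns (cl X M) ((cl_mono (H := M) fun v hv => hv.1).trans hc)
    (fun l => conj_of_cl (cl_closed M) (fun k hk => (h4 hk).1) l (hG l.2)) (LC.cl fun D hD => ?_)
    g v (le_cl _ ⟨hv, t, h1⟩) h2
  choose! t ht using fun d hd => (hD d hd).2
  obtain ⟨k, hk⟩ := ((eventually_all_finset D).2 fun d hd => ht d hd {d.2}).exists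
  refine ⟨y k, fun d hd => ?_⟩
  obtain ⟨w, h5, h6, h7⟩ := hk d hd
  exact ⟨w, h5, h6 0 (by simpa using hr k) _ rfl, h7 _ (Finset.mem_singleton_self _)⟩

end Pool.Agent.Lib.MP_a6ff19_al
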