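import Pool.Agent.Lib.MP_a6ff19_al.H17Basic

set_option autoImplicit false
set_option linter.unusedSectionVars false

/-!
Quotients by bounded normal subgroups, and discreteness of small normal subgroups.
-/

namespace Pool.Agent.Lib.MP_a6ff19_al

open Filter
open scoped Pointwise

/-- Algebraic form of being compact-by-discrete. -/
def CD (E : Type*) {X : Type*} [Group E] [MulAction E X] (x₀ : X) : Prop :=
  ∃ L : Subgroup E, L.Normal ∧ Opn X L ∧ Bdd x₀ (L : Set E)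

variable {E X : Type} [Group E] [MulAction E X] {Λ : Type*} [Group Λ]

/-- The space of orbits of a subgroup. -/
def QX (W : Subgroup E) (X : Type) [MulAction E X] : Type := Quotient (MulAction.orbitRel W X)

/-- The orbit of a point. -/
def QX.mk (W : Subgroup E) (x : X) : QX W X := Quotient.mk _ x

lemma QX.eq {W : Subgroup E} {x y : X} : QX.mk W x = QX.mk W y ↔ ∃ w ∈ W, w • y = x :=
  ⟨fun h => let ⟨w, hw⟩ := (Quotient.exact h : x ∈ MulAction.orbit W y); ⟨w, w.2, hw⟩,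
    fun ⟨w, h1, h2⟩ => Quotient.sound (show x ∈ MulAction.orbit W y from ⟨⟨w, h1⟩, h2⟩)⟩

lemma QX.surj {W : Subgroup E} (y : QX W X) : ∃ x, QX.mk W x = y := Quotient.exists_rep y

instance (W : Subgroup E) [h : W.Normal] : MulAction E (QX W X) where
  smul g := Quotient.map (fun x => g • x) fun x y hxy => by
    obtain ⟨w, hw⟩ : x ∈ MulAction.orbit W y := hxy
    exact (show g • x ∈ MulAction.orbit W (g • y) from
      ⟨⟨g * w * g⁻¹, h.conj_mem _ w.2 g⟩, by simp [← hw, mul_smul, Subgroup.smul_def]⟩)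
  one_smul y := by
    obtain ⟨x, rfl⟩ := QX.surj y
    exact congrArg (QX.mk W) (one_smul E x)
  mul_smul a b y := by
    obtain ⟨x, rfl⟩ := QX.surj y
    exact congrArg (QX.mk W) (mul_smul a b x)

lemma QX.smul_mk (W : Subgroup E) [W.Normal] (g : E) (x : X) :
    g • QX.mk W x = QX.mk W (g • x) := rfl

open Classical in
lemma exists_qNet (n : Net E X) (W : Subgroup E) [hW : W.Normal] :
    ∃ m : Net E (QX W X), ∀ x, m.N (QX.mk W x) = (n.N x).image (QX.mk W) := by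
  let N : QX W X → Finset (QX W X) := fun y => (n.N (QX.surj y).choose).image (QX.mk W)
  have hN : ∀ x, N (QX.mk W x) = (n.N x).image (QX.mk W) := fun x => by
    obtain ⟨u, h1, h2⟩ := QX.eq.1 (QX.surj (QX.mk W x)).choose_spec
    simp only [N]
    rw [← h2]
    ext z
    simp only [Finset.mem_image]
    constructor
    · rintro ⟨a, ha, rfl⟩
      exact ⟨u⁻¹ • a, by simpa using n.smul_mem u⁻¹ _ _ ha, QX.eq.2 ⟨u⁻¹, W.inv_mem h1, rfl⟩⟩
    · rintro ⟨a, ha, rfl⟩
      exact ⟨u • a, n.smul_mem u _ _ ha, QX.eq.2 ⟨u, h1, rfl⟩⟩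
  let m : Net E (QX W X) :=
    { N := N
      symm := fun a b h => by
        obtain ⟨a, rfl⟩ := QX.surj a
        rw [hN] at h
        obtain ⟨b, h1, rfl⟩ := Finset.mem_image.1 h
        rw [hN]
        exact Finset.mem_image_of_mem _ (n.symm _ _ h1)
      smul_mem := fun g a b h => by
        obtain ⟨a, rfl⟩ := QX.surj a
        rw [hN] at h
        obtain ⟨b, h1, rfl⟩ := Finset.mem_image.1 h
        rw [QX.smul_mk, QX.smul_mk, hN]
        exact Finset.mem_image_of_mem _ (n.smul_mem g _ _ h1)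
      conn := fun a b => by
        obtain ⟨a, rfl⟩ := QX.surj a
        obtain ⟨b, rfl⟩ := QX.surj b
        induction n.conn a b with
        | refl => rfl
        | tail _ h2 ih => exact ih.tail (by rw [hN]; exact Finset.mem_image_of_mem _ h2) }
  exact ⟨m, hN⟩

theorem quot_step (n : Net E X) (x₀ : X) {ρ : Λ →* E} (hp : ∀ x y : X, {l | ρ l • x = y}.Finite)
    {T : Finset X} (hT : ∀ x : X, ∃ l, ρ l • x ∈ T) (W : Subgroup E) [hW : W.Normal]
    (hb : Bdd x₀ (W : Set E)) {w : E} (hw : w ∈ W) {x y : X} (hx : w • x = x) (hy : y ∈ n.N x)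
    (hy' : w • y ≠ y) :
    ∃ (Y : Type) (_ : MulAction E Y) (m : Net E Y) (y₀ : Y) (T' : Finset Y),
      (∀ x y : Y, {l | ρ l • x = y}.Finite) ∧ (∀ x : Y, ∃ l, ρ l • x ∈ T') ∧
      ∑ y ∈ T', (m.N y).card < ∑ x ∈ T, (n.N x).card ∧ (CD E y₀ → CD E x₀) := by
  classical
  have hfib : ∀ y : QX W X, {x | QX.mk W x = y}.Finite := fun y => by
    obtain ⟨z, rfl⟩ := QX.surj y
    refine Set.Finite.subset (hb.orbit n z) fun x hx => ?_
    obtain ⟨w, h1, h2⟩ := QX.eq.1 hx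
    exact ⟨w, h1, h2⟩
  obtain ⟨m, hN⟩ := exists_qNet n W
  refine ⟨QX W X, inferInstance, m, QX.mk W x₀, T.image (QX.mk W), fun a b => ?_, fun a => ?_,
    ?_, ?_⟩
  · obtain ⟨a, rfl⟩ := QX.surj a
    exact ((hfib b).biUnion fun z _ => hp a z).subset fun l hl => Set.mem_biUnion hl rfl
  · obtain ⟨a, rfl⟩ := QX.surj a
    obtain ⟨l, hl⟩ := hT a
    exact ⟨l, Finset.mem_image_of_mem _ hl⟩
  · refine (Finset.sum_image_le_of_nonneg fun _ _ => Nat.zero_le _).trans_lt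
      (Finset.sum_lt_sum (fun z _ => ?_) ?_)
    · exact (congrArg Finset.card (hN z)).trans_le Finset.card_image_le
    · obtain ⟨l, hl⟩ := hT x
      refine ⟨_, hl, (congrArg Finset.card (hN _)).trans_lt
        (Finset.card_image_le.lt_of_ne fun h => hy' ?_)⟩
      have h1 := Finset.card_image_iff.1 h (n.smul_mem (ρ l) _ _ (hx ▸ n.smul_mem w _ _ hy))
        (n.smul_mem (ρ l) _ _ hy) (QX.eq.2 ⟨_, hW.conj_mem _ hw (ρ l), by simp [mul_smul]⟩)
      exact MulAction.injective _ h1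
  · rintro ⟨L, h1, ⟨F, hF⟩, h3⟩
    refine ⟨L, h1, ⟨F.image fun y => (QX.surj y).choose, fun g hg => hF g fun y hy => ?_⟩, ?_⟩
    · rw [← (QX.surj y).choose_spec, QX.smul_mk, hg _ (Finset.mem_image_of_mem _ hy)]
    · refine (Set.Finite.biUnion h3 fun y _ => hfib y).subset ?_
      rintro _ ⟨g, hg, rfl⟩
      exact Set.mem_biUnion ⟨g, hg, rfl⟩ rfl

variable {x₀ : X} {ρ : Λ →* E}

lemma core_opnIn (n : Net E X) (hc : Coc x₀ ρ ⊤) {T W : Subgroup E} [hT : T.Normal] (h3 : Nrm ρ W)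
    (h4 : OpnIn X W T) : OpnIn X W.normalCore T := by
  classical
  obtain ⟨C, hC, h1⟩ := hc
  obtain ⟨F, hF⟩ := h4
  have h2 : (⋃ x ∈ F, (fun g : E => g • x) '' C⁻¹).Finite :=
    F.finite_toSet.biUnion fun x _ => (hC.inv n).orbit n x
  refine ⟨h2.toFinset, fun g hg h5 k => ?_⟩
  obtain ⟨l, hl⟩ := h1 k (Subgroup.mem_top k)
  have h6 := h3.inv l (hF _ (hT.conj_mem g hg (ρ l * k)) fun x hx => by
    rw [mul_smul, mul_smul, h5 _ (h2.mem_toFinset.2 (Set.mem_biUnion hx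
      ⟨_, Set.inv_mem_inv.2 hl, rfl⟩)), smul_inv_smul])
  simpa [mul_assoc] using h6

lemma CD.of_small (n : Net E X) (hc : Coc x₀ ρ ⊤) (h : Small x₀ ρ ⊤) : CD E x₀ := by
  obtain ⟨W, -, h2, h3, h4⟩ := h
  obtain ⟨F, hF⟩ := core_opnIn n hc h3 h4
  exact ⟨W.normalCore, inferInstance, ⟨F, fun g => hF g (Subgroup.mem_top g)⟩,
    h2.mono W.normalCore_le⟩

lemma CD.small (h : CD E x₀) (σ : Λ →* E) : Small x₀ σ ⊤ := by
  obtain ⟨W, h1, ⟨F, hF⟩, h3⟩ := h
  exact ⟨W, le_top, h3, Nrm.of_normal σ W, F, fun g _ => hF g⟩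

/-- Bounded normal subgroups act freely. -/
def BF (E : Type) {X : Type} [Group E] [MulAction E X] (x₀ : X) : Prop :=
  ∀ W : Subgroup E, W.Normal → Bdd x₀ (W : Set E) → ∀ w ∈ W, w • x₀ = x₀ → w = 1

lemma discrete_of_small (n : Net E X) (hc : Coc x₀ ρ ⊤) (hbf : BF E x₀) {T : Subgroup E}
    [T.Normal] (h : Small x₀ ρ T) :
    ∃ F : Finset X, ∀ g ∈ T, (∀ x ∈ F, g • x = x) → g = 1 := by
  classical
  obtain ⟨W, -, h2, h3, h4⟩ := h
  obtain ⟨F, hF⟩ := core_opnIn n hc h3 h4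
  exact ⟨insert x₀ F, fun g hg h5 => hbf W.normalCore inferInstance (h2.mono W.normalCore_le) g
    (hF g hg fun x hx => h5 x (Finset.mem_insert_of_mem hx)) (h5 _ (Finset.mem_insert_self _ _))⟩

end Pool.Agent.Lib.MP_a6ff19_al
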