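import Pool.Agent.Lib.MP_a6ff19_al.Energy
import Pool.Agent.Lib.MP_a6ff19_al.GNS

set_option autoImplicit false
set_option linter.unusedSectionVars false

/-!
Realising harmonic kernels by harmonic maps, and ultralimits of approximately harmonic maps.
-/

namespace Pool.Agent.Lib.MP_a6ff19_al

open Finset Filter Topology
open scoped RealInnerProductSpace

universe u

lemma eq_zero_of_dense {H Z : Type*} [NormedAddCommGroup H] [InnerProductSpace ℝ H] {Φ : Z → H}
    (hd : Dense (Submodule.span ℝ (Set.range Φ) : Set H)) {v : H} (hv : ∀ z, ⟪v, Φ z⟫ = 0) :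
    v = 0 := by
  have h1 : ∀ w ∈ Submodule.span ℝ (Set.range Φ), ⟪v, w⟫ = 0 := by
    intro w hw
    induction hw using Submodule.span_induction with
    | mem w hw => obtain ⟨z, rfl⟩ := hw; exact hv z
    | zero => simp
    | add a b _ _ ha hb => rw [inner_add_right, ha, hb, add_zero]
    | smul t a _ ha => rw [real_inner_smul_right, ha, mul_zero]
  have h2 : ⟪v, v⟫ = 0 :=
    hd.induction (P := fun w => ⟪v, w⟫ = 0) h1
      (isClosed_eq (continuous_const.inner continuous_id) continuous_const) v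
  exact inner_self_eq_zero.1 h2

theorem realize {E E' : Type*} {X : Type u} [Group E] [MulAction E X] [Group E'] [MulAction E' X]
    (n : Net E X) (x₀ : X) (k : Ker (X × X))
    (hinv : ∀ (g : E') z z', k.κ (g • z) (g • z') = k.κ z z')
    (hadd : ∀ x y z q, k.κ (x, y) q + k.κ (y, z) q = k.κ (x, z) q)
    (hharm : ∀ x q, ∑ y ∈ n.N x, k.κ (y, x) q = 0) :
    ∃ (H : Type u) (_ : NormedAddCommGroup H) (_ : InnerProductSpace ℝ H) (_ : CompleteSpace H)
      (π : E' →* (H ≃ₗᵢ[ℝ] H)) (F : X → H),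
      (∀ x y x' y', ⟪F x - F y, F x' - F y'⟫ = k.κ (x, y) (x', y')) ∧
      (∀ g x y, F (g • x) - F (g • y) = π g (F x - F y)) ∧ (∀ x, n.lap F x = 0) ∧
      Dense (Submodule.span ℝ (Set.range fun p : X × X => F p.1 - F p.2) : Set H) := by
  obtain ⟨H, _, _, _, π, Φ, h1, h2, h3⟩ := gns k hinv
  have h4 : ∀ x y, Φ (x, x₀) - Φ (y, x₀) = Φ (x, y) := fun x y => by
    rw [← sub_eq_zero]
    refine eq_zero_of_dense h3 fun q => ?_
    rw [inner_sub_left, inner_sub_left, h1, h1, h1, ← hadd x y x₀ q]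
    ring
  refine ⟨H, inferInstance, inferInstance, inferInstance, π, fun x => Φ (x, x₀), ?_, ?_, ?_, ?_⟩
  · intro x y x' y'; rw [h4, h4, h1]
  · intro g x y; rw [h4, h4, h2]; rfl
  · intro x
    refine eq_zero_of_dense h3 fun q => ?_
    simp only [Net.lap, h4, sum_inner, h1]
    exact hharm x q
  · simpa only [h4] using h3

lemma exists_ultralimit (𝒰 : Ultrafilter ℕ) (u : ℕ → ℝ) (C : ℝ) (h : ∀ i, |u i| ≤ C) :
    ∃ a, Tendsto u 𝒰 (𝓝 a) := by
  obtain ⟨a, _, ha⟩ := (isCompact_Icc (a := -C) (b := C)).ultrafilter_le_nhds (𝒰.map u)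
    (by
      rw [le_principal_iff, Ultrafilter.coe_map, Filter.mem_map]
      exact Eventually.of_forall fun i => abs_le.1 (h i))
  exact ⟨a, ha⟩

variable {E : Type*} {X : Type u} [Group E] [MulAction E X] {Λ : Type*} [Group Λ] {ρ : Λ →* E}
  {K : Type*} [NormedAddCommGroup K] [InnerProductSpace ℝ K]

theorem exists_harmonic [CompleteSpace K] (n : Net E X) (W : Weight ρ X) (α : AffAct Λ K) (x₀ : X)
    {S : Finset Λ} (hS : Subgroup.closure (S : Set Λ) = ⊤)
    (hNF : ∀ C : ℝ, ∃ v, ∀ v', (∀ l, α.act l v' = v') → C * α.disp S v < ‖v - v'‖) :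
    ∃ (H : Type u) (_ : NormedAddCommGroup H) (_ : InnerProductSpace ℝ H) (f : X → H)
      (φ : ℕ → X → K) (t : ℕ → ℝ) (𝒰 : Ultrafilter ℕ),
      (∀ i, Eqv ρ α (φ i)) ∧ (∀ x, n.lap f x = 0) ∧ (∃ x y, f x ≠ f y) ∧
      ∀ x y x' y', Tendsto (fun i => t i * ⟪φ i x - φ i y, φ i x' - φ i y'⟫) 𝒰
        (𝓝 ⟪f x - f y, f x' - f y'⟫) := by
  have h0 : ∀ i : ℕ, (0 : ℝ) < 1 / ((i : ℝ) + 1) := fun i => by positivity
  choose φ hφ hlt using fun i : ℕ => exists_approx n W α x₀ hS hNF (h0 i)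
  have hpos : ∀ i, 0 < en n W (φ i) (φ i) := fun i =>
    (mul_pos_iff_of_pos_left (h0 i)).1 ((nrm_nonneg W _).trans_lt (hlt i))
  let t : ℕ → ℝ := fun i => (en n W (φ i) (φ i))⁻¹
  let 𝒰 : Ultrafilter ℕ := hyperfilter ℕ
  have hsq : ∀ i, t i * (√(en n W (φ i) (φ i)) * √(en n W (φ i) (φ i))) = 1 := fun i => by
    rw [Real.mul_self_sqrt (hpos i).le]
    exact inv_mul_cancel₀ (hpos i).ne'
  have ht : ∀ i, 0 < t i := fun i => inv_pos.2 (hpos i)
  have hb : ∀ (i) (a b : K) (A B : ℝ), 0 ≤ A → ‖a‖ ≤ A * √(en n W (φ i) (φ i)) →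
      ‖b‖ ≤ B * √(en n W (φ i) (φ i)) → |t i * ⟪a, b⟫| ≤ A * B := by
    intro i a b A B hA ha hb
    rw [abs_mul, abs_of_pos (ht i)]
    calc t i * |⟪a, b⟫| ≤ t i * (‖a‖ * ‖b‖) :=
          mul_le_mul_of_nonneg_left (abs_real_inner_le_norm _ _) (ht i).le
      _ ≤ t i * ((A * √(en n W (φ i) (φ i))) * (B * √(en n W (φ i) (φ i)))) :=
          mul_le_mul_of_nonneg_left (mul_le_mul ha hb (norm_nonneg _) (by positivity)) (ht i).le
      _ = A * B * (t i * (√(en n W (φ i) (φ i)) * √(en n W (φ i) (φ i)))) := by ring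
      _ = _ := by rw [hsq, mul_one]
  choose C hC hpair using fun x y => exists_pair_bound (K := K) n W x y
  have hlim : ∀ p q : X × X, ∃ a,
      Tendsto (fun i => t i * ⟪φ i p.1 - φ i p.2, φ i q.1 - φ i q.2⟫) 𝒰 (𝓝 a) := fun p q =>
    exists_ultralimit 𝒰 _ (C p.2 p.1 * C q.2 q.1) fun i =>
      hb i _ _ _ _ (hC _ _) (hpair _ _ _ _ (hφ i).diff) (hpair _ _ _ _ (hφ i).diff)
  choose κ hκ using hlim
  let k : Ker (X × X) :=
    { κ := κ
      symm := fun p q => tendsto_nhds_unique (hκ p q) (by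
        simpa only [real_inner_comm] using hκ q p)
      psd := fun s a => by
        refine ge_of_tendsto' (f := fun i => ∑ p ∈ s, ∑ q ∈ s,
          a p * a q * (t i * ⟪φ i p.1 - φ i p.2, φ i q.1 - φ i q.2⟫)) (x := (𝒰 : Filter ℕ))
          (tendsto_finsetSum _ fun p _ => tendsto_finsetSum _ fun q _ =>
            (hκ p q).const_mul _) fun i => ?_
        have := mul_nonneg (ht i).le ((gram fun p : X × X => φ i p.1 - φ i p.2).psd s a)
        simp only [gram, Finset.mul_sum] at this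
        refine this.trans (le_of_eq ?_)
        exact Finset.sum_congr rfl fun p _ => Finset.sum_congr rfl fun q _ => by ring }
  obtain ⟨H, _, _, _, -, F, h1, -, h3, -⟩ := realize (E' := (⊥ : Subgroup E)) n x₀ k
    (fun g z z' => by rw [Subsingleton.elim g 1, one_smul, one_smul])
    (fun x y z q => tendsto_nhds_unique ((hκ (x, y) q).add (hκ (y, z) q)) (by
      convert hκ (x, z) q using 2
      rw [← mul_add, ← inner_add_left, sub_add_sub_cancel]))
    (fun x q => by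
      refine tendsto_nhds_unique (tendsto_finsetSum (n.N x) fun y _ => hκ (y, x) q) ?_
      obtain ⟨D, hD, hD'⟩ := W.exists_bound x
      have h5 : Tendsto (fun i : ℕ => √(D * (1 / ((i : ℝ) + 1))) * C q.2 q.1) 𝒰 (𝓝 0) := by
        have := ((tendsto_one_div_add_atTop_nhds_zero_nat.const_mul D).sqrt.mul_const
          (C q.2 q.1)).mono_left (Nat.hyperfilter_le_atTop)
        simpa using this
      refine squeeze_zero_norm (fun i => ?_) h5
      rw [← Finset.mul_sum, ← sum_inner, Real.norm_eq_abs]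
      refine hb i _ _ _ _ (Real.sqrt_nonneg _) ?_ (hpair _ _ _ _ (hφ i).diff)
      rw [← Real.sqrt_mul (by positivity)]
      refine Real.le_sqrt_of_sq_le ?_
      have h6 := hD' (fun z => ‖n.lap (φ i) z‖ ^ 2) (fun _ => sq_nonneg _) (fun l z => by
        rw [(hφ i).diff.lap n, LinearIsometryEquiv.norm_map])
      refine h6.trans ?_
      rw [mul_assoc]
      exact mul_le_mul_of_nonneg_left (hlt i).le hD)
  refine ⟨H, inferInstance, inferInstance, F, φ, t, 𝒰, hφ, h3, ?_,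
    fun x y x' y' => by rw [h1]; exact hκ (x, y) (x', y')⟩
  by_contra hc
  push Not at hc
  have h7 : Tendsto (fun i => ∑ x ∈ W.S, W.w x * ∑ y ∈ n.N x,
      t i * ⟪φ i y - φ i x, φ i y - φ i x⟫) 𝒰 (𝓝 (∑ x ∈ W.S, W.w x * ∑ y ∈ n.N x,
        ⟪F y - F x, F y - F x⟫)) :=
    tendsto_finsetSum _ fun x _ => (tendsto_finsetSum _ fun y _ => by
      rw [h1]; exact hκ (y, x) (y, x)).const_mul _
  have h8 : ∀ i, ∑ x ∈ W.S, W.w x * ∑ y ∈ n.N x,
      t i * ⟪φ i y - φ i x, φ i y - φ i x⟫ = 1 := fun i => by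
    rw [← inv_mul_cancel₀ (hpos i).ne', en, Finset.mul_sum]
    refine Finset.sum_congr rfl fun x _ => ?_
    rw [← Finset.mul_sum]
    simp only [t, en]
    ring
  simp only [h8, hc _ x₀, sub_self, inner_zero_left, Finset.sum_const_zero, mul_zero] at h7
  exact one_ne_zero (tendsto_nhds_unique tendsto_const_nhds h7)

end Pool.Agent.Lib.MP_a6ff19_al
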