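import Pool.Agent.Lib.MP_a6ff19_al.Net

set_option autoImplicit false
set_option linter.unusedSectionVars false

/-!
A Mautner type phenomenon: a vector fixed by finitely many elements is almost fixed by an open
subgroup containing them.
-/

namespace Pool.Agent.Lib.MP_a6ff19_al

open Finset Filter Topology

variable {E X : Type*} [Group E] [MulAction E X]

/-- A subgroup is open if it contains the pointwise stabiliser of a finite set. -/
def Opn (X : Type*) [MulAction E X] (O : Subgroup E) : Prop :=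
  ∃ F : Finset X, ∀ g : E, (∀ x ∈ F, g • x = x) → g ∈ O

lemma finite_image_of_factor {α β γ : Type*} {U : Set α} (ψ : α → β) (δ : α → γ)
    (h : (ψ '' U).Finite) (hf : ∀ u ∈ U, ∀ u' ∈ U, ψ u = ψ u' → δ u = δ u') : (δ '' U).Finite := by
  classical
  rcases U.eq_empty_or_nonempty with rfl | ⟨u₀, _⟩
  · simp
  refine (h.image fun y => if h : ∃ u ∈ U, ψ u = y then δ h.choose else δ u₀).subset ?_
  rintro _ ⟨u, hu, rfl⟩
  have h1 : ∃ u' ∈ U, ψ u' = ψ u := ⟨u, hu, rfl⟩
  exact ⟨ψ u, ⟨u, hu, rfl⟩, by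
    simp only [dif_pos h1]
    exact hf _ h1.choose_spec.1 _ hu h1.choose_spec.2⟩

/-- A function on a point stabiliser which is invariant on the left under the pointwise stabiliser
of a finite set has finite range. -/
lemma Net.finite_image_stab (n : Net E X) (x₀ : X) (F : Finset X) {γ : Type*} (δ : E → γ)
    (h : ∀ u v : E, u • x₀ = x₀ → v • x₀ = x₀ → (∀ x ∈ F, v • x = x) → δ (v * u) = δ u) :
    (δ '' {u | u • x₀ = x₀}).Finite := by
  refine finite_image_of_factor (fun u (x : F) => u⁻¹ • (x : X)) δ ?_ ?_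
  · refine (Set.Finite.pi' fun x : F => n.finite_stab_orbit x₀ x).subset ?_
    rintro _ ⟨u, hu, rfl⟩ x
    exact ⟨u⁻¹, by rw [inv_smul_eq_iff]; exact hu.symm, rfl⟩
  · intro u hu u' hu' huu
    have h1 : u = u * u'⁻¹ * u' := by group
    rw [h1]
    refine h u' _ hu' ?_ fun x hx => ?_
    · rw [mul_smul, inv_smul_eq_iff.2 hu'.symm]; exact hu
    · have := congrFun huu ⟨x, hx⟩
      simp only at this
      rw [mul_smul, ← this, smul_inv_smul]

theorem mautner {H : Type*} [NormedAddCommGroup H] [NormedSpace ℝ H] (n : Net E X) (x₀ : X)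
    (π : E →* (H ≃ₗᵢ[ℝ] H)) (v : H)
    (hcont : ∀ ε : ℝ, 0 < ε → ∃ F : Finset X, ∀ g : E, (∀ x ∈ F, g • x = x) → ‖π g v - v‖ < ε)
    (S : Finset E) (hS : ∀ s ∈ S, π s v = v) {ε : ℝ} (hε : 0 < ε) :
    ∃ O : Subgroup E, (∀ s ∈ S, s ∈ O) ∧ Opn X O ∧ ∀ h ∈ O, ‖π h v - v‖ ≤ ε := by
  classical
  have hmul : ∀ a b w, π (a * b) w = π a (π b w) := fun a b w => by rw [map_mul]; rfl
  obtain ⟨F₀, hF₀⟩ := hcont ε hε
  let F : Finset X := insert x₀ (F₀ ∪ S.image (fun s => s • x₀) ∪ S.image (fun s => s⁻¹ • x₀))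
  let K : Set H := closure {w | ∃ u : E, u • x₀ = x₀ ∧ π u v = w}
  let KV : Set H := closure {w | ∃ u : E, (∀ x ∈ F, u • x = x) ∧ π u v = w}
  have hvV : v ∈ KV := subset_closure ⟨1, fun x _ => one_smul _ _, by simp⟩
  have hKu : ∀ u : E, u • x₀ = x₀ → Set.MapsTo (π u) K K := fun u hu =>
    Set.MapsTo.closure (by
      rintro _ ⟨u', hu', rfl⟩
      exact ⟨u * u', by rw [mul_smul, hu', hu], hmul _ _ _⟩) (π u).continuous
  have hKV : ∀ u : E, (∀ x ∈ F, u • x = x) → Set.MapsTo (π u) KV KV := fun u hu =>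
    Set.MapsTo.closure (by
      rintro _ ⟨u', hu', rfl⟩
      exact ⟨u * u', fun x hx => by rw [mul_smul, hu' x hx, hu x hx], hmul _ _ _⟩) (π u).continuous
  have hKs : ∀ s : E, π s v = v → s⁻¹ • x₀ ∈ F → Set.MapsTo (π s) KV K := fun s hs hs' =>
    Set.MapsTo.closure (by
      rintro _ ⟨u', hu', rfl⟩
      refine ⟨s * u' * s⁻¹, by rw [mul_smul, mul_smul, hu' _ hs', smul_inv_smul], ?_⟩
      have : π s⁻¹ v = v := by
        conv_lhs => rw [← hs, ← hmul]
        simp
      rw [hmul, this, hmul]) (π s).continuous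
  have hR := n.finite_image_stab x₀ F (fun u => Metric.infDist (π u v) KV) (by
    intro u w _ _ hw
    have h1 : π w '' KV = KV := by
      refine (hKV w hw).image_subset.antisymm fun y hy => ⟨π w⁻¹ y, hKV w⁻¹ (fun x hx => ?_) hy, ?_⟩
      · rw [inv_smul_eq_iff]; exact (hw x hx).symm
      · simp
    conv_lhs => rw [hmul, ← h1]
    exact Metric.infDist_image (π w).isometry)
  set R := (fun u => Metric.infDist (π u v) KV) '' {u | u • x₀ = x₀} with hRdef
  obtain ⟨η, hη, hηR⟩ : ∃ η : ℝ, 0 < η ∧ ∀ r ∈ R, |r| < η → r = 0 := by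
    have h1 : (R \ {0})ᶜ ∈ 𝓝 (0 : ℝ) := (hR.sdiff).isClosed.isOpen_compl.mem_nhds (by simp)
    obtain ⟨η, hη, h2⟩ := Metric.mem_nhds_iff.1 h1
    refine ⟨η, hη, fun r hr h3 => ?_⟩
    by_contra h4
    exact h2 (show r ∈ Metric.ball 0 η by simpa using h3) ⟨hr, h4⟩
  have hKR : ∀ w ∈ K, Metric.infDist w KV ∈ R := fun w hw =>
    closure_minimal (t := (fun w => Metric.infDist w KV) ⁻¹' R)
      (by rintro _ ⟨u, hu, rfl⟩; exact ⟨u, hu, rfl⟩)
      (hR.isClosed.preimage (Metric.continuous_infDist_pt KV)) hw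
  have hsep : ∀ w ∈ K, ∀ w' ∈ KV, dist w' w < η → w ∈ KV := fun w hw w' hw' h => by
    rw [isClosed_closure.mem_iff_infDist_zero ⟨v, hvV⟩]
    refine hηR _ (hKR w hw) ?_
    rw [abs_of_nonneg Metric.infDist_nonneg]
    exact (Metric.infDist_le_dist_of_mem hw').trans_lt (by rwa [dist_comm])
  let r : H → H → Prop := fun a b => b ∈ K ∧ dist a b < η
  have hCV : ∀ w, Relation.ReflTransGen r v w → w ∈ KV := fun w hw => by
    induction hw with
    | refl => exact hvV
    | tail _ h2 ih => exact hsep _ h2.1 _ ih h2.2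
  have hstep : ∀ g : E, Relation.ReflTransGen r v (π g v) → Set.MapsTo (π g) KV K →
      ∀ w, Relation.ReflTransGen r v w → Relation.ReflTransGen r v (π g w) := fun g h1 h2 w hw => by
    induction hw with
    | refl => exact h1
    | tail h3 h4 ih =>
      exact ih.tail ⟨h2 (hCV _ (h3.tail h4)), by rw [(π g).isometry.dist_eq]; exact h4.2⟩
  let O : Subgroup E :=
    { carrier := {g | ∀ w, Relation.ReflTransGen r v w ↔ Relation.ReflTransGen r v (π g w)}
      one_mem' := fun w => by simp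
      mul_mem' := fun {a b} ha hb w => by rw [hmul, ← ha, ← hb]
      inv_mem' := fun {a} ha w => by
        rw [ha (π a⁻¹ w)]
        simp }
  have hO : ∀ g : E, (∀ w, Relation.ReflTransGen r v w → Relation.ReflTransGen r v (π g w)) →
      (∀ w, Relation.ReflTransGen r v w → Relation.ReflTransGen r v (π g⁻¹ w)) → g ∈ O :=
    fun g h1 h2 w => ⟨h1 w, fun h => by simpa using h2 _ h⟩
  refine ⟨O, fun s hs => hO s ?_ ?_, ?_, fun h hh => ?_⟩
  · exact hstep s (by rw [hS s hs]) (hKs s (hS s hs) (by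
      simp only [F, Finset.mem_insert, Finset.mem_union]
      exact Or.inr (Or.inr (Finset.mem_image_of_mem _ hs))))
  · have : π s⁻¹ v = v := by
      conv_lhs => rw [← hS s hs, ← hmul]
      simp
    exact hstep s⁻¹ (by rw [this]) (hKs s⁻¹ this (by
      simp only [F, Finset.mem_insert, Finset.mem_union, inv_inv]
      exact Or.inr (Or.inl (Or.inr (Finset.mem_image_of_mem _ hs)))))
  · obtain ⟨F₁, hF₁⟩ := hcont η hη
    have key : ∀ g : E, (∀ x ∈ insert x₀ F₁, g • x = x) →
        ∀ w, Relation.ReflTransGen r v w → Relation.ReflTransGen r v (π g w) := fun g hg => by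
      have h0 := hg x₀ (Finset.mem_insert_self _ _)
      refine hstep g (Relation.ReflTransGen.single ⟨subset_closure ⟨g, h0, rfl⟩, ?_⟩) ?_
      · rw [dist_comm, dist_eq_norm]
        exact hF₁ g fun x hx => hg x (Finset.mem_insert_of_mem hx)
      · refine (hKu g h0).mono_left (closure_mono ?_)
        rintro _ ⟨u, hu, rfl⟩
        exact ⟨u, hu x₀ (Finset.mem_insert_self _ _), rfl⟩
    exact ⟨insert x₀ F₁, fun g hg => hO g (key g hg) (key g⁻¹ fun x hx => by
      rw [inv_smul_eq_iff]; exact (hg x hx).symm)⟩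
  · have h1 := hCV _ ((hh v).1 Relation.ReflTransGen.refl)
    have h2 : KV ⊆ Metric.closedBall v ε := closure_minimal (by
      rintro _ ⟨u, hu, rfl⟩
      rw [Metric.mem_closedBall, dist_eq_norm]
      refine (hF₀ u fun x hx => hu x ?_).le
      simp only [F, Finset.mem_insert, Finset.mem_union]
      exact Or.inr (Or.inl (Or.inl hx))) Metric.isClosed_closedBall
    simpa [dist_eq_norm] using h2 h1

end Pool.Agent.Lib.MP_a6ff19_al
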