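import Mathlib

set_option autoImplicit false
set_option linter.unusedSectionVars false

/-!
Connected locally finite invariant neighbour structures, weights for cocompact actions, mass transport,
energy, maximum principle.
-/

namespace Pool.Agent.Lib.MP_a6ff19_al

open Finset

/-- An invariant, symmetric, connected, locally finite neighbour structure. -/
structure Net (E X : Type*) [Group E] [MulAction E X] where
  N : X → Finset X
  symm : ∀ x y, y ∈ N x → x ∈ N y
  smul_mem : ∀ (g : E) x y, y ∈ N x → g • y ∈ N (g • x)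
  conn : ∀ x y, Relation.ReflTransGen (fun a b => b ∈ N a) x y

variable {E X : Type*} [Group E] [MulAction E X]

namespace Net

variable (n : Net E X)

lemma smul_mem_iff (g : E) (x y : X) : g • y ∈ n.N (g • x) ↔ y ∈ n.N x :=
  ⟨fun h => by simpa using n.smul_mem g⁻¹ _ _ h, n.smul_mem g x y⟩

lemma sum_smul {M : Type*} [AddCommMonoid M] (g : E) (x : X) (φ : X → M) :
    ∑ y ∈ n.N (g • x), φ y = ∑ y ∈ n.N x, φ (g • y) := by
  symm
  refine Finset.sum_nbij' (fun y => g • y) (fun y => g⁻¹ • y) ?_ ?_ ?_ ?_ ?_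
  · intro y hy; exact n.smul_mem g x y hy
  · intro y hy; simpa using n.smul_mem g⁻¹ _ _ hy
  · intro y _; simp
  · intro y _; simp
  · intro y _; rfl

lemma card_smul (g : E) (x : X) : (n.N (g • x)).card = (n.N x).card := by
  have := n.sum_smul g x (fun _ => (1 : ℕ))
  simpa using this

/-- The Laplacian. -/
def lap {K : Type*} [AddCommGroup K] (f : X → K) (x : X) : K := ∑ y ∈ n.N x, (f y - f x)

lemma const_of_edges {K : Type*} (f : X → K) (h : ∀ x, ∀ y ∈ n.N x, f y = f x) (x y : X) :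
    f y = f x := by
  induction n.conn x y with
  | refl => rfl
  | tail _ h2 ih => rw [h _ _ h2, ih]

lemma const_of_max (f : X → ℝ) (hf : ∀ x, n.lap f x = 0) (x₀ : X) (h : ∀ y, f y ≤ f x₀) (y : X) :
    f y = f x₀ := by
  induction n.conn x₀ y with
  | refl => rfl
  | @tail b c _ h2 ih =>
    have h3 : ∀ z ∈ n.N b, f z - f b ≤ 0 := fun z _ => by rw [ih]; linarith [h z]
    have h4 := (Finset.sum_eq_zero_iff_of_nonpos h3).1 (hf b) c h2
    linarith

lemma const_of_finite_range (f : X → ℝ) (hf : ∀ x, n.lap f x = 0) (h : (Set.range f).Finite)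
    (x y : X) : f y = f x := by
  obtain ⟨_, ⟨x₀, rfl⟩, hm⟩ := h.exists_maximal ⟨f x, x, rfl⟩
  have h2 : ∀ z, f z ≤ f x₀ := fun z => by
    by_contra hz
    exact hz (hm ⟨z, rfl⟩ (le_of_not_ge hz))
  rw [n.const_of_max f hf x₀ h2 x, n.const_of_max f hf x₀ h2 y]

lemma harnack (x y : X) : ∃ C : ℝ, 0 ≤ C ∧ ∀ ψ : X → ℝ, (∀ z, n.lap ψ z = 0) → (∀ z, 0 ≤ ψ z) →
    ψ y ≤ C * ψ x := by
  induction n.conn x y with
  | refl => exact ⟨1, zero_le_one, fun ψ _ _ => by simp⟩
  | @tail b c _ h2 ih =>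
    obtain ⟨C, hC, ih⟩ := ih
    refine ⟨(n.N b).card * C, by positivity, fun ψ h1 h0 => ?_⟩
    have h3 := h1 b
    rw [lap, Finset.sum_sub_distrib, Finset.sum_const, nsmul_eq_mul, sub_eq_zero] at h3
    have h4 : ψ c ≤ ∑ z ∈ n.N b, ψ z := Finset.single_le_sum (fun z _ => h0 z) h2
    rw [h3] at h4
    calc ψ c ≤ (n.N b).card * ψ b := h4
      _ ≤ (n.N b).card * (C * ψ x) := by gcongr; exact ih ψ h1 h0
      _ = _ := by ring

include n in
lemma finite_stab_orbit (x₀ y : X) : {z | ∃ u : E, u • x₀ = x₀ ∧ u • y = z}.Finite := by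
  induction n.conn x₀ y with
  | refl => exact (Set.finite_singleton x₀).subset (by rintro z ⟨u, h1, h2⟩; simp [← h2, h1])
  | @tail b c _ h2 ih =>
    refine (ih.biUnion (t := fun z => (n.N z : Set X)) fun z _ => Finset.finite_toSet _).subset ?_
    rintro z ⟨u, h1, rfl⟩
    simp only [Set.mem_iUnion]
    exact ⟨u • b, ⟨u, h1, rfl⟩, n.smul_mem u _ _ h2⟩

end Net

/-- A finitely supported weight whose translates sum to one. -/
structure Weight {Λ : Type*} [Group Λ] (ρ : Λ →* E) (X : Type*) [MulAction E X] where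
  w : X → ℝ
  S : Finset X
  nonneg : ∀ x, 0 ≤ w x
  mem : ∀ x, w x ≠ 0 → x ∈ S
  fin : ∀ x, (Function.support fun l => w (ρ l • x)).Finite
  sum_one : ∀ x, ∑ᶠ l, w (ρ l • x) = 1

variable {Λ : Type*} [Group Λ] {ρ : Λ →* E}

lemma exists_weight (hp : ∀ x y : X, {l | ρ l • x = y}.Finite)
    (hc : ∃ T : Finset X, ∀ x : X, ∃ l, ρ l • x ∈ T) : Nonempty (Weight ρ X) := by
  classical
  obtain ⟨T, hT⟩ := hc
  have hfin : ∀ x : X, {l | ρ l • x ∈ T}.Finite := fun x =>
    ((T.finite_toSet).biUnion fun y _ => hp x y).subset fun l hl => by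
      simp only [Set.mem_iUnion]; exact ⟨_, hl, rfl⟩
  let c : X → ℕ := fun x => {l | ρ l • x ∈ T}.ncard
  have hc0 : ∀ x, 0 < c x := fun x => (Set.ncard_pos (hfin x)).2 (hT x)
  have hcinv : ∀ (m : Λ) x, c (ρ m • x) = c x := by
    intro m x
    refine Set.ncard_congr (fun l _ => l * m) ?_ ?_ ?_
    · intro l hl; simpa [mul_smul] using hl
    · intro a b _ _ h; exact mul_right_cancel h
    · intro l hl
      exact ⟨l * m⁻¹, by simpa [mul_smul] using hl, by simp⟩
  refine ⟨⟨fun x => if x ∈ T then (c x : ℝ)⁻¹ else 0, T, ?_, ?_, ?_, ?_⟩⟩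
  · intro x; split_ifs <;> positivity
  · intro x hx; by_contra h; simp [h] at hx
  · intro x
    refine (hfin x).subset fun l hl => ?_
    by_contra h
    simp only [Set.mem_ofPred_eq] at h
    simp [h] at hl
  · intro x
    rw [finsum_eq_sum_of_support_subset (s := (hfin x).toFinset)]
    · rw [Finset.sum_congr rfl (g := fun _ => (c x : ℝ)⁻¹)]
      · rw [Finset.sum_const, ← Set.ncard_eq_toFinset_card _ (hfin x), nsmul_eq_mul]
        exact mul_inv_cancel₀ (by exact_mod_cast (hc0 x).ne')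
      · intro l hl
        simp only [Set.Finite.mem_toFinset, Set.mem_ofPred_eq] at hl
        simp [hl, hcinv]
    · intro l hl
      by_contra h
      simp only [Set.Finite.coe_toFinset, Set.mem_ofPred_eq] at h
      simp [h] at hl

namespace Weight

variable (W : Weight ρ X)

lemma exists_pos (x : X) : ∃ l, 0 < W.w (ρ l • x) := by
  by_contra h
  push Not at h
  have h1 := W.sum_one x
  have : (fun l => W.w (ρ l • x)) = fun _ => 0 := funext fun l => le_antisymm (h l) (W.nonneg _)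
  rw [this] at h1
  simp at h1

include W in
lemma finite_range {K : Type*} (f : X → K) (h : ∀ l x, f (ρ l • x) = f x) :
    (Set.range f).Finite := by
  refine (W.S.finite_toSet.image f).subset ?_
  rintro _ ⟨x, rfl⟩
  obtain ⟨l, hl⟩ := W.exists_pos x
  exact ⟨ρ l • x, W.mem _ hl.ne', h l x⟩

lemma transport (n : Net E X) (m : X → X → ℝ) (hm : ∀ l x y, m (ρ l • x) (ρ l • y) = m x y) :
    ∑ x ∈ W.S, W.w x * ∑ y ∈ n.N x, m x y = ∑ x ∈ W.S, W.w x * ∑ y ∈ n.N x, m y x := by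
  classical
  have key : ∀ m' : X → X → ℝ, ∑ x ∈ W.S, W.w x * ∑ y ∈ n.N x, m' x y =
      ∑ᶠ l : Λ, ∑ p ∈ W.S.sigma n.N, W.w p.1 * W.w (ρ l • p.2) * m' p.1 p.2 := by
    intro m'
    rw [← sum_finsum_comm]
    · rw [Finset.sum_sigma]
      refine Finset.sum_congr rfl fun x _ => ?_
      rw [Finset.mul_sum]
      refine Finset.sum_congr rfl fun y _ => ?_
      have : ∀ l : Λ, W.w x * W.w (ρ l • y) * m' x y = (W.w x * m' x y) * W.w (ρ l • y) :=
        fun l => by ring
      simp only [this]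
      rw [← mul_finsum' _ _ (W.fin y), W.sum_one, mul_one]
    · intro p _
      refine (W.fin p.2).subset fun l hl => ?_
      intro h0
      simp only at h0
      simp [h0] at hl
  rw [key m, key (fun x y => m y x), ← finsum_comp_equiv (Equiv.inv Λ)]
  refine finsum_congr fun l => ?_
  simp only [Equiv.inv_apply]
  refine Finset.sum_bij_ne_zero (fun p _ _ => ⟨ρ l⁻¹ • p.2, ρ l⁻¹ • p.1⟩) ?_ ?_ ?_ ?_
  · intro p hp h0
    rw [Finset.mem_sigma] at hp ⊢
    refine ⟨W.mem _ fun h => h0 (by rw [h]; ring), n.smul_mem _ _ _ (n.symm _ _ hp.2)⟩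
  · rintro ⟨a, b⟩ _ _ ⟨c, d⟩ _ _ h
    simp only [Sigma.mk.injEq, heq_eq_eq, smul_left_cancel_iff] at h
    simp [h.1, h.2]
  · rintro ⟨a, b⟩ hp h0
    rw [Finset.mem_sigma] at hp
    have h1 : W.w (ρ l • b) ≠ 0 := fun h => h0 (by simp only; rw [h]; ring)
    refine ⟨⟨ρ l • b, ρ l • a⟩, Finset.mem_sigma.2 ⟨W.mem _ h1,
      n.smul_mem _ _ _ (n.symm _ _ hp.2)⟩, ?_, by simp⟩
    simp only [map_inv, inv_smul_smul, hm]
    intro h
    exact h0 (by simp only; linarith)
  · intro p _ _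
    have := hm l⁻¹ p.1 p.2
    simp only [map_inv, smul_inv_smul] at this ⊢
    rw [this]
    ring

include W in
lemma exists_deg (n : Net E X) : ∃ d : ℕ, 0 < d ∧ ∀ x, (n.N x).card ≤ d := by
  refine ⟨W.S.sup (fun x => (n.N x).card) + 1, Nat.succ_pos _, fun x => ?_⟩
  obtain ⟨l, hl⟩ := W.exists_pos x
  rw [← n.card_smul (ρ l) x]
  exact (Finset.le_sup (f := fun x => (n.N x).card) (W.mem _ hl.ne')).trans (Nat.le_succ _)

lemma le_sum (φ : X → ℝ) (h0 : ∀ x, 0 ≤ φ x) (x : X) (hx : 0 < W.w x) :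
    φ x ≤ (W.w x)⁻¹ * ∑ z ∈ W.S, W.w z * φ z := by
  rw [le_inv_mul_iff₀ hx]
  exact Finset.single_le_sum (f := fun z => W.w z * φ z)
    (fun z _ => mul_nonneg (W.nonneg z) (h0 z)) (W.mem _ hx.ne')

/-- Pointwise control of an invariant nonnegative function by its weighted sum. -/
lemma exists_bound (x : X) : ∃ C : ℝ, 0 ≤ C ∧ ∀ φ : X → ℝ, (∀ x, 0 ≤ φ x) →
    (∀ l x, φ (ρ l • x) = φ x) → φ x ≤ C * ∑ z ∈ W.S, W.w z * φ z := by
  obtain ⟨l, hl⟩ := W.exists_pos x
  exact ⟨(W.w (ρ l • x))⁻¹, by positivity, fun φ h0 h1 => by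
    rw [← h1 l x]; exact W.le_sum φ h0 _ hl⟩

end Weight

end Pool.Agent.Lib.MP_a6ff19_al
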