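import Pool.Agent.Lib.MP_a6ff19_al.Split
import Pool.Agent.Lib.MP_a6ff19_al.Mautner
import Pool.Agent.Lib.MP_a6ff19_al.Limit

set_option autoImplicit false
set_option linter.unusedSectionVars false

/-!
Rigidity of harmonic maps equivariant under an envelope of the first factor.
-/

namespace Pool.Agent.Lib.MP_a6ff19_al

open Finset Filter Topology
open scoped RealInnerProductSpace

variable {E X : Type*} [Group E] [MulAction E X] {P Q : Type*} [Group P] [Group Q]
  {H : Type*} [NormedAddCommGroup H] [InnerProductSpace ℝ H]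

/-- Every open subgroup containing the image of `σ` moves the edges at the base point coming
from `σ` onto all edges. -/
def EnvP (n : Net E X) (x₀ : X) (σ : P →* E) : Prop :=
  ∀ O : Subgroup E, (∀ p, σ p ∈ O) → Opn X O → ∀ x, ∀ y ∈ n.N x,
    ∃ h ∈ O, ∃ p, h • x₀ = x ∧ h • σ p • x₀ = y

/-- The open subgroup generated by the lattice and a small pointwise stabiliser. -/
def bigO (ρ : P × Q →* E) (x₀ : X) (S : Finset Q) : Subgroup E :=
  Subgroup.closure (Set.range ρ ∪ {g | g • x₀ = x₀ ∧ ∀ s ∈ S, g • ρ (1, s) • x₀ = ρ (1, s) • x₀})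

lemma cont_of_dense (π : E →* (H ≃ₗᵢ[ℝ] H)) {F : X → H}
    (hF : ∀ g x y, F (g • x) - F (g • y) = π g (F x - F y))
    (hd : Dense (Submodule.span ℝ (Set.range fun p : X × X => F p.1 - F p.2) : Set H)) (v : H)
    (ε : ℝ) (hε : 0 < ε) : ∃ T : Finset X, ∀ g : E, (∀ x ∈ T, g • x = x) → ‖π g v - v‖ < ε := by
  classical
  obtain ⟨w, hw, h1⟩ := hd.exists_dist_lt v (half_pos hε)
  have h2 : ∃ T : Finset X, ∀ g : E, (∀ x ∈ T, g • x = x) → π g w = w := by
    clear h1
    induction hw using Submodule.span_induction with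
    | mem w hw =>
      obtain ⟨p, rfl⟩ := hw
      exact ⟨{p.1, p.2}, fun g hg => by rw [← hF, hg _ (by simp), hg _ (by simp)]⟩
    | zero => exact ⟨∅, fun g _ => map_zero _⟩
    | add a b _ _ ha hb =>
      obtain ⟨T, hT⟩ := ha
      obtain ⟨T', hT'⟩ := hb
      exact ⟨T ∪ T', fun g hg => by
        rw [map_add, hT g fun x hx => hg x (by simp [hx]), hT' g fun x hx => hg x (by simp [hx])]⟩
    | smul t a _ ha =>
      obtain ⟨T, hT⟩ := ha
      exact ⟨T, fun g hg => by rw [map_smul, hT g hg]⟩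
  obtain ⟨T, hT⟩ := h2
  refine ⟨T, fun g hg => ?_⟩
  have h3 : π g v - v = π g (v - w) - (v - w) := by rw [map_sub, hT g hg]; abel
  rw [dist_eq_norm] at h1
  rw [h3]
  refine (norm_sub_le _ _).trans_lt ?_
  rw [LinearIsometryEquiv.norm_map]
  linarith

lemma isClosed_fixSub {L : Type*} [Group L] (π : L →* (H ≃ₗᵢ[ℝ] H)) :
    IsClosed (fixSub π : Set H) := by
  have : (fixSub π : Set H) = ⋂ p, {w | π p w = w} := by
    ext w; simp only [Set.mem_iInter]; rfl
  rw [this]
  exact isClosed_iInter fun p => isClosed_eq (π p).continuous continuous_id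

theorem rigid [CompleteSpace H] (hP : Group.FG P) (hQ : Group.FG Q) {ρ : P × Q →* E}
    (n : Net E X) (W : Weight ρ X) (x₀ : X) (henv : EnvP n x₀ (ρ.comp (MonoidHom.inl P Q)))
    (π : E →* (H ≃ₗᵢ[ℝ] H)) {F : X → H}
    (hF : ∀ g x y, F (g • x) - F (g • y) = π g (F x - F y)) (hh : ∀ x, n.lap F x = 0)
    (hd : Dense (Submodule.span ℝ (Set.range fun p : X × X => F p.1 - F p.2) : Set H))
    {S : Finset Q} (hS : Subgroup.closure (S : Set Q) = ⊤) :
    ∀ h ∈ bigO ρ x₀ S, ∀ q x, F (h • ρ (1, q) • x) - F (h • x) = F (ρ (1, q) • x₀) - F x₀ := by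
  classical
  let πΛ := π.comp ρ
  have hFΛ : DiffEqv ρ πΛ F := fun l x y => hF _ x y
  have h1 := split hP hQ n W πΛ hFΛ hh
  have h2 : ∀ (q : Q) (p : P) (x : X),
      πΛ (1, q) (F (ρ (p, 1) • x) - F x) = F (ρ (p, 1) • x) - F x := by
    let e : Q × P →* P × Q := (MulEquiv.prodComm : Q × P ≃* P × Q).toMonoidHom
    let W' : Weight (ρ.comp e) X :=
      { w := W.w, S := W.S, nonneg := W.nonneg, mem := W.mem
        fin := fun x => ((W.fin x).image Prod.swap).subset fun l hl => ⟨l.swap, hl, rfl⟩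
        sum_one := fun x => by
          rw [← W.sum_one x]
          exact finsum_comp_equiv (Equiv.prodComm Q P) (f := fun l => W.w (ρ l • x)) }
    exact split hQ hP n W' (πΛ.comp e) (fun l x y => hF _ x y) hh
  let FL := fixSub πΛ
  let FQ := fixSub (πΛ.comp (MonoidHom.inr P Q))
  have : CompleteSpace FL := (isClosed_fixSub πΛ).completeSpace_coe
  have : CompleteSpace FQ := (isClosed_fixSub _).completeSpace_coe
  have hQinv : ∀ l, ∀ v ∈ FQ, πΛ l v ∈ FQ := fun l b hb q => by
    have h3 : ((1, q) : P × Q) * l = l * (1, l.2⁻¹ * q * l.2) := by ext <;> simp [mul_assoc]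
    have h4 : πΛ (1, l.2⁻¹ * q * l.2) b = b := hb _
    change πΛ (1, q) (πΛ l b) = πΛ l b
    rw [← rep_mul, h3, rep_mul, h4]
  have key : ∀ v, (∀ p, πΛ (p, 1) v = v) → v ∈ FL := by
    intro v hv
    set w := v - FL.starProjection v with hw
    have hwP : ∀ p, πΛ (p, 1) w = w := fun p => by
      rw [hw, map_sub, hv, FL.starProjection_apply_mem v (p, 1)]
    have hwL : w ∈ FLᗮ := FL.sub_starProjection_mem_orthogonal v
    have hwQ : w ∈ FQᗮ := by
      have h3 : FQ.starProjection w ∈ FL := fun l => by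
        have h4 : l = (1, l.2) * (l.1, 1) := by simp
        rw [h4, rep_mul, ← proj_comm πΛ hQinv, hwP]
        exact FQ.starProjection_apply_mem w l.2
      rw [← Submodule.starProjection_apply_eq_zero_iff, ← inner_self_eq_zero (𝕜 := ℝ)]
      have h5 := FQ.starProjection_inner_eq_zero w _ (FQ.starProjection_apply_mem w)
      rw [inner_sub_left, real_inner_comm, hwL _ h3] at h5
      linarith
    obtain ⟨SP, -, -, hSP⟩ := exists_symm_gen hP
    have hedge : ∀ x, ∀ y ∈ n.N x, ⟪w, F y⟫ = ⟪w, F x⟫ := by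
      intro x y hy
      rw [← sub_eq_zero, ← inner_sub_right, ← abs_nonpos_iff]
      set C := ∑ z ∈ n.N x₀, ‖F z - F x₀‖ with hC
      have hC0 : 0 ≤ C := Finset.sum_nonneg fun _ _ => norm_nonneg _
      refine le_of_forall_pos_le_add fun ε hε => ?_
      obtain ⟨O, hO1, hO2, hO3⟩ := mautner n x₀ π w (cont_of_dense π hF hd w)
        (SP.image fun p => ρ (p, 1)) (by
          intro s hs
          obtain ⟨p, -, rfl⟩ := Finset.mem_image.1 hs
          exact hwP p) (show 0 < ε / (C + 1) by positivity)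
      obtain ⟨h, hh1, p, rfl, rfl⟩ := henv O (fun p => by
        have hp : p ∈ Subgroup.closure (SP : Set P) := hSP ▸ Subgroup.mem_top p
        have : Subgroup.closure (SP : Set P) ≤ O.comap (ρ.comp (MonoidHom.inl P Q)) :=
          (Subgroup.closure_le _).2 fun s hs => hO1 _ (Finset.mem_image_of_mem _ hs)
        exact this hp) hO2 x y hy
      rw [n.smul_mem_iff] at hy
      have h3 : ‖F (ρ (p, 1) • x₀) - F x₀‖ ≤ C :=
        Finset.single_le_sum (f := fun z => ‖F z - F x₀‖) (fun _ _ => norm_nonneg _) hy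
      have h4 : ⟪F (ρ (p, 1) • x₀) - F x₀, w⟫ = 0 := hwQ _ fun q => h2 q p x₀
      have h5 : ⟪w, F (h • ρ (p, 1) • x₀) - F (h • x₀)⟫ =
          ⟪π h⁻¹ w - w, F (ρ (p, 1) • x₀) - F x₀⟫ := by
        rw [real_inner_comm] at h4
        rw [inner_sub_left (π h⁻¹ w), h4, sub_zero, hF, ← (π h⁻¹).inner_map_map, ← rep_mul,
          inv_mul_cancel, map_one]
        rfl
      change |⟪w, F (h • ρ (p, 1) • x₀) - F (h • x₀)⟫| ≤ 0 + ε
      rw [h5, zero_add]
      refine (abs_real_inner_le_norm _ _).trans ?_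
      calc _ ≤ ε / (C + 1) * C := mul_le_mul (hO3 _ (O.inv_mem hh1)) h3 (norm_nonneg _)
            (by positivity)
        _ ≤ ε := by rw [div_mul_eq_mul_div, div_le_iff₀ (by positivity)]; nlinarith
    have h6 : w = 0 := eq_zero_of_dense hd fun z => by
      rw [inner_sub_right, n.const_of_edges (fun x => ⟪w, F x⟫) hedge z.2 z.1, sub_self]
    rw [sub_eq_zero.1 h6]
    exact FL.starProjection_apply_mem v
  have hτ : ∀ q x, F (ρ (1, q) • x) - F x ∈ FL := fun q x => key _ fun p => h1 p q x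
  have hind : ∀ q x, F (ρ (1, q) • x) - F x = F (ρ (1, q) • x₀) - F x₀ := fun q x => by
    have h3 : (F (ρ (1, q) • x) - F x) - (F (ρ (1, q) • x₀) - F x₀) =
        πΛ (1, q) (F x - F x₀) - (F x - F x₀) := by
      rw [← hFΛ]; abel
    have h4 := inner_fix πΛ (FL.sub_mem (hτ q x) (hτ q x₀)) (1, q) (F x - F x₀)
    rw [← h3] at h4
    exact sub_eq_zero.1 (inner_self_eq_zero.1 h4)
  have hgen : ∀ h ∈ bigO ρ x₀ S, ∀ s ∈ S,
      π h (F (ρ (1, s) • x₀) - F x₀) = F (ρ (1, s) • x₀) - F x₀ := by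
    intro h hh s hs
    induction hh using Subgroup.closure_induction with
    | mem g hg =>
      rcases hg with ⟨l, rfl⟩ | hg
      · exact hτ s x₀ l
      · rw [← hF, hg.1, hg.2 s hs]
    | one => simp
    | mul a b _ _ ha hb => rw [rep_mul, hb, ha]
    | inv a _ ha =>
      conv_lhs => rw [← ha]
      simp
  intro h hh q x
  rw [hF, hind]
  have hq : q ∈ Subgroup.closure (S : Set Q) := hS ▸ Subgroup.mem_top q
  have hadd : ∀ a b : Q, F (ρ (1, a * b) • x₀) - F x₀ =
      (F (ρ (1, a) • x₀) - F x₀) + (F (ρ (1, b) • x₀) - F x₀) := fun a b => by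
    rw [← hind a (ρ (1, b) • x₀), ← mul_smul, ← map_mul]
    simp
  induction hq using Subgroup.closure_induction with
  | mem s hs => exact hgen h hh s hs
  | one =>
    have : ((1, 1) : P × Q) = 1 := rfl
    simp [this]
  | mul a b _ _ ha hb => rw [hadd, map_add, ha, hb]
  | inv a _ ha =>
    have h3 := hadd a⁻¹ a
    have : ((1, 1) : P × Q) = 1 := rfl
    rw [inv_mul_cancel, this, map_one, one_smul, sub_self] at h3
    rw [eq_neg_of_add_eq_zero_left h3.symm, map_neg, ha]

end Pool.Agent.Lib.MP_a6ff19_al
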