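import Pool.Agent.Lib.MP_a6ff19_al.Energy

set_option autoImplicit false
set_option linter.unusedSectionVars false

/-!
Splitting of harmonic equivariant maps for a product group.
-/

namespace Pool.Agent.Lib.MP_a6ff19_al

open Finset Filter Topology
open scoped RealInnerProductSpace

variable {Λ : Type*} [Group Λ] {H : Type*} [NormedAddCommGroup H] [InnerProductSpace ℝ H]

lemma AffAct.act_avg (α : AffAct Λ H) (l : Λ) {ι : Type*} (I : Finset ι) (hI : I.Nonempty)
    (a : ι → H) : α.act l ((I.card : ℝ)⁻¹ • ∑ i ∈ I, a i) =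
      (I.card : ℝ)⁻¹ • ∑ i ∈ I, α.act l (a i) := by
  have h : (I.card : ℝ) ≠ 0 := by exact_mod_cast hI.card_pos.ne'
  simp only [AffAct.act, map_smul, map_sum, Finset.sum_add_distrib, smul_add, Finset.sum_const]
  rw [← Nat.cast_smul_eq_nsmul ℝ, smul_smul, inv_mul_cancel₀ h, one_smul]

lemma norm_avg_sq_le {ι : Type*} (I : Finset ι) (hI : I.Nonempty) (a : ι → H) :
    ‖(I.card : ℝ)⁻¹ • ∑ i ∈ I, a i‖ ^ 2 ≤ (I.card : ℝ)⁻¹ * ∑ i ∈ I, ‖a i‖ ^ 2 := by
  have h : (0 : ℝ) < I.card := by exact_mod_cast hI.card_pos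
  have h1 : ‖∑ i ∈ I, a i‖ ^ 2 ≤ I.card * ∑ i ∈ I, ‖a i‖ ^ 2 :=
    (pow_le_pow_left₀ (norm_nonneg _) (norm_sum_le _ _) 2).trans sq_sum_le_card_mul_sum_sq
  rw [norm_smul, mul_pow, Real.norm_of_nonneg (by positivity)]
  calc _ ≤ (I.card : ℝ)⁻¹ ^ 2 * (I.card * ∑ i ∈ I, ‖a i‖ ^ 2) := by gcongr
    _ = _ := by field_simp

lemma avg_step (α : AffAct Λ H) (S : Finset Λ) (hS0 : S.Nonempty) (hsymm : ∀ s ∈ S, s⁻¹ ∈ S)
    (a b : H) (hb : b = (S.card : ℝ)⁻¹ • ∑ s ∈ S, α.act s a) :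
    ∑ s ∈ S, ‖α.act s b - b‖ ^ 2 ≤ ∑ s ∈ S, ‖α.act s a - a‖ ^ 2 := by
  have hm : (0 : ℝ) < S.card := by exact_mod_cast hS0.card_pos
  set δ := a - b with hδ
  have h0 : ∑ s ∈ S, (α.act s a - a) = -((S.card : ℝ) • δ) := by
    rw [Finset.sum_sub_distrib, Finset.sum_const, ← Nat.cast_smul_eq_nsmul ℝ, hδ, smul_sub, hb,
      smul_smul, mul_inv_cancel₀ hm.ne', one_smul]
    abel
  have h1 : ∑ s ∈ S, ⟪α.act s a - a, δ⟫ = -(S.card * ‖δ‖ ^ 2) := by
    rw [← sum_inner, h0, inner_neg_left, real_inner_smul_left, real_inner_self_eq_norm_sq]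
  have h2 : ∑ s ∈ S, ⟪α.act s a - a, α.π s δ⟫ = S.card * ‖δ‖ ^ 2 := by
    have h3 : ∀ s, ⟪α.act s a - a, α.π s δ⟫ = -⟪α.act s⁻¹ a - a, δ⟫ := fun s => by
      have : α.act s a - a = α.π s (a - α.act s⁻¹ a) := by
        rw [← α.act_sub, ← α.act_mul, mul_inv_cancel, α.act_one]
      rw [this, LinearIsometryEquiv.inner_map_map, ← inner_neg_left, neg_sub]
    simp only [h3, Finset.sum_neg_distrib]
    rw [Finset.sum_nbij' (t := S) (g := fun s => ⟪α.act s a - a, δ⟫) (fun s => s⁻¹) (fun s => s⁻¹)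
      hsymm hsymm (fun _ _ => inv_inv _) (fun _ _ => inv_inv _) (fun _ _ => rfl), h1, neg_neg]
  have h4 : ∀ s, ‖α.act s b - b‖ ^ 2 ≤ ‖α.act s a - a‖ ^ 2 -
      2 * (⟪α.act s a - a, α.π s δ⟫ - ⟪α.act s a - a, δ⟫) + 4 * ‖δ‖ ^ 2 := fun s => by
    have h5 : α.act s b - b = (α.act s a - a) - (α.π s δ - δ) := by
      rw [hδ, ← α.act_sub]; abel
    have h6 : ‖α.π s δ - δ‖ ≤ 2 * ‖δ‖ := by
      have := norm_sub_le (α.π s δ) δ
      rw [LinearIsometryEquiv.norm_map] at this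
      linarith
    rw [h5, norm_sub_sq_real, inner_sub_right]
    nlinarith [norm_nonneg (α.π s δ - δ), norm_nonneg δ]
  refine (Finset.sum_le_sum fun s _ => h4 s).trans (le_of_eq ?_)
  simp only [Finset.sum_add_distrib, Finset.sum_sub_distrib, ← Finset.mul_sum, h1, h2,
    Finset.sum_const, nsmul_eq_mul]
  ring

lemma one_side [CompleteSpace H] (α : AffAct Λ H) (S T : Finset Λ) (hS0 : S.Nonempty)
    (hsymm : ∀ s ∈ S, s⁻¹ ∈ S) (hcomm : ∀ s ∈ S, ∀ t ∈ T, s * t = t * s) (C : Submodule ℝ H)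
    (hC : ∀ l, ∀ v ∈ C, α.act l v ∈ C) (v : H) (hv : v ∈ C)
    (horth : ∀ t ∈ T, ∀ w, (∀ s ∈ S, α.π s w = w) → ⟪w, α.act t v - v⟫ = 0) {ε : ℝ} (hε : 0 < ε) :
    ∃ v' ∈ C, ∑ s ∈ S, ‖α.act s v' - v'‖ ^ 2 ≤ ∑ s ∈ S, ‖α.act s v - v‖ ^ 2 ∧
      ∀ t ∈ T, ‖α.act t v' - v'‖ ≤ ε := by
  have hm : (0 : ℝ) < S.card := by exact_mod_cast hS0.card_pos
  let Tm : H →L[ℝ] H := (S.card : ℝ)⁻¹ • ∑ s ∈ S, (α.π s).toContinuousLinearEquiv.toContinuousLinearMap
  have hTm : ∀ w, Tm w = (S.card : ℝ)⁻¹ • ∑ s ∈ S, α.π s w := fun w => by simp [Tm]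
  have hTn : ‖Tm‖ ≤ 1 := by
    refine ContinuousLinearMap.opNorm_le_bound _ zero_le_one fun w => ?_
    rw [hTm, norm_smul, Real.norm_of_nonneg (by positivity), one_mul, inv_mul_le_iff₀ hm]
    refine (norm_sum_le _ _).trans (le_of_eq ?_)
    simp
  let M : H → H := fun a => (S.card : ℝ)⁻¹ • ∑ s ∈ S, α.act s a
  have hMsub : ∀ a b, M a - M b = Tm (a - b) := fun a b => by
    simp only [M, hTm, ← smul_sub, ← Finset.sum_sub_distrib, α.act_sub]
  have hMC : ∀ k, M^[k] v ∈ C := fun k => by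
    induction k with
    | zero => exact hv
    | succ k ih =>
      rw [Function.iterate_succ_apply']
      exact C.smul_mem _ (C.sum_mem fun s _ => hC _ _ ih)
  have hMD : ∀ k, ∑ s ∈ S, ‖α.act s (M^[k] v) - M^[k] v‖ ^ 2 ≤ ∑ s ∈ S, ‖α.act s v - v‖ ^ 2 :=
    fun k => by
    induction k with
    | zero => exact le_rfl
    | succ k ih =>
      rw [Function.iterate_succ_apply']
      exact (avg_step α S hS0 hsymm _ _ rfl).trans ih
  have hMT : ∀ t ∈ T, ∀ k, α.act t (M^[k] v) - M^[k] v = Tm^[k] (α.act t v - v) := fun t ht k => by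
    induction k with
    | zero => rfl
    | succ k ih =>
      rw [Function.iterate_succ_apply', Function.iterate_succ_apply', ← ih, ← hMsub]
      congr 1
      simp only [M]
      rw [α.act_avg t S hS0]
      congr 1
      exact Finset.sum_congr rfl fun s hs => by rw [← α.act_mul, ← α.act_mul, hcomm s hs t ht]
  have hlim : ∀ t ∈ T, ∀ᶠ N in atTop, ‖birkhoffAverage ℝ Tm _root_.id N (α.act t v - v)‖ ≤ ε := by
    intro t ht
    have h1 := Tm.tendsto_birkhoffAverage_orthogonalProjection hTn (α.act t v - v)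
    have h2 : (Tm.eqLocus (1 : H →L[ℝ] H)).orthogonalProjectionOnto (α.act t v - v) = 0 := by
      rw [Submodule.orthogonalProjectionOnto_eq_zero_iff]
      intro w hw
      refine horth t ht w fun s hs => ?_
      have h3 : Tm w = w := hw
      have h4 : ∑ s ∈ S, α.π s w = (S.card : ℝ) • w := by
        conv_rhs => rw [← h3, hTm, smul_smul, mul_inv_cancel₀ hm.ne', one_smul]
      have h5 : ∑ s ∈ S, ‖α.π s w - w‖ ^ 2 = 0 := by
        simp only [norm_sub_sq_real, LinearIsometryEquiv.norm_map, Finset.sum_add_distrib,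
          Finset.sum_sub_distrib, ← Finset.mul_sum, ← sum_inner, h4, real_inner_smul_left,
          real_inner_self_eq_norm_sq, Finset.sum_const, nsmul_eq_mul]
        ring
      have h6 := (Finset.sum_eq_zero_iff_of_nonneg fun _ _ => sq_nonneg _).1 h5 s hs
      exact sub_eq_zero.1 (norm_eq_zero.1 (pow_eq_zero_iff two_ne_zero |>.1 h6))
    rw [h2] at h1
    have h7 := h1.norm
    simp only [ZeroMemClass.coe_zero, norm_zero] at h7
    exact h7.eventually (ge_mem_nhds hε)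
  obtain ⟨N, hN, hN1⟩ := (((eventually_all_finset T).2 hlim).and (eventually_gt_atTop 0)).exists
  have hR : (range N).Nonempty := ⟨0, mem_range.2 hN1⟩
  have hdiff : ∀ l, α.act l (((range N).card : ℝ)⁻¹ • ∑ k ∈ range N, M^[k] v) -
      ((range N).card : ℝ)⁻¹ • ∑ k ∈ range N, M^[k] v =
      ((range N).card : ℝ)⁻¹ • ∑ k ∈ range N, (α.act l (M^[k] v) - M^[k] v) := fun l => by
    rw [α.act_avg l _ hR, ← smul_sub, ← Finset.sum_sub_distrib]
  refine ⟨((range N).card : ℝ)⁻¹ • ∑ k ∈ range N, M^[k] v,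
    C.smul_mem _ (C.sum_mem fun k _ => hMC k), ?_, fun t ht => ?_⟩
  · simp only [hdiff]
    refine (Finset.sum_le_sum fun s _ => norm_avg_sq_le _ hR _).trans ?_
    have hN' : (0 : ℝ) < (range N).card := by exact_mod_cast hR.card_pos
    rw [← Finset.mul_sum, Finset.sum_comm, inv_mul_le_iff₀ hN']
    refine (Finset.sum_le_sum fun k _ => hMD k).trans (le_of_eq ?_)
    rw [Finset.sum_const, nsmul_eq_mul]
  · rw [hdiff, Finset.sum_congr rfl fun k _ => hMT t ht k, Finset.card_range]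
    exact hN t ht

lemma exists_symm_gen {P : Type*} [Group P] (h : Group.FG P) : ∃ S : Finset P, S.Nonempty ∧
    (∀ s ∈ S, s⁻¹ ∈ S) ∧ Subgroup.closure (S : Set P) = ⊤ := by
  classical
  obtain ⟨S, hS⟩ := Group.fg_def.1 h
  refine ⟨insert 1 (S ∪ S.image fun s => s⁻¹), Finset.insert_nonempty _ _, ?_, ?_⟩
  · intro s hs
    simp only [Finset.mem_insert, Finset.mem_union, Finset.mem_image] at hs ⊢
    rcases hs with rfl | hs | ⟨t, ht, rfl⟩
    · simp
    · exact Or.inr (Or.inr ⟨s, hs, rfl⟩)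
    · exact Or.inr (Or.inl (by simpa using ht))
  · rw [eq_top_iff, ← hS]
    refine Subgroup.closure_mono fun s hs => ?_
    simp only [Finset.coe_insert, Finset.coe_union, Set.mem_insert_iff, Set.mem_union]
    exact Or.inr (Or.inl hs)

lemma fixed_of_gen {P : Type*} [Group P] {S : Finset P} (hS : Subgroup.closure (S : Set P) = ⊤)
    (π : P →* (H ≃ₗᵢ[ℝ] H)) {w : H} (h : ∀ s ∈ S, π s w = w) (p : P) : π p w = w := by
  have hp : p ∈ Subgroup.closure (S : Set P) := hS ▸ Subgroup.mem_top p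
  induction hp using Subgroup.closure_induction with
  | mem s hs => exact h s hs
  | one => simp
  | mul a b _ _ ha hb => simp [ha, hb]
  | inv a _ ha =>
    conv_lhs => rw [← ha]
    simp

lemma rep_mul (π : Λ →* (H ≃ₗᵢ[ℝ] H)) (a b : Λ) (v : H) : π (a * b) v = π a (π b v) := by
  rw [map_mul]; rfl

/-- The vectors fixed by the image of a homomorphism. -/
def fixSub {P : Type*} [Group P] (π : P →* (H ≃ₗᵢ[ℝ] H)) : Submodule ℝ H where
  carrier := {w | ∀ p, π p w = w}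
  add_mem' ha hb p := by rw [map_add, ha p, hb p]
  zero_mem' p := map_zero _
  smul_mem' t a ha p := by rw [map_smul, ha p]

lemma inner_fix {P : Type*} [Group P] (π : P →* (H ≃ₗᵢ[ℝ] H)) {u : H} (hu : u ∈ fixSub π) (p : P)
    (w : H) : ⟪u, π p w - w⟫ = 0 := by
  rw [inner_sub_right]
  conv_lhs => rw [← hu p, LinearIsometryEquiv.inner_map_map, hu p]
  exact sub_self _

lemma orth_inv (π : Λ →* (H ≃ₗᵢ[ℝ] H)) {C : Submodule ℝ H} (hC : ∀ l, ∀ v ∈ C, π l v ∈ C) (l : Λ)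
    (v : H) (hv : v ∈ Cᗮ) : π l v ∈ Cᗮ := fun u hu => by
  have : u = π l (π l⁻¹ u) := by simp
  rw [this, LinearIsometryEquiv.inner_map_map]
  exact hv _ (hC _ _ hu)

lemma proj_comm (π : Λ →* (H ≃ₗᵢ[ℝ] H)) {C : Submodule ℝ H} [C.HasOrthogonalProjection]
    (hC : ∀ l, ∀ v ∈ C, π l v ∈ C) (l : Λ) (v : H) :
    C.starProjection (π l v) = π l (C.starProjection v) :=
  Submodule.eq_starProjection_of_mem_orthogonal (hC _ _ (C.starProjection_apply_mem v)) (by
    rw [← map_sub]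
    exact orth_inv π hC l _ (C.sub_starProjection_mem_orthogonal v))

variable {E X : Type*} [Group E] [MulAction E X] {P Q : Type*} [Group P] [Group Q]

theorem split [CompleteSpace H] (hP : Group.FG P) (hQ : Group.FG Q) {ρ : P × Q →* E}
    (n : Net E X) (W : Weight ρ X) (π : P × Q →* (H ≃ₗᵢ[ℝ] H)) {F : X → H}
    (hF : DiffEqv ρ π F) (hh : ∀ x, n.lap F x = 0) (p : P) (q : Q) (x : X) :
    π (p, 1) (F (ρ (1, q) • x) - F x) = F (ρ (1, q) • x) - F x := by
  classical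
  obtain ⟨SP, hP0, hPs, hPg⟩ := exists_symm_gen hP
  obtain ⟨SQ, hQ0, hQs, hQg⟩ := exists_symm_gen hQ
  let FP := fixSub (π.comp (MonoidHom.inl P Q))
  let FQ := fixSub (π.comp (MonoidHom.inr P Q))
  have hD : ∀ l, ∀ v ∈ FP ⊔ FQ, π l v ∈ FP ⊔ FQ := by
    intro l v hv
    obtain ⟨a, ha, b, hb, rfl⟩ := Submodule.mem_sup.1 hv
    rw [map_add]
    refine Submodule.add_mem_sup (fun p => ?_) (fun q => ?_)
    · have h1 : ((p, 1) : P × Q) * l = l * (l.1⁻¹ * p * l.1, 1) := by ext <;> simp [mul_assoc]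
      have h2 : π (l.1⁻¹ * p * l.1, 1) a = a := ha _
      change π (p, 1) (π l a) = π l a
      rw [← rep_mul, h1, rep_mul, h2]
    · have h1 : ((1, q) : P × Q) * l = l * (1, l.2⁻¹ * q * l.2) := by ext <;> simp [mul_assoc]
      have h2 : π (1, l.2⁻¹ * q * l.2) b = b := hb _
      change π (1, q) (π l b) = π l b
      rw [← rep_mul, h1, rep_mul, h2]
  let C := (FP ⊔ FQ)ᗮ
  have hC : ∀ l, ∀ v ∈ C, π l v ∈ C := orth_inv π hD
  let α : AffAct (P × Q) H :=
    { π := π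
      c := fun l => C.starProjection (F (ρ l • x) - F x)
      c_mul := fun l m => by
        rw [← proj_comm π hC, ← map_add, ← hF, map_mul, mul_smul, sub_add_sub_cancel] }
  have hαC : ∀ l, ∀ v ∈ C, α.act l v ∈ C := fun l v hv =>
    C.add_mem (hC l v hv) (C.starProjection_apply_mem _)
  have hG : Eqv ρ α fun y => C.starProjection (F y - F x) := fun l y => by
    simp only [AffAct.act, α]
    rw [← proj_comm π hC, ← map_add, ← hF, sub_add_sub_cancel]
  have hGh : ∀ y, n.lap (fun y => C.starProjection (F y - F x)) y = 0 := fun y => by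
    have := congrArg C.starProjection (hh y)
    rw [map_zero, Net.lap, map_sum] at this
    rw [Net.lap, ← this]
    exact Finset.sum_congr rfl fun z _ => by rw [← map_sub, sub_sub_sub_cancel_right]
  let S1 : Finset (P × Q) := SP.image fun s => (s, 1)
  let S2 : Finset (P × Q) := SQ.image fun s => (1, s)
  have hS : Subgroup.closure ((S1 ∪ S2 : Finset (P × Q)) : Set (P × Q)) = ⊤ := by
    rw [eq_top_iff]
    rintro ⟨a, b⟩ -
    have h1 : ((a, b) : P × Q) = (a, 1) * (1, b) := by simp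
    rw [h1]
    refine Subgroup.mul_mem _ ?_ ?_
    · have ha : a ∈ Subgroup.closure (SP : Set P) := hPg ▸ Subgroup.mem_top a
      have := Subgroup.mem_map_of_mem (MonoidHom.inl P Q) ha
      rw [MonoidHom.map_closure] at this
      refine Subgroup.closure_mono ?_ this
      rintro _ ⟨s, hs, rfl⟩
      exact Finset.mem_coe.2 (Finset.mem_union_left _ (Finset.mem_image_of_mem _ hs))
    · have hb : b ∈ Subgroup.closure (SQ : Set Q) := hQg ▸ Subgroup.mem_top b
      have := Subgroup.mem_map_of_mem (MonoidHom.inr P Q) hb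
      rw [MonoidHom.map_closure] at this
      refine Subgroup.closure_mono ?_ this
      rintro _ ⟨s, hs, rfl⟩
      exact Finset.mem_coe.2 (Finset.mem_union_right _ (Finset.mem_image_of_mem _ hs))
  have hcomm : ∀ s ∈ S1, ∀ t ∈ S2, s * t = t * s := by
    intro s hs t ht
    obtain ⟨a, -, rfl⟩ := Finset.mem_image.1 hs
    obtain ⟨b, -, rfl⟩ := Finset.mem_image.1 ht
    simp
  have haf : ∀ ε : ℝ, 0 < ε → ∃ v, α.disp (S1 ∪ S2) v ≤ ε := by
    intro ε hε
    set m : ℝ := S1.card + S2.card + 1 with hm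
    have hm1 : (S1.card : ℝ) ≤ m := by rw [hm]; linarith [Nat.cast_nonneg (α := ℝ) S2.card]
    have hm0 : 1 ≤ m := by
      rw [hm]
      linarith [Nat.cast_nonneg (α := ℝ) S2.card, Nat.cast_nonneg (α := ℝ) S1.card]
    have hε' : 0 < ε / m ^ 2 := by positivity
    obtain ⟨v, hv, -, h1⟩ := one_side α S2 S1 (hQ0.image _) (by
      intro s hs
      obtain ⟨b, hb, rfl⟩ := Finset.mem_image.1 hs
      exact Finset.mem_image.2 ⟨b⁻¹, hQs b hb, by simp⟩) (fun s hs t ht => (hcomm t ht s hs).symm)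
      C hαC 0 C.zero_mem (fun t _ w hw => C.sub_mem (hαC _ _ C.zero_mem) C.zero_mem w
        (Submodule.mem_sup_right (fixed_of_gen hQg _ fun s hs =>
          hw _ (Finset.mem_image_of_mem _ hs)))) hε'
    obtain ⟨v', -, h2, h3⟩ := one_side α S1 S2 (hP0.image _) (by
      intro s hs
      obtain ⟨b, hb, rfl⟩ := Finset.mem_image.1 hs
      exact Finset.mem_image.2 ⟨b⁻¹, hPs b hb, by simp⟩) hcomm
      C hαC v hv (fun t _ w hw => C.sub_mem (hαC _ _ hv) hv w
        (Submodule.mem_sup_left (fixed_of_gen hPg _ fun s hs =>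
          hw _ (Finset.mem_image_of_mem _ hs)))) hε'
    have h4 : ∀ s ∈ S1 ∪ S2, ‖α.act s v' - v'‖ ≤ ε / m := by
      intro s hs
      rcases Finset.mem_union.1 hs with hs | hs
      · have h5 : ‖α.act s v' - v'‖ ^ 2 ≤ S1.card * (ε / m ^ 2) ^ 2 := by
          refine ((Finset.single_le_sum (f := fun s => ‖α.act s v' - v'‖ ^ 2)
            (fun _ _ => sq_nonneg _) hs).trans h2).trans ?_
          rw [← nsmul_eq_mul, ← Finset.sum_const]
          exact Finset.sum_le_sum fun t ht => pow_le_pow_left₀ (norm_nonneg _) (h1 t ht) 2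
        refine (pow_le_pow_iff_left₀ (norm_nonneg _) (by positivity) two_ne_zero).1 (h5.trans ?_)
        calc (S1.card : ℝ) * (ε / m ^ 2) ^ 2 ≤ m ^ 2 * (ε / m ^ 2) ^ 2 := by
              gcongr; nlinarith
          _ = _ := by field_simp
      · refine (h3 s hs).trans ?_
        gcongr
        nlinarith
    refine ⟨v', (Finset.sum_le_card_nsmul _ _ _ h4).trans ?_⟩
    rw [nsmul_eq_mul, ← mul_div_assoc, div_le_iff₀ (by positivity), mul_comm]
    have : ((S1 ∪ S2).card : ℝ) ≤ m := by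
      have := Finset.card_union_le S1 S2
      have h6 : ((S1 ∪ S2).card : ℝ) ≤ S1.card + S2.card := by exact_mod_cast this
      linarith
    gcongr
  have hconst := const_of_almost_fixed n W α hS haf hG hGh x
  have horth : ∀ y, F y - F x ∈ Cᗮ := fun y => by
    have := hconst y
    simp only [sub_self, map_zero] at this
    exact (Submodule.starProjection_apply_eq_zero_iff _).1 this
  have h1 : π (p, 1) (F (ρ (1, q) • x) - F x) - (F (ρ (1, q) • x) - F x) =
      π (1, q) (F (ρ (p, 1) • x) - F x) - (F (ρ (p, 1) • x) - F x) := by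
    rw [← hF, ← hF, ← mul_smul, ← mul_smul, ← map_mul, ← map_mul]
    simp only [Prod.mk_mul_mk, mul_one, one_mul]
    abel
  have h2 : π (p, 1) (F (ρ (1, q) • x) - F x) - (F (ρ (1, q) • x) - F x) ∈ Cᗮ :=
    Cᗮ.sub_mem (orth_inv π hC _ _ (horth _)) (horth _)
  have h3 : π (p, 1) (F (ρ (1, q) • x) - F x) - (F (ρ (1, q) • x) - F x) ∈ C := by
    intro u hu
    obtain ⟨a, ha, b, hb, rfl⟩ := Submodule.mem_sup.1 hu
    rw [inner_add_left]
    have h6 : ⟪a, π (p, 1) (F (ρ (1, q) • x) - F x) - (F (ρ (1, q) • x) - F x)⟫ = 0 :=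
      inner_fix _ ha p (F (ρ (1, q) • x) - F x)
    have h7 : ⟪b, π (1, q) (F (ρ (p, 1) • x) - F x) - (F (ρ (p, 1) • x) - F x)⟫ = 0 :=
      inner_fix _ hb q (F (ρ (p, 1) • x) - F x)
    rw [← h1] at h7
    rw [h6, h7, add_zero]
  exact sub_eq_zero.1 (inner_self_eq_zero.1 (h2 _ h3))

end Pool.Agent.Lib.MP_a6ff19_al
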