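import Pool.Agent.Lib.MP_a6ff19_al.Env

set_option autoImplicit false
set_option linter.unusedSectionVars false

/-!
Complete groups of automorphisms, closures of subgroups, tidy subgroups for one element, and the
boundedness of an increasing union of bounded groups.
-/

namespace Pool.Agent.Lib.MP_a6ff19_al

open Filter
open scoped Pointwise

variable {E X : Type*} [Group E] [MulAction E X]

/-- Bounded sequences have pointwise limits along ultrafilters. -/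
def Cpl (E : Type*) {X : Type*} [Group E] [MulAction E X] (x₀ : X) : Prop :=
  ∀ (𝒰 : Ultrafilter ℕ) (g : ℕ → E), Bdd x₀ (Set.range g) →
    ∃ h : E, ∀ x : X, ∀ᶠ i in (𝒰 : Filter ℕ), g i • x = h • x

/-- The closure of a subgroup for pointwise convergence. -/
def cl (X : Type*) [MulAction E X] (H : Subgroup E) : Subgroup E where
  carrier := {g | ∀ F : Finset X, ∃ h ∈ H, ∀ x ∈ F, g • x = h • x}
  one_mem' F := ⟨1, H.one_mem, fun _ _ => rfl⟩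
  mul_mem' {g g'} hg hg' F := by
    classical
    obtain ⟨h', h1, h2⟩ := hg' F
    obtain ⟨h, h3, h4⟩ := hg (F.image fun x => g' • x)
    exact ⟨h * h', H.mul_mem h3 h1, fun x hx => by
      rw [mul_smul, mul_smul, ← h2 x hx, h4 _ (Finset.mem_image_of_mem _ hx)]⟩
  inv_mem' {g} hg F := by
    classical
    obtain ⟨h, h1, h2⟩ := hg (F.image fun x => g⁻¹ • x)
    refine ⟨h⁻¹, H.inv_mem h1, fun x hx => ?_⟩
    rw [eq_inv_smul_iff, ← h2 _ (Finset.mem_image_of_mem _ hx), smul_inv_smul]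

lemma le_cl (H : Subgroup E) : H ≤ cl X H := fun g hg _ => ⟨g, hg, fun _ _ => rfl⟩

lemma cl_cl {H : Subgroup E} {g : E}
    (h : ∀ F : Finset X, ∃ k ∈ cl X H, ∀ x ∈ F, g • x = k • x) : g ∈ cl X H := fun F => by
  obtain ⟨k, h1, h2⟩ := h F
  obtain ⟨k', h3, h4⟩ := h1 F
  exact ⟨k', h3, fun x hx => (h2 x hx).trans (h4 x hx)⟩

/-- The pointwise stabiliser of the points `β ^ j • x₀`, `j ∈ S`. -/
def Wf (β : E) (x₀ : X) (S : Set ℤ) : Subgroup E where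
  carrier := {g | ∀ j ∈ S, g • β ^ j • x₀ = β ^ j • x₀}
  one_mem' _ _ := one_smul _ _
  mul_mem' {g g'} hg hg' j hj := by rw [mul_smul, hg' j hj, hg j hj]
  inv_mem' {g} hg j hj := by rw [inv_smul_eq_iff, hg j hj]

variable {β : E} {x₀ : X}

lemma Wf.mono {S T : Set ℤ} (h : S ⊆ T) : Wf β x₀ T ≤ Wf β x₀ S := fun _ hg j hj => hg j (h hj)

lemma Wf.shift {S T : Set ℤ} {g : E} (k : ℤ) (hg : g ∈ Wf β x₀ S) (h : ∀ j ∈ T, j - k ∈ S) :
    β ^ k * g * β ^ (-k) ∈ Wf β x₀ T := fun j hj => by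
  have h1 := hg _ (h j hj)
  rw [mul_smul, mul_smul, ← mul_smul (β ^ (-k)), ← zpow_add, neg_add_eq_sub, h1, ← mul_smul,
    ← zpow_add, add_sub_cancel]

lemma Wf.bdd (n : Net E X) {S : Set ℤ} {j : ℤ} (hj : j ∈ S) :
    Bdd x₀ (Wf β x₀ S : Set E) :=
  ((Bdd.stab (β ^ j • x₀)).mono (B' := (Wf β x₀ S : Set E)) fun _ hg => hg j hj).orbit n x₀

lemma Wf.opn (a b : ℤ) : Opn X (Wf β x₀ (Set.Icc a b)) := by
  classical
  exact ⟨(Finset.Icc a b).image fun j => β ^ j • x₀, fun g hg j hj =>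
    hg _ (Finset.mem_image_of_mem _ (by simpa using hj))⟩

/-- Compactness: a decreasing sequence of stabilisers is approximated by its intersection. -/
lemma approx (n : Net E X) (hc : Cpl E x₀) (S : ℕ → Set ℤ) (hS : Monotone S) {j₀ : ℤ}
    (h₀ : j₀ ∈ S 0) (F : Finset X) :
    ∃ M, ∀ g ∈ Wf β x₀ (S M), ∃ h ∈ Wf β x₀ (⋃ k, S k), ∀ x ∈ F, g • x = h • x := by
  by_contra hno
  push Not at hno
  choose g hg1 hg2 using hno
  obtain ⟨h, hh⟩ := hc (hyperfilter ℕ) g ((Wf.bdd n h₀).mono (by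
    rintro _ ⟨i, rfl⟩
    exact Wf.mono (hS (Nat.zero_le i)) (hg1 i)))
  have h1 : h ∈ Wf β x₀ (⋃ k, S k) := by
    intro j hj
    obtain ⟨k, hk⟩ := Set.mem_iUnion.1 hj
    obtain ⟨i, h2, h3⟩ := ((hh (β ^ j • x₀)).and
      (Nat.hyperfilter_le_atTop (eventually_ge_atTop k))).exists
    rw [← h2, hg1 i j (hS h3 hk)]
  obtain ⟨i, hi⟩ := ((eventually_all_finset F).2 fun x _ => hh x).exists
  obtain ⟨x, hx, h2⟩ := hg2 i h h1
  exact h2 (hi x hx)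

lemma approx_neg (n : Net E X) (hc : Cpl E x₀) (N : ℕ) (F : Finset X) :
    ∃ M : ℕ, ∀ g ∈ Wf β x₀ (Set.Icc (-(M : ℤ)) N), ∃ h ∈ Wf β x₀ (Set.Iic N),
      ∀ x ∈ F, g • x = h • x := by
  obtain ⟨M, hM⟩ := approx (β := β) n hc (fun k => Set.Icc (-(k : ℤ)) N)
    (fun a b hab => Set.Icc_subset_Icc (by omega) le_rfl) (j₀ := 0) (by simp) F
  refine ⟨M, fun g hg => ?_⟩
  obtain ⟨h, h1, h2⟩ := hM g hg
  refine ⟨h, Wf.mono (fun j hj => Set.mem_iUnion.2 ⟨j.natAbs, Set.mem_Icc.2 ⟨?_, hj⟩⟩) h1, h2⟩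
  omega

/-- A subgroup that is tidy above. -/
lemma tidy (n : Net E X) (hc : Cpl E x₀) (β : E) : ∃ N : ℕ, ∀ u ∈ Wf β x₀ (Set.Icc 0 N),
    ∃ p ∈ Wf β x₀ (Set.Ici 0), p⁻¹ * u ∈ Wf β x₀ (Set.Iic N) := by
  obtain ⟨N, hN⟩ := approx (β := β) n hc (fun k => Set.Icc 0 (k : ℤ))
    (fun a b hab => Set.Icc_subset_Icc le_rfl (by omega)) (j₀ := 0) (by simp)
    {β ^ (-1 : ℤ) • x₀}
  refine ⟨N, fun u hu => ?_⟩
  have h1 : ∀ k : ℕ, ∃ p ∈ Wf β x₀ (Set.Ici 0), p⁻¹ * u ∈ Wf β x₀ (Set.Icc (-(k : ℤ)) N) := by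
    intro k
    induction k with
    | zero => exact ⟨1, Subgroup.one_mem _, by simpa using hu⟩
    | succ k ih =>
      obtain ⟨p, hp, h2⟩ := ih
      obtain ⟨q, h3, h4⟩ := hN _ (Wf.shift (T := Set.Icc 0 (N : ℤ)) k h2 fun j hj => by
        simp only [Set.mem_Icc] at hj ⊢; omega)
      have h5 : β ^ (-(k : ℤ)) * q * β ^ (- -(k : ℤ)) ∈ Wf β x₀ (Set.Ici (-(k : ℤ))) :=
        Wf.shift _ h3 fun j hj => Set.mem_iUnion.2 ⟨(j + k).toNat, by
          simp only [Set.mem_Icc, Set.mem_Ici] at hj ⊢; omega⟩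
      refine ⟨p * (β ^ (-(k : ℤ)) * q * β ^ (- -(k : ℤ))), Subgroup.mul_mem _ hp
        (Wf.mono (fun j hj => by simp only [Set.mem_Ici] at hj ⊢; omega) h5), fun j hj => ?_⟩
      rw [mul_inv_rev, mul_assoc, mul_smul, inv_smul_eq_iff]
      by_cases h6 : -(k : ℤ) ≤ j
      · rw [h2 j ⟨h6, hj.2⟩, h5 j h6]
      · obtain rfl : j = -(k : ℤ) + -1 := by
          have := hj.1
          push_cast at this
          omega
        have h7 := h4 _ (Finset.mem_singleton_self _)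
        rw [mul_smul, mul_smul, ← mul_smul (β ^ (-(k : ℤ))), ← zpow_add, ← eq_inv_smul_iff] at h7
        rw [h7, mul_smul, mul_smul, ← mul_smul (β ^ (- -(k : ℤ))), ← zpow_add, zpow_neg]
        simp
  choose p hp1 hp2 using h1
  obtain ⟨h, hh⟩ := hc (hyperfilter ℕ) p ((Wf.bdd (β := β) n (S := Set.Ici 0) (j := 0)
    (by simp)).mono (by
    rintro _ ⟨i, rfl⟩
    exact hp1 i))
  refine ⟨h, fun j hj => ?_, fun j hj => ?_⟩
  · obtain ⟨i, hi⟩ := (hh (β ^ j • x₀)).exists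
    rw [← hi, hp1 i j hj]
  · obtain ⟨i, h2, h3⟩ := ((hh (β ^ j • x₀)).and
      (Nat.hyperfilter_le_atTop (eventually_ge_atTop j.natAbs))).exists
    have h4 := hp2 i j ⟨by omega, hj⟩
    rw [mul_smul, inv_smul_eq_iff] at h4 ⊢
    rw [h4, h2]

/-- The elements with bounded forward orbit under conjugation by `β`. -/
def par (n : Net E X) (β : E) (x₀ : X) : Subgroup E where
  carrier := {g | Bdd x₀ (Set.range fun k : ℕ => β ^ (k : ℤ) * g * β ^ (-(k : ℤ)))}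
  one_mem' := (Bdd.of_finite x₀ (Set.finite_singleton 1)).mono (by
    rintro _ ⟨k, rfl⟩; simp)
  mul_mem' {g g'} hg hg' := (Bdd.mul n hg hg').mono (by
    rintro _ ⟨k, rfl⟩
    exact ⟨_, ⟨k, rfl⟩, _, ⟨k, rfl⟩, by group⟩)
  inv_mem' {g} hg := (Bdd.inv n hg).mono (by
    rintro _ ⟨k, rfl⟩
    exact Set.mem_inv.2 ⟨k, by group⟩)

lemma par.of_commute (n : Net E X) {g : E} (h : Commute β g) : g ∈ par n β x₀ :=
  (Bdd.of_finite x₀ (Set.finite_singleton g)).mono (by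
    rintro _ ⟨k, rfl⟩
    simp [(h.pow_left k).eq])

lemma par.of_Iic (n : Net E X) {N : ℕ} {g : E} (h : g ∈ Wf β x₀ (Set.Iic N)) :
    g ∈ par n β x₀ :=
  (Bdd.stab x₀).mono (by
    rintro _ ⟨k, rfl⟩
    simpa using Wf.shift (T := {0}) (k : ℤ) h (fun j hj => by
      simp only [Set.mem_singleton_iff, Set.mem_Iic] at hj ⊢; omega) 0 rfl)

/-- If elements with bounded forward orbits realise all the moves of the first step, then the whole
expanding group has bounded forward orbits. -/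
lemma bdd_plus (n : Net E X)
    (h : ∀ u ∈ Wf β x₀ (Set.Ici 0), ∃ p ∈ Wf β x₀ (Set.Ici 0), p ∈ par n β x₀ ∧
      p • β ^ (-1 : ℤ) • x₀ = u • β ^ (-1 : ℤ) • x₀) :
    Wf β x₀ (Set.Ici 0) ≤ par n β x₀ := by
  classical
  have hb : Bdd (β ^ (-1 : ℤ) • x₀) (Wf β x₀ (Set.Ici 0) : Set E) :=
    (Wf.bdd n (j := 0) (by simp)).orbit n _
  obtain ⟨T, hT, hT', h1⟩ := hb.cover n (Opn.stab (β ^ (-1 : ℤ) • x₀))
  choose! p hp1 hp2 hp3 using h
  have hR : Bdd x₀ (⋃ t ∈ T, Set.range fun k : ℕ => β ^ (k : ℤ) * p t * β ^ (-(k : ℤ))) :=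
    Bdd.biUnion hT fun t ht => hp2 t (hT' ht)
  let R := (fun g : E => g • x₀) ''
    (⋃ t ∈ T, Set.range fun k : ℕ => β ^ (k : ℤ) * p t * β ^ (-(k : ℤ)))⁻¹
  have hR' : R.Finite := hR.inv n
  -- every point of `R` reached by the union is reached at a bounded stage
  have h2 : ∀ z : X, ∃ m : ℕ, ∀ k : ℕ, ∀ g ∈ Wf β x₀ (Set.Ici (k : ℤ)), g • x₀ = z →
      ∃ g' ∈ Wf β x₀ (Set.Ici (m : ℤ)), g' • x₀ = z := fun z => by
    by_cases hz : ∃ k : ℕ, ∃ g ∈ Wf β x₀ (Set.Ici (k : ℤ)), g • x₀ = z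
    · obtain ⟨k, g, h3, h4⟩ := hz
      exact ⟨k, fun _ _ _ _ => ⟨g, h3, h4⟩⟩
    · exact ⟨0, fun k g h3 h4 => absurd ⟨k, g, h3, h4⟩ hz⟩
  choose m hm using h2
  obtain ⟨M, hM⟩ := (hR'.image m).bddAbove
  have h3 : ∀ k : ℕ, ∀ g ∈ Wf β x₀ (Set.Ici (k : ℤ)),
      ∃ g' ∈ Wf β x₀ (Set.Ici (M : ℤ)), g' • x₀ = g • x₀ := by
    intro k
    induction k with
    | zero => exact fun g hg => ⟨1, Subgroup.one_mem _, by simpa using (hg 0 (by simp)).symm⟩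
    | succ k ih =>
      intro g hg
      by_cases hk : k + 1 ≤ M
      · exact ⟨g, Wf.mono (fun j hj => by simp only [Set.mem_Ici] at hj ⊢; omega) hg, rfl⟩
      let c : ℤ := ((k + 1 : ℕ) : ℤ)
      have h4 : β ^ (-c) * g⁻¹ * β ^ (- -c) ∈ Wf β x₀ (Set.Ici 0) :=
        Wf.shift _ (Subgroup.inv_mem _ hg) fun j hj => by
          simp only [Set.mem_Ici, c] at hj ⊢; omega
      obtain ⟨t, ht, h5⟩ := h1 _ h4
      have h6 : (p t)⁻¹ * (β ^ (-c) * g⁻¹ * β ^ (- -c)) ∈ Wf β x₀ (Set.Ici (-1)) := by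
        intro j hj
        by_cases h7 : 0 ≤ j
        · exact Subgroup.mul_mem _ (Subgroup.inv_mem _ (hp1 t (hT' ht))) h4 j h7
        · obtain rfl : j = -1 := by simp only [Set.mem_Ici] at hj; omega
          rw [mul_smul, inv_smul_eq_iff, hp3 t (hT' ht), ← inv_smul_eq_iff, ← mul_smul]
          exact h5
      have h7 := Subgroup.inv_mem _ (Wf.shift (T := Set.Ici (k : ℤ)) c h6 fun j hj => by
        simp only [Set.mem_Ici, c] at hj ⊢; omega)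
      set w := (β ^ c * ((p t)⁻¹ * (β ^ (-c) * g⁻¹ * β ^ (- -c))) * β ^ (-c))⁻¹ with hw
      have h8 : g = w * (β ^ c * p t * β ^ (-c))⁻¹ := by rw [hw]; group
      have h9 : (β ^ c * p t * β ^ (-c))⁻¹ ∈ Wf β x₀ (Set.Ici c) :=
        Subgroup.inv_mem _ (Wf.shift c (hp1 t (hT' ht)) fun j hj => by
          simp only [Set.mem_Ici] at hj ⊢; omega)
      have h10 : (β ^ c * p t * β ^ (-c))⁻¹ • x₀ ∈ R :=
        ⟨_, Set.inv_mem_inv.2 (Set.mem_biUnion ht ⟨k + 1, rfl⟩), rfl⟩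
      obtain ⟨g₁, h11, h12⟩ := hm _ (k + 1) _ h9 rfl
      have h13 : g₁ ∈ Wf β x₀ (Set.Ici (k : ℤ)) := Wf.mono (fun j hj => by
        have := hM ⟨_, h10, rfl⟩
        simp only [Set.mem_Ici] at hj ⊢; omega) h11
      obtain ⟨g', h14, h15⟩ := ih _ (Subgroup.mul_mem _ h7 h13)
      exact ⟨g', h14, by rw [h15, mul_smul, h12, ← mul_smul, ← h8]⟩
  intro u hu
  refine (Wf.bdd (β := β) (x₀ := x₀) n (S := Set.Ici (M : ℤ)) (j := M) (by simp)).subset ?_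
  rintro _ ⟨_, ⟨k, rfl⟩, rfl⟩
  obtain ⟨g', h4, h5⟩ := h3 k _ (Wf.shift (T := Set.Ici (k : ℤ)) k hu fun j hj => by
    simp only [Set.mem_Ici] at hj ⊢; omega)
  exact ⟨g', h4, h5⟩

end Pool.Agent.Lib.MP_a6ff19_al
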