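import Pool.Agent.Lib.MP_a6ff19_al.Env

set_option autoImplicit false
set_option linter.unusedSectionVars false

/-!
Transfer homomorphisms on open subgroups, and the second envelope.
-/

namespace Pool.Agent.Lib.MP_a6ff19_al

open scoped Pointwise
open MulAction

universe u v

variable {G : Type u} {X : Type*} [Group G] [MulAction G X] {P Q : Type*} [Group P] [Group Q]

lemma GoodG.mono {x₀ : X} {ρ : P × Q →* G} {O O' : Subgroup G} {ψ : Q → ℝ} {f : G → ℝ}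
    (h : GoodG x₀ ρ O ψ f) (h' : O' ≤ O) : GoodG x₀ ρ O' ψ f :=
  ⟨fun g hg u hu => h.stab g (h' hg) u (h' hu), fun l g hg => h.left l g (h' hg),
    fun q g hg => h.right q g (h' hg)⟩

lemma GoodG.hom {x₀ : X} {ρ : P × Q →* G} {O : Subgroup G} {ψ : Q → ℝ} {f : G → ℝ}
    (h : GoodG x₀ ρ O ψ f) (hρ : ∀ l, ρ l ∈ O) (a b : Q) : ψ (a * b) = ψ a + ψ b := by
  have h1 := h.left (1, a * b) 1 O.one_mem
  have h2 := h.left (1, a) _ (O.mul_mem (hρ (1, b)) O.one_mem)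
  have h3 := h.left (1, b) 1 O.one_mem
  rw [← mul_assoc, ← map_mul, Prod.mk_mul_mk, mul_one (1 : P), h1, h3] at h2
  simp only at h2
  linarith

theorem transfer (n : Net G X) (x₀ : X) {ρ : P × Q →* G}
    (hp : ∀ x y : X, {l | ρ l • x = y}.Finite) {O : Subgroup G} (hρ : ∀ l, ρ l ∈ O)
    (hc : Coc x₀ ρ O) {ψ : Q → ℝ} {f : G → ℝ} (h : GoodG x₀ ρ O ψ f) :
    ∃ θ : G → ℝ, (∀ a ∈ O, ∀ b ∈ O, θ (a * b) = θ a + θ b) ∧
      (∀ u ∈ O, u • x₀ = x₀ → θ u = 0) ∧ (∀ q, θ (ρ (1, q)) = ψ q) ∧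
      ∀ k ∈ O, ∀ M, (∀ g ∈ O, |f (g * k) - f g| ≤ M) → |θ k| ≤ M := by
  classical
  obtain ⟨I, hI1, hI2, -, hI3⟩ := exists_mean (ρ := ρ.codRestrict O hρ) (n.restrict O) x₀ hp (by
    obtain ⟨C, hC, h1⟩ := hc
    exact ⟨O.subtype ⁻¹' C, hC.subset (by rintro _ ⟨g, hg, rfl⟩; exact ⟨g, hg, rfl⟩),
      fun g => h1 g g.2⟩)
  let φ : G → O → ℝ := fun k g => f (g * k) - f g
  have hφ : ∀ k ∈ O, Adm (ρ.codRestrict O hρ) X (φ k) := fun k hk => by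
    refine ⟨fun l g => ?_, {x₀, k • x₀}, fun g v hv => ?_⟩
    · change f (ρ l * g * k) - f (ρ l * g) = f (g * k) - f g
      rw [mul_assoc, h.left l _ (O.mul_mem g.2 hk), h.left l _ g.2]
      ring
    · change f (g * v * k) - f (g * v) = f (g * k) - f g
      have h1 : (v : G) • x₀ = x₀ := hv x₀ (by simp)
      have h2 : (v : G) • k • x₀ = k • x₀ := hv (k • x₀) (by simp)
      have h3 : (g * v * k : G) = g * k * (k⁻¹ * v * k) := by group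
      rw [h.stab _ g.2 _ v.2 h1, h3, h.stab _ (O.mul_mem g.2 hk) _
        (O.mul_mem (O.mul_mem (O.inv_mem hk) v.2) hk) (by rw [mul_smul, mul_smul, h2, inv_smul_smul])]
  refine ⟨fun k => I (φ k), fun a ha b hb => ?_, fun u hu hu' => ?_, fun q => ?_,
    fun k hk M hM => ?_⟩
  · simp only
    rw [← hI3 (φ b) ⟨a, ha⟩ (hφ b hb), ← map_add]
    congr 1
    funext g
    simp only [φ, Pi.add_apply, Subgroup.coe_mul, mul_assoc]
    ring
  · simp only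
    rw [← hI1 0]
    congr 1
    funext g
    simp only [φ]
    rw [h.stab _ g.2 _ hu hu', sub_self]
  · simp only
    rw [← hI1 (ψ q)]
    congr 1
    funext g
    simp only [φ]
    rw [h.right _ _ g.2, add_sub_cancel_left]
  · have h1 := hI2 _ ((Adm.const M).add (hφ k hk)) fun g => by
      have := (abs_le.1 (hM g g.2)).1
      simp only [Pi.add_apply, φ]
      linarith
    have h2 := hI2 _ ((Adm.const M).add ((hφ k hk).smul (-1))) fun g => by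
      have := (abs_le.1 (hM g g.2)).2
      simp only [Pi.add_apply, φ, Pi.smul_apply, smul_eq_mul]
      linarith
    rw [map_add, hI1] at h1
    rw [map_add, hI1, map_smul, smul_eq_mul] at h2
    exact abs_le.2 ⟨by linarith, by linarith⟩

/-- The kernel of a function additive on a subgroup. -/
def kerOn (O : Subgroup G) (θ : G → ℝ) (h : ∀ a ∈ O, ∀ b ∈ O, θ (a * b) = θ a + θ b) :
    Subgroup G where
  carrier := {g | g ∈ O ∧ θ g = 0}
  one_mem' := ⟨O.one_mem, by simpa using h 1 O.one_mem 1 O.one_mem⟩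
  mul_mem' ha hb := ⟨O.mul_mem ha.1 hb.1, by rw [h _ ha.1 _ hb.1, ha.2, hb.2, add_zero]⟩
  inv_mem' {a} ha := ⟨O.inv_mem ha.1, by
    have h1 := h _ (O.inv_mem ha.1) _ ha.1
    have h2 : θ 1 = 0 := by simpa using h 1 O.one_mem 1 O.one_mem
    rw [inv_mul_cancel, h2, ha.2, add_zero] at h1
    exact h1.symm⟩

lemma proper_comp {Λ Λ' : Type*} [Group Λ] [Group Λ'] {ρ : Λ →* G}
    (hp : ∀ x y : X, {l | ρ l • x = y}.Finite) (σ : Λ' →* Λ) (hσ : Function.Injective σ) (x y : X) :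
    {l | ρ.comp σ l • x = y}.Finite :=
  (hp x y).preimage hσ.injOn

/-- The inclusion of the second lattice. -/
def swapSub (B : Subgroup P) : Q × B →* P × Q where
  toFun l := (l.2, l.1)
  map_one' := rfl
  map_mul' _ _ := rfl

lemma swapSub_injective (B : Subgroup P) : Function.Injective (swapSub (Q := Q) B) :=
  fun _ _ h => Prod.ext (congrArg Prod.snd h) (Subtype.ext (congrArg Prod.fst h))

lemma Coc.swapSub (n : Net G X) {x₀ : X} {ρ : P × Q →* G} {E : Subgroup G} (hc : Coc x₀ ρ E)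
    (hE : Opn X E) (h : ∀ q, ρ (1, q) ∈ E) :
    Coc x₀ (ρ.comp (swapSub (E.comap (ρ.comp (MonoidHom.inl P Q))))) E := by
  obtain ⟨C, hC, h1⟩ := hc.sub n hE
  refine ⟨C, hC, fun g hg => ?_⟩
  obtain ⟨l, hl, h2⟩ := h1 g hg
  refine ⟨(l.2, ⟨l.1, ?_⟩), h2⟩
  have h3 : ρ (l.1, 1) = ρ l * (ρ (1, l.2))⁻¹ := by
    rw [← map_inv, ← map_mul]
    congr 1
    ext <;> simp
  change ρ (l.1, 1) ∈ E
  rw [h3]
  exact E.mul_mem hl (E.inv_mem (h _))

lemma swapSub_mem {ρ : P × Q →* G} {E : Subgroup G} (h : ∀ q, ρ (1, q) ∈ E)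
    (l : Q × E.comap (ρ.comp (MonoidHom.inl P Q))) : ρ.comp (swapSub _) l ∈ E := by
  have h1 : ρ.comp (swapSub _) l = ρ (l.2, 1) * ρ (1, l.1) := by
    rw [← map_mul]
    simp [swapSub]
  rw [h1]
  exact E.mul_mem l.2.2 (h _)

theorem no_NF (n : Net G X) (x₀ : X) {ρ : P × Q →* G} (hp : ∀ x y : X, {l | ρ l • x = y}.Finite)
    {S : Finset P} {E₁ : Subgroup G} (h₁ : IsEnv x₀ (ρ.comp (MonoidHom.inl P Q)) S E₁)
    (hρ : ∀ l, ρ l ∈ E₁) (hc : Coc x₀ ρ E₁) {S' : Finset Q} {E₂ : Subgroup G}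
    (h₂ : IsEnv x₀ (ρ.comp (MonoidHom.inr P Q)) S' E₂) (hle : E₂ ≤ E₁)
    {K : Type v} [NormedAddCommGroup K] [InnerProductSpace ℝ K] [CompleteSpace K]
    (α : AffAct (E₂.comap (ρ.comp (MonoidHom.inl P Q))) K) (hα : NF α) : False := by
  let B := E₂.comap (ρ.comp (MonoidHom.inl P Q))
  let ρ₂ : Q × B →* G := ρ.comp (swapSub B)
  have hp₂ := proper_comp hp _ (swapSub_injective (Q := Q) B)
  have hc₂ : Coc x₀ ρ₂ E₂ := (hc.mono hle).swapSub n h₂.opn h₂.mem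
  obtain ⟨-, O₁, hO₁, hO₁', hO₁'', hχ, -⟩ := good_G.{u, v} n x₀ hp h₁ hρ hc
  obtain ⟨-, O₂, hO₂, hO₂', hO₂'', -, hψ⟩ := good_G.{u, v} (ρ := ρ₂) n x₀ hp₂ h₂
    (swapSub_mem h₂.mem) hc₂
  obtain ⟨ψ, f, ⟨b, hb⟩, hf⟩ := hψ K α hα
  have hO : Opn X (O₁ ⊓ O₂) := hO₁'.inf hO₂'
  have hρO : ∀ l, ρ₂ l ∈ O₁ ⊓ O₂ := fun l => ⟨hO₁'' _, hO₂'' l⟩
  have hcO : Coc x₀ ρ₂ (O₁ ⊓ O₂) := hc₂.mono (inf_le_right.trans hO₂)
  replace hf := hf.mono (inf_le_right : O₁ ⊓ O₂ ≤ O₂)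
  obtain ⟨θ, h1, h2, h3, h4⟩ := transfer n x₀ hp₂ hρO hcO hf
  have hQO : ∀ q, ρ (1, q) ∈ O₁ ⊓ O₂ := fun q => hρO (q, 1)
  have h5 : ∀ a b, θ (ρ (1, a * b)) = θ (ρ (1, a)) + θ (ρ (1, b)) := fun a b => by
    rw [← h1 _ (hQO a) _ (hQO b), ← map_mul]
    simp
  obtain ⟨f', hf'⟩ := hχ (fun a => θ (ρ (1, a))) h5
  replace hf' := hf'.mono (inf_le_left : O₁ ⊓ O₂ ≤ O₁)
  obtain ⟨M, hM⟩ := hcO.bound n hρO (hO.inf (Opn.stab x₀)) (fun g => θ g - f g - f' g)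
    (fun l g hg => by
      have h6 : ρ₂ l = ρ (1, l.1) * ρ₂ (1, l.2) := by
        simp only [ρ₂, MonoidHom.comp_apply, ← map_mul]
        simp [swapSub]
      have h7 := hf'.left (l.2, l.1) g hg
      have h8 : ρ (l.2, l.1) = ρ₂ l := rfl
      rw [h8] at h7
      rw [h1 _ (hρO l) _ hg, hf.left l g hg, h7, h6, h1 _ (hQO _) _ (hρO _), h3]
      ring)
    (fun g hg w hw => by
      rw [h1 _ hg _ hw.1, h2 _ hw.1 hw.2, hf.stab _ hg _ hw.1 hw.2, hf'.stab _ hg _ hw.1 hw.2,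
        add_zero])
  have h9 : ∀ a, θ (ρ (1, a)) = 0 := hom_eq_zero_of_bdd (χ := fun a => θ (ρ (1, a))) h5 (A := ⊤) (by simp) (M := 2 * M)
    fun a _ => h4 _ (hQO a) _ fun g hg => by
      have h10 := abs_le.1 (hM _ hg)
      have h11 := abs_le.1 (hM _ (Subgroup.mul_mem _ hg (hQO a)))
      rw [h1 _ hg _ (hQO a), hf'.right a g hg] at h11
      exact abs_le.2 ⟨by linarith [h10.1, h11.2], by linarith [h10.2, h11.1]⟩
  obtain ⟨k, hk, h12⟩ := h₂.trans (O := kerOn _ θ h1) ((hO.inf (Opn.stab x₀)).mono fun g hg =>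
    ⟨hg.1, h2 g hg.1 hg.2⟩) (fun q => ⟨hQO q, h9 q⟩) _ (swapSub_mem h₂.mem (1, b))
  have h13 := h2 (k⁻¹ * ρ₂ (1, b)) (Subgroup.mul_mem _ (Subgroup.inv_mem _ hk.1.1) (hρO _))
    (by rw [mul_smul, inv_smul_eq_iff]; exact h12.symm)
  rw [h1 _ (Subgroup.inv_mem _ hk.1.1) _ (hρO _), ((kerOn _ θ h1).inv_mem hk.1).2, h3,
    zero_add] at h13
  exact hb h13

end Pool.Agent.Lib.MP_a6ff19_al
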